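import Pool.Agent.LibMoser5.Defs
set_option autoImplicit false
namespace Pool.Agent.LibMoser5
open Classical

theorem spaced_aux (δ β : ℝ) (l : List ℝ) (x : ℝ)
    (hl : (x :: l).Pairwise (fun x y => x + δ ≤ y)) (hb : ∀ y ∈ x :: l, y ≤ β) :
    x + l.length * δ ≤ β := by
  induction l generalizing x with
  | nil => simpa using hb x (by simp)
  | cons y l ih =>
    rw [List.pairwise_cons] at hl
    have h1 := hl.1 y (by simp)
    have h2 := ih y hl.2 (fun z hz => hb z (List.mem_cons_of_mem _ hz))
    rw [List.length_cons]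
    push_cast
    linarith

/-- a list of reals with gaps `≥ δ` has at most `(β-α)/δ + 1` elements in `(α,β]`
(induction, or: the filtered list `x₁,…,x_m` has `x_m - x_1 ≥ (m-1)δ` and `x_m - x_1 < β - α`). -/
theorem count_spaced (l : List ℝ) (δ α β : ℝ) (hδ : 0 < δ) (hαβ : α ≤ β)
    (hl : l.Pairwise (fun x y => x + δ ≤ y)) :
    (l.countP (fun x => α < x ∧ x ≤ β) : ℝ) ≤ (β - α) / δ + 1 := by
  rw [List.countP_eq_length_filter]
  have hp := hl.filter (fun x => decide (α < x ∧ x ≤ β))
  have hm : ∀ y ∈ l.filter (fun x => decide (α < x ∧ x ≤ β)), α < y ∧ y ≤ β := by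
    intro y hy
    simpa using (List.mem_filter.1 hy).2
  generalize l.filter (fun x => decide (α < x ∧ x ≤ β)) = l' at hp hm
  cases l' with
  | nil =>
    have : 0 ≤ (β - α) / δ := div_nonneg (by linarith) hδ.le
    simp
    linarith
  | cons x l' =>
    have h1 := spaced_aux δ β l' x hp (fun y hy => (hm y hy).2)
    have h2 := (hm x (by simp)).1
    rw [List.length_cons]
    push_cast
    have h3 : (l'.length : ℝ) ≤ (β - α) / δ := by
      rw [le_div_iff₀ hδ]
      linarith
    linarith

end Pool.Agent.LibMoser5
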