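import Mathlib

/-!
# Perfect packing of the squares `1/(2n+1)`, `n ≥ N` (tail of Moser's problem)

Basic definitions.  Everything is scaled by 2: the square with index `n` has side `sd n = 1/(n+1/2)`.
-/

set_option autoImplicit false

namespace Pool.Agent.LibMoser5

noncomputable section

open Classical

/-- side of the square with index `n` (scaled by two) -/
def sd (n : ℕ) : ℝ := 1 / ((n : ℝ) + 1 / 2)

/-! ## Geometry -/

/-- axis-parallel box: lower left corner `(x,y)`, width `w`, height `h` -/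
structure Box where
  x : ℝ
  y : ℝ
  w : ℝ
  h : ℝ

def Box.Inside (W H : ℝ) (b : Box) : Prop :=
  0 ≤ b.w ∧ 0 ≤ b.h ∧ 0 ≤ b.x ∧ b.x + b.w ≤ W ∧ 0 ≤ b.y ∧ b.y + b.h ≤ H

/-- the box has dimensions `d` (in one of the two orders) -/
def Box.Dims (b : Box) (d : ℝ × ℝ) : Prop :=
  (b.w = d.1 ∧ b.h = d.2) ∨ (b.w = d.2 ∧ b.h = d.1)

/-- two boxes are separated by a horizontal or vertical line -/
def Box.Sep (b b' : Box) : Prop :=
  b.x + b.w ≤ b'.x ∨ b'.x + b'.w ≤ b.x ∨ b.y + b.h ≤ b'.y ∨ b'.y + b'.h ≤ b.y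

/-- the square with index `n` placed at `p` -/
def sq (n : ℕ) (p : ℝ × ℝ) : Box := ⟨p.1, p.2, sd n, sd n⟩

/-- `[0,W]×[0,H]` contains pairwise separated free rectangles with the dimensions listed in `F`
and the squares with indices in `P`. -/
def Tiled (W H : ℝ) (F : List (ℝ × ℝ)) (P : Finset ℕ) : Prop :=
  ∃ (B : List Box) (p : ℕ → ℝ × ℝ), List.Forall₂ Box.Dims B F ∧
    (∀ b ∈ B, b.Inside W H) ∧ B.Pairwise Box.Sep ∧
    (∀ n ∈ P, (sq n (p n)).Inside W H) ∧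
    (∀ b ∈ B, ∀ n ∈ P, b.Sep (sq n (p n))) ∧
    (∀ m ∈ P, ∀ n ∈ P, m ≠ n → (sq m (p m)).Sep (sq n (p n)))

/-! ## Rows filled with squares -/

/-- a free rectangle `τ × len` (thickness `τ`) filled with the squares with indices in `u` -/
structure FJob where
  τ : ℝ
  len : ℝ
  u : List ℕ

/-- the pieces above the squares -/
def newS (L : List FJob) : List (ℝ × ℝ) :=
  L.flatMap (fun x => x.u.map (fun n => (x.τ - sd n, sd n)))

/-- the end pieces -/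
def newE (L : List FJob) : List (ℝ × ℝ) :=
  L.map (fun x => (x.τ, x.len - (x.u.map sd).sum))

def mm (r : ℝ × ℝ) : ℝ × ℝ := (min r.1 r.2, max r.1 r.2)

def FJob.Ok (x : FJob) : Prop := (∀ n ∈ x.u, sd n ≤ x.τ) ∧ (x.u.map sd).sum ≤ x.len

/-- a job: a free rectangle `τ × len` to be filled with `s` squares -/
structure Job where
  τ : ℝ
  len : ℝ
  s : ℕ

/-- distribute the indices in `I` to the jobs -/
def assign : List Job → List ℕ → List FJob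
  | [], _ => []
  | j :: js, I => ⟨j.τ, j.len, I.take j.s⟩ :: assign js (I.drop j.s)

/-- the thicknesses, each repeated `s` times -/
def labels (js : List Job) : List ℝ := js.flatMap (fun j => List.replicate j.s j.τ)

/-- the pieces, from thicknesses and indices -/
def pcs (L : List ℝ) (I : List ℕ) : List (ℝ × ℝ) := List.zipWith (fun τ n => (τ - sd n, sd n)) L I

/-! ## Parameters -/

/-- `⌊k^(5/2)⌋` -/
def GG (k : ℕ) : ℕ := Nat.sqrt (k ^ 5)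

/-- start of the window of block `k` -/
def AA (c0 k : ℕ) : ℕ := k ^ 3 + GG k + c0

/-- frames -/
def KK (k0 : ℕ) : ℕ → ℕ
  | 0 => k0
  | f + 1 => KK k0 f + KK k0 f / 60

/-- `1/t` for the first index of the window: `tm = AA + 1/2` -/
def tm (c0 k : ℕ) : ℝ := (AA c0 k : ℝ) + 1 / 2

/-- upper bound for the `t` of the window -/
def TT (c0 k : ℕ) : ℝ := (AA c0 (k + 1) : ℝ)

/-- block `j` = reciprocals in `[j^3,(j+1)^3)`, divided into 100 cells -/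
def edge (j d : ℕ) : ℝ := (j : ℝ) ^ 3 + d * (3 * (j : ℝ) ^ 2 + 3 * j + 1) / 100

def inCell (j d : ℕ) (τ : ℝ) : Prop := 1 / edge j (d + 1) < τ ∧ τ ≤ 1 / edge j d

def inBlock (k : ℕ) (τ : ℝ) : Prop := 1 / ((k : ℝ) + 1) ^ 3 < τ ∧ τ ≤ 1 / (k : ℝ) ^ 3

/-- width of cell `(j,d)` -/
def wid (j d : ℕ) : ℝ := 1 / edge j d - 1 / edge j (d + 1)

/-- total length of the rows with thickness in `(α,β]` -/
def massI (α β : ℝ) (L : List (ℝ × ℝ)) : ℝ :=
  (L.map (fun r => if α < r.1 ∧ r.1 ≤ β then r.2 else 0)).sum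

/-- total length of the rows in cell `(j,d)` -/
def mass (L : List (ℝ × ℝ)) (j d : ℕ) : ℝ := massI (1 / edge j (d + 1)) (1 / edge j d) L

/-- lower and upper bound for the thickness of a piece created in cell `(k,c)` -/
def lowr (c0 k c : ℕ) : ℝ := 1 / edge k (c + 1) - 1 / tm c0 k
def uppr (c0 k c : ℕ) : ℝ := 1 / edge k c - 1 / TT c0 k

/-- pieces created in cell `(k,c)` can have a thickness in cell `(j,d)` -/
def Reach (c0 k c j d : ℕ) : Prop := lowr c0 k c < 1 / edge j d ∧ 1 / edge j (d + 1) < uppr c0 k c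

def nreach (c0 k j d : ℕ) : ℕ := ((Finset.range 100).filter (fun c => Reach c0 k c j d)).card

/-- bound for the mean mass added to cell `(j,d)` in step `k` -/
def mJ (c0 k j d : ℕ) : ℝ :=
  (1 / (k : ℝ) ^ 3) * (1 / 100 + 1 / (k : ℝ) ^ 2) * (wid j d * (TT c0 k) ^ 2 + 1) * nreach c0 k j d

/-- bound for the mass added to cell `(j,d)` in the E-step of frame `g` -/
def eJ (k0 c0 g j d : ℕ) : ℝ :=
  if edge j d ≤ (AA c0 (KK k0 (g + 1)) : ℝ) ^ 2 ∧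
      (AA c0 (KK k0 (g + 1)) : ℝ) < 11 / 100 * edge j (d + 1) then
    (1 / (AA c0 (KK k0 (g + 1)) : ℝ)) * (wid j d * (AA c0 (KK k0 (g + 2)) : ℝ) ^ 2 / 1000 + 1)
  else 0

/-- maximal thickness of the pieces created in step `k` -/
def th (k : ℕ) : ℝ := 1001 / 1000 * (k : ℝ) ^ (-(7 / 2) : ℝ)

/-- linear budget of an S-row -/
def om (r : ℝ × ℝ) : ℝ := 2 * r.1 + r.2 * r.1 ^ (1 / 8 : ℝ)

/-- budget of the fat strips in step `k` -/
def src (k : ℕ) : ℝ := 5 * (k : ℝ) ^ (-(23 / 16) : ℝ)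

/-- the potential -/
def pot (k0 c0 Jm k : ℕ) (L : List (ℝ × ℝ)) : ℝ :=
  ∑ j ∈ Finset.Ico k0 Jm, ∑ d ∈ Finset.range 100,
    (1 / (100 * (j : ℝ) ^ 2)) *
      Real.exp ((j : ℝ) ^ (5 / 4 : ℝ) *
        (mass L j d - 101 / 100 * ∑ i ∈ Finset.Ico k0 k, mJ c0 i j d))

/-- upper bound for the cost of a job in step `k` -/
def cb (c0 k : ℕ) (j : Job) : ℝ :=
  j.τ + (j.len - j.s / TT c0 k) + j.s * (2 * th k + (th k) ^ (1 / 8 : ℝ) / tm c0 k)

/-- cost of a filled job: linear budget of all the pieces it creates -/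
def cost (x : FJob) : ℝ :=
  x.τ + (x.len - (x.u.map sd).sum) + (x.u.map (fun n => om (x.τ - sd n, sd n))).sum

def rowJob (t : ℝ) (r : ℝ × ℝ) : Job := ⟨r.1, r.2, ⌊r.2 * t⌋₊⟩

/-! ## States -/

structure St where
  H : ℝ
  V : ℝ
  SL : List (ℝ × ℝ)
  SE : List (ℝ × ℝ)
  ER : List (ℝ × ℝ)
  P : Finset ℕ

/-- linear budget of a state -/
def Psi (s : St) : ℝ := (s.ER.map (fun r => r.1 + r.2)).sum + ((s.SL ++ s.SE).map om).sum

structure Inv (C W H : ℝ) (k0 c0 Jm f k : ℕ) (s : St) : Prop where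
  hkl : KK k0 f ≤ k
  hku : k ≤ KK k0 (f + 1)
  tiled : Tiled W H ((s.H, s.V) :: (s.SL ++ s.SE ++ s.ER)) s.P
  Hpos : 0 < s.H
  HV : s.H ≤ s.V
  VH : s.V ≤ C * s.H
  Srow : ∀ r ∈ s.SL ++ s.SE, 0 < r.1 ∧ r.1 ≤ 1 / (k : ℝ) ^ 3 ∧ 0 ≤ r.2
  Erow : ∀ r ∈ s.ER, 0 ≤ r.1 ∧ r.1 ≤ r.2 ∧ r.1 ≤ 1 / (KK k0 f : ℝ) ^ 3
  Plo : ∀ n, AA c0 k0 ≤ n → n < AA c0 k → n ∈ s.P
  Phi : ∀ n ∈ s.P, AA c0 k0 ≤ n ∧ (n < AA c0 k ∨ (n < AA c0 (KK k0 (f + 1)) ∧ 1000 ∣ n))
  sumb : ((s.SL ++ s.SE).map Prod.snd).sum ≤ ∑ n ∈ s.P, sd n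
  area : s.H * s.V + ((s.SL ++ s.SE ++ s.ER).map (fun r => r.1 * r.2)).sum +
    ∑ n ∈ s.P, sd n ^ 2 = W * H
  massE : ∀ j d, k0 ≤ j → d < 100 → mass s.SE j d ≤ ∑ g ∈ Finset.range f, eJ k0 c0 g j d
  potl : pot k0 c0 Jm k s.SL ≤ 1
  psi : Psi s ≤ ∑ i ∈ Finset.Ico k0 k, src i

end

end Pool.Agent.LibMoser5
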