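import Pool.Agent.LibMoser5.Defs
set_option autoImplicit false
namespace Pool.Agent.LibMoser5
open Classical

theorem sqrt_pow_five (k : ℕ) : Real.sqrt ((k ^ 5 : ℕ) : ℝ) = (k : ℝ) ^ (5 / 2 : ℝ) := by
  have hk : (0 : ℝ) ≤ k := Nat.cast_nonneg k
  rw [Real.sqrt_eq_rpow, Nat.cast_pow, ← Real.rpow_natCast, ← Real.rpow_mul hk]
  norm_num

theorem GG_le (k : ℕ) : (GG k : ℝ) ≤ (k : ℝ) ^ (5 / 2 : ℝ) := by
  rw [← sqrt_pow_five]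
  exact Real.nat_sqrt_le_real_sqrt

theorem GG_ge (k : ℕ) : (k : ℝ) ^ (5 / 2 : ℝ) - 1 ≤ (GG k : ℝ) := by
  rw [← sqrt_pow_five]
  have h : Real.sqrt ((k ^ 5 : ℕ) : ℝ) ≤ (Nat.sqrt (k ^ 5) : ℝ) + 1 :=
    Real.real_sqrt_le_nat_sqrt_succ
  unfold GG
  linarith

theorem GG_mono {k l : ℕ} (h : k ≤ l) : GG k ≤ GG l :=
  Nat.sqrt_le_sqrt (Nat.pow_le_pow_left h 5)

theorem AA_mono {c0 k l : ℕ} (h : k ≤ l) : AA c0 k ≤ AA c0 l := by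
  unfold AA
  have h1 := GG_mono h
  have h2 := Nat.pow_le_pow_left h 3
  omega

end Pool.Agent.LibMoser5
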