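import Pool.Agent.LibMoser5.Frames
import Pool.Agent.LibMoser5.AnG
set_option autoImplicit false
namespace Pool.Agent.LibMoser5
open Classical

theorem AnArea_GG (k : ℕ) (hk : 100000000 ≤ k) : 10000 * (GG k : ℝ) ≤ (k : ℝ) ^ 3 := by
  have h2 : GG k ^ 2 ≤ k ^ 5 := Nat.sqrt_le' _
  have h2' : (GG k : ℝ) ^ 2 ≤ (k : ℝ) ^ 5 := by exact_mod_cast h2
  have hk' : (100000000 : ℝ) ≤ k := by exact_mod_cast hk
  have h3 : (10000 * (GG k : ℝ)) ^ 2 ≤ ((k : ℝ) ^ 3) ^ 2 := by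
    have h4 : (k : ℝ) ^ 5 * 100000000 ≤ (k : ℝ) ^ 5 * k := by gcongr
    calc (10000 * (GG k : ℝ)) ^ 2 = 100000000 * (GG k : ℝ) ^ 2 := by ring
      _ ≤ 100000000 * (k : ℝ) ^ 5 := by gcongr
      _ ≤ (k : ℝ) ^ 5 * k := by linarith
      _ = _ := by ring
  exact le_of_sq_le_sq h3 (by positivity)

/-- remaining area.  `AA ≤ (1+o(1))k^3`, `AA (KK (f+1)) - AA k ≤ 0.06 k^3` -/
theorem an_area : ∃ k1 : ℕ, ∀ k0 ≥ k1, ∀ c0 : ℕ, c0 ≤ 4 * k0 ^ 2 → ∀ f k : ℕ,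
    KK k0 f ≤ k → k ≤ KK k0 (f + 1) →
    999 / 1000 * (1 / (k : ℝ) ^ 3) ≤ 1 / ((AA c0 k : ℝ) + 1 / 2) -
      ((((AA c0 (KK k0 (f + 1)) : ℝ) - AA c0 k) / 1000 + 1) / (AA c0 k : ℝ) ^ 2) := by
  refine ⟨100000000, fun k0 hk0 c0 hc0 f k h1 h2 => ?_⟩
  have hKf : k0 ≤ KK k0 f := KK_ge k0 f
  have hk : 100000000 ≤ k := by omega
  set m := KK k0 (f + 1) with hm
  have hm1 : 60 * m ≤ 61 * k := by
    have h3 : m = KK k0 f + KK k0 f / 60 := rfl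
    omega
  have hkR : (100000000 : ℝ) ≤ k := by exact_mod_cast hk
  have hk0R : (k0 : ℝ) ≤ k := by exact_mod_cast (hKf.trans h1)
  have hkp : (0 : ℝ) < k := by linarith
  have hm1R : 60 * (m : ℝ) ≤ 61 * k := by exact_mod_cast hm1
  have hc : (c0 : ℝ) ≤ 4 * (k : ℝ) ^ 2 := by
    have h3 : (c0 : ℝ) ≤ 4 * (k0 : ℝ) ^ 2 := by exact_mod_cast hc0
    refine h3.trans ?_
    gcongr
  have hc' : (c0 : ℝ) ≤ (k : ℝ) ^ 3 / 10000000 := by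
    have : (k : ℝ) ^ 2 * 100000000 ≤ (k : ℝ) ^ 2 * k := by gcongr
    nlinarith
  have hg := AnArea_GG k hk
  have hgm := AnArea_GG m (by omega)
  have hm3 : (m : ℝ) ^ 3 ≤ 10509 / 10000 * (k : ℝ) ^ 3 := by
    have : (m : ℝ) ≤ 61 / 60 * k := by linarith
    calc (m : ℝ) ^ 3 ≤ (61 / 60 * k) ^ 3 := by gcongr
      _ = (61 / 60) ^ 3 * (k : ℝ) ^ 3 := by ring
      _ ≤ 10509 / 10000 * (k : ℝ) ^ 3 := by
          apply mul_le_mul_of_nonneg_right (by norm_num) (by positivity)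
  have eA : (AA c0 k : ℝ) = (k : ℝ) ^ 3 + GG k + c0 := by unfold AA; push_cast; ring
  have eM : (AA c0 m : ℝ) = (m : ℝ) ^ 3 + GG m + c0 := by unfold AA; push_cast; ring
  have hG0 : (0 : ℝ) ≤ GG k := Nat.cast_nonneg _
  have hc00 : (0 : ℝ) ≤ c0 := Nat.cast_nonneg _
  have hk3 : (1000000 : ℝ) ≤ (k : ℝ) ^ 3 := by
    calc (1000000 : ℝ) ≤ 100000000 ^ 3 := by norm_num
      _ ≤ (k : ℝ) ^ 3 := by gcongr
  set K3 : ℝ := (k : ℝ) ^ 3 with hK3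
  have a1 : K3 ≤ AA c0 k := by rw [eA]; linarith
  have a2 : (AA c0 k : ℝ) + 1 / 2 ≤ 1.0005 * K3 := by rw [eA]; norm_num; linarith
  have a3 : (((AA c0 m : ℝ) - AA c0 k) / 1000 + 1) ≤ K3 / 10000 := by
    rw [eM, eA]; linarith
  have hK3p : 0 < K3 := by linarith
  have b1 : 1 / (1.0005 * K3) ≤ 1 / ((AA c0 k : ℝ) + 1 / 2) := by
    apply one_div_le_one_div_of_le (by linarith) a2
  have b2 : ((((AA c0 m : ℝ) - AA c0 k) / 1000 + 1) / (AA c0 k : ℝ) ^ 2) ≤ (K3 / 10000) / K3 ^ 2 := by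
    apply div_le_div₀ (by positivity) a3 (by positivity)
    gcongr
  have b3 : (K3 / 10000) / K3 ^ 2 = 1 / 10000 * (1 / K3) := by field_simp
  have b4 : 1 / (1.0005 * K3) = 1 / 1.0005 * (1 / K3) := by field_simp
  have b5 : 0 < 1 / K3 := by positivity
  have b6 : (1 : ℝ) / 1.0005 ≥ 0.9995 := by norm_num
  have b7 : (0.9995 : ℝ) * (1 / K3) ≤ 1 / 1.0005 * (1 / K3) := by gcongr
  rw [b3] at b2
  rw [b4] at b1
  norm_num at b7 b1 b2 b5 ⊢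
  linarith

end Pool.Agent.LibMoser5
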