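import Pool.Agent.LibMoser5.Defs
set_option autoImplicit false
namespace Pool.Agent.LibMoser5
open Classical

theorem edge_pos {j : ℕ} (hj : 1 ≤ j) (d : ℕ) : 0 < edge j d := by
  have h : (0 : ℝ) < j := by exact_mod_cast hj
  unfold edge
  positivity

theorem edge_mono {j d d' : ℕ} (h : d ≤ d') : edge j d ≤ edge j d' := by
  have h' : (d : ℝ) ≤ d' := by exact_mod_cast h
  have hj : (0 : ℝ) ≤ j := Nat.cast_nonneg j
  unfold edge
  gcongr

theorem edge_zero (j : ℕ) : edge j 0 = (j : ℝ) ^ 3 := by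
  simp [edge]

theorem edge_top (j : ℕ) : edge j 100 = ((j : ℝ) + 1) ^ 3 := by
  unfold edge
  push_cast
  ring

theorem edge_lo (j d : ℕ) : (j : ℝ) ^ 3 ≤ edge j d := by
  rw [← edge_zero]
  exact edge_mono (Nat.zero_le d)

theorem edge_hi {j d : ℕ} (h : d ≤ 100) : edge j d ≤ ((j : ℝ) + 1) ^ 3 := by
  rw [← edge_top]
  exact edge_mono h

theorem edge_succ (j d : ℕ) : edge j (d + 1) = edge j d + (3 * (j : ℝ) ^ 2 + 3 * j + 1) / 100 := by
  unfold edge
  push_cast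
  ring

theorem edge_lt_succ (j d : ℕ) : edge j d < edge j (d + 1) := by
  rw [edge_succ]
  have hj : (0 : ℝ) ≤ j := Nat.cast_nonneg j
  have : 0 < (3 * (j : ℝ) ^ 2 + 3 * j + 1) / 100 := by positivity
  linarith

theorem wid_nonneg {j : ℕ} (hj : 1 ≤ j) (d : ℕ) : 0 ≤ wid j d := by
  have h := one_div_le_one_div_of_le (edge_pos hj d) (edge_lt_succ j d).le
  unfold wid
  linarith

/-- `wid j d = (3j²+3j+1)/100/(edge·edge')` -/
theorem wid_le {j : ℕ} (hj : 1 ≤ j) (d : ℕ) :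
    wid j d ≤ (3 * (j : ℝ) ^ 2 + 3 * j + 1) / 100 / (j : ℝ) ^ 6 := by
  have h0 : (0 : ℝ) < j := by exact_mod_cast hj
  have h1 := edge_pos hj d
  have h2 := edge_pos hj (d + 1)
  have e : wid j d = (3 * (j : ℝ) ^ 2 + 3 * j + 1) / 100 / (edge j d * edge j (d + 1)) := by
    unfold wid
    rw [div_sub_div _ _ h1.ne' h2.ne', edge_succ]
    congr 1
    ring
  rw [e]
  refine div_le_div_of_nonneg_left (by positivity) (by positivity) ?_
  calc (j : ℝ) ^ 6 = (j : ℝ) ^ 3 * (j : ℝ) ^ 3 := by ring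
    _ ≤ edge j d * edge j (d + 1) :=
        mul_le_mul (edge_lo j d) (edge_lo j (d + 1)) (by positivity) h1.le

theorem find_step {P : ℕ → Prop} {n : ℕ} (h0 : P 0) (hn : ¬ P n) :
    ∃ c, c < n ∧ P c ∧ ¬ P (c + 1) := by
  have hex : ∃ m, ¬ P m := ⟨n, hn⟩
  have hspec := Nat.find_spec hex
  have hle : Nat.find hex ≤ n := Nat.find_min' hex hn
  have hne : Nat.find hex ≠ 0 := by
    intro h
    rw [h] at hspec
    exact hspec h0
  obtain ⟨c, hc⟩ := Nat.exists_eq_succ_of_ne_zero hne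
  refine ⟨c, by omega, ?_, ?_⟩
  · have := Nat.find_min hex (m := c) (by omega)
    exact not_not.mp this
  · rw [hc] at hspec
    exact hspec

/-- ML2: cells partition a block -/
theorem cell_exists {k : ℕ} (hk : 1 ≤ k) {τ : ℝ} (h : inBlock k τ) : ∃ c < 100, inCell k c τ := by
  have _ := hk
  obtain ⟨h1, h2⟩ := h
  obtain ⟨c, hc, hc1, hc2⟩ := find_step (P := fun c => τ ≤ 1 / edge k c) (n := 100)
    (by rw [edge_zero]; exact h2) (by rw [edge_top, not_le]; exact h1)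
  exact ⟨c, hc, not_le.mp hc2, hc1⟩

theorem cell_block {k c : ℕ} (hk : 1 ≤ k) (hc : c < 100) {τ : ℝ} (h : inCell k c τ) :
    inBlock k τ := by
  obtain ⟨h1, h2⟩ := h
  have h0 : (0 : ℝ) < k := by exact_mod_cast hk
  refine ⟨lt_of_le_of_lt ?_ h1, h2.trans ?_⟩
  · exact one_div_le_one_div_of_le (edge_pos hk _) (edge_hi hc)
  · exact one_div_le_one_div_of_le (by positivity) (edge_lo k c)

theorem cell_unique {k c c' : ℕ} (hk : 1 ≤ k) {τ : ℝ} (h : inCell k c τ)
    (h' : inCell k c' τ) : c = c' := by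
  have key : ∀ a b : ℕ, inCell k a τ → inCell k b τ → ¬ a < b := by
    intro a b ha hb hab
    have h1 : 1 / edge k b ≤ 1 / edge k (a + 1) :=
      one_div_le_one_div_of_le (edge_pos hk _) (edge_mono hab)
    have := ha.1
    have := hb.2
    linarith
  have h1 := key c c' h h'
  have h2 := key c' c h' h
  omega

/-- `1/edge k c` is in cell `(k,c)` -/
theorem edge_inCell {k c : ℕ} (hk : 1 ≤ k) : inCell k c (1 / edge k c) :=
  ⟨one_div_lt_one_div_of_lt (edge_pos hk c) (edge_lt_succ k c), le_rfl⟩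

/-- blocks partition `(1/Jm^3, 1/k^3]` -/
theorem block_exists {k Jm : ℕ} (hk : 1 ≤ k) (hJm : 1 ≤ Jm) {τ : ℝ} (h1 : 0 < τ)
    (h2 : τ ≤ 1 / (k : ℝ) ^ 3) (h3 : 1 / (Jm : ℝ) ^ 3 < τ) : ∃ j, k ≤ j ∧ j < Jm ∧ inBlock j τ := by
  have _ := h1
  have hkJ : k < Jm := by
    by_contra hc
    push Not at hc
    have hc' : (Jm : ℝ) ≤ k := by exact_mod_cast hc
    have hJ0 : (0 : ℝ) < Jm := by exact_mod_cast hJm
    have := one_div_le_one_div_of_le (by positivity) (pow_le_pow_left₀ hJ0.le hc' 3)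
    linarith
  obtain ⟨c, hc, hc1, hc2⟩ := find_step (P := fun c => τ ≤ 1 / ((k + c : ℕ) : ℝ) ^ 3)
    (n := Jm - k) (by simpa using h2) (by
      rw [Nat.add_sub_cancel' hkJ.le, not_le]
      exact h3)
  have _ := hk
  refine ⟨k + c, by omega, by omega, ?_, hc1⟩
  have := not_le.mp hc2
  push_cast at this ⊢
  rw [add_assoc]
  exact this

end Pool.Agent.LibMoser5
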