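import Pool.Agent.LibMoser5.AnG
import Pool.Agent.LibMoser5.Cells
set_option autoImplicit false
namespace Pool.Agent.LibMoser5
open Classical

private theorem adf_sqrt_pow {x s : ℝ} (hs : 0 ≤ s) (hx : x = s ^ 2) (n : ℕ) :
    x ^ ((n : ℝ) / 2) = s ^ n := by
  subst hx
  rw [← Real.rpow_natCast s 2, ← Real.rpow_mul hs, ← Real.rpow_natCast]
  congr 1
  push_cast
  ring

private theorem adf_52 {s : ℝ} (hs : 10000 ≤ s) :
    (s ^ 2 + 1) ^ (5 / 2 : ℝ) ≤ s ^ 5 + 5 / 2 * s ^ 3 + 2 * s := by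
  have h0 : (0 : ℝ) ≤ s ^ 2 + 1 := by positivity
  have hs0 : (0 : ℝ) ≤ s := by linarith
  have e : (s ^ 2 + 1) ^ (5 / 2 : ℝ) = Real.sqrt ((s ^ 2 + 1) ^ 5) := by
    rw [Real.sqrt_eq_rpow, ← Real.rpow_natCast (s ^ 2 + 1) 5, ← Real.rpow_mul h0]
    norm_num
  rw [e]
  apply Real.sqrt_le_iff.2
  constructor
  · positivity
  · have h1 : (s ^ 5 + 5 / 2 * s ^ 3 + 2 * s) ^ 2 - (s ^ 2 + 1) ^ 5 =
        s ^ 2 * (s ^ 4 / 4 - 1) - 1 := by ring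
    have h2 : (1 : ℝ) ≤ s ^ 2 * (s ^ 4 / 4 - 1) := by
      have h3 : (8 : ℝ) ≤ s ^ 4 := by
        have : (10000 : ℝ) ^ 4 ≤ s ^ 4 := by gcongr
        linarith [show (8 : ℝ) ≤ 10000 ^ 4 by norm_num]
      have h4 : (1 : ℝ) ≤ s ^ 2 := by nlinarith
      nlinarith
    linarith

private theorem adf_poly {s : ℝ} (hs : 10000 ≤ s) :
    0 ≤ (3 * s ^ 4 + 3 * s ^ 2 + 1) * s ^ 9 * (s ^ 6 + s ^ 5 - 1) ^ 2
      - (3 * s ^ 4 + 3 * s ^ 2 + 1 + (5 / 2 * s ^ 3 + 2 * s + 1)) * s ^ 9 *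
        ((s ^ 2 + 1) ^ 3 * (s ^ 2 + 2) ^ 3)
      - 349 / 100 * ((s ^ 2 + 1) ^ 3 * (s ^ 2 + 2) ^ 3) * (s ^ 6 + s ^ 5 - 1) ^ 2 := by
  obtain ⟨t, rfl⟩ : ∃ t, s = t + 10000 := ⟨s - 10000, by ring⟩
  have ht : 0 ≤ t := by linarith
  ring_nf
  positivity

private theorem adf_core {s : ℝ} (hs : 10000 ≤ s) :
    349 / 100 / s ^ 9 ≤ (3 * s ^ 4 + 3 * s ^ 2 + 1) / ((s ^ 2 + 1) ^ 3 * (s ^ 2 + 2) ^ 3) -
      (3 * s ^ 4 + 3 * s ^ 2 + 1 + (5 / 2 * s ^ 3 + 2 * s + 1)) / (s ^ 6 + s ^ 5 - 1) ^ 2 := by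
  have h := adf_poly hs
  have hs0 : (0 : ℝ) < s := by linarith
  have h6 : (1 : ℝ) ≤ s ^ 6 := one_le_pow₀ (by linarith)
  have h5 : (0 : ℝ) < s ^ 5 := by positivity
  have hA : (0 : ℝ) < s ^ 6 + s ^ 5 - 1 := by linarith
  have hP : (0 : ℝ) < (s ^ 2 + 1) ^ 3 * (s ^ 2 + 2) ^ 3 := by positivity
  have h9 : (0 : ℝ) < s ^ 9 := by positivity
  generalize (s ^ 2 + 1) ^ 3 * (s ^ 2 + 2) ^ 3 = P at h hP ⊢
  generalize s ^ 6 + s ^ 5 - 1 = A at h hA ⊢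
  generalize 3 * s ^ 4 + 3 * s ^ 2 + 1 + (5 / 2 * s ^ 3 + 2 * s + 1) = G at h ⊢
  generalize 3 * s ^ 4 + 3 * s ^ 2 + 1 = M at h ⊢
  generalize s ^ 9 = S at h h9 ⊢
  rw [div_sub_div _ _ hP.ne' (by positivity), div_le_div_iff₀ h9 (by positivity)]
  nlinarith

/-- (the main analytic lemma): the lower bounds `lowr` decrease in `k` at rate `(7/2) k^(-9/2)`.
With `p_k = edge k (c+1)`, `a_k = tm c0 k`:
`lowr k - lowr (k+1) = (p_{k+1}-p_k)/(p_k p_{k+1}) - (a_{k+1}-a_k)/(a_k a_{k+1})`,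
`p_{k+1}-p_k ≥ 3k^2+3k+1`, `a_{k+1}-a_k = 3k^2+3k+1+(GG (k+1) - GG k) ≤ 3k^2+3k+1+(5/2)(k+1)^(3/2)+1`,
`a_k ≥ p_k (1 + (1-o(1)) k^(-1/2))`, so the difference is `≥ k^(-6)(6 k^(3/2) - (5/2) k^(3/2) - O(k))`. -/
theorem an_diff : ∃ k1 : ℕ, ∀ k ≥ k1, ∀ c0 : ℕ, c0 ≤ 4 * k ^ 2 → ∀ c < 100,
    349 / 100 / ((k : ℝ) + 1) ^ (9 / 2 : ℝ) ≤ lowr c0 k c - lowr c0 (k + 1) c := by
  refine ⟨100000000, fun k hk c0 _ c hc => ?_⟩
  set x : ℝ := (k : ℝ) with hx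
  have hxk : (100000000 : ℝ) ≤ x := by
    rw [hx]; exact_mod_cast hk
  set s : ℝ := Real.sqrt x with hsdef
  have hs0 : 0 ≤ s := Real.sqrt_nonneg _
  have hxs : x = s ^ 2 := (Real.sq_sqrt (by linarith)).symm
  have hs : 10000 ≤ s := by
    rw [hsdef]
    apply Real.le_sqrt_of_sq_le
    linarith [show (10000 : ℝ) ^ 2 = 100000000 by norm_num]
  have h52 : x ^ (5 / 2 : ℝ) = s ^ 5 := by
    have := adf_sqrt_pow hs0 hxs 5
    norm_num at this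
    exact this
  have h92 : x ^ (9 / 2 : ℝ) = s ^ 9 := by
    have := adf_sqrt_pow hs0 hxs 9
    norm_num at this
    exact this
  have hG0 : s ^ 5 - 1 ≤ (GG k : ℝ) := by
    have := GG_ge k
    rw [← hx, h52] at this
    exact this
  have hG1 : (GG (k + 1) : ℝ) ≤ s ^ 5 + 5 / 2 * s ^ 3 + 2 * s := by
    have h1 := GG_le (k + 1)
    push_cast at h1
    rw [← hx, hxs] at h1
    exact h1.trans (adf_52 hs)
  -- the sizes
  have hp0 : 0 < edge k (c + 1) := edge_pos (by omega) _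
  have hp0' : 0 < edge (k + 1) (c + 1) := edge_pos (by omega) _
  have hp : edge k (c + 1) ≤ (x + 1) ^ 3 := edge_hi (by omega)
  have hp' : edge (k + 1) (c + 1) ≤ (x + 2) ^ 3 := by
    have := edge_hi (j := k + 1) (d := c + 1) (by omega)
    push_cast at this
    rw [← hx] at this
    refine this.trans (le_of_eq ?_)
    ring
  have hdp : 3 * x ^ 2 + 3 * x + 1 ≤ edge (k + 1) (c + 1) - edge k (c + 1) := by
    unfold edge
    push_cast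
    rw [← hx]
    have hc0 : (0 : ℝ) ≤ (c : ℝ) := Nat.cast_nonneg c
    have hx0 : (0 : ℝ) ≤ x := by linarith
    have : ((x + 1) ^ 3 + ((c : ℝ) + 1) * (3 * (x + 1) ^ 2 + 3 * (x + 1) + 1) / 100 -
        (x ^ 3 + ((c : ℝ) + 1) * (3 * x ^ 2 + 3 * x + 1) / 100)) =
        3 * x ^ 2 + 3 * x + 1 + ((c : ℝ) + 1) * (6 * x + 6) / 100 := by ring
    rw [this]
    have : (0 : ℝ) ≤ ((c : ℝ) + 1) * (6 * x + 6) / 100 := by positivity
    linarith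
  have ha : s ^ 6 + s ^ 5 - 1 ≤ tm c0 k := by
    unfold tm AA
    push_cast
    rw [← hx, hxs]
    have hc0 : (0 : ℝ) ≤ (c0 : ℝ) := Nat.cast_nonneg c0
    have : (s ^ 2) ^ 3 = s ^ 6 := by ring
    rw [this]
    linarith
  have ha' : tm c0 k ≤ tm c0 (k + 1) := by
    unfold tm
    have := AA_mono (c0 := c0) (Nat.le_succ k)
    have h2 : (AA c0 k : ℝ) ≤ AA c0 (k + 1) := by exact_mod_cast this
    linarith
  have hda : tm c0 (k + 1) - tm c0 k ≤ 3 * x ^ 2 + 3 * x + 1 + (5 / 2 * s ^ 3 + 2 * s + 1) := by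
    unfold tm AA
    push_cast
    rw [← hx]
    linarith [show (x + 1) ^ 3 = x ^ 3 + (3 * x ^ 2 + 3 * x + 1) by ring]
  have hApos : (0 : ℝ) < s ^ 6 + s ^ 5 - 1 := by
    have h6 : (1 : ℝ) ≤ s ^ 6 := one_le_pow₀ (by linarith)
    have h5 : (0 : ℝ) < s ^ 5 := by positivity
    linarith
  have hcore := adf_core hs
  -- the two differences
  have e1 : (3 * s ^ 4 + 3 * s ^ 2 + 1) / ((s ^ 2 + 1) ^ 3 * (s ^ 2 + 2) ^ 3) ≤
      1 / edge k (c + 1) - 1 / edge (k + 1) (c + 1) := by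
    rw [div_sub_div _ _ hp0.ne' hp0'.ne', one_mul, mul_one]
    have h1 : 3 * s ^ 4 + 3 * s ^ 2 + 1 ≤ edge (k + 1) (c + 1) - edge k (c + 1) := by
      refine le_trans (le_of_eq ?_) hdp
      rw [hxs]; ring
    have h2 : edge k (c + 1) * edge (k + 1) (c + 1) ≤ (s ^ 2 + 1) ^ 3 * (s ^ 2 + 2) ^ 3 := by
      rw [← hxs]
      exact mul_le_mul hp hp' hp0'.le (by positivity)
    exact div_le_div₀ ((by positivity : (0 : ℝ) ≤ 3 * s ^ 4 + 3 * s ^ 2 + 1).trans h1) h1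
      (mul_pos hp0 hp0') h2
  have e2 : 1 / tm c0 k - 1 / tm c0 (k + 1) ≤
      (3 * s ^ 4 + 3 * s ^ 2 + 1 + (5 / 2 * s ^ 3 + 2 * s + 1)) / (s ^ 6 + s ^ 5 - 1) ^ 2 := by
    have hta : 0 < tm c0 k := lt_of_lt_of_le hApos ha
    have hta' : 0 < tm c0 (k + 1) := lt_of_lt_of_le hta ha'
    rw [div_sub_div _ _ hta.ne' hta'.ne', one_mul, mul_one]
    have h1 : tm c0 (k + 1) - tm c0 k ≤
        3 * s ^ 4 + 3 * s ^ 2 + 1 + (5 / 2 * s ^ 3 + 2 * s + 1) := by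
      refine hda.trans (le_of_eq ?_)
      rw [hxs]; ring
    have h2 : (s ^ 6 + s ^ 5 - 1) ^ 2 ≤ tm c0 k * tm c0 (k + 1) := by
      rw [pow_two]
      exact mul_le_mul ha (ha.trans ha') hApos.le hta.le
    exact div_le_div₀ (by positivity) h1 (by positivity) h2
  have e3 : 349 / 100 / (x + 1) ^ (9 / 2 : ℝ) ≤ 349 / 100 / s ^ 9 := by
    rw [← h92]
    have hx0 : (0 : ℝ) < x := by linarith
    have h3 : (0 : ℝ) < x ^ (9 / 2 : ℝ) := Real.rpow_pos_of_pos hx0 _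
    have h4 : x ^ (9 / 2 : ℝ) ≤ (x + 1) ^ (9 / 2 : ℝ) :=
      Real.rpow_le_rpow hx0.le (by linarith) (by norm_num)
    gcongr
  unfold lowr
  linarith

end Pool.Agent.LibMoser5
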