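import Pool.Agent.LibMoser5.FrameR
import Pool.Agent.LibMoser5.Cells
set_option autoImplicit false
namespace Pool.Agent.LibMoser5
open Classical

private theorem ane_geo1 (φ : ℕ → ℝ) (hpos : ∀ g, 0 < φ g) (hg : ∀ g, φ g ≤ 96 / 100 * φ (g + 1))
    (X : ℝ) (hX : 0 ≤ X) (f : ℕ) :
    ∑ g ∈ Finset.range f, (if φ g < X then φ g else 0) ≤ 24 * φ f ∧
      ∑ g ∈ Finset.range f, (if φ g < X then φ g else 0) ≤ 25 * X := by
  induction f with
  | zero => simp; exact ⟨(hpos 0).le, hX⟩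
  | succ f ih =>
    rw [Finset.sum_range_succ]
    have h1 := hpos f
    have h2 := hg f
    obtain ⟨a, b⟩ := ih
    split_ifs with h
    · constructor <;> linarith
    · constructor <;> linarith

private theorem ane_geo2 (φ : ℕ → ℝ) (hpos : ∀ g, 0 < φ g) (hg : ∀ g, φ g ≤ 96 / 100 * φ (g + 1))
    (Y : ℝ) (hY : 0 < Y) (f : ℕ) :
    ∑ g ∈ Finset.range f, (if Y ≤ φ g then 1 / φ g else 0) ≤ 25 / Y - 25 * min (1 / Y) (1 / φ f) := by
  have hinv : ∀ g, 1 / φ (g + 1) ≤ 96 / 100 * (1 / φ g) := by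
    intro g
    have h1 := hpos g
    have h2 := hpos (g + 1)
    have h3 := hg g
    rw [mul_one_div, div_le_div_iff₀ h2 h1]
    linarith
  induction f with
  | zero =>
    simp only [Finset.range_zero, Finset.sum_empty]
    have h1 : min (1 / Y) (1 / φ 0) ≤ 1 / Y := min_le_left _ _
    have h2 : 25 / Y = 25 * (1 / Y) := by ring
    rw [h2]
    linarith
  | succ f ih =>
    rw [Finset.sum_range_succ]
    have h1 := hpos f
    have h2 := hinv f
    have h0 : 0 < 1 / φ f := by positivity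
    have h5 : 25 / Y = 25 * (1 / Y) := by ring
    rw [h5] at ih ⊢
    split_ifs with h
    · have h3 : 1 / φ f ≤ 1 / Y := one_div_le_one_div_of_le hY h
      rw [min_eq_right h3] at ih
      have h4 : min (1 / Y) (1 / φ (f + 1)) ≤ 1 / φ (f + 1) := min_le_right _ _
      linarith
    · have h3 : 1 / Y ≤ 1 / φ f := one_div_le_one_div_of_le h1 (not_le.1 h).le
      rw [min_eq_left h3] at ih
      have h4 : min (1 / Y) (1 / φ (f + 1)) ≤ 1 / Y := min_le_left _ _
      linarith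

/-- masses from the E-steps.  `eJ k0 c0 g j d` is nonzero only if `j^(3/2) ≤ Φ_g` and
`Φ_g < 0.11 (j+1)^3`, `Φ_g = AA c0 (KK k0 (g+1))`, which grows by a factor `≥ 1.04` in each frame (`an_frame_len`);
`AA c0 (KK k0 (g+2)) ≤ 1.11 Φ_g` (`an_frame_ratio`).  Then
`∑ Φ⁺²/Φ·wid/1000 ≤ 1.24 · 26 · 0.11 (j+1)^3 · wid/1000 ≤ 0.0036·3/(100 j)(1+o(1))`, and
`∑ 1/Φ_g ≤ 26 j^(-3/2)` = `o(1/j)`. -/
theorem an_eJ_sum : ∃ k1 : ℕ, ∀ k0 ≥ k1, ∀ c0 : ℕ, c0 ≤ 4 * k0 ^ 2 → ∀ j ≥ k0, ∀ d < 100, ∀ f : ℕ,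
    ∑ g ∈ Finset.range f, eJ k0 c0 g j d ≤ 1 / 100 * (3 / (100 * (j : ℝ))) := by
  obtain ⟨q1, H1⟩ := an_frame_ratio
  obtain ⟨q2, H2⟩ := an_frame_len
  refine ⟨q1 + q2 + 1000000000000, fun k0 hk0 c0 hc0 j hj d hd f => ?_⟩
  have hj1 : 1 ≤ j := by omega
  have hjR : (1000000000000 : ℝ) ≤ (j : ℝ) := by
    have : 1000000000000 ≤ j := by omega
    exact_mod_cast this
  set φ : ℕ → ℝ := fun g => (AA c0 (KK k0 (g + 1)) : ℝ) with hφ
  have hKpos : ∀ g, (1 : ℝ) ≤ (KK k0 g : ℝ) := by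
    intro g
    have h1 := KK_ge k0 g
    have : 1 ≤ KK k0 g := by omega
    exact_mod_cast this
  have hAK : ∀ g, (KK k0 g : ℝ) ^ 3 ≤ (AA c0 (KK k0 g) : ℝ) := by
    intro g
    unfold AA
    have : (KK k0 g) ^ 3 ≤ (KK k0 g) ^ 3 + GG (KK k0 g) + c0 := by omega
    exact_mod_cast this
  have hpos : ∀ g, 0 < φ g := by
    intro g
    have h1 := hAK (g + 1)
    have h2 := hKpos (g + 1)
    have h3 : (1 : ℝ) ≤ (KK k0 (g + 1) : ℝ) ^ 3 := one_le_pow₀ h2
    simp only [hφ]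
    linarith
  have hgrow : ∀ g, φ g ≤ 96 / 100 * φ (g + 1) := by
    intro g
    have := H2 k0 (by omega) c0 hc0 (g + 1)
    simp only [hφ]
    linarith
  have hratio : ∀ g, φ (g + 1) ≤ 111 / 100 * φ g := by
    intro g
    have h1 := H1 k0 (by omega) c0 hc0 g
    have h2 := hAK (g + 1)
    have h3 : (KK k0 g : ℝ) ^ 3 ≤ (KK k0 (g + 1) : ℝ) ^ 3 := by
      have : (KK k0 g : ℝ) ≤ (KK k0 (g + 1) : ℝ) := by exact_mod_cast KK_mono k0 (Nat.le_succ g)
      gcongr
    simp only [hφ]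
    linarith
  set s : ℝ := Real.sqrt j with hs
  have hj0 : (0 : ℝ) < (j : ℝ) := by linarith
  have hs0 : 0 ≤ s := Real.sqrt_nonneg _
  have hjs : (j : ℝ) = s ^ 2 := (Real.sq_sqrt hj0.le).symm
  have hsl : 1000000 ≤ s := by
    rw [hs]
    apply Real.le_sqrt_of_sq_le
    linarith [show (1000000 : ℝ) ^ 2 = 1000000000000 by norm_num]
  have hsp : 0 < s := by linarith
  set X : ℝ := 11 / 100 * ((j : ℝ) + 1) ^ 3 with hX
  have hX0 : 0 ≤ X := by positivity
  have hw0 := wid_nonneg hj1 d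
  have hw1 := wid_le hj1 d
  have hterm : ∀ g, eJ k0 c0 g j d ≤
      wid j d * (12321 / 10000000) * (if φ g < X then φ g else 0) +
        (if s ^ 3 ≤ φ g then 1 / φ g else 0) := by
    intro g
    have hp := hpos g
    unfold eJ
    by_cases h : edge j d ≤ (AA c0 (KK k0 (g + 1)) : ℝ) ^ 2 ∧
        (AA c0 (KK k0 (g + 1)) : ℝ) < 11 / 100 * edge j (d + 1)
    · have h2 : s ^ 3 ≤ φ g := by
        have h3 := h.1
        have h4 := edge_lo j d
        have h5 : (s ^ 3) ^ 2 ≤ φ g ^ 2 := by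
          calc (s ^ 3) ^ 2 = (j : ℝ) ^ 3 := by rw [hjs]; ring
            _ ≤ edge j d := h4
            _ ≤ φ g ^ 2 := h3
        exact le_of_pow_le_pow_left₀ (by norm_num) hp.le h5
      have h1 : φ g < X := by
        have h3 := h.2
        have h4 := edge_hi (j := j) (d := d + 1) (by omega)
        calc φ g < 11 / 100 * edge j (d + 1) := h3
          _ ≤ X := by rw [hX]; gcongr
      rw [if_pos h, if_pos h1, if_pos h2]
      have e1 : (AA c0 (KK k0 (g + 1)) : ℝ) = φ g := rfl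
      have e2 : (AA c0 (KK k0 (g + 2)) : ℝ) = φ (g + 1) := rfl
      rw [e1, e2]
      have h3 : φ (g + 1) ^ 2 ≤ 12321 / 10000 * φ g ^ 2 := by
        calc φ (g + 1) ^ 2 ≤ (111 / 100 * φ g) ^ 2 := by
              have := hratio g
              have := (hpos (g + 1)).le
              gcongr
          _ = 12321 / 10000 * φ g ^ 2 := by ring
      calc (1 / φ g) * (wid j d * φ (g + 1) ^ 2 / 1000 + 1)
          ≤ (1 / φ g) * (wid j d * (12321 / 10000 * φ g ^ 2) / 1000 + 1) := by gcongr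
        _ = wid j d * (12321 / 10000000) * φ g + 1 / φ g := by
            field_simp
            ring
    · rw [if_neg h]
      positivity
  have hA := (ane_geo1 φ hpos hgrow X hX0 f).2
  have hB := ane_geo2 φ hpos hgrow (s ^ 3) (by positivity) f
  have hB' : ∑ g ∈ Finset.range f, (if s ^ 3 ≤ φ g then 1 / φ g else 0) ≤ 25 / s ^ 3 := by
    refine hB.trans ?_
    have h1 := hpos f
    have : 0 ≤ min (1 / s ^ 3) (1 / φ f) := by positivity
    linarith
  have hsum : ∑ g ∈ Finset.range f, eJ k0 c0 g j d ≤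
      wid j d * (12321 / 10000000) * (25 * X) + 25 / s ^ 3 := by
    refine (Finset.sum_le_sum fun g _ => hterm g).trans ?_
    rw [Finset.sum_add_distrib, ← Finset.mul_sum]
    gcongr
  refine hsum.trans ?_
  have h1 : wid j d * (12321 / 10000000) * (25 * X) ≤ 35 / 10000 * (3 / (100 * (j : ℝ))) := by
    have h2 : wid j d * (12321 / 10000000) * (25 * X) ≤
        ((3 * (j : ℝ) ^ 2 + 3 * j + 1) / 100 / (j : ℝ) ^ 6) * (12321 / 10000000) * (25 * X) := by
      gcongr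
    refine h2.trans ?_
    rw [hX]
    generalize (j : ℝ) = x at *
    have a3 : (3 * x ^ 2 + 3 * x + 1) * (x + 1) ^ 3 ≤ 3 * (10001 / 10000) * x ^ 5 := by
      have e : (3 * x ^ 2 + 3 * x + 1) * (x + 1) ^ 3 =
        3 * x ^ 5 + 12 * x ^ 4 + 19 * x ^ 3 + 15 * x ^ 2 + 6 * x + 1 := by ring
      rw [e]
      have p1 : x ^ 3 ≤ x ^ 4 := pow_le_pow_right₀ (by linarith) (by norm_num)
      have p2 : x ^ 2 ≤ x ^ 4 := pow_le_pow_right₀ (by linarith) (by norm_num)
      have p3 : x ≤ x ^ 4 := by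
        calc x = x ^ 1 := (pow_one x).symm
          _ ≤ x ^ 4 := pow_le_pow_right₀ (by linarith) (by norm_num)
      have p4 : 1 ≤ x ^ 4 := one_le_pow₀ (by linarith)
      have p5 : 1000000 * x ^ 4 ≤ x ^ 5 := by
        calc 1000000 * x ^ 4 ≤ x * x ^ 4 := by
              have : (1000000 : ℝ) ≤ x := by linarith
              gcongr
          _ = x ^ 5 := by ring
      linarith
    have e : ((3 * x ^ 2 + 3 * x + 1) / 100 / x ^ 6) * (12321 / 10000000) *
        (25 * (11 / 100 * (x + 1) ^ 3)) =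
        (12321 / 10000000) * (25 * (11 / 100)) / 100 *
          (((3 * x ^ 2 + 3 * x + 1) * (x + 1) ^ 3) / x ^ 6) := by
      field_simp
    rw [e]
    have h3 : ((3 * x ^ 2 + 3 * x + 1) * (x + 1) ^ 3) / x ^ 6 ≤ 3 * (10001 / 10000) / x := by
      rw [div_le_div_iff₀ (by positivity) hj0]
      nlinarith
    have h4 : 3 * (10001 / 10000) / x = 10001 / 100 * (3 / (100 * x)) := by
      field_simp
      norm_num
    rw [h4] at h3
    have h5 : 0 < 3 / (100 * x) := by positivity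
    linarith
  have h2 : 25 / s ^ 3 ≤ 65 / 10000 * (3 / (100 * (j : ℝ))) := by
    rw [hjs]
    have e : 65 / 10000 * (3 / (100 * s ^ 2)) = (195 / 1000000) / s ^ 2 := by
      field_simp
      norm_num
    rw [e, div_le_div_iff₀ (by positivity) (by positivity)]
    have : s ^ 3 = s * s ^ 2 := by ring
    rw [this]
    have h3 : (0 : ℝ) < s ^ 2 := by positivity
    nlinarith
  linarith

end Pool.Agent.LibMoser5
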