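import Pool.Agent.LibMoser5.AnWin
set_option autoImplicit false
namespace Pool.Agent.LibMoser5
open Classical

theorem AnFat_rp {y : ℝ} (hy : 0 < y) (m : ℕ) :
    (y ^ 16 : ℝ) ^ (-((m : ℝ) / 16)) = 1 / y ^ m := by
  rw [← Real.rpow_natCast y 16, ← Real.rpow_mul hy.le, ← Real.rpow_natCast y m, one_div,
    ← Real.rpow_neg hy.le]
  congr 1
  push_cast
  ring

/-- a real number `y` with `y^16 = k` -/
theorem AnFat_root {Y : ℝ} (hY : 0 ≤ Y) {k : ℕ} (hk : Y ^ 16 ≤ k) :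
    ∃ y : ℝ, Y ≤ y ∧ y ^ 16 = k := by
  refine ⟨(k : ℝ) ^ ((16 : ℕ) : ℝ)⁻¹, ?_, ?_⟩
  · rw [Real.le_rpow_inv_iff_of_pos hY (Nat.cast_nonneg k) (by norm_num), Real.rpow_natCast]
    exact hk
  · exact Real.rpow_inv_natCast_pow (Nat.cast_nonneg k) (by norm_num)

theorem AnFat_th {y : ℝ} (hy : 0 < y) {k : ℕ} (hk : y ^ 16 = k) :
    th k = 1001 / 1000 * (1 / y ^ 56) := by
  rw [th, ← hk]
  congr 1
  rw [← AnFat_rp hy 56]
  norm_num

theorem AnFat_th8 {y : ℝ} (hy : 0 < y) {k : ℕ} (hk : y ^ 16 = k) :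
    0 ≤ (th k) ^ (1 / 8 : ℝ) ∧ (th k) ^ (1 / 8 : ℝ) ≤ 1001 / 1000 * (1 / y ^ 7) := by
  rw [AnFat_th hy hk]
  refine ⟨by positivity, ?_⟩
  have h1 : (1001 / 1000 * (1 / y ^ 56) : ℝ) ≤ (1001 / 1000 * (1 / y ^ 7)) ^ 8 := by
    have e : (1001 / 1000 * (1 / y ^ 7) : ℝ) ^ 8 = (1001 / 1000) ^ 8 * (1 / y ^ 56) := by
      rw [mul_pow]
      congr 1
      rw [one_div, inv_pow, ← pow_mul, one_div]
    rw [e]
    have h0 : 0 ≤ 1 / y ^ 56 := by positivity
    exact mul_le_mul_of_nonneg_right (by norm_num) h0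
  calc (1001 / 1000 * (1 / y ^ 56) : ℝ) ^ (1 / 8 : ℝ)
      ≤ ((1001 / 1000 * (1 / y ^ 7)) ^ 8 : ℝ) ^ (1 / 8 : ℝ) :=
        Real.rpow_le_rpow (by positivity) h1 (by norm_num)
    _ = 1001 / 1000 * (1 / y ^ 7) := by
        have := Real.pow_rpow_inv_natCast (x := 1001 / 1000 * (1 / y ^ 7)) (n := 8)
          (by positivity) (by norm_num)
        rw [show (1 / 8 : ℝ) = ((8 : ℕ) : ℝ)⁻¹ by norm_num]
        exact this

theorem AnFat_tm_ge (c0 k : ℕ) : (k : ℝ) ^ 3 ≤ tm c0 k := by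
  unfold tm AA
  push_cast
  have h1 : (0 : ℝ) ≤ (GG k : ℝ) := Nat.cast_nonneg _
  have h2 : (0 : ℝ) ≤ (c0 : ℝ) := Nat.cast_nonneg _
  linarith

/-- the fat strips.  `h = H` has `√(0.08/C) k^(-3/2) ≤ h ≤ k^(-3/2)`, so `sF = ⌊h·tm⌋ ≥ c k^(3/2)`,
number of strips `≤ 3.001 k^2/sF + 100 ≤ C' √k`. -/
theorem an_fat (C : ℝ) (hC : 2 ≤ C) : ∃ k1 : ℕ, ∀ k ≥ k1, ∀ c0 : ℕ, c0 ≤ 4 * k ^ 2 → ∀ h : ℝ, 0 < h →
    8 / 100 * (1 / (k : ℝ) ^ 3) ≤ C * h ^ 2 → h ^ 2 ≤ 1 / (k : ℝ) ^ 3 →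
    1 ≤ ⌊h * tm c0 k⌋₊ ∧
    (3001 / 1000 * (k : ℝ) ^ 2 / ⌊h * tm c0 k⌋₊ + 100) / (k : ℝ) ^ 3 ≤ h / 2 ∧
    (3001 / 1000 * (k : ℝ) ^ 2 / ⌊h * tm c0 k⌋₊ + 100) * (2 / (k : ℝ) ^ 3 + 4 * h / k) + 100 * h +
      3001 / 1000 * (k : ℝ) ^ 2 * (2 * th k + (th k) ^ (1 / 8 : ℝ) / tm c0 k) ≤ src k := by
  have hC0 : 0 < C := by linarith
  set a : ℝ := Real.sqrt (8 / 100 / C) with ha
  have ha0 : 0 < a := Real.sqrt_pos.2 (by positivity)
  have haC : a ^ 2 = 8 / 100 / C := Real.sq_sqrt (by positivity)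
  have ha1 : a ≤ 1 / 5 := by
    have h1 : a ^ 2 ≤ (1 / 5) ^ 2 := by
      rw [haC, div_le_iff₀ hC0]
      norm_num
      linarith
    exact le_of_sq_le_sq h1 (by norm_num) |>.trans_eq rfl
  have hY0 : 0 ≤ max 108 (4 / a) := le_trans (by norm_num) (le_max_left _ _)
  obtain ⟨k1, hk1⟩ := exists_nat_ge ((max 108 (4 / a)) ^ 16)
  refine ⟨k1, fun k hk c0 _ h hh hh1 hh2 => ?_⟩
  obtain ⟨y, hyY, hyk⟩ := AnFat_root hY0 (k := k)
    (hk1.trans (by exact_mod_cast hk))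
  have hy108 : 108 ≤ y := (le_max_left _ _).trans hyY
  have hy0 : 0 < y := by linarith
  have hay : 4 ≤ a * y := by
    have := (le_max_right 108 (4 / a)).trans hyY
    rw [div_le_iff₀ ha0] at this
    linarith
  have htm := AnFat_tm_ge c0 k
  have hth := AnFat_th hy0 hyk
  obtain ⟨hth0, hth8⟩ := AnFat_th8 hy0 hyk
  have hsrc : src k = 5 * (1 / y ^ 23) := by
    rw [src, ← hyk]
    congr 1
    rw [← AnFat_rp hy0 23]
    norm_num
  rw [← hyk] at htm hh1 hh2 ⊢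
  have htm' : y ^ 48 ≤ tm c0 k := by
    calc y ^ 48 = (y ^ 16) ^ 3 := by ring
      _ ≤ _ := htm
  have htm0 : 0 < tm c0 k := lt_of_lt_of_le (by positivity) htm'
  -- bounds for h
  have hlo : a * (1 / y ^ 24) ≤ h := by
    have e1 : (a * (1 / y ^ 24)) ^ 2 ≤ h ^ 2 := by
      have e2 : (a * (1 / y ^ 24)) ^ 2 = (8 / 100 * (1 / (y ^ 16) ^ 3)) / C := by
        rw [mul_pow, haC]
        field_simp
      rw [e2, div_le_iff₀ hC0]
      linarith
    exact le_of_sq_le_sq e1 hh.le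
  have hhi : h ≤ 1 / y ^ 24 := by
    have e1 : h ^ 2 ≤ (1 / y ^ 24) ^ 2 := by
      refine hh2.trans (le_of_eq ?_)
      rw [div_pow, one_pow, ← pow_mul, ← pow_mul]
    exact le_of_sq_le_sq e1 (by positivity)
  set s : ℕ := ⌊h * tm c0 k⌋₊ with hs
  have hs2 : h * tm c0 k - 1 ≤ s := (Nat.sub_one_lt_floor _).le
  have hht : a * y ^ 24 ≤ h * tm c0 k := by
    calc a * y ^ 24 = (a * (1 / y ^ 24)) * y ^ 48 := by field_simp
      _ ≤ h * tm c0 k := mul_le_mul hlo htm' (by positivity) hh.le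
  have hy1 : (1 : ℝ) ≤ y := by linarith
  have hy24 : y ≤ y ^ 24 := le_self_pow₀ hy1 (by norm_num)
  have hay24 : 4 ≤ a * y ^ 24 := hay.trans (mul_le_mul_of_nonneg_left hy24 ha0.le)
  have hsσ : a / 2 * y ^ 24 ≤ (s : ℝ) := by linarith
  have hs0 : (0 : ℝ) < s := by linarith
  have hs1 : 1 ≤ s := by
    have : 0 < s := by exact_mod_cast hs0
    omega
  -- the number of strips
  have hQ : 3001 / 1000 * (y ^ 16) ^ 2 / s + 100 ≤ 8 / a * y ^ 8 := by
    have e1 : 3001 / 1000 * (y ^ 16) ^ 2 / s ≤ 3001 / 1000 * (y ^ 16) ^ 2 / (a / 2 * y ^ 24) :=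
      div_le_div_of_nonneg_left (by positivity) (by positivity) hsσ
    have e2 : 3001 / 1000 * (y ^ 16) ^ 2 / (a / 2 * y ^ 24) = 3001 / 500 * (y ^ 8 / a) := by
      field_simp
      ring
    have e3 : 100 ≤ 999 / 500 * (y ^ 8 / a) := by
      have f1 : y ≤ y ^ 8 := le_self_pow₀ hy1 (by norm_num)
      have f2 : y ^ 8 * 5 ≤ y ^ 8 / a := by
        rw [le_div_iff₀ ha0]
        have : 0 < y ^ 8 := by positivity
        nlinarith
      linarith
    have e4 : 8 / a * y ^ 8 = 8 * (y ^ 8 / a) := by ring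
    rw [e4]
    rw [e2] at e1
    linarith
  have hQ0 : 0 ≤ 3001 / 1000 * (y ^ 16) ^ 2 / s + 100 := by positivity
  refine ⟨hs1, ?_, ?_⟩
  · calc (3001 / 1000 * (y ^ 16) ^ 2 / s + 100) / (y ^ 16) ^ 3 ≤ (8 / a * y ^ 8) / (y ^ 16) ^ 3 :=
          div_le_div_of_nonneg_right hQ (by positivity)
      _ = 8 / (a * y ^ 40) := by field_simp
      _ ≤ a * (1 / y ^ 24) / 2 := by
          rw [div_le_iff₀ (by positivity)]
          have e1 : a * (1 / y ^ 24) / 2 * (a * y ^ 40) = (a * y ^ 8) ^ 2 / 2 := by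
            field_simp
          rw [e1]
          have f1 : y ≤ y ^ 8 := le_self_pow₀ hy1 (by norm_num)
          have f2 : 4 ≤ a * y ^ 8 := hay.trans (mul_le_mul_of_nonneg_left f1 ha0.le)
          nlinarith
      _ ≤ h / 2 := by linarith
  · rw [hsrc]
    have hp : 0 < 1 / y ^ 23 := by positivity
    -- first term
    have t1 : (3001 / 1000 * (y ^ 16) ^ 2 / s + 100) * (2 / (y ^ 16) ^ 3 + 4 * h / y ^ 16) ≤
        1 / 10 * (1 / y ^ 23) := by
      have e1 : 2 / (y ^ 16) ^ 3 + 4 * h / y ^ 16 ≤ 6 * (1 / y ^ 40) := by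
        have f1 : 4 * h / y ^ 16 ≤ 4 * (1 / y ^ 24) / y ^ 16 :=
          div_le_div_of_nonneg_right (by linarith) (by positivity)
        have f2 : 4 * (1 / y ^ 24) / y ^ 16 = 4 * (1 / y ^ 40) := by field_simp
        have f3 : 2 / (y ^ 16) ^ 3 ≤ 2 * (1 / y ^ 40) := by
          have f4 : 2 / (y ^ 16) ^ 3 = 2 * (1 / y ^ 48) := by field_simp
          have f5 : 1 / y ^ 48 ≤ 1 / y ^ 40 :=
            one_div_le_one_div_of_le (by positivity) (pow_le_pow_right₀ hy1 (by norm_num))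
          rw [f4]; linarith
        rw [f2] at f1
        linarith
      calc (3001 / 1000 * (y ^ 16) ^ 2 / s + 100) * (2 / (y ^ 16) ^ 3 + 4 * h / y ^ 16)
          ≤ (8 / a * y ^ 8) * (6 * (1 / y ^ 40)) := mul_le_mul hQ e1 (by positivity) (by positivity)
        _ = 48 / (a * y * y ^ 31) := by field_simp; ring
        _ ≤ 48 / (4 * y ^ 31) := by
            apply div_le_div_of_nonneg_left (by norm_num) (by positivity)
            exact mul_le_mul_of_nonneg_right hay (by positivity)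
        _ ≤ 1 / 10 * (1 / y ^ 23) := by
            rw [mul_one_div, div_le_div_iff₀ (by positivity) (by positivity)]
            have f1 : y ^ 2 ≤ y ^ 8 := pow_le_pow_right₀ hy1 (by norm_num)
            have f0 : (120 : ℝ) ≤ y ^ 8 := by nlinarith
            have f2 : y ^ 31 = y ^ 8 * y ^ 23 := by ring
            rw [f2]
            have f3 : 0 < y ^ 23 := by positivity
            have f4 := mul_le_mul_of_nonneg_right f0 f3.le
            linarith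
    have t2 : 100 * h ≤ 100 * (1 / y ^ 24) := by linarith
    have t3 : 3001 / 1000 * (y ^ 16) ^ 2 * (2 * th k + (th k) ^ (1 / 8 : ℝ) / tm c0 k) ≤
        7 * (1 / y ^ 24) + 301 / 100 * (1 / y ^ 23) := by
      have e1 : (th k) ^ (1 / 8 : ℝ) / tm c0 k ≤ 1001 / 1000 * (1 / y ^ 7) / y ^ 48 :=
        div_le_div₀ (by positivity) hth8 (by positivity) htm'
      have e2 : 2 * th k + (th k) ^ (1 / 8 : ℝ) / tm c0 k ≤
          2 * (1001 / 1000 * (1 / y ^ 56)) + 1001 / 1000 * (1 / y ^ 7) / y ^ 48 := by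
        rw [← hth]
        linarith
      have e3 := mul_le_mul_of_nonneg_left e2 (by positivity : 0 ≤ 3001 / 1000 * (y ^ 16) ^ 2)
      have e4 : 3001 / 1000 * (y ^ 16) ^ 2 * (2 * (1001 / 1000 * (1 / y ^ 56)) +
          1001 / 1000 * (1 / y ^ 7) / y ^ 48) = 3001 / 1000 * (2 * (1001 / 1000)) * (1 / y ^ 24) +
            3001 / 1000 * (1001 / 1000) * (1 / y ^ 23) := by
        field_simp
      rw [e4] at e3
      refine e3.trans ?_
      have : 0 < 1 / y ^ 24 := by positivity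
      nlinarith
    have t4 : 1 / y ^ 24 ≤ 1 / 108 * (1 / y ^ 23) := by
      have e1 : 1 / y ^ 24 = 1 / y * (1 / y ^ 23) := by field_simp
      rw [e1]
      exact mul_le_mul_of_nonneg_right (one_div_le_one_div_of_le (by norm_num) hy108) hp.le
    linarith

end Pool.Agent.LibMoser5
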