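import Pool.Agent.LibMoser5.AnWin
import Pool.Agent.LibMoser5.Cells
set_option autoImplicit false
namespace Pool.Agent.LibMoser5
open Classical

/-- `uppr - lowr = (1/edge k c - 1/edge k (c+1)) + (1/tm - 1/TT) ≤ (3.03+o(1))/k^4` -/
theorem an_gap : ∃ k1 : ℕ, ∀ k ≥ k1, ∀ c0 : ℕ, c0 ≤ 4 * k ^ 2 → ∀ c < 100,
    uppr c0 k c - lowr c0 k c ≤ 304 / 100 / (k : ℝ) ^ 4 := by
  obtain ⟨k3, hk3⟩ := an_w3
  refine ⟨max k3 100, fun k hk c0 _ c _ => ?_⟩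
  have hk3' := hk3 k (le_trans (le_max_left _ _) hk) c0
  have hk100 : 100 ≤ k := le_trans (le_max_right _ _) hk
  have hkR : (100 : ℝ) ≤ k := by exact_mod_cast hk100
  have hk0 : (0 : ℝ) < k := by linarith
  have hc0 : (0 : ℝ) ≤ c0 := Nat.cast_nonneg _
  have hw := wid_le (j := k) (by omega) c
  have e1 : uppr c0 k c - lowr c0 k c = wid k c + (1 / tm c0 k - 1 / TT c0 k) := by
    unfold uppr lowr wid; ring
  rw [e1]
  have htm : (k : ℝ) ^ 3 ≤ tm c0 k := by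
    unfold tm AA
    push_cast
    have : (0 : ℝ) ≤ GG k := Nat.cast_nonneg _
    linarith
  have hTT : (k : ℝ) ^ 3 ≤ TT c0 k := by
    unfold TT AA
    push_cast
    have : (0 : ℝ) ≤ GG (k + 1) := Nat.cast_nonneg _
    nlinarith [sq_nonneg (k : ℝ)]
  have hk30 : (0 : ℝ) < (k : ℝ) ^ 3 := by positivity
  have htm0 : 0 < tm c0 k := by linarith
  have hTT0 : 0 < TT c0 k := by linarith
  have hd : TT c0 k - tm c0 k ≤ 3001 / 1000 * (k : ℝ) ^ 2 := by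
    unfold TT tm
    linarith
  have h2 : 1 / tm c0 k - 1 / TT c0 k ≤ 3001 / 1000 / (k : ℝ) ^ 4 := by
    rw [div_sub_div _ _ htm0.ne' hTT0.ne', one_mul, mul_one]
    calc (TT c0 k - tm c0 k) / (tm c0 k * TT c0 k) ≤
        (3001 / 1000 * (k : ℝ) ^ 2) / ((k : ℝ) ^ 3 * (k : ℝ) ^ 3) := by
          apply div_le_div₀ (by positivity) hd (by positivity)
          exact mul_le_mul htm hTT hk30.le htm0.le
      _ = 3001 / 1000 / (k : ℝ) ^ 4 := by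
          field_simp
  have h3 : (3 * (k : ℝ) ^ 2 + 3 * k + 1) / 100 / (k : ℝ) ^ 6 ≤ 39 / 1000 / (k : ℝ) ^ 4 := by
    have h4 : (3 * (k : ℝ) ^ 2 + 3 * k + 1) / 100 ≤ 39 / 1000 * (k : ℝ) ^ 2 := by nlinarith
    calc (3 * (k : ℝ) ^ 2 + 3 * k + 1) / 100 / (k : ℝ) ^ 6
        ≤ (39 / 1000 * (k : ℝ) ^ 2) / (k : ℝ) ^ 6 := by
          apply div_le_div_of_nonneg_right h4 (by positivity)
      _ = 39 / 1000 / (k : ℝ) ^ 4 := by field_simp
  have h5 : 39 / 1000 / (k : ℝ) ^ 4 + 3001 / 1000 / (k : ℝ) ^ 4 = 304 / 100 / (k : ℝ) ^ 4 := by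
    rw [← add_div]; norm_num
  linarith

end Pool.Agent.LibMoser5
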