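import Pool.Agent.LibMoser5.AnTh
import Pool.Agent.LibMoser5.Cells
set_option autoImplicit false
namespace Pool.Agent.LibMoser5
open Classical

/-- if cell `(j,d)` is reached from block `k` then `k^(7/2) ≈ j^3`
(`lowr ≥ 1/(k+1)^3 - 1/tm`, `uppr ≤ 1/k^3 - 1/TT`; `an_th1`, `an_lo`) -/
theorem an_reach_jk : ∃ k1 : ℕ, ∀ k ≥ k1, ∀ c0 : ℕ, c0 ≤ 4 * k ^ 2 → ∀ j ≥ 1, ∀ c < 100, ∀ d < 100,
    Reach c0 k c j d → 998 / 1000 * (j : ℝ) ^ 3 ≤ (k : ℝ) ^ (7 / 2 : ℝ) ∧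
      (k : ℝ) ^ (7 / 2 : ℝ) ≤ 1001 / 1000 * ((j : ℝ) + 1) ^ 3 := by
  obtain ⟨k2, hk2⟩ := an_th1
  obtain ⟨k3, hk3⟩ := an_lo
  refine ⟨max (max k2 k3) 1, fun k hk c0 hc j hj c hc100 d hd hR => ?_⟩
  have hk2' := hk2 k (le_trans (le_trans (le_max_left _ _) (le_max_left _ _)) hk) c0 hc
  have hk3' := hk3 k (le_trans (le_trans (le_max_right _ _) (le_max_left _ _)) hk) c0 hc
  have hk1 : 1 ≤ k := le_trans (le_max_right _ _) hk
  have hk0 : (0 : ℝ) < k := by exact_mod_cast hk1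
  have hj0 : (0 : ℝ) < j := by exact_mod_cast hj
  obtain ⟨hR1, hR2⟩ := hR
  have hP : 0 < (k : ℝ) ^ (7 / 2 : ℝ) := Real.rpow_pos_of_pos hk0 _
  have hneg : (k : ℝ) ^ (-(7 / 2) : ℝ) = 1 / (k : ℝ) ^ (7 / 2 : ℝ) := by
    rw [Real.rpow_neg hk0.le, one_div]
  set P := (k : ℝ) ^ (7 / 2 : ℝ) with hPdef
  rw [hneg] at hk3'
  unfold th at hk2'
  rw [hneg] at hk2'
  constructor
  · -- lower bound
    have h1 : 1 / ((k : ℝ) + 1) ^ 3 ≤ 1 / edge k (c + 1) :=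
      one_div_le_one_div_of_le (edge_pos hk1 _) (edge_hi (by omega))
    have h2 : 1 / edge j d ≤ 1 / (j : ℝ) ^ 3 :=
      one_div_le_one_div_of_le (by positivity) (edge_lo j d)
    unfold lowr at hR1
    have h3 : 999 / 1000 * (1 / P) < 1 / (j : ℝ) ^ 3 := by linarith
    have h4 : 999 / 1000 * (j : ℝ) ^ 3 < P := by
      have h5 : 999 / 1000 * (1 / P) = (999 / 1000) / P := by ring
      rw [h5, div_lt_div_iff₀ hP (by positivity)] at h3
      linarith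
    have : 0 < (j : ℝ) ^ 3 := by positivity
    linarith
  · have h1 : 1 / edge k c ≤ 1 / (k : ℝ) ^ 3 :=
      one_div_le_one_div_of_le (by positivity) (edge_lo k c)
    have h2 : 1 / ((j : ℝ) + 1) ^ 3 ≤ 1 / edge j (d + 1) :=
      one_div_le_one_div_of_le (edge_pos hj _) (edge_hi (by omega))
    unfold uppr at hR2
    have h3 : 1 / ((j : ℝ) + 1) ^ 3 < 1001 / 1000 * (1 / P) := by linarith
    have h5 : 1001 / 1000 * (1 / P) = (1001 / 1000) / P := by ring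
    rw [h5, div_lt_div_iff₀ (by positivity) hP] at h3
    linarith

end Pool.Agent.LibMoser5
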