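import Pool.Agent.LibMoser5.AnDiff
import Pool.Agent.LibMoser5.AnGap
import Pool.Agent.LibMoser5.AnJK
set_option autoImplicit false
namespace Pool.Agent.LibMoser5
open Classical

theorem anint_tele (f : ℕ → ℝ) (a : ℕ) (δ : ℝ) (n : ℕ)
    (h : ∀ k, a ≤ k → k < a + n → δ ≤ f k - f (k + 1)) : n * δ ≤ f a - f (a + n) := by
  induction n with
  | zero => simp
  | succ n ih =>
    have h1 := ih (fun k hk1 hk2 => h k hk1 (by omega))
    have h2 := h (a + n) (by omega) (by omega)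
    push_cast
    have e : a + (n + 1) = a + n + 1 := by ring
    rw [e]
    linarith

/-- for fixed `c` the `k` from which cell `(j,d)` is reached lie in an interval of length `< 0.88 √k`:
`lowr k1 - lowr k2 < (uppr k2 - lowr k2) + wid j d ≤ 3.04/k2^4 + 0.01/k2^4` and `≥ (k2-k1) 3.49/k2^(9/2)`
(sum `an_diff` over `k ∈ [k1,k2)`).  `wid j d ≤ (3+o(1))/100/j^4` and `j^4 ≥ ((k^(7/2)/1.001)^(1/3)-1)^4 ≥ k^(9/2)`. -/
theorem an_interval : ∃ k1 : ℕ, ∀ k0 ≥ k1, ∀ c0 : ℕ, c0 ≤ 4 * k0 ^ 2 → ∀ j ≥ 1, ∀ c < 100, ∀ d < 100,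
    ∀ a b : ℕ, k0 ≤ a → a ≤ b → Reach c0 a c j d → Reach c0 b c j d →
      (b : ℝ) - a ≤ 874 / 1000 * (b : ℝ) ^ (1 / 2 : ℝ) := by
  obtain ⟨kd, hkd⟩ := an_diff
  obtain ⟨kg, hkg⟩ := an_gap
  obtain ⟨kj, hkj⟩ := an_reach_jk
  refine ⟨max (max kd kg) (max kj (10 ^ 14)), fun k0 hk0 c0 hc0 j hj c hc d hd a b ha hab hRa hRb => ?_⟩
  have hkd0 : kd ≤ k0 := le_trans (le_trans (le_max_left _ _) (le_max_left _ _)) hk0
  have hkg0 : kg ≤ k0 := le_trans (le_trans (le_max_right _ _) (le_max_left _ _)) hk0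
  have hkj0 : kj ≤ k0 := le_trans (le_trans (le_max_left _ _) (le_max_right _ _)) hk0
  have hkb0 : 10 ^ 14 ≤ k0 := le_trans (le_trans (le_max_right _ _) (le_max_right _ _)) hk0
  have hcc : ∀ k, k0 ≤ k → c0 ≤ 4 * k ^ 2 := fun k hk =>
    le_trans hc0 (Nat.mul_le_mul_left _ (Nat.pow_le_pow_left hk 2))
  have hb14 : 10 ^ 14 ≤ b := by omega
  have hs := anwin_big hb14
  have hb0 : (0 : ℝ) < b := by
    have : 0 < b := by omega
    exact_mod_cast this
  have hb2 : Real.sqrt b ^ 2 = b := Real.sq_sqrt hb0.le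
  have h92 : (b : ℝ) ^ (9 / 2 : ℝ) = Real.sqrt b ^ 9 := by
    have := anwin_pow b 9; norm_num at this; exact this
  have h72 : (b : ℝ) ^ (7 / 2 : ℝ) = Real.sqrt b ^ 7 := by
    have := anwin_pow b 7; norm_num at this; exact this
  -- telescoping
  have hlow : (b : ℝ) - a = ((b - a : ℕ) : ℝ) := by rw [Nat.cast_sub hab]
  have htel := anint_tele (fun k => lowr c0 k c) a (349 / 100 / (b : ℝ) ^ (9 / 2 : ℝ)) (b - a) (by
    intro k hk1 hk2
    have h1 := hkd k (by omega) c0 (hcc k (by omega)) c hc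
    refine le_trans ?_ h1
    apply div_le_div_of_nonneg_left (by norm_num) (by positivity)
    apply Real.rpow_le_rpow (by positivity) _ (by norm_num)
    have h2 : k + 1 ≤ b := by omega
    exact_mod_cast h2)
  rw [← hlow, Nat.add_sub_cancel' hab] at htel
  have hgap := hkg b (by omega) c0 (hcc b (by omega)) c hc
  obtain ⟨_, hjk⟩ := hkj b (by omega) c0 (hcc b (by omega)) j hj c hc d hd hRb
  have hup : lowr c0 a c - lowr c0 b c ≤ wid j d + 304 / 100 / (b : ℝ) ^ 4 := by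
    have h1 := hRa.1
    have h2 := hRb.2
    unfold wid
    linarith
  -- `j ≥ 2b`
  have hjb : 2 * (b : ℝ) ≤ j := by
    by_contra hcon
    push Not at hcon
    have hj3 : (j : ℝ) + 1 ≤ 3 * b := by
      have : (1 : ℝ) ≤ b := by
        have : 1 ≤ b := by omega
        exact_mod_cast this
      linarith
    have h3 : ((j : ℝ) + 1) ^ 3 ≤ (3 * b) ^ 3 := pow_le_pow_left₀ (by positivity) hj3 3
    have h4 : (3 * (b : ℝ)) ^ 3 = 27 * Real.sqrt b ^ 6 := by
      nth_rewrite 1 [← hb2]; ring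
    have h5 : Real.sqrt b ^ 7 = Real.sqrt b * Real.sqrt b ^ 6 := by ring
    rw [h72] at hjk
    have h6 : 0 < Real.sqrt b ^ 6 := by positivity
    nlinarith
  have hwid : wid j d ≤ 1 / 100 / (b : ℝ) ^ 4 := by
    refine le_trans (wid_le hj d) ?_
    have hj0 : (0 : ℝ) < j := by linarith
    have hj1 : (1 : ℝ) ≤ j := by exact_mod_cast hj
    have h1 : (3 * (j : ℝ) ^ 2 + 3 * j + 1) / 100 ≤ 7 / 100 * (j : ℝ) ^ 2 := by nlinarith
    calc (3 * (j : ℝ) ^ 2 + 3 * j + 1) / 100 / (j : ℝ) ^ 6 ≤ (7 / 100 * (j : ℝ) ^ 2) / (j : ℝ) ^ 6 :=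
          div_le_div_of_nonneg_right h1 (by positivity)
      _ = 7 / 100 / (j : ℝ) ^ 4 := by field_simp
      _ ≤ 7 / 100 / (2 * (b : ℝ)) ^ 4 := by
          apply div_le_div_of_nonneg_left (by norm_num) (by positivity)
          exact pow_le_pow_left₀ (by positivity) hjb 4
      _ = (7 / 1600) / (b : ℝ) ^ 4 := by
          rw [mul_pow]
          field_simp
          norm_num
      _ ≤ 1 / 100 / (b : ℝ) ^ 4 := by
          apply div_le_div_of_nonneg_right (by norm_num) (by positivity)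
  have hfin : ((b : ℝ) - a) * (349 / 100 / (b : ℝ) ^ (9 / 2 : ℝ)) ≤ 305 / 100 / (b : ℝ) ^ 4 := by
    have e : 305 / 100 / (b : ℝ) ^ 4 = 1 / 100 / (b : ℝ) ^ 4 + 304 / 100 / (b : ℝ) ^ 4 := by
      rw [← add_div]; norm_num
    rw [e]
    linarith
  rw [h92] at hfin
  have e4 : (b : ℝ) ^ 4 = Real.sqrt b ^ 8 := by
    nth_rewrite 1 [← hb2]; ring
  rw [e4] at hfin
  rw [← Real.sqrt_eq_rpow]
  set s := Real.sqrt b with hsdef
  have hs0 : 0 < s := by linarith
  have h7 : ((b : ℝ) - a) * (349 / 100 / s ^ 9) = (((b : ℝ) - a) * (349 / 100)) / s ^ 9 := by ring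
  rw [h7, div_le_div_iff₀ (by positivity) (by positivity)] at hfin
  have h8 : s ^ 9 = s * s ^ 8 := by ring
  rw [h8, ← mul_assoc] at hfin
  have h9 := le_of_mul_le_mul_right hfin (by positivity)
  nlinarith

end Pool.Agent.LibMoser5
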