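import Pool.Agent.LibMoser5.Defs
set_option autoImplicit false
namespace Pool.Agent.LibMoser5
open Classical

theorem an_log : ∃ k1 : ℕ, ∀ j ≥ k1,
    Real.log (100 * (j : ℝ) ^ 2) / (j : ℝ) ^ (5 / 4 : ℝ) ≤ 112 / 10000 * (3 / (100 * (j : ℝ))) := by
  have h1 := (isLittleO_log_rpow_atTop (r := 1 / 4) (by norm_num)).def
    (c := 1 / 10000) (by norm_num)
  have h2 := (tendsto_rpow_atTop (y := 1 / 4) (by norm_num)).eventually_ge_atTop
    (10000 * Real.log 100)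
  have h3 := Filter.eventually_ge_atTop (1 : ℝ)
  obtain ⟨x0, hx0⟩ := Filter.eventually_atTop.1 (h1.and (h2.and h3))
  refine ⟨⌈x0⌉₊ + 1, fun j hj => ?_⟩
  have hj0 : x0 ≤ (j : ℝ) := by
    have := Nat.le_ceil x0
    have h4 : ((⌈x0⌉₊ : ℕ) : ℝ) ≤ j := by exact_mod_cast (by omega : ⌈x0⌉₊ ≤ j)
    linarith
  obtain ⟨h4, h5, h6⟩ := hx0 j hj0
  have hjp : (0 : ℝ) < j := by linarith
  have hp : (0 : ℝ) < (j : ℝ) ^ (1 / 4 : ℝ) := by positivity
  rw [Real.norm_of_nonneg (Real.log_nonneg h6), Real.norm_of_nonneg hp.le] at h4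
  have e1 : Real.log (100 * (j : ℝ) ^ 2) = Real.log 100 + 2 * Real.log j := by
    rw [Real.log_mul (by norm_num) (by positivity), Real.log_pow]
    push_cast; ring
  have e2 : (j : ℝ) ^ (5 / 4 : ℝ) = j * (j : ℝ) ^ (1 / 4 : ℝ) := by
    rw [show (5 / 4 : ℝ) = 1 + 1 / 4 by norm_num, Real.rpow_add hjp, Real.rpow_one]
  rw [e1, e2, div_le_iff₀ (by positivity)]
  have e3 : 112 / 10000 * (3 / (100 * (j : ℝ))) * (j * (j : ℝ) ^ (1 / 4 : ℝ)) =
      336 / 1000000 * (j : ℝ) ^ (1 / 4 : ℝ) := by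
    field_simp; norm_num
  rw [e3]
  linarith

end Pool.Agent.LibMoser5
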