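import Pool.Agent.LibMoser5.AnInt
set_option autoImplicit false
namespace Pool.Agent.LibMoser5
open Classical

private theorem amj_real {j w wd : ℝ} (hj : 1000000 ≤ j) (hw : 1000000 ≤ w)
    (h1 : w ^ 7 ≤ 1001 / 1000 * (j + 1) ^ 3) (h2 : 998 / 1000 * j ^ 3 ≤ w ^ 7)
    (hwd : wd ≤ (3 * j ^ 2 + 3 * j + 1) / 100 / j ^ 6) :
    875 / 1000 * w * (10001 / 1000000 * (wd * (1002001 / 1000000) * w ^ 6 + 8 / w ^ 6)) ≤
      88 / 100 * (3 / (100 * j)) / 100 := by
  have hj0 : 0 < j := by linarith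
  have hw0 : 0 < w := by linarith
  have a1 : wd * w ^ 7 ≤ (10001 / 10000) * (1001 / 1000) * (3 / (100 * j)) := by
    have a2 : wd * w ^ 7 ≤
        ((3 * j ^ 2 + 3 * j + 1) / 100 / j ^ 6) * (1001 / 1000 * (j + 1) ^ 3) :=
      mul_le_mul hwd h1 (by positivity) (by positivity)
    refine a2.trans ?_
    have a3 : (3 * j ^ 2 + 3 * j + 1) * (j + 1) ^ 3 ≤ 3 * (10001 / 10000) * j ^ 5 := by
      have e : (3 * j ^ 2 + 3 * j + 1) * (j + 1) ^ 3 =
        3 * j ^ 5 + 12 * j ^ 4 + 19 * j ^ 3 + 15 * j ^ 2 + 6 * j + 1 := by ring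
      rw [e]
      have p1 : j ^ 3 ≤ j ^ 4 := pow_le_pow_right₀ (by linarith) (by norm_num)
      have p2 : j ^ 2 ≤ j ^ 4 := pow_le_pow_right₀ (by linarith) (by norm_num)
      have p3 : j ≤ j ^ 4 := by
        calc j = j ^ 1 := (pow_one j).symm
          _ ≤ j ^ 4 := pow_le_pow_right₀ (by linarith) (by norm_num)
      have p4 : 1 ≤ j ^ 4 := one_le_pow₀ (by linarith)
      have p5 : 1000000 * j ^ 4 ≤ j ^ 5 := by
        calc 1000000 * j ^ 4 ≤ j * j ^ 4 := by gcongr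
          _ = j ^ 5 := by ring
      linarith
    have e : ((3 * j ^ 2 + 3 * j + 1) / 100 / j ^ 6) * (1001 / 1000 * (j + 1) ^ 3) =
        (1001 / 100000) * (((3 * j ^ 2 + 3 * j + 1) * (j + 1) ^ 3) / j ^ 6) := by
      field_simp
      norm_num
    have e2 : (10001 / 10000) * (1001 / 1000) * (3 / (100 * j)) =
        (1001 / 100000) * ((3 * (10001 / 10000) * j ^ 5) / j ^ 6) := by
      field_simp
      norm_num
    rw [e, e2]
    gcongr
  have hjw : j ≤ w ^ 4 := by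
    have h3 : j ^ 3 ≤ (w ^ 4) ^ 3 := by
      have h4 : (w ^ 4) ^ 3 = w ^ 7 * w ^ 5 := by ring
      have h5 : (2 : ℝ) ≤ w ^ 5 := by
        calc (2 : ℝ) ≤ w := by linarith
          _ = w ^ 1 := (pow_one w).symm
          _ ≤ w ^ 5 := pow_le_pow_right₀ (by linarith) (by norm_num)
      have h6 : (0 : ℝ) < w ^ 7 := by positivity
      rw [h4]
      nlinarith
    exact le_of_pow_le_pow_left₀ (by norm_num) (by positivity) h3
  have a4 : 8 / w ^ 5 ≤ (1 / 1000) * (3 / (100 * j)) := by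
    have h3 : 8 / w ^ 5 ≤ 3 / 100000 / w ^ 4 := by
      rw [div_le_div_iff₀ (by positivity) (by positivity)]
      have h4 : (0 : ℝ) < w ^ 4 := by positivity
      have : w ^ 5 = w * w ^ 4 := by ring
      rw [this]
      nlinarith
    refine h3.trans ?_
    have h4 : (1 / 1000) * (3 / (100 * j)) = 3 / 100000 / j := by
      field_simp
      norm_num
    rw [h4]
    gcongr
  have e : 875 / 1000 * w * (10001 / 1000000 * (wd * (1002001 / 1000000) * w ^ 6 + 8 / w ^ 6)) =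
      875 / 1000 * (10001 / 1000000) * ((1002001 / 1000000) * (wd * w ^ 7) + 8 / w ^ 5) := by
    field_simp
  rw [e]
  have hB : (0 : ℝ) < 3 / (100 * j) := by positivity
  nlinarith

private theorem amj_sum (k0 c0 j d K : ℕ) :
    ∑ i ∈ Finset.Ico k0 K, mJ c0 i j d =
      ∑ c ∈ Finset.range 100, ∑ i ∈ (Finset.Ico k0 K).filter (fun i => Reach c0 i c j d),
        (1 / (i : ℝ) ^ 3) * (1 / 100 + 1 / (i : ℝ) ^ 2) * (wid j d * (TT c0 i) ^ 2 + 1) := by
  simp_rw [Finset.sum_filter]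
  rw [Finset.sum_comm]
  refine Finset.sum_congr rfl fun i _ => ?_
  unfold mJ nreach
  rw [Finset.card_filter]
  push_cast
  rw [Finset.mul_sum]
  refine Finset.sum_congr rfl fun c _ => ?_
  split_ifs <;> simp

/-- the sum of the mean masses.  For fixed `c`, by `an_interval` and `an_reach_jk`, with `b` the largest
`k ∈ Ico k0 K` reaching `(j,d)`: the number of `k` is `≤ 0.874 √b + 1 ≤ 0.875 √b`, each term is
`≤ (1/100)(1+o(1)) (wid j d · b^3 (1+o(1)) + 1/k^3)`, `wid j d ≤ (3/100)(1+o(1))/j^4`,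
`b^(7/2) ≤ 1.001 (j+1)^3`; sum over the 100 values of `c`.  With `TT^2 ≤ (1.001 k^3)^2` (`an_w4`) the total constant is
`0.875 · 1.002001 · 1.001 · (1+o(1)) = 0.8777 (1+o(1)) ≤ 0.88`. -/
theorem an_mJ_sum : ∃ k1 : ℕ, ∀ k0 ≥ k1, ∀ c0 : ℕ, c0 ≤ 4 * k0 ^ 2 → ∀ j ≥ k0, ∀ d < 100, ∀ K : ℕ,
    ∑ i ∈ Finset.Ico k0 K, mJ c0 i j d ≤ 88 / 100 * (3 / (100 * (j : ℝ))) := by
  obtain ⟨q1, H1⟩ := an_interval
  obtain ⟨q2, H2⟩ := an_reach_jk
  obtain ⟨q3, H3⟩ := an_w4
  refine ⟨q1 + q2 + q3 + 1000000000000, fun k0 hk0 c0 hc0 j hj d hd K => ?_⟩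
  have hj1 : 1 ≤ j := by omega
  have hjR : (1000000 : ℝ) ≤ (j : ℝ) := by
    have : 1000000 ≤ j := by omega
    exact_mod_cast this
  rw [amj_sum]
  have hgoal : ∀ c ∈ Finset.range 100,
      ∑ i ∈ (Finset.Ico k0 K).filter (fun i => Reach c0 i c j d),
        (1 / (i : ℝ) ^ 3) * (1 / 100 + 1 / (i : ℝ) ^ 2) * (wid j d * (TT c0 i) ^ 2 + 1) ≤
      88 / 100 * (3 / (100 * (j : ℝ))) / 100 := by
    intro c hc
    have hc' : c < 100 := Finset.mem_range.1 hc
    set S := (Finset.Ico k0 K).filter (fun i => Reach c0 i c j d) with hS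
    rcases S.eq_empty_or_nonempty with hSe | hSn
    · rw [hSe, Finset.sum_empty]
      positivity
    set b := S.max' hSn with hb
    have hbS : b ∈ S := Finset.max'_mem _ _
    have hbk : k0 ≤ b := by
      have := (Finset.mem_filter.1 hbS).1
      exact (Finset.mem_Ico.1 this).1
    have hbR : Reach c0 b c j d := (Finset.mem_filter.1 hbS).2
    have hc0b : c0 ≤ 4 * b ^ 2 := hc0.trans (by gcongr)
    have hreach := H2 b (by omega) c0 hc0b j hj1 c hc' d hd hbR
    set w : ℝ := Real.sqrt b with hw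
    have hbR0 : (0 : ℝ) ≤ (b : ℝ) := Nat.cast_nonneg b
    have hb12 : (1000000000000 : ℝ) ≤ (b : ℝ) := by
      have : 1000000000000 ≤ b := by omega
      exact_mod_cast this
    have hw0 : 0 ≤ w := Real.sqrt_nonneg _
    have hbw : (b : ℝ) = w ^ 2 := (Real.sq_sqrt hbR0).symm
    have hwl : 1000000 ≤ w := by
      rw [hw]
      apply Real.le_sqrt_of_sq_le
      linarith [show (1000000 : ℝ) ^ 2 = 1000000000000 by norm_num]
    have e72 : (b : ℝ) ^ (7 / 2 : ℝ) = w ^ 7 := by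
      rw [hbw, ← Real.rpow_natCast w 2, ← Real.rpow_mul hw0, ← Real.rpow_natCast w 7]
      congr 1
      norm_num
    have e12 : (b : ℝ) ^ (1 / 2 : ℝ) = w := by
      rw [hw, Real.sqrt_eq_rpow]
    rw [e72] at hreach
    have hwid := wid_le hj1 d
    have hwid0 := wid_nonneg hj1 d
    -- elements of S
    have hmem : ∀ i ∈ S, i ≤ b ∧ (b : ℝ) - i ≤ 874 / 1000 * w ∧ k0 ≤ i := by
      intro i hi
      have h1 : i ≤ b := Finset.le_max' _ _ hi
      have h2 := Finset.mem_filter.1 hi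
      have h3 : k0 ≤ i := (Finset.mem_Ico.1 h2.1).1
      have h4 := H1 k0 (by omega) c0 hc0 j hj1 c hc' d hd i b h3 h1 h2.2 hbR
      rw [e12] at h4
      exact ⟨h1, h4, h3⟩
    have hcard : (S.card : ℝ) ≤ 875 / 1000 * w := by
      have hsub : S ⊆ Finset.Icc (b - ⌊874 / 1000 * w⌋₊) b := by
        intro i hi
        obtain ⟨h1, h2, _⟩ := hmem i hi
        rw [Finset.mem_Icc]
        refine ⟨?_, h1⟩
        have h3 : b - i ≤ ⌊874 / 1000 * w⌋₊ := by
          apply Nat.le_floor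
          rw [Nat.cast_sub h1]
          exact h2
        omega
      have h1 := Finset.card_le_card hsub
      rw [Nat.card_Icc] at h1
      have h2 : S.card ≤ ⌊874 / 1000 * w⌋₊ + 1 := by omega
      have h3 : (⌊874 / 1000 * w⌋₊ : ℝ) ≤ 874 / 1000 * w := Nat.floor_le (by positivity)
      have h4 : (S.card : ℝ) ≤ (⌊874 / 1000 * w⌋₊ : ℝ) + 1 := by exact_mod_cast h2
      linarith
    have hterm : ∀ i ∈ S, (1 / (i : ℝ) ^ 3) * (1 / 100 + 1 / (i : ℝ) ^ 2) *
        (wid j d * (TT c0 i) ^ 2 + 1) ≤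
        10001 / 1000000 * (wid j d * (1002001 / 1000000) * w ^ 6 + 8 / w ^ 6) := by
      intro i hi
      obtain ⟨h1, h2, h3⟩ := hmem i hi
      have hi12 : (1000000000000 : ℝ) ≤ (i : ℝ) := by
        have : 1000000000000 ≤ i := by omega
        exact_mod_cast this
      have hib : (i : ℝ) ≤ w ^ 2 := by
        rw [← hbw]; exact_mod_cast h1
      have hi2 : w ^ 2 / 2 ≤ (i : ℝ) := by
        rw [hbw] at h2
        nlinarith
      have hT := H3 i (by omega) c0 (hc0.trans (by gcongr))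
      have hT0 : (0 : ℝ) ≤ (AA c0 (i + 1) : ℝ) := Nat.cast_nonneg _
      have hi0 : (0 : ℝ) < (i : ℝ) := by linarith
      have t1 : (TT c0 i) ^ 2 ≤ 1002001 / 1000000 * (i : ℝ) ^ 6 := by
        unfold TT
        calc (AA c0 (i + 1) : ℝ) ^ 2 ≤ (1001 / 1000 * (i : ℝ) ^ 3) ^ 2 := by gcongr
          _ = 1002001 / 1000000 * (i : ℝ) ^ 6 := by ring
      have t2 : 1 / 100 + 1 / (i : ℝ) ^ 2 ≤ 10001 / 1000000 := by
        have : 1 / (i : ℝ) ^ 2 ≤ 1 / 1000000 := by
          apply one_div_le_one_div_of_le (by norm_num)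
          nlinarith
        linarith
      have t3 : (1 / (i : ℝ) ^ 3) * (wid j d * (TT c0 i) ^ 2 + 1) ≤
          wid j d * (1002001 / 1000000) * w ^ 6 + 8 / w ^ 6 := by
        have u1 : (1 / (i : ℝ) ^ 3) * (wid j d * (TT c0 i) ^ 2 + 1) ≤
            (1 / (i : ℝ) ^ 3) * (wid j d * (1002001 / 1000000 * (i : ℝ) ^ 6) + 1) := by
          gcongr
        have u2 : (1 / (i : ℝ) ^ 3) * (wid j d * (1002001 / 1000000 * (i : ℝ) ^ 6) + 1) =
            wid j d * (1002001 / 1000000) * (i : ℝ) ^ 3 + 1 / (i : ℝ) ^ 3 := by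
          field_simp
        rw [u2] at u1
        refine u1.trans ?_
        have u3 : (i : ℝ) ^ 3 ≤ w ^ 6 := by
          calc (i : ℝ) ^ 3 ≤ (w ^ 2) ^ 3 := by gcongr
            _ = w ^ 6 := by ring
        have u4 : 1 / (i : ℝ) ^ 3 ≤ 8 / w ^ 6 := by
          have hwp : (0 : ℝ) < w := by linarith
          have u5 : w ^ 6 / 8 ≤ (i : ℝ) ^ 3 := by
            calc w ^ 6 / 8 = (w ^ 2 / 2) ^ 3 := by ring
              _ ≤ (i : ℝ) ^ 3 := by gcongr
          calc 1 / (i : ℝ) ^ 3 ≤ 1 / (w ^ 6 / 8) := by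
                apply one_div_le_one_div_of_le (by positivity) u5
            _ = 8 / w ^ 6 := by field_simp
        gcongr
      have e : (1 / (i : ℝ) ^ 3) * (1 / 100 + 1 / (i : ℝ) ^ 2) *
        (wid j d * (TT c0 i) ^ 2 + 1) = (1 / 100 + 1 / (i : ℝ) ^ 2) *
        ((1 / (i : ℝ) ^ 3) * (wid j d * (TT c0 i) ^ 2 + 1)) := by ring
      rw [e]
      have : 0 ≤ (1 / (i : ℝ) ^ 3) * (wid j d * (TT c0 i) ^ 2 + 1) := by positivity
      exact mul_le_mul t2 t3 this (by norm_num)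
    have hsum := Finset.sum_le_card_nsmul S _ _ hterm
    refine hsum.trans ?_
    rw [nsmul_eq_mul]
    refine le_trans ?_ (amj_real hjR hwl hreach.2 hreach.1 hwid)
    have hwp : (0 : ℝ) < w := by linarith
    have : 0 ≤ 10001 / 1000000 * (wid j d * (1002001 / 1000000) * w ^ 6 + 8 / w ^ 6) := by
      positivity
    exact mul_le_mul_of_nonneg_right hcard this
  refine (Finset.sum_le_sum hgoal).trans ?_
  rw [Finset.sum_const, Finset.card_range, nsmul_eq_mul]
  push_cast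
  linarith

end Pool.Agent.LibMoser5
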