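import Pool.Agent.LibMoser5.AnWin
set_option autoImplicit false
namespace Pool.Agent.LibMoser5
open Classical

theorem AnRow_rp {y : ℝ} (hy : 0 < y) (m : ℕ) :
    (y ^ 16 : ℝ) ^ (-((m : ℝ) / 16)) = 1 / y ^ m := by
  rw [← Real.rpow_natCast y 16, ← Real.rpow_mul hy.le, ← Real.rpow_natCast y m, one_div,
    ← Real.rpow_neg hy.le]
  congr 1
  push_cast
  ring

/-- a real number `y` with `y^16 = k` -/
theorem AnRow_root {Y : ℝ} (hY : 0 ≤ Y) {k : ℕ} (hk : Y ^ 16 ≤ k) :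
    ∃ y : ℝ, Y ≤ y ∧ y ^ 16 = k := by
  refine ⟨(k : ℝ) ^ ((16 : ℕ) : ℝ)⁻¹, ?_, ?_⟩
  · rw [Real.le_rpow_inv_iff_of_pos hY (Nat.cast_nonneg k) (by norm_num), Real.rpow_natCast]
    exact hk
  · exact Real.rpow_inv_natCast_pow (Nat.cast_nonneg k) (by norm_num)

theorem AnRow_th {y : ℝ} (hy : 0 < y) {k : ℕ} (hk : y ^ 16 = k) :
    th k = 1001 / 1000 * (1 / y ^ 56) := by
  rw [th, ← hk]
  congr 1
  rw [← AnRow_rp hy 56]
  norm_num

theorem AnRow_th8 {y : ℝ} (hy : 0 < y) {k : ℕ} (hk : y ^ 16 = k) :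
    0 ≤ (th k) ^ (1 / 8 : ℝ) ∧ (th k) ^ (1 / 8 : ℝ) ≤ 1001 / 1000 * (1 / y ^ 7) := by
  rw [AnRow_th hy hk]
  refine ⟨by positivity, ?_⟩
  have h1 : (1001 / 1000 * (1 / y ^ 56) : ℝ) ≤ (1001 / 1000 * (1 / y ^ 7)) ^ 8 := by
    have e : (1001 / 1000 * (1 / y ^ 7) : ℝ) ^ 8 = (1001 / 1000) ^ 8 * (1 / y ^ 56) := by
      rw [mul_pow]
      congr 1
      rw [one_div, inv_pow, ← pow_mul, one_div]
    rw [e]
    have h0 : 0 ≤ 1 / y ^ 56 := by positivity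
    exact mul_le_mul_of_nonneg_right (by norm_num) h0
  calc (1001 / 1000 * (1 / y ^ 56) : ℝ) ^ (1 / 8 : ℝ)
      ≤ ((1001 / 1000 * (1 / y ^ 7)) ^ 8 : ℝ) ^ (1 / 8 : ℝ) :=
        Real.rpow_le_rpow (by positivity) h1 (by norm_num)
    _ = 1001 / 1000 * (1 / y ^ 7) := by
        have := Real.pow_rpow_inv_natCast (x := 1001 / 1000 * (1 / y ^ 7)) (n := 8)
          (by positivity) (by norm_num)
        rw [show (1 / 8 : ℝ) = ((8 : ℕ) : ℝ)⁻¹ by norm_num]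
        exact this

theorem AnRow_tm_ge (c0 k : ℕ) : (k : ℝ) ^ 3 ≤ tm c0 k := by
  unfold tm AA
  push_cast
  have h1 : (0 : ℝ) ≤ (GG k : ℝ) := Nat.cast_nonneg _
  have h2 : (0 : ℝ) ≤ (c0 : ℝ) := Nat.cast_nonneg _
  linarith

theorem AnRow_TT_ge (c0 k : ℕ) : ((k : ℝ) + 1) ^ 3 ≤ TT c0 k := by
  unfold TT AA
  push_cast
  have h1 : (0 : ℝ) ≤ (GG (k + 1) : ℝ) := Nat.cast_nonneg _
  have h2 : (0 : ℝ) ≤ (c0 : ℝ) := Nat.cast_nonneg _
  linarith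

/-- a served S-row costs at most its budget:
`s ≤ b·tm`, `s ≥ b·tm - 1`, so `b - s/TT ≤ b (TT-tm)/TT + 1/TT ≤ 4b/k + τ`, and
`s (2 th k + (th k)^(1/8)/tm) ≤ b (2.1 k^(-1/2) + 1.01 k^(-7/16))`; in total
`4/k + 2.1 k^(-1/2) + 1.01 k^(-7/16) ≤ (k+1)^(-3/8) ≤ τ^(1/8)` for large `k` -/
theorem an_srow : ∃ k1 : ℕ, ∀ k ≥ k1, ∀ c0 : ℕ, c0 ≤ 4 * k ^ 2 → ∀ r : ℝ × ℝ, inBlock k r.1 →
    0 ≤ r.2 → cb c0 k (rowJob (tm c0 k) r) ≤ om r := by
  obtain ⟨a1, h1⟩ := an_w3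
  obtain ⟨a2, h2⟩ := an_w4
  refine ⟨a1 + a2 + 11 ^ 16, ?_⟩
  rintro k hk c0 hc0 ⟨τ, b⟩ hr hb
  obtain ⟨hr1, hr2⟩ := hr
  change 1 / ((k : ℝ) + 1) ^ 3 < τ at hr1
  change 0 ≤ b at hb
  have w3 := h1 k (by omega) c0
  have w4 := h2 k (by omega) c0 hc0
  obtain ⟨y, hy11, hyk⟩ := AnRow_root (Y := 11) (by norm_num) (k := k)
    (by exact_mod_cast (by omega : 11 ^ 16 ≤ k))
  have hy : 0 < y := by linarith
  have hTT := AnRow_TT_ge c0 k
  have htm := AnRow_tm_ge c0 k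
  have hth := AnRow_th hy hyk
  obtain ⟨hth0, hth8⟩ := AnRow_th8 hy hyk
  have hTTtm : TT c0 k - tm c0 k ≤ 3001 / 1000 * (k : ℝ) ^ 2 := by
    unfold TT tm
    linarith
  have hTT4 : TT c0 k ≤ 1001 / 1000 * (k : ℝ) ^ 3 := w4
  have htmTT : tm c0 k ≤ TT c0 k := by
    have := an_w2 k c0
    unfold TT tm
    have hk1 : (1 : ℝ) ≤ k := by
      have : 1 ≤ k := by omega
      exact_mod_cast this
    nlinarith
  rw [← hyk] at hTT htm hTTtm hTT4 hr1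
  have hK3 : (0 : ℝ) < (y ^ 16) ^ 3 := by positivity
  have htm0 : 0 < tm c0 k := lt_of_lt_of_le hK3 htm
  have hTT0 : 0 < TT c0 k := lt_of_lt_of_le (by positivity) hTT
  set s : ℕ := ⌊b * tm c0 k⌋₊ with hs
  have hs1 : (s : ℝ) ≤ b * tm c0 k := Nat.floor_le (by positivity)
  have hs2 : b * tm c0 k - 1 ≤ s := (Nat.sub_one_lt_floor _).le
  have hs0 : (0 : ℝ) ≤ s := Nat.cast_nonneg s
  have hτ : 1 / TT c0 k ≤ τ := le_trans (one_div_le_one_div_of_le (by positivity) hTT) hr1.le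
  -- first part
  have hA : b - s / TT c0 k ≤ b * (3001 / 1000 * (1 / y ^ 16)) + τ := by
    have e1 : b - s / TT c0 k ≤ b * ((TT c0 k - tm c0 k) / TT c0 k) + 1 / TT c0 k := by
      rw [mul_div_assoc', ← add_div, sub_le_iff_le_add, ← add_div, le_div_iff₀ hTT0]
      linarith
    have e2 : (TT c0 k - tm c0 k) / TT c0 k ≤ 3001 / 1000 * (1 / y ^ 16) := by
      rw [div_le_iff₀ hTT0]
      have e3 : 3001 / 1000 * (1 / y ^ 16) * (y ^ 16 + 1) ^ 3 ≤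
          3001 / 1000 * (1 / y ^ 16) * TT c0 k := mul_le_mul_of_nonneg_left hTT (by positivity)
      have e4 : 3001 / 1000 * (y ^ 16) ^ 2 ≤ 3001 / 1000 * (1 / y ^ 16) * (y ^ 16 + 1) ^ 3 := by
        have e5 : (y ^ 16) ^ 3 ≤ (y ^ 16 + 1) ^ 3 := pow_le_pow_left₀ (by positivity) (by linarith) 3
        calc 3001 / 1000 * (y ^ 16) ^ 2 = 3001 / 1000 * (1 / y ^ 16) * (y ^ 16) ^ 3 := by
              field_simp
          _ ≤ _ := mul_le_mul_of_nonneg_left e5 (by positivity)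
      linarith
    have e6 := mul_le_mul_of_nonneg_left e2 hb
    linarith
  -- second part
  have hB : s * (2 * th k + (th k) ^ (1 / 8 : ℝ) / tm c0 k) ≤
      b * (201 / 100 * (1 / y ^ 8) + 1001 / 1000 * (1 / y ^ 7)) := by
    have hth' : 0 ≤ th k := by rw [hth]; positivity
    have e1 : s * (2 * th k + (th k) ^ (1 / 8 : ℝ) / tm c0 k) ≤
        b * tm c0 k * (2 * th k + (th k) ^ (1 / 8 : ℝ) / tm c0 k) :=
      mul_le_mul_of_nonneg_right hs1 (by positivity)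
    have e2 : b * tm c0 k * (2 * th k + (th k) ^ (1 / 8 : ℝ) / tm c0 k) =
        b * (2 * (tm c0 k * th k) + (th k) ^ (1 / 8 : ℝ)) := by
      field_simp
    have e3 : tm c0 k * th k ≤ 1003 / 1000 * (1 / y ^ 8) := by
      have e4 : tm c0 k ≤ 1001 / 1000 * (y ^ 16) ^ 3 := htmTT.trans hTT4
      have e5 : tm c0 k * th k ≤ 1001 / 1000 * (y ^ 16) ^ 3 * th k :=
        mul_le_mul_of_nonneg_right e4 hth'
      have e6 : 1001 / 1000 * (y ^ 16) ^ 3 * th k = (1001 / 1000) ^ 2 * (1 / y ^ 8) := by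
        rw [hth]; field_simp
      have e7 : 0 < 1 / y ^ 8 := by positivity
      rw [e6] at e5
      nlinarith
    rw [e2] at e1
    refine e1.trans (mul_le_mul_of_nonneg_left ?_ hb)
    have : 0 < 1 / y ^ 8 := by positivity
    linarith
  -- the budget
  have hC : 1 / (2 * y ^ 6) ≤ τ ^ (1 / 8 : ℝ) := by
    have e1 : (1 / (2 * y ^ 6)) ^ 8 ≤ τ := by
      refine le_trans ?_ hr1.le
      rw [div_pow, one_pow]
      apply one_div_le_one_div_of_le (by positivity)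
      have e2 : (1 : ℝ) ≤ y ^ 16 := one_le_pow₀ (by linarith)
      have e3 : (y ^ 16 + 1) ^ 3 ≤ (2 * y ^ 16) ^ 3 :=
        pow_le_pow_left₀ (by positivity) (by linarith) 3
      refine e3.trans ?_
      have e4 : 0 < y ^ 48 := by positivity
      calc (2 * y ^ 16) ^ 3 = 8 * y ^ 48 := by ring
        _ ≤ 256 * y ^ 48 := by linarith
        _ = (2 * y ^ 6) ^ 8 := by ring
    calc 1 / (2 * y ^ 6) = ((1 / (2 * y ^ 6)) ^ 8 : ℝ) ^ (1 / 8 : ℝ) := by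
          have := Real.pow_rpow_inv_natCast (x := 1 / (2 * y ^ 6)) (n := 8)
            (by positivity) (by norm_num)
          rw [show (1 / 8 : ℝ) = ((8 : ℕ) : ℝ)⁻¹ by norm_num]
          exact this.symm
      _ ≤ τ ^ (1 / 8 : ℝ) := Real.rpow_le_rpow (by positivity) e1 (by norm_num)
  have hD : 3001 / 1000 * (1 / y ^ 16) + (201 / 100 * (1 / y ^ 8) + 1001 / 1000 * (1 / y ^ 7)) ≤
      1 / (2 * y ^ 6) := by
    have i1 : 1 / y ^ 16 ≤ 1 / (11 ^ 2 * y ^ 6) := by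
      apply one_div_le_one_div_of_le (by positivity)
      have : (11 : ℝ) ^ 2 ≤ y ^ 10 := by
        calc (11 : ℝ) ^ 2 ≤ 11 ^ 10 := by norm_num
          _ ≤ y ^ 10 := pow_le_pow_left₀ (by norm_num) hy11 10
      calc 11 ^ 2 * y ^ 6 ≤ y ^ 10 * y ^ 6 := mul_le_mul_of_nonneg_right this (by positivity)
        _ = y ^ 16 := by ring
    have i2 : 1 / y ^ 8 ≤ 1 / (11 ^ 2 * y ^ 6) := by
      apply one_div_le_one_div_of_le (by positivity)
      calc 11 ^ 2 * y ^ 6 ≤ y ^ 2 * y ^ 6 :=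
            mul_le_mul_of_nonneg_right (pow_le_pow_left₀ (by norm_num) hy11 2) (by positivity)
        _ = y ^ 8 := by ring
    have i3 : 1 / y ^ 7 ≤ 1 / (11 * y ^ 6) := by
      apply one_div_le_one_div_of_le (by positivity)
      calc 11 * y ^ 6 ≤ y * y ^ 6 := mul_le_mul_of_nonneg_right hy11 (by positivity)
        _ = y ^ 7 := by ring
    have j0 : 0 < 1 / y ^ 6 := by positivity
    have j1 : 1 / (11 ^ 2 * y ^ 6) = 1 / 121 * (1 / y ^ 6) := by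
      rw [show (11 : ℝ) ^ 2 = 121 by norm_num]; field_simp
    have j2 : 1 / (11 * y ^ 6) = 1 / 11 * (1 / y ^ 6) := by field_simp
    have j3 : 1 / (2 * y ^ 6) = 1 / 2 * (1 / y ^ 6) := by field_simp
    rw [j3]
    rw [j1] at i1 i2
    rw [j2] at i3
    linarith
  have hE := mul_le_mul_of_nonneg_left (hD.trans hC) hb
  change τ + (b - s / TT c0 k) + s * (2 * th k + (th k) ^ (1 / 8 : ℝ) / tm c0 k) ≤
    2 * τ + b * τ ^ (1 / 8 : ℝ)
  have hF : b * (3001 / 1000 * (1 / y ^ 16) + (201 / 100 * (1 / y ^ 8) +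
      1001 / 1000 * (1 / y ^ 7))) = b * (3001 / 1000 * (1 / y ^ 16)) +
      b * (201 / 100 * (1 / y ^ 8) + 1001 / 1000 * (1 / y ^ 7)) := by ring
  linarith

/-- pieces created in an E-step are cheap -/
theorem an_erow : ∃ k1 : ℕ, ∀ t τ : ℝ, (k1 : ℝ) ≤ t → 0 ≤ τ → τ ≤ 11 / 100 / t →
    om (τ, 1 / t) ≤ 1 / 2 * (1 / t) := by
  refine ⟨7300, fun t τ ht hτ hτt => ?_⟩
  have ht' : (7300 : ℝ) ≤ t := by exact_mod_cast ht
  have ht0 : 0 < t := by linarith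
  have h1 : τ ≤ (1 / 4) ^ 8 := by
    refine hτt.trans ?_
    rw [div_le_iff₀ ht0]
    norm_num
    linarith
  have h2 : τ ^ (1 / 8 : ℝ) ≤ 1 / 4 := by
    calc τ ^ (1 / 8 : ℝ) ≤ ((1 / 4) ^ 8 : ℝ) ^ (1 / 8 : ℝ) := Real.rpow_le_rpow hτ h1 (by norm_num)
      _ = 1 / 4 := by
          have := Real.pow_rpow_inv_natCast (x := (1 / 4 : ℝ)) (n := 8)
            (by positivity) (by norm_num)
          rw [show (1 / 8 : ℝ) = ((8 : ℕ) : ℝ)⁻¹ by norm_num]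
          exact this
  have h3 : 0 < 1 / t := by positivity
  have h4 : 11 / 100 / t = 11 / 100 * (1 / t) := by ring
  rw [h4] at hτt
  change 2 * τ + 1 / t * τ ^ (1 / 8 : ℝ) ≤ 1 / 2 * (1 / t)
  nlinarith

end Pool.Agent.LibMoser5
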