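import Pool.Agent.LibMoser5.Defs
set_option autoImplicit false
namespace Pool.Agent.LibMoser5
open Classical

/-- `∑_{j ≥ k} 1/j^4 ≤ 1/(3(k-1)^3)` -/
theorem an_s4 : ∃ k1 : ℕ, ∀ k ≥ k1, ∀ Jm : ℕ,
    ∑ j ∈ Finset.Ico k Jm, (273 / 100) / (j : ℝ) ^ 4 ≤ 912 / 1000 * (1 / (k : ℝ) ^ 3) := by
  refine ⟨2000, fun k hk Jm => ?_⟩
  have hk' : (2000 : ℝ) ≤ k := by exact_mod_cast hk
  have key : ∀ n : ℕ, ∑ j ∈ Finset.Ico k (k + n), (273 / 100) / (j : ℝ) ^ 4 ≤
      (91 / 100) * (1 / ((k : ℝ) - 1) ^ 3 - 1 / ((k : ℝ) + n - 1) ^ 3) := by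
    intro n
    induction n with
    | zero => simp
    | succ n ih =>
      rw [← add_assoc, Finset.sum_Ico_succ_top (by omega)]
      have hx : (1 : ℝ) ≤ (k : ℝ) + n - 1 := by
        have : (0 : ℝ) ≤ n := Nat.cast_nonneg n
        linarith
      set x : ℝ := (k : ℝ) + n - 1 with hxd
      have e1 : (((k + n : ℕ) : ℝ)) = x + 1 := by push_cast; rw [hxd]; ring
      have e2 : (k : ℝ) + ((n + 1 : ℕ) : ℝ) - 1 = x + 1 := by push_cast; rw [hxd]; ring
      rw [e1, e2]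
      have h3 : (273 / 100) / (x + 1) ^ 4 ≤ (91 / 100) * (1 / x ^ 3 - 1 / (x + 1) ^ 3) := by
        have hx0 : 0 < x := by linarith
        rw [div_sub_div _ _ (by positivity) (by positivity), ← mul_div_assoc,
          div_le_div_iff₀ (by positivity) (by positivity)]
        have h4 : 0 ≤ (x + 1) ^ 3 := by positivity
        have h5 : 3 * x ^ 3 ≤ (x + 1) * ((x + 1) ^ 3 - x ^ 3) := by nlinarith [pow_pos hx0 2]
        nlinarith [mul_le_mul_of_nonneg_left h5 h4]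
      linarith
  have h1 : ∑ j ∈ Finset.Ico k Jm, (273 / 100) / (j : ℝ) ^ 4 ≤
      ∑ j ∈ Finset.Ico k (k + Jm), (273 / 100) / (j : ℝ) ^ 4 := by
    apply Finset.sum_le_sum_of_subset_of_nonneg
    · apply Finset.Ico_subset_Ico_right; omega
    · intro i _ _; positivity
  refine h1.trans ((key Jm).trans ?_)
  have h2 : 0 ≤ 1 / ((k : ℝ) + Jm - 1) ^ 3 := by
    have : (0 : ℝ) ≤ Jm := Nat.cast_nonneg Jm
    have h3 : 0 < (k : ℝ) + Jm - 1 := by linarith
    positivity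
  have h3 : (91 / 100) * (1 / ((k : ℝ) - 1) ^ 3) ≤ 912 / 1000 * (1 / (k : ℝ) ^ 3) := by
    have hy : 0 < (k : ℝ) - 1 := by linarith
    have hy0 : (0 : ℝ) < k := by linarith
    rw [mul_one_div, mul_one_div, div_le_div_iff₀ (by positivity) (by positivity)]
    set y : ℝ := (k : ℝ) - 1 with hyd
    have e : (k : ℝ) = y + 1 := by rw [hyd]; ring
    rw [e]
    have hy1 : 1999 ≤ y := by linarith
    nlinarith [mul_le_mul_of_nonneg_right hy1 (sq_nonneg y), pow_pos hy 2]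
  linarith

/-- total budget of the sources, `∑_{i ≥ k0} i^(-23/16) ≤ C k0^(-7/16)` (or: tail of a convergent series) -/
theorem an_src : ∃ k1 : ℕ, ∀ k0 ≥ k1, ∀ k : ℕ, ∑ i ∈ Finset.Ico k0 k, src i ≤ 1 / 100000 := by
  have hs : Summable (fun i : ℕ => src i) := by
    unfold src
    apply Summable.mul_left
    rw [Real.summable_nat_rpow]
    norm_num
  obtain ⟨s, hs'⟩ := summable_iff_vanishing_norm.1 hs (1 / 100000) (by norm_num)
  refine ⟨s.sup id + 1, fun k0 hk0 k => ?_⟩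
  have h1 := hs' (Finset.Ico k0 k) (by
    rw [Finset.disjoint_left]
    intro a ha ha'
    have h2 : a ≤ s.sup id := Finset.le_sup (f := id) ha'
    rw [Finset.mem_Ico] at ha
    omega)
  exact (le_abs_self _).trans h1.le

end Pool.Agent.LibMoser5
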