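import Pool.Agent.LibMoser5.AnJK
set_option autoImplicit false
namespace Pool.Agent.LibMoser5
open Classical

/-- increments are small compared with `j^(-5/4)`: `wid·TT^2/tm ≤ C k^3/j^4 ≤ C' j^(-10/7)` -/
theorem an_small : ∃ k1 : ℕ, ∀ k ≥ k1, ∀ c0 : ℕ, c0 ≤ 4 * k ^ 2 → ∀ j ≥ k1, ∀ c < 100, ∀ d < 100,
    Reach c0 k c j d →
      (j : ℝ) ^ (5 / 4 : ℝ) * (2 * (wid j d * (TT c0 k) ^ 2 + 1) / tm c0 k) ≤ 1 / 100 := by
  obtain ⟨k2, hk2⟩ := an_reach_jk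
  obtain ⟨k3, hk3⟩ := an_w4
  have hlim := (tendsto_rpow_atTop (y := 5 / 28) (by norm_num)).eventually_ge_atTop (1000 : ℝ)
  obtain ⟨x0, hx0⟩ := Filter.eventually_atTop.1 hlim
  refine ⟨k2 + k3 + ⌈x0⌉₊ + 1, fun k hk c0 hc0 j hj c hc d hd hR => ?_⟩
  have hj0 : x0 ≤ (j : ℝ) := by
    have h1 := Nat.le_ceil x0
    have h4 : ((⌈x0⌉₊ : ℕ) : ℝ) ≤ j := by exact_mod_cast (by omega : ⌈x0⌉₊ ≤ j)
    linarith
  have hj1 : (1000 : ℝ) ≤ (j : ℝ) ^ (5 / 28 : ℝ) := hx0 j hj0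
  obtain ⟨r1, r2⟩ := hk2 k (by omega) c0 hc0 j (by omega) c hc d hd hR
  have hT : (TT c0 k) ≤ 1001 / 1000 * (k : ℝ) ^ 3 := hk3 k (by omega) c0 hc0
  have hjp : (1 : ℝ) ≤ j := by exact_mod_cast (by omega : 1 ≤ j)
  have hkp : (1 : ℝ) ≤ k := by exact_mod_cast (by omega : 1 ≤ k)
  have hj0' : (0 : ℝ) < j := by linarith
  have hk0' : (0 : ℝ) < k := by linarith
  have hT0 : 0 ≤ TT c0 k := by unfold TT; positivity
  have htm : (k : ℝ) ^ 3 ≤ tm c0 k := by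
    unfold tm AA
    push_cast
    have : (0 : ℝ) ≤ GG k := Nat.cast_nonneg _
    have : (0 : ℝ) ≤ c0 := Nat.cast_nonneg _
    linarith
  have hw : wid j d ≤ 7 / 100 / (j : ℝ) ^ 4 := by
    refine (wid_le (by omega) d).trans ?_
    rw [div_le_div_iff₀ (by positivity) (by positivity)]
    have e : 7 / 100 * (j : ℝ) ^ 6 = (7 * (j : ℝ) ^ 2) / 100 * (j : ℝ) ^ 4 := by ring
    rw [e]
    gcongr
    nlinarith
  -- powers
  set u : ℝ := (j : ℝ) ^ (18 / 7 : ℝ) with hu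
  have hup : 0 < u := by positivity
  have e1 : ((j : ℝ) ^ 3) ^ (6 / 7 : ℝ) = u := by
    rw [hu, ← Real.rpow_natCast, ← Real.rpow_mul hj0'.le]; norm_num
  have e2 : ((k : ℝ) ^ (7 / 2 : ℝ)) ^ (6 / 7 : ℝ) = (k : ℝ) ^ 3 := by
    rw [← Real.rpow_mul hk0'.le, ← Real.rpow_natCast]; norm_num
  have hk3u : (k : ℝ) ^ 3 ≤ 9 * u := by
    have h1 : (k : ℝ) ^ (7 / 2 : ℝ) ≤ 9 * (j : ℝ) ^ 3 := by
      refine r2.trans ?_
      have : ((j : ℝ) + 1) ^ 3 ≤ (2 * j) ^ 3 := by gcongr; linarith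
      nlinarith [pow_pos hj0' 3]
    have h2 := Real.rpow_le_rpow (by positivity) h1 (show (0 : ℝ) ≤ 6 / 7 by norm_num)
    rw [e2, Real.mul_rpow (by norm_num) (by positivity), e1] at h2
    refine h2.trans ?_
    gcongr
    calc (9 : ℝ) ^ (6 / 7 : ℝ) ≤ 9 ^ (1 : ℝ) :=
          Real.rpow_le_rpow_of_exponent_le (by norm_num) (by norm_num)
      _ = 9 := Real.rpow_one 9
  have hk3l : u ≤ 2 * (k : ℝ) ^ 3 := by
    have h1 : (j : ℝ) ^ 3 ≤ 2 * (k : ℝ) ^ (7 / 2 : ℝ) := by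
      have : 0 ≤ (j : ℝ) ^ 3 := by positivity
      linarith
    have h2 := Real.rpow_le_rpow (by positivity) h1 (show (0 : ℝ) ≤ 6 / 7 by norm_num)
    rw [e1, Real.mul_rpow (by norm_num) (by positivity), e2] at h2
    refine h2.trans ?_
    gcongr
    calc (2 : ℝ) ^ (6 / 7 : ℝ) ≤ 2 ^ (1 : ℝ) :=
          Real.rpow_le_rpow_of_exponent_le (by norm_num) (by norm_num)
      _ = 2 := Real.rpow_one 2
  have hwn : 0 ≤ wid j d := wid_nonneg (by omega) d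
  set v : ℝ := (j : ℝ) ^ (5 / 4 : ℝ) with hv
  have hvp : 0 < v := by positivity
  have q1 : (2 * (wid j d * (TT c0 k) ^ 2 + 1) / tm c0 k) ≤
      2 * (7 / 100 / (j : ℝ) ^ 4 * (1001 / 1000 * (k : ℝ) ^ 3) ^ 2 + 1) / (k : ℝ) ^ 3 := by
    gcongr
  have q2 : 2 * (7 / 100 / (j : ℝ) ^ 4 * (1001 / 1000 * (k : ℝ) ^ 3) ^ 2 + 1) / (k : ℝ) ^ 3 =
      (14 / 100 * (1001 / 1000) ^ 2) * ((k : ℝ) ^ 3 / (j : ℝ) ^ 4) + 2 * (1 / (k : ℝ) ^ 3) := by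
    field_simp
    ring
  have q3 : (k : ℝ) ^ 3 / (j : ℝ) ^ 4 ≤ 9 * (u / (j : ℝ) ^ 4) := by
    rw [← mul_div_assoc]; gcongr
  have q4 : 1 / (k : ℝ) ^ 3 ≤ 2 * (1 / u) := by
    rw [mul_one_div, div_le_div_iff₀ (by positivity) (by positivity)]
    linarith
  have q5 : v * (u / (j : ℝ) ^ 4) = ((j : ℝ) ^ (5 / 28 : ℝ))⁻¹ := by
    rw [hv, hu, ← mul_div_assoc, ← Real.rpow_add hj0', ← Real.rpow_natCast, ← Real.rpow_sub hj0',
      ← Real.rpow_neg hj0'.le]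
    norm_num
  have q6 : v * (1 / u) ≤ ((j : ℝ) ^ (5 / 28 : ℝ))⁻¹ := by
    rw [hv, hu, mul_one_div, ← Real.rpow_sub hj0', ← Real.rpow_neg hj0'.le]
    apply Real.rpow_le_rpow_of_exponent_le hjp (by norm_num)
  have q7 : ((j : ℝ) ^ (5 / 28 : ℝ))⁻¹ ≤ 1 / 1000 := by
    rw [inv_eq_one_div]
    exact one_div_le_one_div_of_le (by norm_num) hj1
  calc v * (2 * (wid j d * (TT c0 k) ^ 2 + 1) / tm c0 k) ≤
        v * ((14 / 100 * (1001 / 1000) ^ 2) * ((k : ℝ) ^ 3 / (j : ℝ) ^ 4) + 2 * (1 / (k : ℝ) ^ 3)) := by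
        rw [← q2]; gcongr
    _ ≤ v * ((14 / 100 * (1001 / 1000) ^ 2) * (9 * (u / (j : ℝ) ^ 4)) + 2 * (2 * (1 / u))) := by
        gcongr
    _ = (14 / 100 * (1001 / 1000) ^ 2 * 9) * (v * (u / (j : ℝ) ^ 4)) + 4 * (v * (1 / u)) := by ring
    _ ≤ (14 / 100 * (1001 / 1000) ^ 2 * 9) * (1 / 1000) + 4 * (1 / 1000) := by
        rw [q5]
        gcongr
        exact q6.trans q7
    _ ≤ 1 / 100 := by norm_num

end Pool.Agent.LibMoser5
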