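import Pool.Agent.LibMoser5.AnG
set_option autoImplicit false
namespace Pool.Agent.LibMoser5
open Classical

theorem AnStart_gap (k : ℕ) (hk : 400 ≤ k) : (k + 1) ^ 3 + GG (k + 1) ≤ k ^ 3 + GG k + 4 * k ^ 2 := by
  set s := GG k with hs
  set g := GG (k + 1) with hg
  have h1 : k ^ 5 < (s + 1) ^ 2 := by rw [hs]; exact Nat.lt_succ_sqrt' _
  have h2 : g ^ 2 ≤ (k + 1) ^ 5 := by rw [hg]; exact Nat.sqrt_le' _
  have h1' : (k : ℝ) ^ 5 < ((s : ℝ) + 1) ^ 2 := by exact_mod_cast h1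
  have h2' : (g : ℝ) ^ 2 ≤ ((k : ℝ) + 1) ^ 5 := by exact_mod_cast h2
  have hk' : (400 : ℝ) ≤ k := by exact_mod_cast hk
  have hs0 : (0 : ℝ) ≤ s := Nat.cast_nonneg s
  have hg0 : (0 : ℝ) ≤ g := Nat.cast_nonneg g
  have hk0 : (0 : ℝ) < k := by linarith
  have h3 : 20 * (k : ℝ) ^ 2 ≤ (s : ℝ) + 1 := by
    apply le_of_lt
    apply lt_of_pow_lt_pow_left₀ 2 (by positivity)
    refine lt_of_le_of_lt ?_ h1'
    have : 0 ≤ (k : ℝ) ^ 4 := by positivity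
    nlinarith
  have h4 : (g : ℝ) ≤ (s : ℝ) + 1 + (k : ℝ) ^ 2 / 4 := by
    apply le_of_lt
    apply lt_of_pow_lt_pow_left₀ 2 (by positivity)
    refine lt_of_le_of_lt h2' ?_
    have h5 : ((k : ℝ) + 1) ^ 5 ≤ (k : ℝ) ^ 5 + 6 * (k : ℝ) ^ 4 := by
      have e : ((k : ℝ) + 1) ^ 5 = (k : ℝ) ^ 5 + 5 * (k : ℝ) ^ 4 + (10 * (k : ℝ) ^ 3 +
        10 * (k : ℝ) ^ 2 + 5 * k + 1) := by ring
      have h6 : 10 * (k : ℝ) ^ 3 + 10 * (k : ℝ) ^ 2 + 5 * k + 1 ≤ (k : ℝ) ^ 4 := by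
        have a1 : (k : ℝ) ^ 2 * 400 ≤ (k : ℝ) ^ 2 * k := by gcongr
        have a2 : (k : ℝ) ^ 3 * 400 ≤ (k : ℝ) ^ 3 * k := by gcongr
        have a3 : (k : ℝ) * 400 ≤ (k : ℝ) * k := by gcongr
        nlinarith
      linarith
    have h7 : ((s : ℝ) + 1 + (k : ℝ) ^ 2 / 4) ^ 2 = ((s : ℝ) + 1) ^ 2 +
        ((s : ℝ) + 1) * ((k : ℝ) ^ 2 / 2) + (k : ℝ) ^ 4 / 16 := by ring
    have h8 : 20 * (k : ℝ) ^ 2 * ((k : ℝ) ^ 2 / 2) ≤ ((s : ℝ) + 1) * ((k : ℝ) ^ 2 / 2) := by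
      gcongr
    have h9 : 0 ≤ (k : ℝ) ^ 4 := by positivity
    rw [h7]
    nlinarith
  have h5 : ((k : ℝ) + 1) ^ 3 + g ≤ (k : ℝ) ^ 3 + s + 4 * (k : ℝ) ^ 2 := by
    nlinarith
  exact_mod_cast h5

/-- every large `N` is `AA c0 k0` with `k0 ≥ k1` and `c0 ≤ 4 k0^2` -/
theorem an_start (k1 : ℕ) : ∃ N0 : ℕ, ∀ N ≥ N0, ∃ k0 c0 : ℕ, k1 ≤ k0 ∧ c0 ≤ 4 * k0 ^ 2 ∧ AA c0 k0 = N := by
  obtain ⟨k2, hk2⟩ : ∃ k2, k2 = k1 + 400 := ⟨_, rfl⟩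
  refine ⟨k2 ^ 3 + GG k2 + k2, fun N hN => ?_⟩
  have hex : ∃ m, N < (m + 1) ^ 3 + GG (m + 1) :=
    ⟨N, by
      have h2 : N + 1 ≤ (N + 1) ^ 3 := Nat.le_self_pow (by norm_num) _
      omega⟩
  obtain ⟨k0, h5, hmin⟩ : ∃ m, N < (m + 1) ^ 3 + GG (m + 1) ∧
      ∀ l < m, ¬ N < (l + 1) ^ 3 + GG (l + 1) :=
    ⟨Nat.find hex, Nat.find_spec hex, fun l hl => Nat.find_min hex hl⟩
  have hk2le : k2 ≤ k0 := by
    by_contra h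
    have h6 : k0 + 1 ≤ k2 := by omega
    have h7 : (k0 + 1) ^ 3 ≤ k2 ^ 3 := Nat.pow_le_pow_left h6 3
    have h8 : GG (k0 + 1) ≤ GG k2 := GG_mono h6
    omega
  have h4 : k0 ^ 3 + GG k0 ≤ N := by
    have h6 := hmin (k0 - 1) (by omega)
    rw [Nat.sub_add_cancel (by omega)] at h6
    omega
  have h400 : 400 ≤ k0 := by omega
  have hgap := AnStart_gap k0 h400
  refine ⟨k0, N - (k0 ^ 3 + GG k0), by omega, by omega, ?_⟩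
  unfold AA
  omega

end Pool.Agent.LibMoser5
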