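import Pool.Agent.LibMoser5.AnWin
set_option autoImplicit false
namespace Pool.Agent.LibMoser5
open Classical

theorem anth_neg (k : ℕ) : (k : ℝ) ^ (-(7 / 2) : ℝ) = 1 / Real.sqrt k ^ 7 := by
  rw [Real.rpow_neg (Nat.cast_nonneg k), one_div]
  have := anwin_pow k 7
  norm_num at this
  rw [this]

theorem anth_cube {s : ℝ} (hs : 10 ^ 7 ≤ s) : (s + 1) ^ 3 ≤ 2 * s ^ 3 := by
  have h5 : (s + 1) ^ 3 = s ^ 3 + 3 * s ^ 2 + 3 * s + 1 := by ring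
  have h6 : 7 * s ^ 2 ≤ s ^ 3 := by
    have : s ^ 3 = s * s ^ 2 := by ring
    rw [this]
    apply mul_le_mul_of_nonneg_right (by linarith) (by positivity)
  nlinarith

theorem anth_pow {s : ℝ} (hs : 10 ^ 7 ≤ s) (m : ℕ) : s ^ m * 10 ^ 7 ≤ s ^ (m + 1) := by
  rw [pow_succ]
  exact mul_le_mul_of_nonneg_left hs (pow_nonneg (by linarith) _)

/-- thickness of the pieces -/
theorem an_th1 : ∃ k1 : ℕ, ∀ k ≥ k1, ∀ c0 : ℕ, c0 ≤ 4 * k ^ 2 →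
    1 / (k : ℝ) ^ 3 - 1 / TT c0 k ≤ th k := by
  refine ⟨10 ^ 14, fun k hk c0 hc => ?_⟩
  have hs := anwin_big hk
  have h1 := anwin_GG k
  have hk2 : Real.sqrt k ^ 2 = k := Real.sq_sqrt (Nat.cast_nonneg k)
  have hc' : (c0 : ℝ) ≤ 4 * (k : ℝ) ^ 2 := by exact_mod_cast hc
  unfold th
  rw [anth_neg]
  have hG0 : (0 : ℝ) ≤ GG (k + 1) := Nat.cast_nonneg _
  have hc0 : (0 : ℝ) ≤ c0 := Nat.cast_nonneg _
  have hTT : TT c0 k = ((k : ℝ) + 1) ^ 3 + GG (k + 1) + c0 := by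
    unfold TT AA; push_cast; ring
  rw [hTT]
  set s := Real.sqrt k with hsdef
  rw [← hk2] at hc' ⊢
  set T : ℝ := (s ^ 2 + 1) ^ 3 + GG (k + 1) + c0 with hT
  have e1 : (s ^ 2 + 1) ^ 3 = s ^ 6 + 3 * s ^ 4 + 3 * s ^ 2 + 1 := by ring
  have e4 : (s ^ 2) ^ 3 = s ^ 6 := by ring
  have e3 : (s ^ 2) ^ 2 = s ^ 4 := by ring
  rw [e3] at hc'
  have e2 := anth_cube hs
  have p0 : (1 : ℝ) ≤ s ^ 2 := by nlinarith
  have p2 := anth_pow hs 2
  have p3 := anth_pow hs 3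
  have p4 := anth_pow hs 4
  norm_num at p2 p3 p4
  have hs6 : 0 < s ^ 6 := by positivity
  have hT6 : s ^ 6 ≤ T := by rw [hT, e1]; nlinarith [sq_nonneg s]
  have hT0 : 0 < T := by linarith
  have hTd : T - s ^ 6 ≤ 1001 / 1000 * s ^ 5 := by
    rw [hT, e1]
    nlinarith
  rw [e4, div_sub_div _ _ hs6.ne' hT0.ne', one_mul, mul_one]
  calc (T - s ^ 6) / (s ^ 6 * T) ≤ (1001 / 1000 * s ^ 5) / (s ^ 6 * s ^ 6) := by
        apply div_le_div₀ (by positivity) hTd (by positivity)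
        exact mul_le_mul_of_nonneg_left hT6 hs6.le
    _ = 1001 / 1000 * (1 / s ^ 7) := by
        have : s ≠ 0 := by positivity
        field_simp

theorem an_th2 : ∃ k1 : ℕ, ∀ k ≥ k1, th k ≤ 1 / ((k : ℝ) + 1) ^ 3 := by
  refine ⟨10 ^ 14, fun k hk => ?_⟩
  have hs := anwin_big hk
  have hk2 : Real.sqrt k ^ 2 = k := Real.sq_sqrt (Nat.cast_nonneg k)
  unfold th
  rw [anth_neg]
  set s := Real.sqrt k with hsdef
  rw [← hk2]
  have hs0 : 0 < s := by linarith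
  rw [← mul_div_assoc, mul_one, div_le_div_iff₀ (by positivity) (by positivity)]
  have p0 : (1 : ℝ) ≤ s ^ 2 := by nlinarith
  have h1 : (s ^ 2 + 1) ^ 3 ≤ (2 * s ^ 2) ^ 3 := pow_le_pow_left₀ (by positivity) (by linarith) 3
  have h2 : s ^ 7 = s * s ^ 6 := by ring
  have h3 : (2 * s ^ 2) ^ 3 = 8 * s ^ 6 := by ring
  have h4 : 0 < s ^ 6 := by positivity
  nlinarith

theorem an_lo : ∃ k1 : ℕ, ∀ k ≥ k1, ∀ c0 : ℕ, c0 ≤ 4 * k ^ 2 →
    999 / 1000 * (k : ℝ) ^ (-(7 / 2) : ℝ) ≤ 1 / ((k : ℝ) + 1) ^ 3 - 1 / tm c0 k := by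
  refine ⟨10 ^ 14, fun k hk c0 _ => ?_⟩
  have hs := anwin_big hk
  have h2 := GG_ge k
  rw [anwin_five] at h2
  have hk2 : Real.sqrt k ^ 2 = k := Real.sq_sqrt (Nat.cast_nonneg k)
  rw [anth_neg]
  have hc0 : (0 : ℝ) ≤ c0 := Nat.cast_nonneg _
  have htm : tm c0 k = (k : ℝ) ^ 3 + GG k + c0 + 1 / 2 := by
    unfold tm AA; push_cast; ring
  rw [htm]
  set s := Real.sqrt k with hsdef
  rw [← hk2]
  set t : ℝ := (s ^ 2) ^ 3 + GG k + c0 + 1 / 2 with ht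
  have e4 : (s ^ 2) ^ 3 = s ^ 6 := by ring
  have hs0 : 0 < s := by linarith
  have p1 := anth_pow hs 0
  have p2 := anth_pow hs 2
  have p3 := anth_pow hs 3
  have p4 := anth_pow hs 4
  have p5 := anth_pow hs 5
  norm_num at p1 p2 p3 p4 p5
  set t0 : ℝ := s ^ 6 + s ^ 5 - 1 / 2 with ht0
  have hs5 : 1 ≤ s ^ 5 := one_le_pow₀ (by linarith)
  have ht0p : 0 < t0 := by
    have : 0 < s ^ 6 := by positivity
    rw [ht0]; linarith
  have htt : t0 ≤ t := by rw [ht, e4, ht0]; linarith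
  have h3 : 1 / t ≤ 1 / t0 := one_div_le_one_div_of_le ht0p htt
  have key : 999 / 1000 * (1 / s ^ 7) ≤ 1 / (s ^ 2 + 1) ^ 3 - 1 / t0 := by
    rw [div_sub_div _ _ (by positivity) ht0p.ne', one_mul, mul_one, ← mul_div_assoc, mul_one,
      div_le_div_iff₀ (by positivity) (by positivity)]
    -- `0.999 (s²+1)³ t0 ≤ (t0 - (s²+1)³) s^7`
    have hA : (s ^ 2 + 1) ^ 3 ≤ 10001 / 10000 * s ^ 6 := by
      have e1 : (s ^ 2 + 1) ^ 3 = s ^ 6 + 3 * s ^ 4 + 3 * s ^ 2 + 1 := by ring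
      rw [e1]
      have : 1 ≤ s ^ 2 := one_le_pow₀ (by linarith)
      nlinarith
    have hB : t0 ≤ 10001 / 10000 * s ^ 6 := by
      rw [ht0]; nlinarith
    have hC : 9999 / 10000 * s ^ 5 ≤ t0 - (s ^ 2 + 1) ^ 3 := by
      have e1 : (s ^ 2 + 1) ^ 3 = s ^ 6 + 3 * s ^ 4 + 3 * s ^ 2 + 1 := by ring
      rw [e1, ht0]
      have : 1 ≤ s ^ 2 := one_le_pow₀ (by linarith)
      nlinarith
    have hD : (s ^ 2 + 1) ^ 3 * t0 ≤ (10001 / 10000 * s ^ 6) * (10001 / 10000 * s ^ 6) :=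
      mul_le_mul hA hB ht0p.le (by positivity)
    have hE : (9999 / 10000 * s ^ 5) * s ^ 7 ≤ (t0 - (s ^ 2 + 1) ^ 3) * s ^ 7 :=
      mul_le_mul_of_nonneg_right hC (by positivity)
    have e12 : (9999 / 10000 * s ^ 5) * s ^ 7 = 9999 / 10000 * s ^ 12 := by ring
    have e13 : (10001 / 10000 * s ^ 6) * (10001 / 10000 * s ^ 6) =
        (10001 / 10000) ^ 2 * s ^ 12 := by ring
    have hs12 : 0 < s ^ 12 := by positivity
    nlinarith
  linarith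

end Pool.Agent.LibMoser5
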