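import Pool.Agent.LibMoser5.AnG
set_option autoImplicit false
namespace Pool.Agent.LibMoser5
open Classical

/-- `GG k ~ k^(5/2)` dominates `3k^2+3k+2` -/
theorem an_w1 : ∃ k1 : ℕ, ∀ k ≥ k1, ∀ c0 : ℕ, (k + 1) ^ 3 + 1 ≤ AA c0 k := by
  refine ⟨16, fun k hk c0 => ?_⟩
  have h1 : 3 * k ^ 2 + 3 * k + 2 ≤ GG k := by
    unfold GG
    rw [Nat.le_sqrt]
    have h2 : 3 * k ^ 2 + 3 * k + 2 ≤ 4 * k ^ 2 := by nlinarith
    calc (3 * k ^ 2 + 3 * k + 2) * (3 * k ^ 2 + 3 * k + 2) ≤ (4 * k ^ 2) * (4 * k ^ 2) :=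
          Nat.mul_le_mul h2 h2
      _ = 16 * k ^ 4 := by ring
      _ ≤ k * k ^ 4 := Nat.mul_le_mul_right _ hk
      _ = k ^ 5 := by ring
  unfold AA
  nlinarith [h1]

theorem an_w2 (k c0 : ℕ) : 3 * (k : ℝ) ^ 2 ≤ (AA c0 (k + 1) : ℝ) - AA c0 k := by
  have h : (GG k : ℝ) ≤ GG (k + 1) := by exact_mod_cast GG_mono (Nat.le_succ k)
  unfold AA
  push_cast
  have hk : (0 : ℝ) ≤ k := Nat.cast_nonneg k
  nlinarith

/-- powers of `k` in terms of the square root -/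
theorem anwin_pow (k : ℕ) (m : ℕ) : (k : ℝ) ^ ((m : ℝ) / 2) = Real.sqrt k ^ m := by
  rw [Real.sqrt_eq_rpow, ← Real.rpow_natCast, ← Real.rpow_mul (Nat.cast_nonneg k)]
  congr 1
  ring

theorem anwin_five (k : ℕ) : (k : ℝ) ^ (5 / 2 : ℝ) = Real.sqrt k ^ 5 := by
  have := anwin_pow k 5
  norm_num at this
  exact this

/-- `√(k+1)^5 ≤ √k^5 + 5 (√k + 1)^3` -/
theorem anwin_sqrt (k : ℕ) : Real.sqrt ((k : ℝ) + 1) ^ 5 ≤
    Real.sqrt k ^ 5 + 5 * (Real.sqrt k + 1) ^ 3 := by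
  have hk : (0 : ℝ) ≤ k := Nat.cast_nonneg k
  set x := Real.sqrt k with hx
  set y := Real.sqrt ((k : ℝ) + 1) with hy
  have hx0 : 0 ≤ x := Real.sqrt_nonneg _
  have hy0 : 0 ≤ y := Real.sqrt_nonneg _
  have hx2 : x ^ 2 = k := Real.sq_sqrt hk
  have hy2 : y ^ 2 = k + 1 := Real.sq_sqrt (by linarith)
  have hxy : x ≤ y := Real.sqrt_le_sqrt (by linarith)
  have hyx : y ≤ x + 1 := by nlinarith
  have hy1 : 1 ≤ y := by nlinarith
  have hd : (y - x) * (y + x) = 1 := by nlinarith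
  have hd2 : (y - x) * y ≤ 1 := by nlinarith
  have h1 : y ^ 5 - x ^ 5 ≤ (y - x) * (5 * y ^ 4) := by
    have e : y ^ 5 - x ^ 5 = (y - x) * (y ^ 4 + y ^ 3 * x + y ^ 2 * x ^ 2 + y * x ^ 3 + x ^ 4) := by
      ring
    rw [e]
    apply mul_le_mul_of_nonneg_left _ (by linarith)
    have a1 : y ^ 3 * x ≤ y ^ 4 := by
      have : y ^ 4 = y ^ 3 * y := by ring
      rw [this]; exact mul_le_mul_of_nonneg_left hxy (by positivity)
    have a2 : y ^ 2 * x ^ 2 ≤ y ^ 4 := by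
      have : y ^ 4 = y ^ 2 * y ^ 2 := by ring
      rw [this]
      exact mul_le_mul_of_nonneg_left (pow_le_pow_left₀ hx0 hxy 2) (by positivity)
    have a3 : y * x ^ 3 ≤ y ^ 4 := by
      have : y ^ 4 = y * y ^ 3 := by ring
      rw [this]
      exact mul_le_mul_of_nonneg_left (pow_le_pow_left₀ hx0 hxy 3) (by positivity)
    have a4 : x ^ 4 ≤ y ^ 4 := pow_le_pow_left₀ hx0 hxy 4
    linarith
  have h2 : (y - x) * (5 * y ^ 4) ≤ 5 * y ^ 3 := by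
    have : (y - x) * (5 * y ^ 4) = ((y - x) * y) * (5 * y ^ 3) := by ring
    rw [this]
    have h3 := mul_le_mul_of_nonneg_right hd2 (show (0 : ℝ) ≤ 5 * y ^ 3 by positivity)
    linarith
  have h3 : y ^ 3 ≤ (x + 1) ^ 3 := pow_le_pow_left₀ hy0 hyx 3
  linarith

theorem anwin_big {k : ℕ} (hk : 10 ^ 14 ≤ k) : (10 : ℝ) ^ 7 ≤ Real.sqrt k := by
  apply Real.le_sqrt_of_sq_le
  have : ((10 ^ 14 : ℕ) : ℝ) ≤ k := by exact_mod_cast hk
  push_cast at this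
  linarith

theorem anwin_GG (k : ℕ) : (GG (k + 1) : ℝ) ≤ Real.sqrt k ^ 5 + 5 * (Real.sqrt k + 1) ^ 3 := by
  have h := GG_le (k + 1)
  rw [anwin_five] at h
  push_cast at h
  exact h.trans (anwin_sqrt k)

/-- `(k+1)^(5/2) - k^(5/2) ≤ (5/2)(k+1)^(3/2)` -/
theorem an_w3 : ∃ k1 : ℕ, ∀ k ≥ k1, ∀ c0 : ℕ,
    (AA c0 (k + 1) : ℝ) - AA c0 k ≤ 3001 / 1000 * (k : ℝ) ^ 2 := by
  refine ⟨10 ^ 14, fun k hk c0 => ?_⟩
  have hs := anwin_big hk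
  have h1 := anwin_GG k
  have h2 := GG_ge k
  rw [anwin_five] at h2
  have hk2 : Real.sqrt k ^ 2 = k := Real.sq_sqrt (Nat.cast_nonneg k)
  unfold AA
  push_cast
  set s := Real.sqrt k with hsdef
  rw [← hk2]
  have e1 : (s ^ 2 + 1) ^ 3 - (s ^ 2) ^ 3 = 3 * s ^ 4 + 3 * s ^ 2 + 1 := by ring
  have e2 : (s + 1) ^ 3 ≤ 2 * s ^ 3 := by
    have h5 : (s + 1) ^ 3 = s ^ 3 + 3 * s ^ 2 + 3 * s + 1 := by ring
    have h6 : 7 * s ^ 2 ≤ s ^ 3 := by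
      have : s ^ 3 = s * s ^ 2 := by ring
      rw [this]
      apply mul_le_mul_of_nonneg_right (by linarith) (by positivity)
    nlinarith
  have e3 : 3 * s ^ 2 + 1 + 1 + 5 * (2 * s ^ 3) ≤ 1 / 1000 * (s ^ 2) ^ 2 := by
    have h6 : s ^ 2 * 10 ^ 7 ≤ s ^ 3 := by
      have : s ^ 3 = s ^ 2 * s := by ring
      rw [this]
      apply mul_le_mul_of_nonneg_left (by linarith) (by positivity)
    have h7 : s ^ 3 * 10 ^ 7 ≤ s ^ 4 := by
      have : s ^ 4 = s ^ 3 * s := by ring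
      rw [this]
      apply mul_le_mul_of_nonneg_left (by linarith) (by positivity)
    have h8 : (1 : ℝ) ≤ s ^ 2 := by nlinarith
    nlinarith
  nlinarith

theorem an_w4 : ∃ k1 : ℕ, ∀ k ≥ k1, ∀ c0 : ℕ, c0 ≤ 4 * k ^ 2 →
    (AA c0 (k + 1) : ℝ) ≤ 1001 / 1000 * (k : ℝ) ^ 3 := by
  refine ⟨10 ^ 14, fun k hk c0 hc => ?_⟩
  have hs := anwin_big hk
  have h1 := anwin_GG k
  have hk2 : Real.sqrt k ^ 2 = k := Real.sq_sqrt (Nat.cast_nonneg k)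
  have hc' : (c0 : ℝ) ≤ 4 * (k : ℝ) ^ 2 := by exact_mod_cast hc
  unfold AA
  push_cast
  set s := Real.sqrt k with hsdef
  rw [← hk2] at hc' ⊢
  have e2 : (s + 1) ^ 3 ≤ 2 * s ^ 3 := by
    have h5 : (s + 1) ^ 3 = s ^ 3 + 3 * s ^ 2 + 3 * s + 1 := by ring
    have h6 : 7 * s ^ 2 ≤ s ^ 3 := by
      have : s ^ 3 = s * s ^ 2 := by ring
      rw [this]
      apply mul_le_mul_of_nonneg_right (by linarith) (by positivity)
    nlinarith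
  have h6 : s ^ 2 * 10 ^ 7 ≤ s ^ 3 := by
    have : s ^ 3 = s ^ 2 * s := by ring
    rw [this]
    apply mul_le_mul_of_nonneg_left (by linarith) (by positivity)
  have h7 : s ^ 3 * 10 ^ 7 ≤ s ^ 4 := by
    have : s ^ 4 = s ^ 3 * s := by ring
    rw [this]
    apply mul_le_mul_of_nonneg_left (by linarith) (by positivity)
  have h8 : s ^ 4 * 10 ^ 7 ≤ s ^ 5 := by
    have : s ^ 5 = s ^ 4 * s := by ring
    rw [this]
    apply mul_le_mul_of_nonneg_left (by linarith) (by positivity)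
  have h9 : s ^ 5 * 10 ^ 7 ≤ s ^ 6 := by
    have : s ^ 6 = s ^ 5 * s := by ring
    rw [this]
    apply mul_le_mul_of_nonneg_left (by linarith) (by positivity)
  have h10 : (1 : ℝ) ≤ s ^ 2 := by nlinarith
  have e1 : (s ^ 2 + 1) ^ 3 = s ^ 6 + 3 * s ^ 4 + 3 * s ^ 2 + 1 := by ring
  have e3 : (s ^ 2) ^ 2 = s ^ 4 := by ring
  have e4 : (s ^ 2) ^ 3 = s ^ 6 := by ring
  rw [e3] at hc'
  rw [e1, e4]
  linarith

end Pool.Agent.LibMoser5
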