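import Pool.Agent.LibMoser5.Defs
set_option autoImplicit false
namespace Pool.Agent.LibMoser5
open Classical

theorem assign_map (js : List Job) (I : List ℕ) :
    (assign js I).map (fun x => (x.τ, x.len)) = js.map (fun j => (j.τ, j.len)) := by
  induction js generalizing I with
  | nil => rfl
  | cons j js ih => simp only [assign, List.map_cons, ih]

theorem assign_flat (js : List Job) (I : List ℕ) (h : I.length = (js.map Job.s).sum) :
    (assign js I).flatMap FJob.u = I := by
  induction js generalizing I with
  | nil =>
    simp only [List.map_nil, List.sum_nil] at h
    rw [List.eq_nil_of_length_eq_zero h]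
    rfl
  | cons j js ih =>
    simp only [List.map_cons, List.sum_cons] at h
    simp only [assign, List.flatMap_cons]
    rw [ih (I.drop j.s) (by rw [List.length_drop]; omega), List.take_append_drop]

theorem Assign_zip_rep (τ : ℝ) (I : List ℕ) :
    List.zipWith (fun τ n => (τ - sd n, sd n)) (List.replicate I.length τ) I =
      I.map (fun n => (τ - sd n, sd n)) := by
  induction I with
  | nil => rfl
  | cons a I ih =>
    rw [List.length_cons, List.replicate_succ, List.zipWith_cons_cons, ih, List.map_cons]

theorem assign_newS (js : List Job) (I : List ℕ) (h : I.length = (js.map Job.s).sum) :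
    newS (assign js I) = pcs (labels js) I := by
  induction js generalizing I with
  | nil =>
    simp only [List.map_nil, List.sum_nil] at h
    rw [List.eq_nil_of_length_eq_zero h]
    rfl
  | cons j js ih =>
    simp only [List.map_cons, List.sum_cons] at h
    have h1 : newS (assign (j :: js) I) =
        (I.take j.s).map (fun n => (j.τ - sd n, sd n)) ++ newS (assign js (I.drop j.s)) := by
      simp only [newS, assign, List.flatMap_cons]
    rw [h1, ih (I.drop j.s) (by rw [List.length_drop]; omega)]
    have h2 : labels (j :: js) = List.replicate j.s j.τ ++ labels js := by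
      simp only [labels, List.flatMap_cons]
    have hlen : (I.take j.s).length = j.s := by
      rw [List.length_take]; omega
    unfold pcs
    rw [h2]
    conv_rhs => rw [← List.take_append_drop j.s I]
    rw [List.zipWith_append (by rw [List.length_replicate, hlen])]
    congr 1
    have := Assign_zip_rep j.τ (I.take j.s)
    rw [hlen] at this
    exact this.symm

theorem assign_forall₂ (js : List Job) (I : List ℕ) (h : I.length = (js.map Job.s).sum) :
    List.Forall₂ (fun (x : FJob) (j : Job) => x.τ = j.τ ∧ x.len = j.len ∧ x.u.length = j.s ∧
      ∀ n ∈ x.u, n ∈ I) (assign js I) js := by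
  induction js generalizing I with
  | nil => exact List.Forall₂.nil
  | cons j js ih =>
    simp only [List.map_cons, List.sum_cons] at h
    refine List.Forall₂.cons ⟨rfl, rfl, ?_, fun n hn => List.mem_of_mem_take hn⟩ ?_
    · show (I.take j.s).length = j.s
      rw [List.length_take]; omega
    · refine (ih (I.drop j.s) (by rw [List.length_drop]; omega)).imp ?_
      rintro a b ⟨h1, h2, h3, h4⟩
      exact ⟨h1, h2, h3, fun n hn => List.mem_of_mem_drop (h4 n hn)⟩

theorem labels_length (js : List Job) : (labels js).length = (js.map Job.s).sum := by
  induction js with
  | nil => rfl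
  | cons j js ih =>
    have h2 : labels (j :: js) = List.replicate j.s j.τ ++ labels js := by
      simp only [labels, List.flatMap_cons]
    rw [h2, List.length_append, List.length_replicate, ih, List.map_cons, List.sum_cons]

theorem mem_labels {js : List Job} {τ : ℝ} (h : τ ∈ labels js) : ∃ j ∈ js, j.τ = τ := by
  unfold labels at h
  rw [List.mem_flatMap] at h
  obtain ⟨j, hj, hτ⟩ := h
  exact ⟨j, hj, (List.eq_of_mem_replicate hτ).symm⟩

theorem labels_sorted (js : List Job) (h : js.Pairwise (fun a b => a.τ ≤ b.τ)) :
    (labels js).Pairwise (fun x y => x ≤ y) := by
  induction js with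
  | nil => exact List.Pairwise.nil
  | cons j js ih =>
    rw [List.pairwise_cons] at h
    have h2 : labels (j :: js) = List.replicate j.s j.τ ++ labels js := by
      simp only [labels, List.flatMap_cons]
    rw [h2, List.pairwise_append]
    refine ⟨?_, ih h.2, ?_⟩
    · rw [List.pairwise_replicate]
      right
      exact le_rfl
    · intro a ha b hb
      rw [List.eq_of_mem_replicate ha]
      obtain ⟨j', hj', rfl⟩ := mem_labels hb
      exact h.1 j' hj'

theorem labels_countP (js : List Job) (p : ℝ → Bool) :
    (labels js).countP p = ((js.filter (fun j => p j.τ)).map Job.s).sum := by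
  induction js with
  | nil => rfl
  | cons j js ih =>
    have h2 : labels (j :: js) = List.replicate j.s j.τ ++ labels js := by
      simp only [labels, List.flatMap_cons]
    rw [h2, List.countP_append, ih, List.countP_replicate]
    by_cases hp : p j.τ = true
    · rw [List.filter_cons_of_pos (by simpa using hp), List.map_cons, List.sum_cons, if_pos hp]
    · rw [List.filter_cons_of_neg (by simpa using hp), if_neg hp, zero_add]

end Pool.Agent.LibMoser5
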