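import Pool.Agent.LibMoser5.Cells
set_option autoImplicit false
namespace Pool.Agent.LibMoser5
open Classical

/-- ML3: mass is additive and monotone -/
theorem mass_nil (j d : ℕ) : mass [] j d = 0 := by
  simp [mass, massI]

theorem mass_append (L L' : List (ℝ × ℝ)) (j d : ℕ) :
    mass (L ++ L') j d = mass L j d + mass L' j d := by
  simp [mass, massI]

theorem massI_cons (α β : ℝ) (r : ℝ × ℝ) (L : List (ℝ × ℝ)) :
    massI α β (r :: L) = (if α < r.1 ∧ r.1 ≤ β then r.2 else 0) + massI α β L := by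
  simp [massI]

theorem mass_cons (r : ℝ × ℝ) (L : List (ℝ × ℝ)) (j d : ℕ) :
    mass (r :: L) j d = (if inCell j d r.1 then r.2 else 0) + mass L j d := by
  rw [mass, massI_cons, mass]
  congr 1
  by_cases h : inCell j d r.1
  · rw [if_pos h]
    exact if_pos h
  · rw [if_neg h]
    exact if_neg h

theorem massI_nonneg (α β : ℝ) (L : List (ℝ × ℝ)) (h : ∀ r ∈ L, 0 ≤ r.2) : 0 ≤ massI α β L := by
  induction L with
  | nil => simp [massI]
  | cons r L ih =>
    rw [massI_cons]
    have h1 := ih fun s hs => h s (List.mem_cons_of_mem r hs)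
    have h2 := h r List.mem_cons_self
    split_ifs <;> linarith

theorem mass_filter_le (L : List (ℝ × ℝ)) (p : ℝ × ℝ → Bool) (h : ∀ r ∈ L, 0 ≤ r.2) (j d : ℕ) :
    mass (L.filter p) j d ≤ mass L j d := by
  induction L with
  | nil => simp
  | cons r L ih =>
    have h1 := ih fun s hs => h s (List.mem_cons_of_mem r hs)
    have h2 := h r List.mem_cons_self
    rw [List.filter_cons]
    split_ifs with hp
    · rw [mass_cons, mass_cons]
      linarith
    · rw [mass_cons]
      split_ifs <;> linarith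

/-- ML4: the rows in cell `(k,c)` of the rows in block `k` -/
theorem floor_sum_le (L : List (ℝ × ℝ)) (h : ∀ r ∈ L, 0 ≤ r.2) (t : ℝ) (ht : 0 ≤ t) (k c : ℕ) :
    ((((L.filter (fun r => decide (inCell k c r.1))).map (fun r => ⌊r.2 * t⌋₊)).sum : ℕ) : ℝ) ≤
      mass L k c * t := by
  induction L with
  | nil => simp [mass_nil]
  | cons r L ih =>
    have h1 := ih fun s hs => h s (List.mem_cons_of_mem r hs)
    have h2 := h r List.mem_cons_self
    rw [List.filter_cons, mass_cons]
    by_cases hc : inCell k c r.1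
    · rw [if_pos (by simpa using hc), if_pos hc, List.map_cons, List.sum_cons]
      push_cast
      have h3 : ((⌊r.2 * t⌋₊ : ℕ) : ℝ) ≤ r.2 * t := Nat.floor_le (mul_nonneg h2 ht)
      push_cast at h1
      linarith
    · rw [if_neg (by simpa using hc), if_neg hc, zero_add]
      exact h1

/-- ML5: total area of the rows, cell by cell -/
theorem area_cells {k Jm : ℕ} (hk : 1 ≤ k) (L : List (ℝ × ℝ))
    (h : ∀ r ∈ L, 0 < r.1 ∧ r.1 ≤ 1 / (k : ℝ) ^ 3 ∧ 0 ≤ r.2) (hJm : 1 ≤ Jm) :
    (L.map (fun r => r.1 * r.2)).sum ≤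
      ∑ j ∈ Finset.Ico k Jm, ∑ d ∈ Finset.range 100, (1 / (j : ℝ) ^ 3) * mass L j d +
        1 / (Jm : ℝ) ^ 3 * (L.map Prod.snd).sum := by
  induction L with
  | nil => simp [mass_nil]
  | cons r L ih =>
    have h1 := ih fun s hs => h s (List.mem_cons_of_mem r hs)
    obtain ⟨hr1, hr2, hr3⟩ := h r List.mem_cons_self
    rw [List.map_cons, List.sum_cons, List.map_cons, List.sum_cons]
    simp only [mass_cons, mul_add, Finset.sum_add_distrib]
    have hnn : ∀ j ∈ Finset.Ico k Jm, ∀ d ∈ Finset.range 100,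
        0 ≤ (1 / (j : ℝ) ^ 3) * (if inCell j d r.1 then r.2 else 0) := by
      intro j _ d _
      split_ifs
      · positivity
      · simp
    have hnn' : 0 ≤ ∑ j ∈ Finset.Ico k Jm, ∑ d ∈ Finset.range 100,
        (1 / (j : ℝ) ^ 3) * (if inCell j d r.1 then r.2 else 0) :=
      Finset.sum_nonneg fun j hj => Finset.sum_nonneg fun d hd => hnn j hj d hd
    have hJ0 : (0 : ℝ) < Jm := by exact_mod_cast hJm
    have key : r.1 * r.2 ≤ ∑ j ∈ Finset.Ico k Jm, ∑ d ∈ Finset.range 100,
        (1 / (j : ℝ) ^ 3) * (if inCell j d r.1 then r.2 else 0) + 1 / (Jm : ℝ) ^ 3 * r.2 := by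
      rcases le_or_gt r.1 (1 / (Jm : ℝ) ^ 3) with hle | hlt
      · have := mul_le_mul_of_nonneg_right hle hr3
        linarith
      · obtain ⟨j, hj1, hj2, hj3⟩ := block_exists hk hJm hr1 hr2 hlt
        obtain ⟨d, hd1, hd2⟩ := cell_exists (hk.trans hj1) hj3
        have hj : j ∈ Finset.Ico k Jm := Finset.mem_Ico.mpr ⟨hj1, hj2⟩
        have hd : d ∈ Finset.range 100 := Finset.mem_range.mpr hd1
        have s1 : (1 / (j : ℝ) ^ 3) * r.2 ≤ ∑ d ∈ Finset.range 100,
            (1 / (j : ℝ) ^ 3) * (if inCell j d r.1 then r.2 else 0) := by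
          have := Finset.single_le_sum (f := fun d => (1 / (j : ℝ) ^ 3) *
            (if inCell j d r.1 then r.2 else 0)) (fun d hd => hnn j hj d hd) hd
          simp only [if_pos hd2] at this
          exact this
        have s2 := Finset.single_le_sum (f := fun j : ℕ => ∑ d ∈ Finset.range 100,
            (1 / (j : ℝ) ^ 3) * (if inCell j d r.1 then r.2 else 0))
            (fun j hj => Finset.sum_nonneg fun d hd => hnn j hj d hd) hj
        have s3 : r.1 * r.2 ≤ (1 / (j : ℝ) ^ 3) * r.2 := mul_le_mul_of_nonneg_right hj3.2 hr3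
        have s4 : 0 ≤ 1 / (Jm : ℝ) ^ 3 * r.2 := by positivity
        linarith
    linarith

end Pool.Agent.LibMoser5
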