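import Pool.Agent.LibMoser5.Defs
set_option autoImplicit false
namespace Pool.Agent.LibMoser5
open Classical

theorem PotAvg_exp_le (y : ℝ) (h0 : 0 ≤ y) (h1 : y ≤ 1 / 100) :
    Real.exp y ≤ 1 + 101 / 100 * y := by
  have h2 := Real.abs_exp_sub_one_sub_id_le (x := y) (by rw [abs_of_nonneg h0]; linarith)
  have h3 := (abs_le.mp h2).2
  have h4 : y ^ 2 ≤ 1 / 100 * y := by
    rw [pow_two]
    exact mul_le_mul_of_nonneg_right h1 h0
  linarith

/-- Averaging: some rotation `r` does not increase the potential.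
For `0 ≤ y ≤ 1/100`: `exp y ≤ 1 + (101/100) y`.  Hence `(1/N) ∑_r exp(λ Y_r) ≤ 1 + (101/100) λ m ≤ exp((101/100) λ m)`.
Sum over `J`, swap the sums, and take the minimal `r`. -/
theorem pot_avg {ι : Type*} (S : Finset ι) (w lam M A m : ι → ℝ) (Y : ι → ℕ → ℝ) (N : ℕ)
    (hN : 0 < N) (hw : ∀ J ∈ S, 0 ≤ w J) (hl : ∀ J ∈ S, 0 ≤ lam J)
    (hY0 : ∀ J ∈ S, ∀ r < N, 0 ≤ Y J r) (hY : ∀ J ∈ S, ∀ r < N, lam J * Y J r ≤ 1 / 100)
    (havg : ∀ J ∈ S, ∑ r ∈ Finset.range N, Y J r ≤ N * m J)
    (h : ∑ J ∈ S, w J * Real.exp (lam J * (M J - A J)) ≤ 1) :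
    ∃ r < N, ∑ J ∈ S, w J * Real.exp (lam J * (M J + Y J r - (A J + 101 / 100 * m J))) ≤ 1 := by
  by_contra hcon
  push Not at hcon
  have hN' : (0 : ℝ) < N := by exact_mod_cast hN
  have h1 : ∑ r ∈ Finset.range N, (1 : ℝ) < ∑ r ∈ Finset.range N, ∑ J ∈ S,
      w J * Real.exp (lam J * (M J + Y J r - (A J + 101 / 100 * m J))) := by
    apply Finset.sum_lt_sum_of_nonempty
    · exact ⟨0, Finset.mem_range.mpr hN⟩
    · intro r hr
      exact hcon r (Finset.mem_range.mp hr)
  rw [Finset.sum_comm] at h1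
  have h2 : ∀ J ∈ S, ∑ r ∈ Finset.range N,
      w J * Real.exp (lam J * (M J + Y J r - (A J + 101 / 100 * m J))) ≤
      N * (w J * Real.exp (lam J * (M J - A J))) := by
    intro J hJ
    have h3 : ∑ r ∈ Finset.range N, Real.exp (lam J * Y J r) ≤
        N * Real.exp (101 / 100 * (lam J * m J)) := by
      calc ∑ r ∈ Finset.range N, Real.exp (lam J * Y J r)
          ≤ ∑ r ∈ Finset.range N, (1 + 101 / 100 * (lam J * Y J r)) := by
            apply Finset.sum_le_sum
            intro r hr
            exact PotAvg_exp_le _ (mul_nonneg (hl J hJ) (hY0 J hJ r (Finset.mem_range.mp hr)))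
              (hY J hJ r (Finset.mem_range.mp hr))
        _ = N + 101 / 100 * (lam J * ∑ r ∈ Finset.range N, Y J r) := by
            rw [Finset.sum_add_distrib, ← Finset.mul_sum, ← Finset.mul_sum]
            simp
        _ ≤ N + 101 / 100 * (lam J * (N * m J)) := by
            have := mul_le_mul_of_nonneg_left (havg J hJ) (hl J hJ)
            linarith
        _ = N * (101 / 100 * (lam J * m J) + 1) := by ring
        _ ≤ N * Real.exp (101 / 100 * (lam J * m J)) :=
            mul_le_mul_of_nonneg_left (Real.add_one_le_exp _) hN'.le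
    have h4 : ∀ r, w J * Real.exp (lam J * (M J + Y J r - (A J + 101 / 100 * m J))) =
        (w J * Real.exp (lam J * (M J - A J)) * Real.exp (-(101 / 100 * (lam J * m J)))) *
          Real.exp (lam J * Y J r) := by
      intro r
      rw [mul_assoc, mul_assoc, ← Real.exp_add, ← Real.exp_add]
      congr 2
      ring
    simp_rw [h4]
    rw [← Finset.mul_sum]
    calc (w J * Real.exp (lam J * (M J - A J)) * Real.exp (-(101 / 100 * (lam J * m J)))) *
          ∑ r ∈ Finset.range N, Real.exp (lam J * Y J r)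
        ≤ (w J * Real.exp (lam J * (M J - A J)) * Real.exp (-(101 / 100 * (lam J * m J)))) *
          (N * Real.exp (101 / 100 * (lam J * m J))) := by
          apply mul_le_mul_of_nonneg_left h3
          have := hw J hJ
          positivity
      _ = N * (w J * Real.exp (lam J * (M J - A J))) *
          (Real.exp (-(101 / 100 * (lam J * m J))) * Real.exp (101 / 100 * (lam J * m J))) := by
          ring
      _ = N * (w J * Real.exp (lam J * (M J - A J))) := by
          rw [← Real.exp_add, neg_add_cancel, Real.exp_zero, mul_one]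
  have h5 := Finset.sum_le_sum h2
  rw [← Finset.mul_sum] at h5
  have h6 := mul_le_mul_of_nonneg_left h hN'.le
  have h7 : ∑ r ∈ Finset.range N, (1 : ℝ) = N := by simp
  rw [h7] at h1
  linarith

end Pool.Agent.LibMoser5
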