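import Pool.Agent.LibMoser5.Count
set_option autoImplicit false
namespace Pool.Agent.LibMoser5
open Classical

theorem RotAvg_sd {m n : ℕ} {T : ℝ} (hmn : m < n) (hm : (m : ℝ) + 1 / 2 ≤ T)
    (hn : (n : ℝ) + 1 / 2 ≤ T) : 1 / T ^ 2 ≤ sd m - sd n := by
  have h1 : (m : ℝ) + 1 ≤ n := by exact_mod_cast hmn
  have hm0 : (0 : ℝ) < (m : ℝ) + 1 / 2 := by positivity
  have hn0 : (0 : ℝ) < (n : ℝ) + 1 / 2 := by positivity
  have hT : 0 < T := by linarith
  rw [sd, sd, div_sub_div _ _ hm0.ne' hn0.ne']
  refine div_le_div₀ (by linarith) (by linarith) (by positivity) ?_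
  rw [pow_two]
  exact mul_le_mul hm hn hn0.le hT.le

/-- contribution of one pair -/
noncomputable def RotAvg_G (α β τ : ℝ) (n : ℕ) : ℝ :=
  if α < τ - sd n ∧ τ - sd n ≤ β then sd n else 0

theorem RotAvg_mass (α β : ℝ) (L : List ℝ) (I : List ℕ) (h : L.length = I.length) :
    massI α β (pcs L I) =
      ∑ p ∈ Finset.range L.length, RotAvg_G α β (L.getD p 0) (I.getD p 0) := by
  induction L generalizing I with
  | nil => simp [pcs, massI]
  | cons x L ih =>
    cases I with
    | nil => simp at h
    | cons n I =>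
      have e : pcs (x :: L) (n :: I) = (x - sd n, sd n) :: pcs L I := rfl
      have e2 : massI α β ((x - sd n, sd n) :: pcs L I) =
          RotAvg_G α β x n + massI α β (pcs L I) := by
        simp [massI, RotAvg_G]
      rw [e, e2, ih I (by simpa using h), List.length_cons, Finset.sum_range_succ']
      simp only [List.getD_cons_succ, List.getD_cons_zero]
      ring

theorem RotAvg_shift (N : ℕ) (hN : 0 < N) (h : ℕ → ℝ) (p : ℕ) :
    ∑ r ∈ Finset.range N, h ((p + r) % N) = ∑ r ∈ Finset.range N, h r := by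
  induction p with
  | zero =>
    refine Finset.sum_congr rfl fun r hr => ?_
    rw [Nat.zero_add, Nat.mod_eq_of_lt (Finset.mem_range.mp hr)]
  | succ p ih =>
    rw [← ih]
    obtain ⟨M, rfl⟩ : ∃ M, N = M + 1 := ⟨N - 1, by omega⟩
    rw [Finset.sum_range_succ, Finset.sum_range_succ' (fun r => h ((p + r) % (M + 1)))]
    have e1 : (p + 1 + M) % (M + 1) = (p + 0) % (M + 1) := by
      have : p + 1 + M = p + 0 + (M + 1) := by ring
      rw [this, Nat.add_mod_right]
    rw [e1]
    congr 1
    refine Finset.sum_congr rfl fun r _ => ?_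
    congr 2
    ring

/-- the sum over the whole list of indices, for one thickness -/
theorem RotAvg_col (I : List ℕ) (hI : I.Pairwise (fun m n => m < n)) (t : ℝ) (ht : 0 < t)
    (hlo : ∀ n ∈ I, t ≤ (n : ℝ) + 1 / 2) (α β τ : ℝ) :
    (I.map (fun n => RotAvg_G α β τ n)).sum ≤
      1 / t * ((I.map (fun n => τ - sd n)).countP (fun x => α < x ∧ x ≤ β) : ℝ) := by
  induction I with
  | nil => simp
  | cons n I ih =>
    rw [List.pairwise_cons] at hI
    have h1 := ih hI.2 (fun m hm => hlo m (List.mem_cons_of_mem n hm))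
    have hsd : sd n ≤ 1 / t := one_div_le_one_div_of_le ht (hlo n List.mem_cons_self)
    rw [List.map_cons, List.map_cons, List.sum_cons, List.countP_cons]
    by_cases hc : α < τ - sd n ∧ τ - sd n ≤ β
    · rw [if_pos (by simpa using hc), RotAvg_G, if_pos hc]
      push_cast
      linarith
    · rw [if_neg (by simpa using hc), RotAvg_G, if_neg hc]
      push_cast
      linarith

theorem RotAvg_col2 (I : List ℕ) (hI : I.Pairwise (fun m n => m < n)) (t T : ℝ) (ht : 0 < t)
    (hT : 0 < T)
    (hlo : ∀ n ∈ I, t ≤ (n : ℝ) + 1 / 2) (hhi : ∀ n ∈ I, (n : ℝ) + 1 / 2 ≤ T) (α β : ℝ)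
    (hαβ : α ≤ β) (τ : ℝ) :
    (I.map (fun n => RotAvg_G α β τ n)).sum ≤
      if ∃ n ∈ I, α < τ - sd n ∧ τ - sd n ≤ β then ((β - α) * T ^ 2 + 1) / t else 0 := by
  have h1 := RotAvg_col I hI t ht hlo α β τ
  split_ifs with hc
  · have hp : (I.map (fun n => τ - sd n)).Pairwise (fun x y => x + 1 / T ^ 2 ≤ y) := by
      rw [List.pairwise_map]
      refine List.Pairwise.imp_of_mem ?_ hI
      intro m n hm hn hmn
      have := RotAvg_sd hmn (hhi m hm) (hhi n hn)
      linarith
    have h2 := count_spaced _ (1 / T ^ 2) α β (by positivity) hαβ hp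
    have h3 : (β - α) / (1 / T ^ 2) = (β - α) * T ^ 2 := by
      field_simp
    rw [h3] at h2
    have h4 := mul_le_mul_of_nonneg_left h2 (by positivity : 0 ≤ 1 / t)
    refine h1.trans (h4.trans (le_of_eq ?_))
    ring
  · refine le_of_eq ?_
    refine List.sum_eq_zero ?_
    intro x hx
    rw [List.mem_map] at hx
    obtain ⟨n, hn, rfl⟩ := hx
    rw [RotAvg_G, if_neg]
    intro h
    exact hc ⟨n, hn, h⟩

theorem RotAvg_list (I : List ℕ) (g : ℕ → ℝ) :
    ∑ r ∈ Finset.range I.length, g (I.getD r 0) = (I.map g).sum := by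
  induction I with
  | nil => simp
  | cons n I ih =>
    rw [List.length_cons, Finset.sum_range_succ', List.map_cons, List.sum_cons]
    simp only [List.getD_cons_succ, List.getD_cons_zero]
    rw [ih]
    ring

theorem RotAvg_count (L : List ℝ) (P : ℝ → Prop) (c : ℝ) :
    ∑ p ∈ Finset.range L.length, (if P (L.getD p 0) then c else 0) =
      c * (L.countP (fun τ => P τ) : ℝ) := by
  induction L with
  | nil => simp
  | cons x L ih =>
    rw [List.length_cons, Finset.sum_range_succ', List.countP_cons]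
    simp only [List.getD_cons_succ, List.getD_cons_zero]
    rw [ih]
    by_cases hx : P x
    · rw [if_pos hx, if_pos (by simpa using hx)]
      push_cast
      ring
    · rw [if_neg hx, if_neg (by simpa using hx)]
      push_cast
      ring

theorem RotAvg_getD (I : List ℕ) (r p : ℕ) (hp : p < I.length) :
    (I.rotate r).getD p 0 = I.getD ((p + r) % I.length) 0 := by
  have h1 : (p + r) % I.length < I.length := Nat.mod_lt _ (by omega)
  rw [List.getD_eq_getElem _ _ (by rw [List.length_rotate]; exact hp),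
    List.getD_eq_getElem _ _ h1, List.getElem_rotate]

/-- Average over rotations.  Swap the sums: for a fixed position `p` of `L` the index `(I.rotate r)[p]`
runs through all of `I` when `r` runs through `range I.length`; the number of `n ∈ I` with `α < L[p] - sd n ≤ β` is
`≤ (β-α)T^2+1` by `count_spaced`, and it is `0` if there is no such `n`. -/
theorem rot_avg (L : List ℝ) (I : List ℕ) (hlen : L.length = I.length)
    (hI : I.Pairwise (fun m n => m < n)) (t T : ℝ) (ht : 0 < t)
    (hlo : ∀ n ∈ I, t ≤ (n : ℝ) + 1 / 2) (hhi : ∀ n ∈ I, (n : ℝ) + 1 / 2 ≤ T) (α β : ℝ)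
    (hαβ : α ≤ β) :
    ∑ r ∈ Finset.range I.length, massI α β (pcs L (I.rotate r)) ≤
      ((β - α) * T ^ 2 + 1) / t *
        (L.countP (fun τ => ∃ n ∈ I, α < τ - sd n ∧ τ - sd n ≤ β) : ℝ) := by
  by_cases hI0 : I = []
  · have hLn : L = [] := List.length_eq_zero_iff.mp (by rw [hlen, hI0]; rfl)
    rw [hI0, hLn]
    simp
  have hpos : 0 < I.length := List.length_pos_iff.mpr hI0
  have hT : 0 < T := by
    obtain ⟨n0, hn0⟩ := List.exists_mem_of_ne_nil I hI0
    have a1 := hhi n0 hn0
    have a2 : (0 : ℝ) < (n0 : ℝ) + 1 / 2 := by positivity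
    linarith
  calc ∑ r ∈ Finset.range I.length, massI α β (pcs L (I.rotate r))
      = ∑ r ∈ Finset.range I.length, ∑ p ∈ Finset.range L.length,
          RotAvg_G α β (L.getD p 0) (I.getD ((p + r) % I.length) 0) := by
        refine Finset.sum_congr rfl fun r _ => ?_
        rw [RotAvg_mass α β L (I.rotate r) (by rw [List.length_rotate]; exact hlen)]
        refine Finset.sum_congr rfl fun p hp => ?_
        rw [RotAvg_getD I r p (by rw [← hlen]; exact Finset.mem_range.mp hp)]
    _ = ∑ p ∈ Finset.range L.length, (I.map (fun n => RotAvg_G α β (L.getD p 0) n)).sum := by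
        rw [Finset.sum_comm]
        refine Finset.sum_congr rfl fun p _ => ?_
        rw [RotAvg_shift I.length hpos (fun q => RotAvg_G α β (L.getD p 0) (I.getD q 0)) p,
          RotAvg_list I (fun n => RotAvg_G α β (L.getD p 0) n)]
    _ ≤ ∑ p ∈ Finset.range L.length,
          (if ∃ n ∈ I, α < L.getD p 0 - sd n ∧ L.getD p 0 - sd n ≤ β then
            ((β - α) * T ^ 2 + 1) / t else 0) := by
        refine Finset.sum_le_sum fun p _ => ?_
        exact RotAvg_col2 I hI t T ht hT hlo hhi α β hαβ _
    _ = _ := by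
        have h := RotAvg_count L (fun τ => ∃ n ∈ I, α < τ - sd n ∧ τ - sd n ≤ β)
          (((β - α) * T ^ 2 + 1) / t)
        have h2 : L.countP (fun τ => decide (∃ n ∈ I, α < τ - sd n ∧ τ - sd n ≤ β)) =
            L.countP (fun τ => @decide (∃ n ∈ I, α < τ - sd n ∧ τ - sd n ≤ β)
              (Classical.propDecidable _)) := by
          apply List.countP_congr
          intro τ _
          simp
        rw [h2, ← h]
        refine Finset.sum_congr rfl fun p _ => ?_
        by_cases hc : ∃ n ∈ I, α < L.getD p 0 - sd n ∧ L.getD p 0 - sd n ≤ β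
        · rw [if_pos hc, if_pos hc]
        · rw [if_neg hc, if_neg hc]

end Pool.Agent.LibMoser5
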