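import Pool.Agent.LibMoser5.Count
set_option autoImplicit false
namespace Pool.Agent.LibMoser5
open Classical

theorem RotMax_sd {m n : ℕ} {T : ℝ} (hmn : m < n) (hm : (m : ℝ) + 1 / 2 ≤ T)
    (hn : (n : ℝ) + 1 / 2 ≤ T) : 1 / T ^ 2 ≤ sd m - sd n := by
  have h1 : (m : ℝ) + 1 ≤ n := by exact_mod_cast hmn
  have hm0 : (0 : ℝ) < (m : ℝ) + 1 / 2 := by positivity
  have hn0 : (0 : ℝ) < (n : ℝ) + 1 / 2 := by positivity
  have hT : 0 < T := by linarith
  rw [sd, sd, div_sub_div _ _ hm0.ne' hn0.ne']
  refine div_le_div₀ (by linarith) (by linarith) (by positivity) ?_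
  rw [pow_two]
  exact mul_le_mul hm hn hn0.le hT.le

theorem RotMax_pcs_append (L1 L2 : List ℝ) (I1 I2 : List ℕ) (h : L1.length = I1.length) :
    pcs (L1 ++ L2) (I1 ++ I2) = pcs L1 I1 ++ pcs L2 I2 := by
  rw [pcs, pcs, pcs]
  exact List.zipWith_append h

theorem RotMax_massI_append (α β : ℝ) (L L' : List (ℝ × ℝ)) :
    massI α β (L ++ L') = massI α β L + massI α β L' := by
  simp [massI]

/-- one increasing stretch -/
theorem RotMax_part (L : List ℝ) (I : List ℕ)
    (hL : L.Pairwise (fun x y => x ≤ y)) (hI : I.Pairwise (fun m n => m < n)) (t T : ℝ) (ht : 0 < t)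
    (hT : 0 < T)
    (hlo : ∀ n ∈ I, t ≤ (n : ℝ) + 1 / 2) (hhi : ∀ n ∈ I, (n : ℝ) + 1 / 2 ≤ T) (α β : ℝ)
    (hαβ : α ≤ β) : massI α β (pcs L I) ≤ ((β - α) * T ^ 2 + 1) / t := by
  have key : massI α β (pcs L I) ≤
        1 / t * (((pcs L I).map Prod.fst).countP (fun x => α < x ∧ x ≤ β) : ℝ) ∧
      ((pcs L I).map Prod.fst).Pairwise (fun x y => x + 1 / T ^ 2 ≤ y) ∧
      ∀ r ∈ pcs L I, ∃ x ∈ L, ∃ n ∈ I, r = (x - sd n, sd n) := by
    clear hαβ
    induction L generalizing I with
    | nil => simp [pcs, massI]
    | cons x L ih =>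
      cases I with
      | nil => simp [pcs, massI]
      | cons n I =>
        rw [List.pairwise_cons] at hL hI
        obtain ⟨h1, h2, h3⟩ := ih I hL.2 hI.2 (fun m hm => hlo m (List.mem_cons_of_mem n hm))
          (fun m hm => hhi m (List.mem_cons_of_mem n hm))
        have e : pcs (x :: L) (n :: I) = (x - sd n, sd n) :: pcs L I := rfl
        rw [e]
        refine ⟨?_, ?_, ?_⟩
        · have e2 : massI α β ((x - sd n, sd n) :: pcs L I) =
              (if α < x - sd n ∧ x - sd n ≤ β then sd n else 0) + massI α β (pcs L I) := by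
            simp [massI]
          have hsd : sd n ≤ 1 / t := one_div_le_one_div_of_le ht (hlo n List.mem_cons_self)
          rw [e2, List.map_cons, List.countP_cons]
          by_cases hc : α < x - sd n ∧ x - sd n ≤ β
          · rw [if_pos hc, if_pos (by simpa using hc)]
            push_cast
            linarith
          · rw [if_neg hc, if_neg (by simpa using hc)]
            push_cast
            linarith
        · rw [List.map_cons, List.pairwise_cons]
          refine ⟨?_, h2⟩
          intro y hy
          rw [List.mem_map] at hy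
          obtain ⟨r, hr, rfl⟩ := hy
          obtain ⟨x', hx', m, hm, rfl⟩ := h3 r hr
          have a1 := RotMax_sd (hI.1 m hm) (hhi n List.mem_cons_self)
            (hhi m (List.mem_cons_of_mem n hm))
          have a2 := hL.1 x' hx'
          show x - sd n + 1 / T ^ 2 ≤ x' - sd m
          linarith
        · intro r hr
          rw [List.mem_cons] at hr
          rcases hr with rfl | hr
          · exact ⟨x, List.mem_cons_self, n, List.mem_cons_self, rfl⟩
          · obtain ⟨x', hx', m, hm, rfl⟩ := h3 r hr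
            exact ⟨x', List.mem_cons_of_mem x hx', m, List.mem_cons_of_mem n hm, rfl⟩
  have h2 := count_spaced _ (1 / T ^ 2) α β (by positivity) hαβ key.2.1
  have h3 : (β - α) / (1 / T ^ 2) = (β - α) * T ^ 2 := by
    field_simp
  rw [h3] at h2
  have h4 := mul_le_mul_of_nonneg_left h2 (by positivity : 0 ≤ 1 / t)
  refine key.1.trans (h4.trans (le_of_eq ?_))
  ring

/-- Maximum over rotations.  `I.rotate r` is the concatenation of two increasing lists, `L` is split
accordingly; on each of the two parts the numbers `τ_p - sd n_p` increase by at least `1/T^2` at each step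
(`sd n - sd n' = (n'-n)/(t t') ≥ 1/T^2` for `n < n'`), so `count_spaced` gives `≤ (β-α)T^2+1` hits on each part;
every hit contributes `sd n ≤ 1/tm`. -/
theorem rot_max (L : List ℝ) (I : List ℕ) (hlen : L.length = I.length)
    (hL : L.Pairwise (fun x y => x ≤ y)) (hI : I.Pairwise (fun m n => m < n)) (t T : ℝ) (ht : 0 < t)
    (hlo : ∀ n ∈ I, t ≤ (n : ℝ) + 1 / 2) (hhi : ∀ n ∈ I, (n : ℝ) + 1 / 2 ≤ T) (α β : ℝ)
    (hαβ : α ≤ β) (r : ℕ) :
    massI α β (pcs L (I.rotate r)) ≤ 2 * ((β - α) * T ^ 2 + 1) / t := by
  cases I with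
  | nil =>
    have hLn : L = [] := List.length_eq_zero_iff.mp hlen
    rw [hLn]
    have : massI α β (pcs [] (List.rotate [] r)) = 0 := by simp [pcs, massI]
    rw [this]
    have := sub_nonneg.mpr hαβ
    positivity
  | cons n0 I0 =>
    set I := n0 :: I0 with hIdef
    have hT : 0 < T := by
      have a1 := hhi n0 List.mem_cons_self
      have a2 : (0 : ℝ) < (n0 : ℝ) + 1 / 2 := by positivity
      linarith
    have hlen0 : 0 < I.length := by simp [hIdef]
    set s := r % I.length with hs
    have hsl : s < I.length := Nat.mod_lt _ hlen0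
    have hrot : I.rotate r = I.drop s ++ I.take s := by
      rw [← List.rotate_mod, List.rotate_eq_drop_append_take hsl.le]
    rw [hrot]
    have hLs : L = L.take (I.length - s) ++ L.drop (I.length - s) := (List.take_append_drop _ _).symm
    rw [hLs, RotMax_pcs_append _ _ _ _ (by
      rw [List.length_take, List.length_drop, hlen]
      exact Nat.min_eq_left (Nat.sub_le _ _)), RotMax_massI_append]
    have p1 := RotMax_part (L.take (I.length - s)) (I.drop s)
      (hL.sublist (List.take_sublist _ _)) (hI.sublist (List.drop_sublist _ _)) t T ht hT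
      (fun n hn => hlo n (List.mem_of_mem_drop hn)) (fun n hn => hhi n (List.mem_of_mem_drop hn))
      α β hαβ
    have p2 := RotMax_part (L.drop (I.length - s)) (I.take s)
      (hL.sublist (List.drop_sublist _ _)) (hI.sublist (List.take_sublist _ _)) t T ht hT
      (fun n hn => hlo n (List.mem_of_mem_take hn)) (fun n hn => hhi n (List.mem_of_mem_take hn))
      α β hαβ
    have e : 2 * ((β - α) * T ^ 2 + 1) / t =
        ((β - α) * T ^ 2 + 1) / t + ((β - α) * T ^ 2 + 1) / t := by ring
    rw [e]
    exact add_le_add p1 p2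

end Pool.Agent.LibMoser5
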