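import Pool.Agent.LibMoser5.Good
import Pool.Agent.LibMoser5.PotAvg
import Pool.Agent.LibMoser5.RotMax
import Pool.Agent.LibMoser5.RotAvg
import Pool.Agent.LibMoser5.CellsM
set_option autoImplicit false
namespace Pool.Agent.LibMoser5
open Classical

theorem ChooseRot_mem_pcs (L : List ℝ) (I : List ℕ) (x : ℝ × ℝ) (h : x ∈ pcs L I) :
    ∃ τ ∈ L, ∃ n ∈ I, x = (τ - sd n, sd n) := by
  induction L generalizing I with
  | nil => simp [pcs] at h
  | cons a L ih =>
    cases I with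
    | nil => simp [pcs] at h
    | cons b I =>
      have h' : x ∈ (a - sd b, sd b) :: pcs L I := h
      rcases List.mem_cons.mp h' with h1 | h1
      · exact ⟨a, List.mem_cons_self, b, List.mem_cons_self, h1⟩
      · obtain ⟨τ, hτ, n, hn, he⟩ := ih I h1
        exact ⟨τ, List.mem_cons_of_mem _ hτ, n, List.mem_cons_of_mem _ hn, he⟩

theorem ChooseRot_sd_nonneg (n : ℕ) : 0 ≤ sd n := by
  unfold sd
  positivity

theorem ChooseRot_massI_zero (α β : ℝ) (L : List (ℝ × ℝ))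
    (h : ∀ r ∈ L, ¬ (α < r.1 ∧ r.1 ≤ β)) : massI α β L = 0 := by
  unfold massI
  apply List.sum_eq_zero
  intro x hx
  obtain ⟨r, hr, rfl⟩ := List.mem_map.mp hx
  rw [if_neg (h r hr)]

theorem ChooseRot_countP (L : List ℝ) (F : Finset ℕ) (p : ℝ → Bool) (q : ℕ → ℝ → Bool)
    (h : ∀ τ ∈ L, p τ = true → ∃ c ∈ F, q c τ = true) :
    L.countP p ≤ ∑ c ∈ F, L.countP (q c) := by
  induction L with
  | nil => simp
  | cons a L ih =>
    have ih' := ih fun τ hτ => h τ (List.mem_cons_of_mem _ hτ)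
    simp only [List.countP_cons]
    rw [Finset.sum_add_distrib]
    have h2 : (if p a = true then 1 else 0) ≤ ∑ c ∈ F, (if q c a = true then 1 else 0) := by
      by_cases hp : p a = true
      · obtain ⟨c, hc, hq⟩ := h a List.mem_cons_self hp
        have h3 : (if q c a = true then 1 else 0) ≤
            ∑ c ∈ F, (if q c a = true then 1 else 0) :=
          Finset.single_le_sum (f := fun c => if q c a = true then 1 else 0)
            (fun i _ => Nat.zero_le _) hc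
        rw [if_pos hp]
        rw [if_pos hq] at h3
        exact h3
      · simp [hp]
    exact add_le_add ih' h2

/-- a piece of a label in cell `(k,c)` that lies in cell `(j,d)` makes `Reach` true. -/
theorem ChooseRot_reach {c0 k c j d n : ℕ} {τ : ℝ} (hc : inCell k c τ) (hn : AA c0 k ≤ n)
    (hn' : n < AA c0 (k + 1)) (h1 : 1 / edge j (d + 1) < τ - sd n)
    (h2 : τ - sd n ≤ 1 / edge j d) : Reach c0 k c j d := by
  have e1 : (AA c0 k : ℝ) ≤ n := by exact_mod_cast hn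
  have e2 : (n : ℝ) + 1 ≤ AA c0 (k + 1) := by exact_mod_cast hn'
  have e0 : (0 : ℝ) ≤ AA c0 k := Nat.cast_nonneg _
  have e3 : sd n ≤ 1 / tm c0 k := by
    unfold sd tm
    apply one_div_le_one_div_of_le
    · linarith
    · linarith
  have e4 : 1 / TT c0 k ≤ sd n := by
    unfold sd TT
    apply one_div_le_one_div_of_le
    · linarith
    · linarith
  obtain ⟨h3, h4⟩ := hc
  constructor
  · unfold lowr
    linarith
  · unfold uppr
    linarith

/-- choice of the rotation.  `pot_avg` with `S = Ico k0 Jm ×ˢ range 100`, `w = 1/(100 j²)`,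
`lam = j^(5/4)`, `M = mass SL j d`, `A = 1.01 ∑_{i∈Ico k0 k} mJ`, `m = mJ c0 k j d`,
`Y (j,d) r = mass (pcs L (I.rotate r)) j d`.
* `Y ≤ 2(wid·TT²+1)/tm` by `rot_max`, and `Y = 0` unless some cell `c` reaches `(j,d)`; `Good.small`.
* average: `rot_avg`; a label `τ` in cell `(k,c)` can produce a piece in cell `(j,d)` only if `Reach c0 k c j d`
  (`lowr < τ - sd n ≤ uppr`), so the `countP` is `≤ ∑_{c reach} (N/100+1) ≤ N (1/100 + 1/k²) nreach`;
  and `1/tm ≤ 1/k³`. -/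
theorem choose_rot {C : ℝ} {k0 c0 Jm k : ℕ} (g : Good C k0 c0) (hk : k0 ≤ k) (SL : List (ℝ × ℝ))
    (hSL : ∀ r ∈ SL, 0 ≤ r.2) (hpot : pot k0 c0 Jm k SL ≤ 1) (L : List ℝ) (I : List ℕ)
    (hlen : L.length = I.length) (hL : L.Pairwise (fun x y => x ≤ y)) (hLb : ∀ τ ∈ L, inBlock k τ)
    (hI : I.Pairwise (fun m n => m < n)) (hIw : ∀ n ∈ I, AA c0 k ≤ n ∧ n < AA c0 (k + 1))
    (hcount : ∀ c < 100, ((L.countP (fun τ => decide (inCell k c τ)) : ℕ) : ℝ) ≤ I.length / 100 + 1)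
    (hN : (k : ℝ) ^ 2 ≤ I.length) :
    ∃ r < I.length, pot k0 c0 Jm (k + 1) (SL ++ pcs L (I.rotate r)) ≤ 1 := by
  have hk60 : 60 ≤ k := g.k60.trans hk
  have hk1 : 1 ≤ k := by omega
  have hkpos : (0 : ℝ) < k := by exact_mod_cast (by omega : 0 < k)
  have hNpos : (0 : ℝ) < (I.length : ℝ) := lt_of_lt_of_le (by positivity) hN
  have hNpos' : 0 < I.length := by exact_mod_cast hNpos
  -- bounds of the window
  have htm : (k : ℝ) ^ 3 ≤ tm c0 k := by
    have h1 := g.w1 k hk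
    have h2 : (((k + 1) ^ 3 + 1 : ℕ) : ℝ) ≤ (AA c0 k : ℝ) := by exact_mod_cast h1
    push_cast at h2
    unfold tm
    have h3 : (k : ℝ) ^ 3 ≤ ((k : ℝ) + 1) ^ 3 := pow_le_pow_left₀ hkpos.le (by linarith) 3
    linarith
  have htm0 : 0 < tm c0 k := lt_of_lt_of_le (by positivity) htm
  have hlo : ∀ n ∈ I, tm c0 k ≤ (n : ℝ) + 1 / 2 := by
    intro n hn
    have : (AA c0 k : ℝ) ≤ n := by exact_mod_cast (hIw n hn).1
    unfold tm
    linarith
  have hhi : ∀ n ∈ I, (n : ℝ) + 1 / 2 ≤ TT c0 k := by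
    intro n hn
    have : (n : ℝ) + 1 ≤ AA c0 (k + 1) := by exact_mod_cast (hIw n hn).2
    unfold TT
    linarith
  -- the cell of a piece
  have hreach : ∀ j d : ℕ, ∀ τ ∈ L, ∀ n ∈ I,
      (1 / edge j (d + 1) < τ - sd n ∧ τ - sd n ≤ 1 / edge j d) →
      ∃ c < 100, inCell k c τ ∧ Reach c0 k c j d := by
    intro j d τ hτ n hn h
    obtain ⟨c, hc, hcell⟩ := cell_exists hk1 (hLb τ hτ)
    exact ⟨c, hc, hcell, ChooseRot_reach hcell (hIw n hn).1 (hIw n hn).2 h.1 h.2⟩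
  have hwid : ∀ j d : ℕ, 1 ≤ j → 1 / edge j (d + 1) ≤ 1 / edge j d := by
    intro j d hj
    have := wid_nonneg hj d
    unfold wid at this
    linarith
  have hpieces : ∀ r : ℕ, ∀ x ∈ pcs L (I.rotate r), 0 ≤ x.2 := by
    intro r x hx
    obtain ⟨τ, _, n, _, rfl⟩ := ChooseRot_mem_pcs _ _ _ hx
    exact ChooseRot_sd_nonneg n
  have hmem : ∀ J ∈ Finset.Ico k0 Jm ×ˢ Finset.range 100, 1 ≤ J.1 ∧ k0 ≤ J.1 ∧ J.2 < 100 := by
    intro J hJ
    rw [Finset.mem_product, Finset.mem_Ico, Finset.mem_range] at hJ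
    have := g.k60
    exact ⟨by omega, hJ.1.1, hJ.2⟩
  have key := pot_avg (Finset.Ico k0 Jm ×ˢ Finset.range 100)
    (fun J => 1 / (100 * (J.1 : ℝ) ^ 2)) (fun J => (J.1 : ℝ) ^ (5 / 4 : ℝ))
    (fun J => mass SL J.1 J.2)
    (fun J => 101 / 100 * ∑ i ∈ Finset.Ico k0 k, mJ c0 i J.1 J.2)
    (fun J => mJ c0 k J.1 J.2)
    (fun J r => mass (pcs L (I.rotate r)) J.1 J.2) I.length hNpos'
    (fun J _ => by positivity) (fun J _ => by positivity)
    (fun J _ r _ => massI_nonneg _ _ _ (hpieces r)) ?_ ?_ ?_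
  · obtain ⟨r, hr, hle⟩ := key
    refine ⟨r, hr, ?_⟩
    unfold pot
    rw [Finset.sum_product] at hle
    refine le_trans (le_of_eq ?_) hle
    refine Finset.sum_congr rfl fun j _ => Finset.sum_congr rfl fun d _ => ?_
    rw [mass_append, Finset.sum_Ico_succ_top hk, mul_add (101 / 100 : ℝ)]
  · -- maximum
    intro J hJ r hr
    obtain ⟨hJ1, hJ0, hJ2⟩ := hmem J hJ
    by_cases hR : ∃ c < 100, Reach c0 k c J.1 J.2
    · obtain ⟨c, hc, hR⟩ := hR
      have h1 := rot_max L I hlen hL hI (tm c0 k) (TT c0 k) htm0 hlo hhi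
        (1 / edge J.1 (J.2 + 1)) (1 / edge J.1 J.2) (hwid J.1 J.2 hJ1) r
      have h2 := g.small k hk J.1 hJ0 c hc J.2 hJ2 hR
      refine le_trans (mul_le_mul_of_nonneg_left ?_ (by positivity)) h2
      exact h1
    · have h1 : mass (pcs L (I.rotate r)) J.1 J.2 = 0 := by
        apply ChooseRot_massI_zero
        intro x hx hcon
        obtain ⟨τ, hτ, n, hn, rfl⟩ := ChooseRot_mem_pcs _ _ _ hx
        rw [List.mem_rotate] at hn
        obtain ⟨c, hc, _, hR'⟩ := hreach J.1 J.2 τ hτ n hn hcon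
        exact hR ⟨c, hc, hR'⟩
      rw [h1, mul_zero]
      norm_num
  · -- average
    intro J hJ
    obtain ⟨hJ1, hJ0, hJ2⟩ := hmem J hJ
    have h1 := rot_avg L I hlen hI (tm c0 k) (TT c0 k) htm0 hlo hhi
      (1 / edge J.1 (J.2 + 1)) (1 / edge J.1 J.2) (hwid J.1 J.2 hJ1)
    have hc1 : L.countP (fun τ => decide (∃ n ∈ I, 1 / edge J.1 (J.2 + 1) < τ - sd n ∧
        τ - sd n ≤ 1 / edge J.1 J.2)) ≤
        ∑ c ∈ (Finset.range 100).filter (fun c => Reach c0 k c J.1 J.2),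
          L.countP (fun τ => decide (inCell k c τ)) := by
      apply ChooseRot_countP
      intro τ hτ hp
      obtain ⟨n, hn, h2⟩ := of_decide_eq_true hp
      obtain ⟨c, hc, hcell, hR⟩ := hreach J.1 J.2 τ hτ n hn h2
      exact ⟨c, Finset.mem_filter.mpr ⟨Finset.mem_range.mpr hc, hR⟩, decide_eq_true hcell⟩
    have hc2 : ((L.countP (fun τ => decide (∃ n ∈ I, 1 / edge J.1 (J.2 + 1) < τ - sd n ∧
        τ - sd n ≤ 1 / edge J.1 J.2)) : ℕ) : ℝ) ≤
        nreach c0 k J.1 J.2 * ((I.length : ℝ) / 100 + 1) := by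
      calc ((L.countP (fun τ => decide (∃ n ∈ I, 1 / edge J.1 (J.2 + 1) < τ - sd n ∧
        τ - sd n ≤ 1 / edge J.1 J.2)) : ℕ) : ℝ)
          ≤ ((∑ c ∈ (Finset.range 100).filter (fun c => Reach c0 k c J.1 J.2),
          L.countP (fun τ => decide (inCell k c τ)) : ℕ) : ℝ) := by exact_mod_cast hc1
        _ = ∑ c ∈ (Finset.range 100).filter (fun c => Reach c0 k c J.1 J.2),
          ((L.countP (fun τ => decide (inCell k c τ)) : ℕ) : ℝ) := by push_cast; rfl
        _ ≤ ∑ c ∈ (Finset.range 100).filter (fun c => Reach c0 k c J.1 J.2),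
          ((I.length : ℝ) / 100 + 1) := by
            apply Finset.sum_le_sum
            intro c hc
            exact hcount c (Finset.mem_range.mp (Finset.mem_filter.mp hc).1)
        _ = nreach c0 k J.1 J.2 * ((I.length : ℝ) / 100 + 1) := by
            rw [Finset.sum_const, nsmul_eq_mul]
            rfl
    have hw0 : 0 ≤ wid J.1 J.2 * (TT c0 k) ^ 2 + 1 := by
      have := wid_nonneg hJ1 J.2
      positivity
    have hN2 : (I.length : ℝ) / 100 + 1 ≤ I.length * (1 / 100 + 1 / (k : ℝ) ^ 2) := by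
      have h3 : 1 ≤ (I.length : ℝ) * (1 / (k : ℝ) ^ 2) := by
        rw [mul_one_div, le_div_iff₀ (by positivity), one_mul]
        exact hN
      linarith
    have h1t : 1 / tm c0 k ≤ 1 / (k : ℝ) ^ 3 := one_div_le_one_div_of_le (by positivity) htm
    refine le_trans h1 ?_
    have hw : 1 / edge J.1 J.2 - 1 / edge J.1 (J.2 + 1) = wid J.1 J.2 := rfl
    rw [hw]
    have h0 : (0 : ℝ) ≤ nreach c0 k J.1 J.2 := Nat.cast_nonneg _
    calc (wid J.1 J.2 * (TT c0 k) ^ 2 + 1) / tm c0 k *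
          ((L.countP (fun τ => decide (∃ n ∈ I, 1 / edge J.1 (J.2 + 1) < τ - sd n ∧
        τ - sd n ≤ 1 / edge J.1 J.2)) : ℕ) : ℝ)
        ≤ (wid J.1 J.2 * (TT c0 k) ^ 2 + 1) / tm c0 k *
          (nreach c0 k J.1 J.2 * (I.length * (1 / 100 + 1 / (k : ℝ) ^ 2))) := by
          apply mul_le_mul_of_nonneg_left _ (by positivity)
          exact hc2.trans (mul_le_mul_of_nonneg_left hN2 h0)
      _ = (1 / tm c0 k) * ((wid J.1 J.2 * (TT c0 k) ^ 2 + 1) *
          (nreach c0 k J.1 J.2 * (I.length * (1 / 100 + 1 / (k : ℝ) ^ 2)))) := by ring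
      _ ≤ (1 / (k : ℝ) ^ 3) * ((wid J.1 J.2 * (TT c0 k) ^ 2 + 1) *
          (nreach c0 k J.1 J.2 * (I.length * (1 / 100 + 1 / (k : ℝ) ^ 2)))) := by
          apply mul_le_mul_of_nonneg_right h1t (by positivity)
      _ = I.length * mJ c0 k J.1 J.2 := by
          unfold mJ
          ring
  · -- the potential before
    rw [Finset.sum_product]
    exact hpot

end Pool.Agent.LibMoser5
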