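import Pool.Agent.LibMoser5.Defs
set_option autoImplicit false
namespace Pool.Agent.LibMoser5
open Classical

/-- Compactness: if for every `M` the squares with indices in `[N,M)` can be packed, then all squares
with index `≥ N` can be packed simultaneously.
Proof: positions live in the compact product `∏_n [0,W]×[0,H]`; for each `M` the set of `p` packing `[N,M)` is
closed (`Sep` and `Inside` are finite unions/intersections of closed conditions) and nonempty (change `p n` for
`n ∉ [N,M)` to `(0,0)`), decreasing in `M`: `IsCompact.nonempty_iInter_of_directed_nonempty_isCompact_isClosed`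
or `IsCompact.nonempty_iInter_of_sequence_nonempty_isCompact_isClosed`. -/
theorem compact_pack (W H : ℝ) (hW : 0 ≤ W) (hH : 0 ≤ H) (N : ℕ)
    (h : ∀ M : ℕ, ∃ p : ℕ → ℝ × ℝ, (∀ n, N ≤ n → n < M → (sq n (p n)).Inside W H) ∧
      (∀ m n, N ≤ m → m < M → N ≤ n → n < M → m ≠ n → (sq m (p m)).Sep (sq n (p n)))) :
    ∃ p : ℕ → ℝ × ℝ, (∀ n, N ≤ n → (sq n (p n)).Inside W H) ∧
      (∀ m n, N ≤ m → N ≤ n → m ≠ n → (sq m (p m)).Sep (sq n (p n))) := by
  let K : Set (ℕ → ℝ × ℝ) := Set.pi Set.univ (fun _ => Set.Icc (0 : ℝ) W ×ˢ Set.Icc (0 : ℝ) H)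
  let A : ℕ → Set (ℕ → ℝ × ℝ) := fun M =>
    ⋂ n : ℕ, {p | N ≤ n → n < M → (sq n (p n)).Inside W H}
  let B : ℕ → Set (ℕ → ℝ × ℝ) := fun M =>
    ⋂ m : ℕ, ⋂ n : ℕ, {p | N ≤ m → m < M → N ≤ n → n < M → m ≠ n →
      (sq m (p m)).Sep (sq n (p n))}
  have hK : IsCompact K := isCompact_univ_pi (fun _ => isCompact_Icc.prod isCompact_Icc)
  have c1 : ∀ n : ℕ, Continuous (fun p : ℕ → ℝ × ℝ => (p n).1) :=
    fun n => continuous_fst.comp (continuous_apply n)
  have c2 : ∀ n : ℕ, Continuous (fun p : ℕ → ℝ × ℝ => (p n).2) :=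
    fun n => continuous_snd.comp (continuous_apply n)
  have hA : ∀ M, IsClosed (A M) := by
    intro M
    apply isClosed_iInter
    intro n
    by_cases h1 : N ≤ n
    · by_cases h2 : n < M
      · have : {p : ℕ → ℝ × ℝ | N ≤ n → n < M → (sq n (p n)).Inside W H} =
            {p : ℕ → ℝ × ℝ | (sq n (p n)).Inside W H} := by
          ext p; simp [h1, h2]
        rw [this]
        unfold sq Box.Inside
        simp only [Set.setOf_and]
        refine IsClosed.inter (isClosed_le continuous_const continuous_const) ?_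
        refine IsClosed.inter (isClosed_le continuous_const continuous_const) ?_
        refine IsClosed.inter (isClosed_le continuous_const (c1 n)) ?_
        refine IsClosed.inter (isClosed_le ((c1 n).add continuous_const) continuous_const) ?_
        refine IsClosed.inter (isClosed_le continuous_const (c2 n)) ?_
        exact isClosed_le ((c2 n).add continuous_const) continuous_const
      · simp [h2]
    · simp [h1]
  have hB : ∀ M, IsClosed (B M) := by
    intro M
    apply isClosed_iInter
    intro m
    apply isClosed_iInter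
    intro n
    by_cases h1 : N ≤ m ∧ m < M ∧ N ≤ n ∧ n < M ∧ m ≠ n
    · have : {p : ℕ → ℝ × ℝ | N ≤ m → m < M → N ≤ n → n < M → m ≠ n →
            (sq m (p m)).Sep (sq n (p n))} =
            {p : ℕ → ℝ × ℝ | (sq m (p m)).Sep (sq n (p n))} := by
        obtain ⟨a, b, c, d, e⟩ := h1
        ext p; simp [a, b, c, d, e]
      rw [this]
      unfold sq Box.Sep
      simp only [Set.setOf_or]
      refine IsClosed.union (isClosed_le ((c1 m).add continuous_const) (c1 n)) ?_
      refine IsClosed.union (isClosed_le ((c1 n).add continuous_const) (c1 m)) ?_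
      refine IsClosed.union (isClosed_le ((c2 m).add continuous_const) (c2 n)) ?_
      exact isClosed_le ((c2 n).add continuous_const) (c2 m)
    · have : {p : ℕ → ℝ × ℝ | N ≤ m → m < M → N ≤ n → n < M → m ≠ n →
            (sq m (p m)).Sep (sq n (p n))} = Set.univ := by
        ext p
        simp only [Set.mem_setOf_eq, Set.mem_univ, iff_true]
        intro a b c d e
        exact absurd ⟨a, b, c, d, e⟩ h1
      rw [this]
      exact isClosed_univ
  have hne : (⋂ M, (K ∩ (A M ∩ B M))).Nonempty := by
    apply IsCompact.nonempty_iInter_of_sequence_nonempty_isCompact_isClosed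
    · rintro M p ⟨hp1, hp2, hp3⟩
      refine ⟨hp1, ?_, ?_⟩
      · simp only [A, Set.mem_iInter, Set.mem_setOf_eq] at hp2 ⊢
        intro n h1 h2
        exact hp2 n h1 (by omega)
      · simp only [B, Set.mem_iInter, Set.mem_setOf_eq] at hp3 ⊢
        intro m n h1 h2 h3 h4 h5
        exact hp3 m n h1 (by omega) h3 (by omega) h5
    · intro M
      obtain ⟨p, hp1, hp2⟩ := h M
      refine ⟨fun n => if N ≤ n ∧ n < M then p n else (0, 0), ?_, ?_, ?_⟩
      · intro n _
        by_cases h1 : N ≤ n ∧ n < M
        · simp only [h1, and_self, if_true]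
          obtain ⟨a, b, c, d, e, f⟩ := hp1 n h1.1 h1.2
          simp only [sq] at a b c d e f
          exact ⟨⟨c, by linarith⟩, ⟨e, by linarith⟩⟩
        · simp only [h1, if_false]
          exact ⟨⟨le_refl _, hW⟩, ⟨le_refl _, hH⟩⟩
      · simp only [A, Set.mem_iInter, Set.mem_setOf_eq]
        intro n h1 h2
        simp only [h1, h2, and_self, if_true]
        exact hp1 n h1 h2
      · simp only [B, Set.mem_iInter, Set.mem_setOf_eq]
        intro m n h1 h2 h3 h4 h5
        simp only [h1, h2, h3, h4, and_self, if_true]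
        exact hp2 m n h1 h2 h3 h4 h5
    · exact hK.inter_right ((hA 0).inter (hB 0))
    · intro M
      exact hK.isClosed.inter ((hA M).inter (hB M))
  obtain ⟨p, hp⟩ := hne
  rw [Set.mem_iInter] at hp
  refine ⟨p, ?_, ?_⟩
  · intro n hn
    have h1 := (hp (n + 1)).2.1
    simp only [A, Set.mem_iInter, Set.mem_setOf_eq] at h1
    exact h1 n hn (by omega)
  · intro m n hm hn hmn
    have h1 := (hp (m + n + 1)).2.2
    simp only [B, Set.mem_iInter, Set.mem_setOf_eq] at h1
    exact h1 m n hm (by omega) hn (by omega) hmn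

end Pool.Agent.LibMoser5
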