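import Pool.Agent.LibMoser5.Good
set_option autoImplicit false
namespace Pool.Agent.LibMoser5
open Classical

theorem CostLe_sum_le (u : List ℕ) (F : ℕ → ℝ) (c : ℝ) (h : ∀ n ∈ u, F n ≤ c) :
    (u.map F).sum ≤ u.length * c := by
  induction u with
  | nil => simp
  | cons n u ih =>
    rw [List.map_cons, List.sum_cons, List.length_cons]
    have h1 := ih fun m hm => h m (List.mem_cons_of_mem _ hm)
    have h2 := h n List.mem_cons_self
    push_cast
    linarith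

theorem CostLe_le_sum (u : List ℕ) (F : ℕ → ℝ) (c : ℝ) (h : ∀ n ∈ u, c ≤ F n) :
    u.length * c ≤ (u.map F).sum := by
  induction u with
  | nil => simp
  | cons n u ih =>
    rw [List.map_cons, List.sum_cons, List.length_cons]
    have h1 := ih fun m hm => h m (List.mem_cons_of_mem _ hm)
    have h2 := h n List.mem_cons_self
    push_cast
    linarith

/-- cost of a filled job in step `k`: every piece has thickness `≤ th k`
(`τ - sd n ≤ 1/k³ - 1/TT`) and length `≤ 1/tm`; `∑ sd ≥ s/TT`. -/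
theorem cost_le {C : ℝ} {k0 c0 k : ℕ} (g : Good C k0 c0) (hk : k0 ≤ k) (x : FJob) (j : Job)
    (h1 : x.τ = j.τ) (h2 : x.len = j.len) (h3 : x.u.length = j.s)
    (h4 : ∀ n ∈ x.u, AA c0 k ≤ n ∧ n < AA c0 (k + 1)) (h5 : inBlock k j.τ) :
    cost x ≤ cb c0 k j := by
  have hw1 := g.w1 k hk
  have hw1r : ((k : ℝ) + 1) ^ 3 + 1 ≤ AA c0 k := by exact_mod_cast hw1
  have hkpos : (0 : ℝ) < ((k : ℝ) + 1) ^ 3 := by positivity
  have htm : 0 < tm c0 k := by
    unfold tm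
    positivity
  have hbd : ∀ n ∈ x.u, 1 / TT c0 k ≤ sd n ∧ sd n ≤ 1 / tm c0 k ∧ sd n ≤ 1 / ((k : ℝ) + 1) ^ 3 := by
    intro n hn
    obtain ⟨a, b⟩ := h4 n hn
    have ar : (AA c0 k : ℝ) ≤ n := by exact_mod_cast a
    have br : (n : ℝ) + 1 ≤ (AA c0 (k + 1) : ℝ) := by exact_mod_cast b
    have hn0 : (0 : ℝ) ≤ n := Nat.cast_nonneg n
    unfold sd TT tm
    refine ⟨?_, ?_, ?_⟩
    · apply one_div_le_one_div_of_le <;> linarith
    · apply one_div_le_one_div_of_le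
      · have : (0 : ℝ) ≤ (AA c0 k : ℝ) := Nat.cast_nonneg _
        linarith
      · linarith
    · apply one_div_le_one_div_of_le hkpos
      linarith
  have hth := g.th1 k hk
  have hτ1 := h5.1
  have hτ2 := h5.2
  have hpc : ∀ n ∈ x.u, 0 ≤ x.τ - sd n ∧ x.τ - sd n ≤ th k := by
    intro n hn
    obtain ⟨a, -, c⟩ := hbd n hn
    rw [h1]
    constructor <;> linarith
  have hom : ∀ n ∈ x.u, om (x.τ - sd n, sd n) ≤
      2 * th k + (th k) ^ (1 / 8 : ℝ) / tm c0 k := by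
    intro n hn
    obtain ⟨a, b⟩ := hpc n hn
    obtain ⟨a', b', -⟩ := hbd n hn
    unfold om
    have e1 : (x.τ - sd n) ^ (1 / 8 : ℝ) ≤ (th k) ^ (1 / 8 : ℝ) :=
      Real.rpow_le_rpow a b (by norm_num)
    have e2 : 0 ≤ (x.τ - sd n) ^ (1 / 8 : ℝ) := Real.rpow_nonneg a _
    have e3 : sd n * (x.τ - sd n) ^ (1 / 8 : ℝ) ≤ 1 / tm c0 k * (th k) ^ (1 / 8 : ℝ) :=
      mul_le_mul b' e1 e2 (by positivity)
    have e4 : 1 / tm c0 k * (th k) ^ (1 / 8 : ℝ) = (th k) ^ (1 / 8 : ℝ) / tm c0 k := by ring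
    rw [e4] at e3
    simp only
    linarith
  have s1 := CostLe_sum_le x.u (fun n => om (x.τ - sd n, sd n)) _ hom
  have s2 := CostLe_le_sum x.u sd _ (fun n hn => (hbd n hn).1)
  unfold cost cb
  rw [h3] at s1 s2
  rw [← h1, ← h2]
  have e5 : (j.s : ℝ) * (1 / TT c0 k) = j.s / TT c0 k := by ring
  rw [e5] at s2
  linarith

end Pool.Agent.LibMoser5
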