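import Pool.Agent.LibMoser5.FillSum
set_option autoImplicit false
namespace Pool.Agent.LibMoser5
open Classical

theorem eArea_filter (l : List (ℝ × ℝ)) (p : ℝ × ℝ → Bool) (f : ℝ × ℝ → ℝ) :
    (l.map f).sum = ((l.filter p).map f).sum + ((l.filter (fun r => !p r)).map f).sum := by
  rw [← List.sum_append, ← List.map_append]
  exact (((List.filter_append_perm p l).map f).sum_eq).symm

theorem eArea_union {P : Finset ℕ} {I : List ℕ} (hnd : I.Nodup) (hdisj : ∀ n ∈ I, n ∉ P) :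
    ∑ n ∈ P ∪ I.toFinset, sd n ^ 2 = ∑ n ∈ P, sd n ^ 2 + (I.map (fun n => sd n ^ 2)).sum := by
  rw [Finset.sum_union, List.sum_toFinset _ hnd]
  rw [Finset.disjoint_left]
  intro n hn hn'
  exact hdisj n (List.mem_toFinset.1 hn') hn

/-- area identity of the E-step -/
theorem e_area {h v : ℝ} {SL SE ER : List (ℝ × ℝ)} {P : Finset ℕ} {p : ℝ × ℝ → Bool}
    (L : List FJob) (hL : (L.map (fun x => (x.τ, x.len))).Perm (ER.filter p))
    (hnd : (L.flatMap FJob.u).Nodup) (hdisj : ∀ n ∈ L.flatMap FJob.u, n ∉ P) :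
    h * v + ((SL ++ (SE ++ newS L) ++
      (ER.filter (fun r => !p r) ++ (newE L).map mm)).map (fun r => r.1 * r.2)).sum +
      ∑ n ∈ P ∪ (L.flatMap FJob.u).toFinset, sd n ^ 2 =
    h * v + ((SL ++ SE ++ ER).map (fun r => r.1 * r.2)).sum + ∑ n ∈ P, sd n ^ 2 := by
  have h1 := area_fill L
  have h2 := (hL.map (fun r : ℝ × ℝ => r.1 * r.2)).sum_eq
  rw [List.map_map] at h2
  have h3 : (L.map (fun x => x.τ * x.len)).sum =
      (L.map ((fun r : ℝ × ℝ => r.1 * r.2) ∘ fun x => (x.τ, x.len))).sum := rfl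
  rw [← h3] at h2
  have h4 := eArea_filter ER p (fun r => r.1 * r.2)
  rw [eArea_union hnd hdisj]
  simp only [List.map_append, List.sum_append] at h1 h2 h4 ⊢
  linarith

end Pool.Agent.LibMoser5
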