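import Pool.Agent.LibMoser5.Fill
set_option autoImplicit false
namespace Pool.Agent.LibMoser5
open Classical

theorem eGeo_filter {α : Type} (l : List α) (p : α → Bool) :
    ((l.filter p : List α) : Multiset α) + ((l.filter (fun r => !p r) : List α) : Multiset α) = l := by
  rw [Multiset.coe_add, Multiset.coe_eq_coe]
  exact List.filter_append_perm p l

/-- geometry of the E-step -/
theorem e_tiled {W H h v : ℝ} {SL SE ER : List (ℝ × ℝ)} {P : Finset ℕ} {p : ℝ × ℝ → Bool}
    (L : List FJob) (ht : Tiled W H ((h, v) :: (SL ++ SE ++ ER)) P)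
    (hL : (L.map (fun x => (x.τ, x.len))).Perm (ER.filter p))
    (hok : ∀ x ∈ L, x.Ok) (hnd : (L.flatMap FJob.u).Nodup)
    (hdisj : ∀ n ∈ L.flatMap FJob.u, n ∉ P) :
    Tiled W H ((h, v) :: (SL ++ (SE ++ newS L) ++
      (ER.filter (fun r => !p r) ++ (newE L).map mm))) (P ∪ (L.flatMap FJob.u).toFinset) := by
  have h1 : Tiled W H (L.map (fun x => (x.τ, x.len)) ++
      ((h, v) :: (SL ++ SE ++ ER.filter (fun r => !p r)))) P := by
    refine ht.perm ?_
    rw [← Multiset.coe_eq_coe]
    rw [← Multiset.coe_eq_coe] at hL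
    simp only [← Multiset.coe_add, ← Multiset.cons_coe, ← Multiset.singleton_add]
    rw [hL, ← eGeo_filter ER p]
    abel
  refine (tiled_fill L h1 hok hnd hdisj).perm ?_
  rw [← Multiset.coe_eq_coe]
  simp only [← Multiset.coe_add, ← Multiset.cons_coe, ← Multiset.singleton_add]
  abel

end Pool.Agent.LibMoser5
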