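import Pool.Agent.LibMoser5.Count
set_option autoImplicit false
namespace Pool.Agent.LibMoser5
open Classical

theorem EMass_sd {m n q : ℕ} {T : ℝ} (hmn : m + q ≤ n) (hm : (m : ℝ) + 1 / 2 ≤ T)
    (hn : (n : ℝ) + 1 / 2 ≤ T) : (q : ℝ) / T ^ 2 ≤ sd m - sd n := by
  have h1 : (m : ℝ) + q ≤ n := by exact_mod_cast hmn
  have hm0 : (0 : ℝ) < (m : ℝ) + 1 / 2 := by positivity
  have hn0 : (0 : ℝ) < (n : ℝ) + 1 / 2 := by positivity
  have hT : 0 < T := by linarith
  rw [sd, sd, div_sub_div _ _ hm0.ne' hn0.ne']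
  refine div_le_div₀ (by linarith [(Nat.cast_nonneg q : (0 : ℝ) ≤ q)]) (by linarith)
    (by positivity) ?_
  rw [pow_two]
  exact mul_le_mul hm hn hn0.le hT.le

theorem EMass_sd_le {n : ℕ} {t : ℝ} (ht : 0 < t) (h : t ≤ (n : ℝ) + 1 / 2) : sd n ≤ 1 / t :=
  one_div_le_one_div_of_le ht h

/-- the mass is at most the number of hits times the maximal length -/
theorem EMass_count (α β c : ℝ) (L : List (ℝ × ℝ)) (h : ∀ r ∈ L, r.2 ≤ c) :
    massI α β L ≤ c * ((L.map Prod.fst).countP (fun x => α < x ∧ x ≤ β) : ℝ) := by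
  induction L with
  | nil => simp [massI]
  | cons r L ih =>
    have h1 := ih fun s hs => h s (List.mem_cons_of_mem r hs)
    have h2 := h r List.mem_cons_self
    have e : massI α β (r :: L) = (if α < r.1 ∧ r.1 ≤ β then r.2 else 0) + massI α β L := by
      simp [massI]
    rw [e, List.map_cons, List.countP_cons]
    by_cases hc : α < r.1 ∧ r.1 ≤ β
    · rw [if_pos hc, if_pos (by simpa using hc)]
      push_cast
      linarith
    · rw [if_neg hc, if_neg (by simpa using hc)]
      push_cast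
      linarith

/-- The E-step: rows sorted by thickness, indices increasing with gaps `≥ q`: the thicknesses of the pieces
(in the order of `newS`) increase by at least `q/T^2`, so `count_spaced` applies; each hit has length `≤ 1/t`. -/
theorem e_mass (L : List FJob) (q : ℕ) (hq : 0 < q) (hL : L.Pairwise (fun x y => x.τ ≤ y.τ))
    (hI : (L.flatMap FJob.u).Pairwise (fun m n => m + q ≤ n)) (t T : ℝ) (ht : 0 < t)
    (hlo : ∀ n ∈ L.flatMap FJob.u, t ≤ (n : ℝ) + 1 / 2)
    (hhi : ∀ n ∈ L.flatMap FJob.u, (n : ℝ) + 1 / 2 ≤ T) (α β : ℝ) (hαβ : α ≤ β) :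
    massI α β (newS L) ≤ ((β - α) * T ^ 2 / q + 1) / t := by
  have hmem : ∀ r ∈ newS L, ∃ x ∈ L, ∃ n ∈ x.u, r = (x.τ - sd n, sd n) := by
    intro r hr
    rw [newS, List.mem_flatMap] at hr
    obtain ⟨x, hx, hr⟩ := hr
    rw [List.mem_map] at hr
    obtain ⟨n, hn, rfl⟩ := hr
    exact ⟨x, hx, n, hn, rfl⟩
  have h1 : massI α β (newS L) ≤
      1 / t * (((newS L).map Prod.fst).countP (fun x => α < x ∧ x ≤ β) : ℝ) := by
    refine EMass_count α β (1 / t) (newS L) fun r hr => ?_
    obtain ⟨x, hx, n, hn, rfl⟩ := hmem r hr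
    exact EMass_sd_le ht (hlo n (List.mem_flatMap.mpr ⟨x, hx, hn⟩))
  -- there may be no pieces at all
  rcases (newS L).eq_nil_or_concat with hnil | hne
  · rw [hnil]
    have : massI α β [] = 0 := by simp [massI]
    rw [this]
    have : 0 ≤ (β - α) * T ^ 2 / q := by
      have := sub_nonneg.mpr hαβ
      positivity
    positivity
  have hT : 0 < T := by
    obtain ⟨l, b, hb⟩ := hne
    have hb' : b ∈ newS L := by rw [hb]; simp
    obtain ⟨x, hx, n, hn, _⟩ := hmem b hb'
    have a1 := hhi n (List.mem_flatMap.mpr ⟨x, hx, hn⟩)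
    have a2 : (0 : ℝ) < (n : ℝ) + 1 / 2 := by positivity
    linarith
  have hq0 : (0 : ℝ) < q := by exact_mod_cast hq
  have hpw : ((newS L).map Prod.fst).Pairwise (fun x y => x + (q : ℝ) / T ^ 2 ≤ y) := by
    clear h1 hmem hne hlo
    induction L with
    | nil => simp [newS]
    | cons x L ih =>
      rw [List.pairwise_cons] at hL
      rw [List.flatMap_cons, List.pairwise_append] at hI
      obtain ⟨hI1, hI2, hI3⟩ := hI
      have hhi1 : ∀ n ∈ x.u, (n : ℝ) + 1 / 2 ≤ T := fun n hn =>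
        hhi n (by rw [List.flatMap_cons]; exact List.mem_append_left _ hn)
      have hhi2 : ∀ n ∈ L.flatMap FJob.u, (n : ℝ) + 1 / 2 ≤ T := fun n hn =>
        hhi n (by rw [List.flatMap_cons]; exact List.mem_append_right _ hn)
      have e : (newS (x :: L)).map Prod.fst =
          x.u.map (fun n => x.τ - sd n) ++ (newS L).map Prod.fst := by
        simp [newS, Function.comp_def]
      rw [e, List.pairwise_append]
      refine ⟨?_, ih hL.2 hI2 hhi2, ?_⟩
      · rw [List.pairwise_map]
        refine hI1.imp_of_mem fun {m n} hm hn hmn => ?_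
        have := EMass_sd hmn (hhi1 m hm) (hhi1 n hn)
        linarith
      · intro a ha b hb
        rw [List.mem_map] at ha
        obtain ⟨m, hm, rfl⟩ := ha
        rw [List.mem_map] at hb
        obtain ⟨r, hr, rfl⟩ := hb
        rw [newS, List.mem_flatMap] at hr
        obtain ⟨y, hy, hr⟩ := hr
        rw [List.mem_map] at hr
        obtain ⟨n, hn, rfl⟩ := hr
        have hnL : n ∈ L.flatMap FJob.u := List.mem_flatMap.mpr ⟨y, hy, hn⟩
        have := EMass_sd (hI3 m hm n hnL) (hhi1 m hm) (hhi2 n hnL)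
        have := hL.1 y hy
        show x.τ - sd m + (q : ℝ) / T ^ 2 ≤ y.τ - sd n
        linarith
  have h2 := count_spaced _ _ α β (by positivity : 0 < (q : ℝ) / T ^ 2) hαβ hpw
  refine h1.trans ?_
  have h3 : (β - α) / ((q : ℝ) / T ^ 2) = (β - α) * T ^ 2 / q := by
    field_simp
  rw [h3] at h2
  have h4 := mul_le_mul_of_nonneg_left h2 (by positivity : 0 ≤ 1 / t)
  refine h4.trans (le_of_eq ?_)
  ring

end Pool.Agent.LibMoser5
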