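import Pool.Agent.LibMoser5.Defs
set_option autoImplicit false
namespace Pool.Agent.LibMoser5
open Classical

theorem greedy_one (lo hi : ℝ) (I : List ℕ) (b : ℝ)
    (h1 : ∀ n ∈ I, lo ≤ sd n) (h2 : ∀ n ∈ I, sd n ≤ hi) (hb : 0 ≤ b)
    (hcap : b < lo * I.length) :
    ∃ u rest : List ℕ, I = u ++ rest ∧ (u.map sd).sum ≤ b ∧ b - (u.map sd).sum ≤ hi := by
  induction I generalizing b with
  | nil => simp at hcap; linarith
  | cons n I ih =>
    have hn1 := h1 n (by simp)
    have hn2 := h2 n (by simp)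
    by_cases hnb : sd n ≤ b
    · obtain ⟨u, rest, e, hu1, hu2⟩ := ih (b - sd n) (fun m hm => h1 m (by simp [hm]))
        (fun m hm => h2 m (by simp [hm])) (by linarith) (by
          rw [List.length_cons] at hcap
          push_cast at hcap
          linarith)
      refine ⟨n :: u, rest, by rw [e]; rfl, ?_, ?_⟩
      · rw [List.map_cons, List.sum_cons]; linarith
      · rw [List.map_cons, List.sum_cons]; linarith
    · push Not at hnb
      refine ⟨[], n :: I, rfl, ?_, ?_⟩
      · simpa using hb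
      · simp; linarith

theorem lo_mul_length_le (lo : ℝ) (u : List ℕ) (h1 : ∀ n ∈ u, lo ≤ sd n) :
    lo * u.length ≤ (u.map sd).sum := by
  induction u with
  | nil => simp
  | cons n u ih =>
    have hn := h1 n (by simp)
    have := ih (fun m hm => h1 m (by simp [hm]))
    rw [List.length_cons, List.map_cons, List.sum_cons]
    push_cast
    linarith

/-- greedy filling of the rows `R` with consecutive elements of `I` -/
theorem e_greedy (R : List (ℝ × ℝ)) (I : List ℕ) (lo hi : ℝ) (hlo : 0 < lo)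
    (h1 : ∀ n ∈ I, lo ≤ sd n) (h2 : ∀ n ∈ I, sd n ≤ hi) (hR : ∀ r ∈ R, 0 ≤ r.2)
    (hcap : (R.map Prod.snd).sum < lo * I.length) :
    ∃ L : List FJob, L.map (fun x => (x.τ, x.len)) = R ∧
      (∃ rest : List ℕ, I = L.flatMap FJob.u ++ rest) ∧
      ∀ x ∈ L, (x.u.map sd).sum ≤ x.len ∧ x.len - (x.u.map sd).sum ≤ hi := by
  induction R generalizing I with
  | nil => exact ⟨[], rfl, ⟨I, rfl⟩, by simp⟩
  | cons r R ih =>
    have hr : 0 ≤ r.2 := hR r (by simp)
    have hRs : 0 ≤ (R.map Prod.snd).sum := by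
      apply List.sum_nonneg
      intro a ha
      obtain ⟨q, hq, rfl⟩ := List.mem_map.1 ha
      exact hR q (by simp [hq])
    rw [List.map_cons, List.sum_cons] at hcap
    obtain ⟨u, rest, e, hu1, hu2⟩ := greedy_one lo hi I r.2 h1 h2 hr (by linarith)
    have hul := lo_mul_length_le lo u (fun m hm => h1 m (by rw [e]; simp [hm]))
    obtain ⟨L, hL1, ⟨rest', hL2⟩, hL3⟩ := ih rest (fun m hm => h1 m (by rw [e]; simp [hm]))
      (fun m hm => h2 m (by rw [e]; simp [hm])) (fun q hq => hR q (by simp [hq])) (by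
        rw [e, List.length_append] at hcap
        push_cast at hcap
        linarith)
    refine ⟨⟨r.1, r.2, u⟩ :: L, ?_, ⟨rest', ?_⟩, ?_⟩
    · rw [List.map_cons, hL1]
    · rw [List.flatMap_cons, e, hL2, List.append_assoc]
    · intro x hx
      rcases List.mem_cons.1 hx with rfl | hx
      · exact ⟨hu1, hu2⟩
      · exact hL3 x hx

end Pool.Agent.LibMoser5
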