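import Pool.Agent.LibMoser5.SStep
import Pool.Agent.LibMoser5.EGeo
import Pool.Agent.LibMoser5.EArea
import Pool.Agent.LibMoser5.EMass
import Pool.Agent.LibMoser5.Greedy
set_option autoImplicit false
namespace Pool.Agent.LibMoser5
open Classical

theorem massI_zero (α β : ℝ) (L : List (ℝ × ℝ)) (h : ∀ r ∈ L, ¬ (α < r.1 ∧ r.1 ≤ β)) :
    massI α β L = 0 := by
  unfold massI
  apply List.sum_eq_zero
  intro x hx
  obtain ⟨r, hr, rfl⟩ := List.mem_map.1 hx
  simp [h r hr]

theorem list_filter_sum (L : List (ℝ × ℝ)) (p : ℝ × ℝ → Bool) (φ : ℝ × ℝ → ℝ) :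
    ((L.filter p).map φ).sum + ((L.filter (fun r => !p r)).map φ).sum = (L.map φ).sum := by
  induction L with
  | nil => simp
  | cons a L ih =>
    by_cases h : p a = true
    · simp only [List.filter_cons, h, List.map_cons, List.sum_cons, Bool.not_true, if_true,
        Bool.false_eq_true, if_false]
      linarith
    · simp only [List.filter_cons, h, List.map_cons, List.sum_cons, Bool.false_eq_true, if_false]
      simp only [Bool.not_eq_true] at h
      simp only [Bool.not_false, if_true, List.map_cons, List.sum_cons]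
      linarith

theorem sum_sd_half (u : List ℕ) (τ : ℝ)
    (h : ∀ n ∈ u, om (τ - sd n, sd n) ≤ 1 / 2 * sd n) :
    (u.map (fun n => om (τ - sd n, sd n))).sum ≤ 1 / 2 * (u.map sd).sum := by
  induction u with
  | nil => simp
  | cons a u ih =>
    have h1 := h a (by simp)
    have h2 := ih (fun n hn => h n (by simp [hn]))
    simp only [List.map_cons, List.sum_cons]
    linarith

/-- E-step -/
theorem e_step {C W H : ℝ} {k0 c0 Jm f : ℕ} {s : St} (g : Good C k0 c0)
    (hI : Inv C W H k0 c0 Jm f (KK k0 (f + 1)) s) :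
    ∃ s', Inv C W H k0 c0 Jm (f + 1) (KK k0 (f + 1)) s' := by
  have hk60 := g.k60
  have hK0 : k0 ≤ KK k0 f := KK_ge k0 f
  have hK1 : k0 ≤ KK k0 (f + 1) := KK_ge k0 (f + 1)
  set K := KK k0 (f + 1) with hK
  set Φ := AA c0 K with hΦ
  set Φ' := AA c0 (KK k0 (f + 2)) with hΦ'
  have hw1 := g.w1 K hK1
  have hΦK : (K : ℝ) ^ 3 + 1 ≤ (Φ : ℝ) := by
    have h1 : K ^ 3 + 1 ≤ Φ := by
      have : K ^ 3 ≤ (K + 1) ^ 3 := Nat.pow_le_pow_left (by omega) 3
      omega
    exact_mod_cast h1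
  have hKpos : (0 : ℝ) < K := by exact_mod_cast (by omega : 0 < K)
  have hKf : (0 : ℝ) < KK k0 f := by exact_mod_cast (by omega : 0 < KK k0 f)
  have hΦ60 : 216000 ≤ Φ := by
    have h1 : 60 ^ 3 ≤ (K + 1) ^ 3 := Nat.pow_le_pow_left (by omega) 3
    omega
  have hΦ1 : (216000 : ℝ) ≤ Φ := by exact_mod_cast hΦ60
  have hmono : Φ ≤ Φ' := AA_mono (KK_mono k0 (by omega))
  have hmonoR : (Φ : ℝ) ≤ Φ' := by exact_mod_cast hmono
  have hΦ'pos : (0 : ℝ) < Φ' := by linarith
  have hratio : (Φ' : ℝ) ≤ 111 / 100 * (KK k0 f : ℝ) ^ 3 := g.fratio f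
  have hlen : 4 / 100 * (Φ' : ℝ) ≤ (Φ' : ℝ) - Φ := g.flen (f + 1)
  -- the indices
  set I : List ℕ := ((Finset.Ico Φ Φ').filter (fun n => 1000 ∣ n)).sort (· ≤ ·) with hIdef
  have hImem : ∀ n, n ∈ I ↔ (Φ ≤ n ∧ n < Φ') ∧ 1000 ∣ n := by
    intro n
    rw [hIdef, Finset.mem_sort, Finset.mem_filter, Finset.mem_Ico]
  have hIlen : (I.length : ℝ) = (((Finset.Ico Φ Φ').filter (fun n => 1000 ∣ n)).card : ℝ) := by
    rw [hIdef, Finset.length_sort]
  have hIlt : I.Pairwise (fun m n => m < n) := by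
    have h1 := Finset.sortedLT_sort ((Finset.Ico Φ Φ').filter (fun n => 1000 ∣ n))
    exact h1.pairwise
  have hIgap : I.Pairwise (fun m n => m + 1000 ≤ n) := by
    refine List.Pairwise.imp_of_mem ?_ hIlt
    intro m n hm hn hmn
    obtain ⟨a, ha⟩ := ((hImem m).1 hm).2
    obtain ⟨b, hb⟩ := ((hImem n).1 hn).2
    omega
  have hsdlo : ∀ n ∈ I, 1 / (Φ' : ℝ) ≤ sd n := by
    intro n hn
    have h1 : (n : ℝ) + 1 ≤ Φ' := by exact_mod_cast ((hImem n).1 hn).1.2
    unfold sd
    apply one_div_le_one_div_of_le (by positivity)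
    linarith
  have hsdhi' : ∀ n ∈ I, sd n ≤ 1 / ((Φ : ℝ) + 1 / 2) := by
    intro n hn
    have h1 : (Φ : ℝ) ≤ n := by exact_mod_cast ((hImem n).1 hn).1.1
    unfold sd
    apply one_div_le_one_div_of_le (by positivity)
    linarith
  have hsdhi : ∀ n ∈ I, sd n ≤ 1 / (Φ : ℝ) := by
    intro n hn
    refine (hsdhi' n hn).trans ?_
    apply one_div_le_one_div_of_le (by linarith)
    linarith
  -- the rows
  set p : ℝ × ℝ → Bool := fun r => decide (1 ≤ r.1 * ((Φ : ℝ) - 1)) with hp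
  obtain ⟨R, hRperm, hRsort⟩ : ∃ R : List (ℝ × ℝ), R.Perm (s.ER.filter p) ∧
      R.Pairwise (fun a b => a.1 ≤ b.1) := by
    have : Std.Total (fun a b : ℝ × ℝ => a.1 ≤ b.1) := ⟨fun a b => le_total _ _⟩
    have : IsTrans (ℝ × ℝ) (fun a b : ℝ × ℝ => a.1 ≤ b.1) := ⟨fun a b c h1 h2 => le_trans h1 h2⟩
    exact ⟨List.insertionSort (fun a b => a.1 ≤ b.1) (s.ER.filter p), List.perm_insertionSort _ _,
      List.pairwise_insertionSort _ _⟩
  have hRmem : ∀ r ∈ R, 0 ≤ r.1 ∧ r.1 ≤ r.2 ∧ r.1 ≤ 1 / (KK k0 f : ℝ) ^ 3 ∧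
      1 ≤ r.1 * ((Φ : ℝ) - 1) := by
    intro r hr
    have h1 := hRperm.mem_iff.1 hr
    obtain ⟨h2, h3⟩ := List.mem_filter.1 h1
    obtain ⟨h4, h5, h6⟩ := hI.Erow r h2
    exact ⟨h4, h5, h6, by simpa [hp] using h3⟩
  have hom0 : ∀ r ∈ s.SL ++ s.SE, 0 ≤ om r := by
    intro r hr
    obtain ⟨h1, h2, h3⟩ := hI.Srow r hr
    unfold om
    have := Real.rpow_nonneg h1.le (1 / 8 : ℝ)
    have := mul_nonneg h3 this
    linarith
  have hpsi1 : Psi s ≤ 1 / 100000 := hI.psi.trans (g.srcs K)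
  have hSsum : 0 ≤ ((s.SL ++ s.SE).map om).sum := by
    apply List.sum_nonneg
    intro x hx
    obtain ⟨r, hr, rfl⟩ := List.mem_map.1 hx
    exact hom0 r hr
  have hcap : (R.map Prod.snd).sum < 1 / (Φ' : ℝ) * I.length := by
    have h1 : (R.map Prod.snd).sum ≤ (R.map (fun r => r.1 + r.2)).sum := by
      apply List.sum_le_sum
      intro r hr
      have := (hRmem r hr).1
      linarith
    have h2 : (R.map (fun r => r.1 + r.2)).sum = ((s.ER.filter p).map (fun r => r.1 + r.2)).sum :=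
      (hRperm.map _).sum_eq
    have h3 := list_filter_sum s.ER p (fun r => r.1 + r.2)
    have h4 : 0 ≤ ((s.ER.filter (fun r => !p r)).map (fun r => r.1 + r.2)).sum := by
      apply List.sum_nonneg
      intro x hx
      obtain ⟨r, hr, rfl⟩ := List.mem_map.1 hx
      obtain ⟨h4, h5, h6⟩ := hI.Erow r (List.mem_filter.1 hr).1
      linarith
    have h5 := count_mult_ge Φ Φ' hmono
    rw [← hIlen] at h5
    have h6 : 1 / (Φ' : ℝ) * I.length ≥ 2 / 100000 := by
      rw [ge_iff_le, one_div, inv_mul_eq_div, le_div_iff₀ hΦ'pos]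
      linarith
    unfold Psi at hpsi1
    linarith
  obtain ⟨L, hLR, ⟨rest, hrest⟩, hLx⟩ := e_greedy R I (1 / Φ') (1 / Φ) (by positivity) hsdlo hsdhi
    (fun r hr => by have := hRmem r hr; linarith) hcap
  have hflatI : ∀ n ∈ L.flatMap FJob.u, n ∈ I := by
    intro n hn
    rw [hrest]
    exact List.mem_append_left _ hn
  have hxI : ∀ x ∈ L, ∀ n ∈ x.u, n ∈ I := fun x hx n hn =>
    hflatI n (List.mem_flatMap.2 ⟨x, hx, hn⟩)
  have hxR : ∀ x ∈ L, 0 ≤ x.τ ∧ x.τ ≤ x.len ∧ x.τ ≤ 1 / (KK k0 f : ℝ) ^ 3 ∧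
      1 ≤ x.τ * ((Φ : ℝ) - 1) := by
    intro x hx
    exact hRmem (x.τ, x.len) (by rw [← hLR]; exact List.mem_map.2 ⟨x, hx, rfl⟩)
  -- thickness of the pieces
  have hthick : ∀ x ∈ L, ∀ n ∈ x.u, 1 / (Φ : ℝ) ^ 2 ≤ x.τ - sd n ∧ x.τ - sd n ≤ 11 / 100 * sd n := by
    intro x hx n hn
    obtain ⟨h1, h2, h3, h4⟩ := hxR x hx
    have h5 := hsdhi' n (hxI x hx n hn)
    have h6 := hsdlo n (hxI x hx n hn)
    constructor
    · have h7 : 1 / ((Φ : ℝ) - 1) ≤ x.τ := by
        rw [div_le_iff₀ (by linarith)]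
        exact h4
      have h8 : 1 / (Φ : ℝ) ^ 2 ≤ 1 / ((Φ : ℝ) - 1) - 1 / ((Φ : ℝ) + 1 / 2) := by
        rw [div_sub_div _ _ (by linarith) (by linarith), div_le_div_iff₀ (by positivity)
          (by nlinarith)]
        nlinarith
      linarith
    · have h7 : 1 / (KK k0 f : ℝ) ^ 3 ≤ 111 / 100 * (1 / (Φ' : ℝ)) := by
        rw [mul_one_div, div_le_div_iff₀ (by positivity) hΦ'pos]
        linarith
      linarith
  have hok : ∀ x ∈ L, x.Ok := by
    intro x hx
    refine ⟨fun n hn => ?_, (hLx x hx).1⟩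
    have := (hthick x hx n hn).1
    have h2 : 0 < 1 / (Φ : ℝ) ^ 2 := by positivity
    linarith
  have hpre : (L.flatMap FJob.u).Sublist I := by
    rw [hrest]
    exact List.sublist_append_left _ _
  have hflt : (L.flatMap FJob.u).Pairwise (fun m n => m < n) := hIlt.sublist hpre
  have hflg : (L.flatMap FJob.u).Pairwise (fun m n => m + 1000 ≤ n) := hIgap.sublist hpre
  have hnd : (L.flatMap FJob.u).Nodup := hflt.imp (fun h => h.ne)
  have hdisj : ∀ n ∈ L.flatMap FJob.u, n ∉ s.P := by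
    intro n hn hnP
    have h1 := ((hImem n).1 (hflatI n hn)).1.1
    have h2 := (hI.Phi n hnP).2
    rw [← hK, ← hΦ] at h2
    omega
  have htile := e_tiled (p := p) L hI.tiled (by rw [hLR]; exact hRperm) hok hnd hdisj
  have harea := e_area (h := s.H) (v := s.V) (SL := s.SL) (SE := s.SE) (ER := s.ER) (P := s.P)
    (p := p) L (by rw [hLR]; exact hRperm) hnd hdisj
  have hΦK' : 1 / (Φ : ℝ) ≤ 1 / (K : ℝ) ^ 3 := by
    apply one_div_le_one_div_of_le (by positivity)
    linarith
  refine ⟨⟨s.H, s.V, s.SL, s.SE ++ newS L, s.ER.filter (fun r => !p r) ++ (newE L).map mm,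
    s.P ∪ (L.flatMap FJob.u).toFinset⟩, ?_⟩
  constructor
  · exact le_rfl
  · exact KK_mono k0 (by omega)
  · exact htile
  · exact hI.Hpos
  · exact hI.HV
  · exact hI.VH
  · intro r hr
    simp only [List.mem_append] at hr
    rcases hr with hr | hr | hr
    · exact hI.Srow r (by simp [hr])
    · exact hI.Srow r (by simp [hr])
    · obtain ⟨x, hx, n, hn, rfl⟩ := mem_newS hr
      obtain ⟨h1, h2⟩ := hthick x hx n hn
      have h3 := hsdhi n (hxI x hx n hn)
      have h4 := sd_pos n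
      have h5 : 0 < 1 / (Φ : ℝ) ^ 2 := by positivity
      refine ⟨by simp only; linarith, by simp only; linarith, h4.le⟩
  · intro r hr
    rcases List.mem_append.1 hr with hr | hr
    · obtain ⟨h1, h2⟩ := List.mem_filter.1 hr
      obtain ⟨h3, h4, h5⟩ := hI.Erow r h1
      refine ⟨h3, h4, ?_⟩
      have h6 : r.1 * ((Φ : ℝ) - 1) < 1 := by simpa [hp] using h2
      rw [le_div_iff₀ (by positivity)]
      nlinarith
    · obtain ⟨x, hx, rfl⟩ := mem_newE_mm hr
      obtain ⟨h1, h2⟩ := hLx x hx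
      have h3 := (hxR x hx).1
      refine ⟨le_min h3 (by linarith), min_le_max, (min_le_right _ _).trans (h2.trans hΦK')⟩
  · intro n h1 h2
    exact Finset.mem_union_left _ (hI.Plo n h1 h2)
  · intro n hn
    rcases Finset.mem_union.1 hn with hn | hn
    · obtain ⟨h1, h2⟩ := hI.Phi n hn
      refine ⟨h1, Or.inl ?_⟩
      rcases h2 with h2 | h2
      · exact h2
      · exact h2.1
    · rw [List.mem_toFinset] at hn
      obtain ⟨⟨h1, h2⟩, h3⟩ := (hImem n).1 (hflatI n hn)
      have : AA c0 k0 ≤ Φ := AA_mono hK1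
      exact ⟨by omega, Or.inr ⟨h2, h3⟩⟩
  · have g1 := hI.sumb
    have g4 := sum_newS_snd L
    have g5 : ∑ n ∈ s.P ∪ (L.flatMap FJob.u).toFinset, sd n =
        ∑ n ∈ s.P, sd n + ((L.flatMap FJob.u).map sd).sum := by
      rw [Finset.sum_union, List.sum_toFinset _ hnd]
      rw [Finset.disjoint_left]
      intro n h3 h4
      exact hdisj n (List.mem_toFinset.1 h4) h3
    simp only [List.map_append, List.sum_append] at g1 ⊢
    rw [g5]
    linarith
  · simp only at harea ⊢
    rw [← hI.area, ← harea]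
  · intro j d hj hd
    rw [Finset.sum_range_succ]
    simp only
    rw [mass_append]
    refine add_le_add (hI.massE j d hj hd) ?_
    have hj1 : 1 ≤ j := by omega
    have he1 := edge_pos hj1 d
    have he2 := edge_pos hj1 (d + 1)
    unfold eJ
    rw [← hK, ← hΦ, ← hΦ']
    split_ifs with hcond
    · refine (e_mass L 1000 (by norm_num) ?_ hflg Φ Φ' (by linarith) ?_ ?_ _ _ ?_).trans ?_
      · have h1 : (L.map (fun x => (x.τ, x.len))).Pairwise (fun a b => a.1 ≤ b.1) := by
          rw [hLR]; exact hRsort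
        rw [List.pairwise_map] at h1
        exact h1
      · intro n hn
        have h1 : (Φ : ℝ) ≤ n := by exact_mod_cast ((hImem n).1 (hflatI n hn)).1.1
        linarith
      · intro n hn
        have h1 : (n : ℝ) + 1 ≤ Φ' := by exact_mod_cast ((hImem n).1 (hflatI n hn)).1.2
        linarith
      · have := wid_nonneg hj1 d
        unfold wid at this
        linarith
      · unfold wid
        rw [div_eq_mul_one_div, mul_comm]
        push_cast
        exact le_rfl
    · rw [mass, massI_zero]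
      intro r hr hcell
      apply hcond
      obtain ⟨x, hx, n, hn, rfl⟩ := mem_newS hr
      obtain ⟨h1, h2⟩ := hthick x hx n hn
      obtain ⟨h3, h4⟩ := hcell
      simp only at h3 h4
      have h5 := hsdhi' n (hxI x hx n hn)
      constructor
      · have h6 : 1 / (Φ : ℝ) ^ 2 ≤ 1 / edge j d := h1.trans h4
        exact (one_div_le_one_div (by positivity) he1).1 h6
      · have h6 : 1 / edge j (d + 1) < 11 / 100 * (1 / (Φ : ℝ)) := by
          have h7 : 1 / ((Φ : ℝ) + 1 / 2) < 1 / (Φ : ℝ) :=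
            one_div_lt_one_div_of_lt (by linarith) (by linarith)
          linarith
        rw [mul_one_div, div_lt_div_iff₀ he2 (by linarith)] at h6
        linarith
  · exact hI.potl
  · refine le_trans ?_ hI.psi
    have hb := budget_fill L
    have hc : (L.map cost).sum ≤ (L.map (fun x => x.τ + x.len)).sum := by
      apply List.sum_le_sum
      intro x hx
      unfold cost
      have h1 := sum_sd_half x.u x.τ (fun n hn => by
        obtain ⟨h1, h2⟩ := hthick x hx n hn
        have h3 : 0 < 1 / (Φ : ℝ) ^ 2 := by positivity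
        have hn' := (hImem n).1 (hxI x hx n hn)
        have h4 : (k0 : ℝ) ≤ (n : ℝ) + 1 / 2 := by
          have h5 : k0 ≤ n := by
            have h6 : K ≤ K ^ 3 := Nat.le_self_pow (by norm_num) _
            have h7 : K ^ 3 ≤ (K + 1) ^ 3 := Nat.pow_le_pow_left (by omega) 3
            omega
          have : (k0 : ℝ) ≤ n := by exact_mod_cast h5
          linarith
        have h5 := g.erow ((n : ℝ) + 1 / 2) (x.τ - sd n) h4 (by linarith) (by
          rw [div_eq_mul_one_div]
          exact h2)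
        exact h5)
      have h2 : 0 ≤ (x.u.map sd).sum := by
        apply List.sum_nonneg
        intro y hy
        obtain ⟨n, _, rfl⟩ := List.mem_map.1 hy
        exact (sd_pos n).le
      linarith
    have h3 := list_filter_sum s.ER p (fun r => r.1 + r.2)
    have h4 : (L.map (fun x => x.τ + x.len)).sum = ((s.ER.filter p).map (fun r => r.1 + r.2)).sum := by
      rw [← (hRperm.map _).sum_eq, ← hLR, List.map_map]
      rfl
    unfold Psi
    simp only [List.map_append, List.sum_append] at hb ⊢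
    linarith

end Pool.Agent.LibMoser5
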