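import Pool.Agent.LibMoser5.Defs
set_option autoImplicit false
namespace Pool.Agent.LibMoser5
open Classical

theorem Mult_card (a b : ℕ) (h : a ≤ b) :
    ((Finset.Ico a b).filter (fun n => 1000 ∣ n)).card + (a + 999) / 1000 = (b + 999) / 1000 := by
  induction b, h using Nat.le_induction with
  | base => simp
  | succ b hab ih =>
    have h1 : Finset.Ico a (b + 1) = insert b (Finset.Ico a b) := by
      ext x
      rw [Finset.mem_insert, Finset.mem_Ico, Finset.mem_Ico]
      omega
    rw [h1, Finset.filter_insert]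
    by_cases h2 : 1000 ∣ b
    · rw [if_pos h2, Finset.card_insert_of_notMem (by simp)]
      omega
    · rw [if_neg h2]
      omega

/-- number of multiples of 1000 in an interval -/
theorem count_mult (a b : ℕ) (h : a ≤ b) :
    (((Finset.Ico a b).filter (fun n => 1000 ∣ n)).card : ℝ) ≤ ((b : ℝ) - a) / 1000 + 1 := by
  have h1 := Mult_card a b h
  set c := ((Finset.Ico a b).filter (fun n => 1000 ∣ n)).card
  have h2 : 1000 * c + a ≤ b + 1000 := by omega
  have h3 : 1000 * (c : ℝ) + a ≤ b + 1000 := by exact_mod_cast h2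
  linarith

theorem count_mult_ge (a b : ℕ) (h : a ≤ b) :
    ((b : ℝ) - a) / 1000 - 1 ≤ (((Finset.Ico a b).filter (fun n => 1000 ∣ n)).card : ℝ) := by
  have h1 := Mult_card a b h
  set c := ((Finset.Ico a b).filter (fun n => 1000 ∣ n)).card
  have h2 : b ≤ 1000 * c + a + 1000 := by omega
  have h3 : (b : ℝ) ≤ 1000 * c + a + 1000 := by exact_mod_cast h2
  linarith

end Pool.Agent.LibMoser5
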