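import Pool.Agent.LibMoser5.Tail
import Pool.Agent.LibMoser5.Mult
set_option autoImplicit false
namespace Pool.Agent.LibMoser5
open Classical

theorem Tail2_summable (N : ℕ) : Summable (fun n : ℕ => sd (N + n) ^ 2) := by
  have h := (summable_nat_add_iff N).mpr sd_summable
  refine h.congr fun n => ?_
  rw [add_comm]

theorem Tail2_split {N M : ℕ} (h : N ≤ M) :
    ∑' n : ℕ, sd (N + n) ^ 2 = ∑ n ∈ Finset.Ico N M, sd n ^ 2 + ∑' n : ℕ, sd (M + n) ^ 2 := by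
  have h1 := (Tail2_summable N).sum_add_tsum_nat_add (M - N)
  rw [← h1, Finset.sum_Ico_eq_sum_range]
  congr 1
  congr 1
  ext n
  have : N + (n + (M - N)) = M + n := by omega
  rw [this]

/-- a finite set containing `[N,M)`, inside `[N,∞)` -/
theorem area_upper {N M : ℕ} (hM : 1 ≤ M) (P : Finset ℕ) (h1 : ∀ n, N ≤ n → n < M → n ∈ P)
    (h2 : ∀ n ∈ P, N ≤ n) :
    ∑' n : ℕ, sd (N + n) ^ 2 - ∑ n ∈ P, sd n ^ 2 ≤ 1 / (M : ℝ) := by
  rcases le_total N M with h | h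
  · rw [Tail2_split h]
    have h3 : ∑ n ∈ Finset.Ico N M, sd n ^ 2 ≤ ∑ n ∈ P, sd n ^ 2 := by
      apply Finset.sum_le_sum_of_subset_of_nonneg
      · intro n hn
        rw [Finset.mem_Ico] at hn
        exact h1 n hn.1 hn.2
      · intro n _ _
        positivity
    have h4 := tail_le hM
    linarith
  · have hN : 1 ≤ N := hM.trans h
    have h3 := tail_le hN
    have h4 : 0 ≤ ∑ n ∈ P, sd n ^ 2 := Finset.sum_nonneg fun n _ => by positivity
    have h5 : (1 : ℝ) / N ≤ 1 / M :=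
      one_div_le_one_div_of_le (by exact_mod_cast hM) (by exact_mod_cast h)
    linarith

/-- a finite set with elements in `[N,M)` or multiples of 1000 in `[M,M')` -/
theorem area_lower {N M M' : ℕ} (hM : 1 ≤ M) (hMM : M ≤ M') (hN : N ≤ M) (P : Finset ℕ)
    (h2 : ∀ n ∈ P, N ≤ n ∧ (n < M ∨ (n < M' ∧ 1000 ∣ n))) :
    1 / ((M : ℝ) + 1 / 2) - ((((M' : ℝ) - M) / 1000 + 1) / (M : ℝ) ^ 2) ≤
      ∑' n : ℕ, sd (N + n) ^ 2 - ∑ n ∈ P, sd n ^ 2 := by
  have hMR : (1 : ℝ) ≤ M := by exact_mod_cast hM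
  set Q : Finset ℕ := (Finset.Ico M M').filter (fun n => 1000 ∣ n) with hQ
  have hsub : P ⊆ Finset.Ico N M ∪ Q := by
    intro n hn
    obtain ⟨h3, h4⟩ := h2 n hn
    rw [Finset.mem_union, hQ, Finset.mem_filter, Finset.mem_Ico, Finset.mem_Ico]
    rcases lt_or_ge n M with h5 | h5
    · exact Or.inl ⟨h3, h5⟩
    · rcases h4 with h6 | ⟨h6, h7⟩
      · omega
      · exact Or.inr ⟨⟨h5, h6⟩, h7⟩
  have h3 : ∑ n ∈ P, sd n ^ 2 ≤ ∑ n ∈ Finset.Ico N M, sd n ^ 2 + ∑ n ∈ Q, sd n ^ 2 := by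
    calc ∑ n ∈ P, sd n ^ 2 ≤ ∑ n ∈ Finset.Ico N M ∪ Q, sd n ^ 2 :=
          Finset.sum_le_sum_of_subset_of_nonneg hsub fun n _ _ => by positivity
      _ ≤ _ := by
          have := Finset.sum_union_inter (s₁ := Finset.Ico N M) (s₂ := Q)
            (f := fun n => sd n ^ 2)
          have h4 : 0 ≤ ∑ n ∈ Finset.Ico N M ∩ Q, sd n ^ 2 :=
            Finset.sum_nonneg fun n _ => by positivity
          linarith
  have h4 : ∑ n ∈ Q, sd n ^ 2 ≤ ((((M' : ℝ) - M) / 1000 + 1) / (M : ℝ) ^ 2) := by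
    have h5 : ∀ n ∈ Q, sd n ^ 2 ≤ 1 / (M : ℝ) ^ 2 := by
      intro n hn
      rw [hQ, Finset.mem_filter, Finset.mem_Ico] at hn
      have h6 : (M : ℝ) ≤ n := by exact_mod_cast hn.1.1
      have h7 : sd n ≤ 1 / (M : ℝ) := by
        unfold sd
        exact one_div_le_one_div_of_le (by linarith) (by linarith)
      have h8 : 0 ≤ sd n := by unfold sd; positivity
      calc sd n ^ 2 ≤ (1 / (M : ℝ)) ^ 2 := pow_le_pow_left₀ h8 h7 2
        _ = _ := by rw [div_pow, one_pow]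
    calc ∑ n ∈ Q, sd n ^ 2 ≤ ∑ n ∈ Q, 1 / (M : ℝ) ^ 2 := Finset.sum_le_sum h5
      _ = (Q.card : ℝ) * (1 / (M : ℝ) ^ 2) := by rw [Finset.sum_const, nsmul_eq_mul]
      _ ≤ (((M' : ℝ) - M) / 1000 + 1) * (1 / (M : ℝ) ^ 2) :=
          mul_le_mul_of_nonneg_right (count_mult M M' hMM) (by positivity)
      _ = _ := by ring
  rw [Tail2_split hN]
  have h5 := tail_ge M
  linarith

end Pool.Agent.LibMoser5
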