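import Pool.Agent.LibMoser5.Good
import Pool.Agent.LibMoser5.Tail2
set_option autoImplicit false
namespace Pool.Agent.LibMoser5
open Classical

theorem FatHi_le_KK (k0 f : ℕ) : k0 ≤ KK k0 f := by
  induction f with
  | zero => exact le_rfl
  | succ f ih => exact ih.trans (Nat.le_add_right _ _)

/-- `area_upper` with `M = AA c0 k ≥ k^3`; the rows have nonnegative area -/
theorem fat_hi {C W H : ℝ} {k0 c0 Jm f k : ℕ} {s : St} (g : Good C k0 c0)
    (hWH : W * H = ∑' n : ℕ, sd (AA c0 k0 + n) ^ 2)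
    (hI : Inv C W H k0 c0 Jm f k s) : s.H * s.V ≤ 1 / (k : ℝ) ^ 3 := by
  have hk : k0 ≤ k := (FatHi_le_KK k0 f).trans hI.hkl
  have hk1 : 1 ≤ k := le_trans (le_trans (by norm_num) g.k60) hk
  have hAA : k ^ 3 ≤ AA c0 k := by
    unfold AA
    omega
  have hAA1 : 1 ≤ AA c0 k := le_trans (Nat.one_le_pow _ _ hk1) hAA
  have h1 := area_upper (N := AA c0 k0) hAA1 s.P hI.Plo (fun n hn => (hI.Phi n hn).1)
  have h2 := hI.area
  have h3 : 0 ≤ ((s.SL ++ s.SE ++ s.ER).map (fun r => r.1 * r.2)).sum := by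
    apply List.sum_nonneg
    intro x hx
    obtain ⟨r, hr, rfl⟩ := List.mem_map.1 hx
    rcases List.mem_append.1 hr with hr | hr
    · obtain ⟨a, -, b⟩ := hI.Srow r hr
      exact mul_nonneg a.le b
    · obtain ⟨a, b, -⟩ := hI.Erow r hr
      exact mul_nonneg a (a.trans b)
  have hkr : (0 : ℝ) < (k : ℝ) ^ 3 := by
    have : (0 : ℝ) < k := by exact_mod_cast hk1
    positivity
  have h4 : (1 : ℝ) / (AA c0 k : ℝ) ≤ 1 / (k : ℝ) ^ 3 := by
    apply one_div_le_one_div_of_le hkr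
    exact_mod_cast hAA
  rw [hWH] at h2
  linarith

end Pool.Agent.LibMoser5
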