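import Pool.Agent.LibMoser5.MassLe
import Pool.Agent.LibMoser5.Tail2
set_option autoImplicit false
namespace Pool.Agent.LibMoser5
open Classical

/-- the fat rectangle has area at least `0.08/k^3`.
`s.H * s.V = W*H - ∑_P sd² - ∑ rows`; `W*H - ∑_P sd² ≥ 0.999/k³` (`area_lower`, `Good.area`);
S-rows: `area_cells` with `mass_le`, `Good.s4` (`≤ 0.912/k³`) plus `1/Jm³·∑ sd n ≤ |P|/Jm³ ≤ 0.001/k³` (`Inv.sumb`,
`P ⊆ [0, AA (KK (f+1)))`, `10·AA c0 (KK k0 (f+1)) ≤ Jm`, `k³ ≤ AA c0 k ≤ AA c0 (KK k0 (f+1))`);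
E-rows: `∑ ab ≤ (1/KK^3)·Psi ≤ 1.06/k³·10⁻⁵` (`an_frame_k`, `Inv.Erow`, `Inv.psi`, `Good.srcs`; the S-part of `Psi` is
`≥ 0`). -/
theorem fat_lo {C W H : ℝ} {k0 c0 Jm f k : ℕ} {s : St} (g : Good C k0 c0)
    (hWH : W * H = ∑' n : ℕ, sd (AA c0 k0 + n) ^ 2)
    (hI : Inv C W H k0 c0 Jm f k s) (hJm : 10 * AA c0 (KK k0 (f + 1)) ≤ Jm) :
    8 / 100 * (1 / (k : ℝ) ^ 3) ≤ s.H * s.V := by
  have hk0 : 60 ≤ k0 := g.k60
  have hk0k : k0 ≤ k := (KK_ge k0 f).trans hI.hkl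
  have hk1 : 60 ≤ k := hk0.trans hk0k
  have hkR : (60 : ℝ) ≤ (k : ℝ) := by exact_mod_cast hk1
  have hkpos : (0 : ℝ) < (k : ℝ) ^ 3 := by positivity
  -- sizes
  have hAk : k ^ 3 ≤ AA c0 k := by unfold AA; omega
  have hk3 : 1 ≤ k ^ 3 := Nat.one_le_pow _ _ (by omega)
  have hAk1 : 1 ≤ AA c0 k := hk3.trans hAk
  have hAkB : AA c0 k ≤ AA c0 (KK k0 (f + 1)) := AA_mono hI.hku
  have hAk0 : AA c0 k0 ≤ AA c0 k := AA_mono hk0k
  set B : ℕ := AA c0 (KK k0 (f + 1)) with hB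
  have hB1 : 1 ≤ B := hAk1.trans hAkB
  have hkB : (k : ℝ) ^ 3 ≤ (B : ℝ) := by exact_mod_cast hAk.trans hAkB
  have hBJ : 10 * (B : ℝ) ≤ (Jm : ℝ) := by exact_mod_cast hJm
  have hB1R : (1 : ℝ) ≤ (B : ℝ) := by exact_mod_cast hB1
  have hJm1 : 1 ≤ Jm := by omega
  -- remaining area
  have h1 := area_lower (N := AA c0 k0) (M := AA c0 k) (M' := B) hAk1 hAkB hAk0 s.P hI.Phi
  have h2 := g.area f k hI.hkl hI.hku
  rw [← hWH] at h1
  -- S rows
  have h3 := area_cells (k := k) (Jm := Jm) (by omega) (s.SL ++ s.SE) hI.Srow hJm1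
  have h4 : ∑ j ∈ Finset.Ico k Jm, ∑ d ∈ Finset.range 100,
      (1 / (j : ℝ) ^ 3) * mass (s.SL ++ s.SE) j d ≤ 912 / 1000 * (1 / (k : ℝ) ^ 3) := by
    refine le_trans (Finset.sum_le_sum fun j hj => ?_) (g.s4 k hk0k Jm)
    rw [Finset.mem_Ico] at hj
    have hj0 : (0 : ℝ) < (j : ℝ) := by
      have : 0 < j := by omega
      exact_mod_cast this
    have h5 : ∀ d ∈ Finset.range 100, (1 / (j : ℝ) ^ 3) * mass (s.SL ++ s.SE) j d ≤
        (1 / (j : ℝ) ^ 3) * (273 / 100 / (100 * (j : ℝ))) := by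
      intro d hd
      refine mul_le_mul_of_nonneg_left ?_ (by positivity)
      exact mass_le g hI (by omega) hj.2 (Finset.mem_range.1 hd)
    refine (Finset.sum_le_sum h5).trans (le_of_eq ?_)
    rw [Finset.sum_const, Finset.card_range, nsmul_eq_mul]
    field_simp
    norm_num
  -- the thin rows
  have h6 : ∑ n ∈ s.P, sd n ≤ 2 * (B : ℝ) := by
    have hsub : s.P ⊆ Finset.range B := by
      intro n hn
      rw [Finset.mem_range]
      rcases (hI.Phi n hn).2 with h | h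
      · omega
      · exact h.1
    have h7 : ∀ n ∈ s.P, sd n ≤ 2 := by
      intro n _
      unfold sd
      rw [div_le_iff₀ (by positivity)]
      have : (0 : ℝ) ≤ (n : ℝ) := by positivity
      linarith
    refine (Finset.sum_le_sum h7).trans ?_
    rw [Finset.sum_const, nsmul_eq_mul]
    have h8 : (s.P.card : ℝ) ≤ (B : ℝ) := by
      have := Finset.card_le_card hsub
      rw [Finset.card_range] at this
      exact_mod_cast this
    linarith
  have h9 : 1 / (Jm : ℝ) ^ 3 * ((s.SL ++ s.SE).map Prod.snd).sum ≤ 2 / 1000 * (1 / (k : ℝ) ^ 3) := by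
    have hJpos : (0 : ℝ) < (Jm : ℝ) := by linarith
    calc 1 / (Jm : ℝ) ^ 3 * ((s.SL ++ s.SE).map Prod.snd).sum
        ≤ 1 / (Jm : ℝ) ^ 3 * (2 * (B : ℝ)) :=
          mul_le_mul_of_nonneg_left (hI.sumb.trans h6) (by positivity)
      _ ≤ 1 / (10 * (B : ℝ)) ^ 3 * (2 * (B : ℝ)) := by
          refine mul_le_mul_of_nonneg_right ?_ (by positivity)
          exact one_div_le_one_div_of_le (by positivity) (pow_le_pow_left₀ (by positivity) hBJ 3)
      _ = 2 / 1000 * (1 / (B : ℝ) ^ 2) := by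
          field_simp
          norm_num
      _ ≤ 2 / 1000 * (1 / (k : ℝ) ^ 3) := by
          refine mul_le_mul_of_nonneg_left ?_ (by norm_num)
          refine one_div_le_one_div_of_le hkpos ?_
          nlinarith
  -- E rows
  have hKpos : (0 : ℝ) < (KK k0 f : ℝ) := by
    have : 0 < KK k0 f := by have := KK_ge k0 f; omega
    exact_mod_cast this
  have h10 : (s.ER.map (fun r => r.1 * r.2)).sum ≤
      1 / (KK k0 f : ℝ) ^ 3 * (s.ER.map (fun r => r.1 + r.2)).sum := by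
    rw [← List.sum_map_mul_left]
    refine List.sum_le_sum ?_
    intro r hr
    obtain ⟨e1, e2, e3⟩ := hI.Erow r hr
    have : 0 ≤ 1 / (KK k0 f : ℝ) ^ 3 := by positivity
    have hr2 : 0 ≤ r.2 := e1.trans e2
    have h11 := mul_le_mul_of_nonneg_right e3 hr2
    have h12 := mul_nonneg this e1
    nlinarith
  have h13 : 0 ≤ ((s.SL ++ s.SE).map om).sum := by
    refine List.sum_nonneg ?_
    intro x hx
    obtain ⟨r, hr, rfl⟩ := List.mem_map.1 hx
    obtain ⟨e1, e2, e3⟩ := hI.Srow r hr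
    unfold om
    have := Real.rpow_nonneg e1.le (1 / 8 : ℝ)
    positivity
  have h14 : (s.ER.map (fun r => r.1 + r.2)).sum ≤ 1 / 100000 := by
    have h15 := hI.psi
    have h16 := g.srcs k
    unfold Psi at h15
    linarith
  have h17 := an_frame_k (k0 := k0) (f := f) (k := k) (by omega) hI.hkl hI.hku
  have h18 : 1 / (KK k0 f : ℝ) ^ 3 * (s.ER.map (fun r => r.1 + r.2)).sum ≤
      106 / 100 * (1 / (k : ℝ) ^ 3) * (1 / 100000) := by
    calc 1 / (KK k0 f : ℝ) ^ 3 * (s.ER.map (fun r => r.1 + r.2)).sum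
        ≤ 1 / (KK k0 f : ℝ) ^ 3 * (1 / 100000) :=
          mul_le_mul_of_nonneg_left h14 (by positivity)
      _ ≤ _ := mul_le_mul_of_nonneg_right h17 (by norm_num)
  have h19 : ((s.SL ++ s.SE ++ s.ER).map (fun r => r.1 * r.2)).sum =
      ((s.SL ++ s.SE).map (fun r => r.1 * r.2)).sum + (s.ER.map (fun r => r.1 * r.2)).sum := by
    rw [List.map_append, List.sum_append]
  have h20 := hI.area
  rw [h19] at h20
  have h21 : 0 < 1 / (k : ℝ) ^ 3 := by positivity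
  linarith

end Pool.Agent.LibMoser5
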