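import Pool.Agent.LibMoser5.Geo
set_option autoImplicit false
namespace Pool.Agent.LibMoser5
open Classical

theorem Fill_sd_pos (n : ℕ) : 0 < sd n := by unfold sd; positivity

theorem Fill_sum_nonneg (u : List ℕ) : 0 ≤ (u.map sd).sum := by
  apply List.sum_nonneg
  intro a ha
  obtain ⟨n, _, rfl⟩ := List.mem_map.1 ha
  exact (Fill_sd_pos n).le

theorem Fill_perm1 {α : Type} (A F : List α) (e p : α) :
    (A ++ e :: p :: F).Perm (p :: (A ++ e :: F)) := by
  have h : A ++ e :: p :: F = (A ++ [e]) ++ p :: F := by simp
  rw [h]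
  refine List.perm_middle.trans ?_
  simp

/-- One row: the rectangle `τ × b` with `τ ≥ sd n` (n ∈ u) and `∑ sd n ≤ b` is cut into squares (placed),
the pieces above them and the end piece.  Induction on `u` with `Tiled.cut`, `Tiled.swap`, `Tiled.place`, `Tiled.perm`:
cut off `τ × sd n` (length `sd n`), swap it to `sd n × τ`, cut it into `sd n × sd n` and `sd n × (τ - sd n)`, place. -/
theorem tiled_row {W H τ b : ℝ} {F : List (ℝ × ℝ)} {P : Finset ℕ} (u : List ℕ)
    (h : Tiled W H ((τ, b) :: F) P) (h1 : ∀ n ∈ u, sd n ≤ τ) (h2 : (u.map sd).sum ≤ b)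
    (hnd : u.Nodup) (hdisj : ∀ n ∈ u, n ∉ P) :
    Tiled W H (u.map (fun n => (τ - sd n, sd n)) ++ (τ, b - (u.map sd).sum) :: F) (P ∪ u.toFinset) := by
  induction u generalizing b F P with
  | nil => simpa using h
  | cons n u ih =>
    rw [List.map_cons, List.sum_cons] at h2
    have hn := h1 n (by simp)
    have hs := Fill_sum_nonneg u
    have hnpos := (Fill_sd_pos n).le
    rw [List.nodup_cons] at hnd
    have t1 := h.cut hnpos (by linarith : sd n ≤ b)
    have t2 := (t1.swap).cut hnpos hn
    have t3 := t2.place (hdisj n (by simp))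
    have t4 := (t3.swap).perm (List.Perm.swap _ _ _)
    have t5 := ih t4 (fun m hm => h1 m (by simp [hm])) (by linarith) hnd.2 (by
      intro m hm hmem
      rcases Finset.mem_insert.1 hmem with rfl | hmem
      · exact hnd.1 hm
      · exact hdisj m (by simp [hm]) hmem)
    have e1 : insert n P ∪ u.toFinset = P ∪ (n :: u).toFinset := by
      ext m
      simp only [Finset.mem_union, Finset.mem_insert, List.mem_toFinset, List.mem_cons]
      tauto
    rw [e1] at t5
    have e2 : b - sd n - (u.map sd).sum = b - ((n :: u).map sd).sum := by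
      rw [List.map_cons, List.sum_cons]; ring
    rw [e2] at t5
    refine t5.perm ?_
    exact Fill_perm1 _ _ _ _

theorem Fill_mm {W H : ℝ} {a : ℝ × ℝ} {F : List (ℝ × ℝ)} {P : Finset ℕ}
    (h : Tiled W H (a :: F) P) : Tiled W H (mm a :: F) P := by
  obtain ⟨x, y⟩ := a
  rcases le_total x y with hxy | hxy
  · have : mm (x, y) = (x, y) := by simp [mm, hxy]
    rw [this]; exact h
  · have : mm (x, y) = (y, x) := by simp [mm, hxy]
    rw [this]; exact h.swap

/-- All rows of a list.  Induction on `L` with `tiled_row`, `Tiled.perm`, `Tiled.swap`. -/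
theorem tiled_fill {W H : ℝ} {F : List (ℝ × ℝ)} {P : Finset ℕ} (L : List FJob)
    (h : Tiled W H (L.map (fun x => (x.τ, x.len)) ++ F) P)
    (hok : ∀ x ∈ L, x.Ok) (hnd : (L.flatMap FJob.u).Nodup)
    (hdisj : ∀ n ∈ L.flatMap FJob.u, n ∉ P) :
    Tiled W H (newS L ++ (newE L).map mm ++ F) (P ∪ (L.flatMap FJob.u).toFinset) := by
  induction L generalizing F P with
  | nil => simpa [newS, newE] using h
  | cons x L ih =>
    rw [List.flatMap_cons] at hnd hdisj
    have hndx := (List.nodup_append.1 hnd).1
    have hndL := (List.nodup_append.1 hnd).2.1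
    have hne := (List.nodup_append.1 hnd).2.2
    have hx := hok x (by simp)
    rw [List.map_cons, List.cons_append] at h
    have t1 := tiled_row x.u h hx.1 hx.2 hndx (fun n hn => hdisj n (List.mem_append_left _ hn))
    set A := x.u.map (fun n => (x.τ - sd n, sd n)) with hA
    set e := (x.τ, x.len - (x.u.map sd).sum) with he
    set B := L.map (fun x => (x.τ, x.len)) with hB
    have t2 : Tiled W H (e :: (A ++ (B ++ F))) (P ∪ x.u.toFinset) := t1.perm List.perm_middle
    have t3 := Fill_mm t2
    have t4 : Tiled W H (B ++ (mm e :: (A ++ F))) (P ∪ x.u.toFinset) := by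
      refine t3.perm ?_
      refine List.Perm.trans ?_ List.perm_middle.symm
      refine List.Perm.cons _ ?_
      rw [← List.append_assoc, ← List.append_assoc]
      exact List.Perm.append_right _ List.perm_append_comm
    have t5 := ih t4 (fun y hy => hok y (by simp [hy])) hndL (by
      intro n hn hmem
      rcases Finset.mem_union.1 hmem with hm | hm
      · exact hdisj n (List.mem_append_right _ hn) hm
      · exact hne n (List.mem_toFinset.1 hm) n hn rfl)
    have e1 : P ∪ x.u.toFinset ∪ (L.flatMap FJob.u).toFinset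
        = P ∪ ((x :: L).flatMap FJob.u).toFinset := by
      rw [List.flatMap_cons, List.toFinset_append, Finset.union_assoc]
    rw [e1] at t5
    refine t5.perm ?_
    have e2 : newS (x :: L) = A ++ newS L := by simp [newS, hA]
    have e3 : (newE (x :: L)).map mm = mm e :: (newE L).map mm := by simp [newE, he]
    rw [e2, e3]
    generalize newS L = S
    generalize (newE L).map mm = E
    -- S ++ E ++ mm e :: (A ++ F) ~ A ++ S ++ mm e :: E ++ F
    have p1 : (S ++ E ++ mm e :: (A ++ F)).Perm (mm e :: (S ++ E ++ (A ++ F))) := List.perm_middle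
    have p2 : (A ++ S ++ mm e :: E ++ F).Perm (mm e :: (A ++ S ++ E ++ F)) := by
      rw [List.append_assoc, List.cons_append]
      refine List.perm_middle.trans ?_
      rw [List.append_assoc (A ++ S)]
    refine p1.trans (List.Perm.trans ?_ p2.symm)
    refine List.Perm.cons _ ?_
    rw [← List.append_assoc]
    refine List.Perm.append_right _ ?_
    rw [List.append_assoc A]
    exact List.perm_append_comm

end Pool.Agent.LibMoser5
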