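import Pool.Agent.LibMoser5.Defs
set_option autoImplicit false
namespace Pool.Agent.LibMoser5
open Classical

theorem newS_cons (x : FJob) (L : List FJob) :
    newS (x :: L) = x.u.map (fun n => (x.τ - sd n, sd n)) ++ newS L := by
  simp [newS]

theorem newE_cons (x : FJob) (L : List FJob) :
    newE (x :: L) = (x.τ, x.len - (x.u.map sd).sum) :: newE L := by
  simp [newE]

theorem mm_mul (r : ℝ × ℝ) : (mm r).1 * (mm r).2 = r.1 * r.2 := min_mul_max _ _

theorem mm_add (r : ℝ × ℝ) : (mm r).1 + (mm r).2 = r.1 + r.2 := min_add_max _ _

theorem area_u (τ : ℝ) (u : List ℕ) :
    ((u.map (fun n => (τ - sd n, sd n))).map (fun r : ℝ × ℝ => r.1 * r.2)).sum +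
      (u.map (fun n => sd n ^ 2)).sum = τ * (u.map sd).sum := by
  induction u with
  | nil => simp
  | cons n u ih =>
    simp only [List.map_cons, List.sum_cons] at ih ⊢
    linear_combination ih

/-- area identity (`min * max = product`) -/
theorem area_fill (L : List FJob) :
    ((newS L ++ (newE L).map mm).map (fun r => r.1 * r.2)).sum +
      ((L.flatMap FJob.u).map (fun n => sd n ^ 2)).sum = (L.map (fun x => x.τ * x.len)).sum := by
  induction L with
  | nil => simp [newS, newE]
  | cons x L ih =>
    have h := area_u x.τ x.u
    rw [List.map_append, List.sum_append] at ih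
    rw [newS_cons, newE_cons, List.map_append, List.sum_append, List.map_append, List.sum_append,
      List.map_cons, List.map_cons, List.sum_cons, mm_mul, List.flatMap_cons, List.map_append,
      List.sum_append, List.map_cons, List.sum_cons]
    simp only
    linear_combination ih + h

/-- the new rows: total length, and linear budget -/
theorem sum_newS_snd (L : List FJob) :
    ((newS L).map Prod.snd).sum = ((L.flatMap FJob.u).map sd).sum := by
  induction L with
  | nil => simp [newS]
  | cons x L ih =>
    rw [newS_cons, List.map_append, List.sum_append, ih, List.flatMap_cons, List.map_append,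
      List.sum_append, List.map_map]
    rfl

theorem budget_fill (L : List FJob) :
    ((newS L).map om).sum + (((newE L).map mm).map (fun r => r.1 + r.2)).sum = (L.map cost).sum := by
  induction L with
  | nil => simp [newS, newE]
  | cons x L ih =>
    rw [newS_cons, newE_cons, List.map_append, List.sum_append, List.map_cons, List.map_cons,
      List.sum_cons, mm_add, List.map_cons, List.sum_cons, ← ih, List.map_map]
    unfold cost
    simp only [Function.comp_def]
    ring

end Pool.Agent.LibMoser5
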