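import Pool.Agent.LibMoser5.Frames
import Pool.Agent.LibMoser5.AnG
set_option autoImplicit false
namespace Pool.Agent.LibMoser5
open Classical

theorem FrameR_GG {k : ℕ} (hk : 1000000 ≤ k) : (GG k : ℝ) ≤ (k : ℝ) ^ 3 / 1000 := by
  have h1 : (GG k) ^ 2 ≤ k ^ 5 := Nat.sqrt_le' (k ^ 5)
  have h2 : (GG k : ℝ) ^ 2 ≤ (k : ℝ) ^ 5 := by exact_mod_cast h1
  have hk' : (1000000 : ℝ) ≤ k := by exact_mod_cast hk
  have h3 : (k : ℝ) ^ 5 ≤ ((k : ℝ) ^ 3 / 1000) ^ 2 := by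
    have h4 : ((k : ℝ) ^ 3 / 1000) ^ 2 = (k : ℝ) ^ 5 * (k / 1000000) := by ring
    rw [h4]
    apply le_mul_of_one_le_right (by positivity)
    linarith
  exact (pow_le_pow_iff_left₀ (by positivity) (by positivity) two_ne_zero).1 (h2.trans h3)

theorem FrameR_c0 {c0 k0 K : ℕ} (hc : c0 ≤ 4 * k0 ^ 2) (hK : k0 ≤ K) (hK1 : 1000000 ≤ K) :
    (c0 : ℝ) ≤ (K : ℝ) ^ 3 / 1000 := by
  have h1 : c0 ≤ 4 * K ^ 2 := hc.trans (Nat.mul_le_mul_left 4 (Nat.pow_le_pow_left hK 2))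
  have h2 : (c0 : ℝ) ≤ 4 * (K : ℝ) ^ 2 := by exact_mod_cast h1
  have hk' : (1000000 : ℝ) ≤ K := by exact_mod_cast hK1
  have h3 : (K : ℝ) ^ 3 / 1000 = (K : ℝ) ^ 2 * (K / 1000) := by ring
  rw [h3]
  have h4 : 0 ≤ (K : ℝ) ^ 2 := by positivity
  have h5 : (4 : ℝ) ≤ K / 1000 := by linarith
  nlinarith

/-- frame ratios, `(61/60)^3 = 1.0508`, `(61/60)^6 = 1.1043`; `AA c0 k ~ k^3` -/
theorem an_frame_ratio : ∃ k1 : ℕ, ∀ k0 ≥ k1, ∀ c0 : ℕ, c0 ≤ 4 * k0 ^ 2 → ∀ f : ℕ,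
    (AA c0 (KK k0 (f + 2)) : ℝ) ≤ 111 / 100 * (KK k0 f : ℝ) ^ 3 := by
  refine ⟨1000000, fun k0 hk0 c0 hc0 f => ?_⟩
  have e1 : KK k0 (f + 1) = KK k0 f + KK k0 f / 60 := rfl
  have e2 : KK k0 (f + 2) = KK k0 (f + 1) + KK k0 (f + 1) / 60 := rfl
  have hK0 : k0 ≤ KK k0 f := KK_ge k0 f
  have hK : 1000000 ≤ KK k0 f := hk0.trans hK0
  have h3 : 60 * KK k0 (f + 1) ≤ 61 * KK k0 f := by omega
  have h4 : 60 * KK k0 (f + 2) ≤ 61 * KK k0 (f + 1) := by omega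
  have h5 : 3600 * KK k0 (f + 2) ≤ 3721 * KK k0 f := by omega
  have h6 : (3600 : ℝ) * KK k0 (f + 2) ≤ 3721 * KK k0 f := by exact_mod_cast h5
  have hK2 : 1000000 ≤ KK k0 (f + 2) := hK.trans (KK_mono k0 (by omega))
  have g1 := FrameR_GG hK2
  have g2 := FrameR_c0 hc0 hK0 hK
  set K : ℝ := (KK k0 f : ℝ) with hKdef
  set L : ℝ := (KK k0 (f + 2) : ℝ) with hLdef
  have hKp : (0 : ℝ) ≤ K := Nat.cast_nonneg _
  have hLp : (0 : ℝ) ≤ L := Nat.cast_nonneg _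
  have h7 : L ≤ 3721 / 3600 * K := by linarith
  have h8 : L ^ 3 ≤ (3721 / 3600 * K) ^ 3 := pow_le_pow_left₀ hLp h7 3
  have h9 : (3721 / 3600 * K) ^ 3 ≤ 1105 / 1000 * K ^ 3 := by
    rw [mul_pow]
    apply mul_le_mul_of_nonneg_right _ (by positivity)
    norm_num
  have h10 : 0 ≤ K ^ 3 := by positivity
  have h11 : (AA c0 (KK k0 (f + 2)) : ℝ) = L ^ 3 + GG (KK k0 (f + 2)) + c0 := by
    unfold AA
    push_cast
    rfl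
  rw [h11]
  linarith

theorem an_frame_len : ∃ k1 : ℕ, ∀ k0 ≥ k1, ∀ c0 : ℕ, c0 ≤ 4 * k0 ^ 2 → ∀ f : ℕ,
    4 / 100 * (AA c0 (KK k0 (f + 1)) : ℝ) ≤ (AA c0 (KK k0 (f + 1)) : ℝ) - AA c0 (KK k0 f) := by
  refine ⟨1000000, fun k0 hk0 c0 hc0 f => ?_⟩
  have e1 : KK k0 (f + 1) = KK k0 f + KK k0 f / 60 := rfl
  have hK0 : k0 ≤ KK k0 f := KK_ge k0 f
  have hK : 1000000 ≤ KK k0 f := hk0.trans hK0
  have h3 : 1016 * KK k0 f ≤ 1000 * KK k0 (f + 1) := by omega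
  have h4 : (1016 : ℝ) * KK k0 f ≤ 1000 * KK k0 (f + 1) := by exact_mod_cast h3
  have g1 := FrameR_GG hK
  have g2 := FrameR_c0 hc0 hK0 hK
  have g3 : (0 : ℝ) ≤ GG (KK k0 (f + 1)) := Nat.cast_nonneg _
  have g4 : (0 : ℝ) ≤ c0 := Nat.cast_nonneg _
  set K : ℝ := (KK k0 f : ℝ) with hKdef
  set L : ℝ := (KK k0 (f + 1) : ℝ) with hLdef
  have hKp : (0 : ℝ) ≤ K := Nat.cast_nonneg _
  have h7 : 1016 / 1000 * K ≤ L := by linarith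
  have h8 : (1016 / 1000 * K) ^ 3 ≤ L ^ 3 := pow_le_pow_left₀ (by positivity) h7 3
  have h9 : 1048 / 1000 * K ^ 3 ≤ (1016 / 1000 * K) ^ 3 := by
    rw [mul_pow]
    apply mul_le_mul_of_nonneg_right _ (by positivity)
    norm_num
  have h10 : 0 ≤ K ^ 3 := by positivity
  have h11 : (AA c0 (KK k0 (f + 1)) : ℝ) = L ^ 3 + GG (KK k0 (f + 1)) + c0 := by
    unfold AA
    push_cast
    rfl
  have h12 : (AA c0 (KK k0 f) : ℝ) = K ^ 3 + GG (KK k0 f) + c0 := by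
    unfold AA
    push_cast
    rfl
  rw [h11, h12]
  linarith

end Pool.Agent.LibMoser5
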