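import Pool.Agent.LibMoser5.Defs
set_option autoImplicit false
namespace Pool.Agent.LibMoser5
open Classical

/-- frames -/
theorem KK_mono (k0 : ℕ) {f g : ℕ} (h : f ≤ g) : KK k0 f ≤ KK k0 g := by
  have hm : Monotone (KK k0) := monotone_nat_of_le_succ fun n => by
    show KK k0 n ≤ KK k0 n + KK k0 n / 60
    omega
  exact hm h

theorem KK_ge (k0 f : ℕ) : k0 ≤ KK k0 f := KK_mono k0 (Nat.zero_le f)

theorem KK_unbounded {k0 : ℕ} (h : 60 ≤ k0) (M : ℕ) : ∃ f, M ≤ KK k0 f := by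
  have h1 : ∀ f, f ≤ KK k0 f := by
    intro f
    induction f with
    | zero => exact Nat.zero_le _
    | succ f ih =>
      have h2 : 60 ≤ KK k0 f := h.trans (KK_ge k0 f)
      have h3 : KK k0 (f + 1) = KK k0 f + KK k0 f / 60 := rfl
      omega
  exact ⟨M, h1 M⟩

theorem an_frame_k {k0 f k : ℕ} (hk0 : 1 ≤ k0) (h1 : KK k0 f ≤ k) (h2 : k ≤ KK k0 (f + 1)) :
    1 / (KK k0 f : ℝ) ^ 3 ≤ 106 / 100 * (1 / (k : ℝ) ^ 3) := by
  have h3 : KK k0 (f + 1) = KK k0 f + KK k0 f / 60 := rfl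
  have hK : 1 ≤ KK k0 f := hk0.trans (KK_ge k0 f)
  have h4 : 60 * k ≤ 61 * KK k0 f := by omega
  have h5 : (60 : ℝ) * k ≤ 61 * KK k0 f := by exact_mod_cast h4
  have hK' : (1 : ℝ) ≤ KK k0 f := by exact_mod_cast hK
  have hk' : (1 : ℝ) ≤ k := by exact_mod_cast hK.trans h1
  set K : ℝ := (KK k0 f : ℝ)
  rw [mul_one_div, div_le_div_iff₀ (by positivity) (by positivity), one_mul]
  have h6 : (k : ℝ) ≤ 61 / 60 * K := by linarith
  have h7 : (k : ℝ) ^ 3 ≤ (61 / 60 * K) ^ 3 := pow_le_pow_left₀ (by linarith) h6 3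
  have h8 : (61 / 60 * K) ^ 3 = 226981 / 216000 * K ^ 3 := by ring
  have h9 : 0 < K ^ 3 := by positivity
  rw [h8] at h7
  linarith

end Pool.Agent.LibMoser5
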