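import Pool.Agent.LibMoser5.Defs
set_option autoImplicit false
namespace Pool.Agent.LibMoser5
open Classical

/-- start: one free rectangle, no squares -/
theorem tiled_init {W H : ℝ} (hW : 0 ≤ W) (hH : 0 ≤ H) : Tiled W H [(W, H)] ∅ := by
  refine ⟨[⟨0, 0, W, H⟩], fun _ => (0, 0), ?_, ?_, ?_, ?_, ?_, ?_⟩
  · exact List.Forall₂.cons (Or.inl ⟨rfl, rfl⟩) List.Forall₂.nil
  · intro b hb
    rw [List.mem_singleton] at hb
    subst hb
    refine ⟨hW, hH, le_rfl, ?_, le_rfl, ?_⟩ <;> simp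
  · exact List.pairwise_singleton _ _
  · simp
  · simp
  · simp

theorem Geo_sep_symm {b b' : Box} (h : b.Sep b') : b'.Sep b := by
  rcases h with h | h | h | h
  · exact Or.inr (Or.inl h)
  · exact Or.inl h
  · exact Or.inr (Or.inr (Or.inr h))
  · exact Or.inr (Or.inr (Or.inl h))

/-- (List.perm_comp_forall₂) -/
theorem Tiled.perm {W H : ℝ} {F F' : List (ℝ × ℝ)} {P : Finset ℕ} (h : Tiled W H F P)
    (hp : F.Perm F') : Tiled W H F' P := by
  obtain ⟨B, p, h1, h2, h3, h4, h5, h6⟩ := h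
  have h7 : Relation.Comp (List.Forall₂ (fun (d : ℝ × ℝ) (b : Box) => b.Dims d)) List.Perm F' B := by
    apply List.perm_comp_forall₂
    · exact hp.symm
    · exact h1.flip
  obtain ⟨B', h8, h9⟩ := h7
  refine ⟨B', p, h8.flip, ?_, ?_, h4, ?_, h6⟩
  · intro b hb
    exact h2 b (h9.subset hb)
  · exact (h9.symm.pairwise_iff (fun {a b} h => Geo_sep_symm h)).1 h3
  · intro b hb
    exact h5 b (h9.subset hb)

/-- (the two orders are both allowed in `Dims`) -/
theorem Tiled.swap {W H a b : ℝ} {F : List (ℝ × ℝ)} {P : Finset ℕ}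
    (h : Tiled W H ((a, b) :: F) P) : Tiled W H ((b, a) :: F) P := by
  obtain ⟨B, p, h1, h2, h3, h4, h5, h6⟩ := h
  rw [List.forall₂_cons_right_iff] at h1
  obtain ⟨b0, B0, hb0, hB0, rfl⟩ := h1
  refine ⟨b0 :: B0, p, List.Forall₂.cons ?_ hB0, h2, h3, h4, h5, h6⟩
  rcases hb0 with ⟨e1, e2⟩ | ⟨e1, e2⟩
  · exact Or.inr ⟨e1, e2⟩
  · exact Or.inl ⟨e1, e2⟩

/-- a box contained in another one is separated from everything the big one is separated from -/
theorem Geo_sep_sub {b b1 c : Box} (h : b.Sep c) (hx : b.x ≤ b1.x) (hy : b.y ≤ b1.y)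
    (hw : b1.x + b1.w ≤ b.x + b.w) (hh : b1.y + b1.h ≤ b.y + b.h) : b1.Sep c := by
  rcases h with h | h | h | h
  · left; linarith
  · right; left; linarith
  · right; right; left; linarith
  · right; right; right; linarith

/-- guillotine cut: the rectangle `a × b` is cut into `a × b₁` and `a × (b - b₁)` -/
theorem Tiled.cut {W H a b b₁ : ℝ} {F : List (ℝ × ℝ)} {P : Finset ℕ}
    (h : Tiled W H ((a, b) :: F) P) (h0 : 0 ≤ b₁) (h1 : b₁ ≤ b) :
    Tiled W H ((a, b₁) :: (a, b - b₁) :: F) P := by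
  obtain ⟨B, p, hf, h2, h3, h4, h5, h6⟩ := h
  rw [List.forall₂_cons_right_iff] at hf
  obtain ⟨c, B0, hb0, hB0, rfl⟩ := hf
  have hin := h2 c (List.mem_cons_self)
  obtain ⟨i1, i2, i3, i4, i5, i6⟩ := hin
  rw [List.pairwise_cons] at h3
  have key : ∀ c1 c2 : Box, c1.Dims (a, b₁) → c2.Dims (a, b - b₁) →
      c1.Sep c2 → 0 ≤ c1.w → 0 ≤ c1.h → 0 ≤ c2.w → 0 ≤ c2.h →
      (c.x ≤ c1.x ∧ c.y ≤ c1.y ∧ c1.x + c1.w ≤ c.x + c.w ∧ c1.y + c1.h ≤ c.y + c.h) →
      (c.x ≤ c2.x ∧ c.y ≤ c2.y ∧ c2.x + c2.w ≤ c.x + c.w ∧ c2.y + c2.h ≤ c.y + c.h) →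
      Tiled W H ((a, b₁) :: (a, b - b₁) :: F) P := by
    intro c1 c2 d1 d2 hs w1 h1' w2 h2' s1 s2
    refine ⟨c1 :: c2 :: B0, p, List.Forall₂.cons d1 (List.Forall₂.cons d2 hB0), ?_, ?_, h4, ?_, h6⟩
    · intro x hx
      rcases List.mem_cons.1 hx with rfl | hx
      · exact ⟨w1, h1', by linarith [s1.1], by linarith [s1.2.2.1], by linarith [s1.2.1],
          by linarith [s1.2.2.2]⟩
      rcases List.mem_cons.1 hx with rfl | hx
      · exact ⟨w2, h2', by linarith [s2.1], by linarith [s2.2.2.1], by linarith [s2.2.1],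
          by linarith [s2.2.2.2]⟩
      · exact h2 x (List.mem_cons_of_mem _ hx)
    · rw [List.pairwise_cons, List.pairwise_cons]
      refine ⟨?_, ?_, h3.2⟩
      · intro x hx
        rcases List.mem_cons.1 hx with rfl | hx
        · exact hs
        · exact Geo_sep_sub (h3.1 x hx) s1.1 s1.2.1 s1.2.2.1 s1.2.2.2
      · intro x hx
        exact Geo_sep_sub (h3.1 x hx) s2.1 s2.2.1 s2.2.2.1 s2.2.2.2
    · intro x hx n hn
      rcases List.mem_cons.1 hx with rfl | hx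
      · exact Geo_sep_sub (h5 c List.mem_cons_self n hn) s1.1 s1.2.1 s1.2.2.1 s1.2.2.2
      rcases List.mem_cons.1 hx with rfl | hx
      · exact Geo_sep_sub (h5 c List.mem_cons_self n hn) s2.1 s2.2.1 s2.2.2.1 s2.2.2.2
      · exact h5 x (List.mem_cons_of_mem _ hx) n hn
  rcases hb0 with ⟨e1, e2⟩ | ⟨e1, e2⟩
  · simp only at e1 e2
    refine key ⟨c.x, c.y, c.w, b₁⟩ ⟨c.x, c.y + b₁, c.w, b - b₁⟩ (Or.inl ⟨e1, rfl⟩) (Or.inl ⟨e1, rfl⟩)
      (Or.inr (Or.inr (Or.inl le_rfl))) i1 h0 i1 (by simp only; linarith)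
      ⟨le_rfl, le_rfl, le_rfl, by simp only; linarith⟩ ⟨le_rfl, by simp only; linarith, le_rfl, by simp only; linarith⟩
  · simp only at e1 e2
    refine key ⟨c.x, c.y, b₁, c.h⟩ ⟨c.x + b₁, c.y, b - b₁, c.h⟩ (Or.inr ⟨rfl, e2⟩) (Or.inr ⟨rfl, e2⟩)
      (Or.inl le_rfl) h0 i2 (by simp only; linarith) i2
      ⟨le_rfl, le_rfl, by simp only; linarith, le_rfl⟩ ⟨by simp only; linarith, le_rfl, by simp only; linarith, le_rfl⟩

/-- a free square of side `sd n` becomes the square with index `n` -/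
theorem Tiled.place {W H : ℝ} {n : ℕ} {F : List (ℝ × ℝ)} {P : Finset ℕ}
    (h : Tiled W H ((sd n, sd n) :: F) P) (hn : n ∉ P) : Tiled W H F (insert n P) := by
  obtain ⟨B, p, hf, h2, h3, h4, h5, h6⟩ := h
  rw [List.forall₂_cons_right_iff] at hf
  obtain ⟨c, B0, hb0, hB0, rfl⟩ := hf
  have hc : c = sq n (c.x, c.y) := by
    have hcw : c.w = sd n := by rcases hb0 with ⟨e1, e2⟩ | ⟨e1, e2⟩ <;> exact e1
    have hch : c.h = sd n := by rcases hb0 with ⟨e1, e2⟩ | ⟨e1, e2⟩ <;> exact e2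
    cases c
    simp only at hcw hch
    rw [hcw, hch]
    rfl
  rw [List.pairwise_cons] at h3
  let p' : ℕ → ℝ × ℝ := fun m => if m = n then (c.x, c.y) else p m
  have hpn : sq n (p' n) = c := by
    have : p' n = (c.x, c.y) := if_pos rfl
    rw [this, ← hc]
  have hpm : ∀ m ∈ P, sq m (p' m) = sq m (p m) := by
    intro m hm
    have hne : m ≠ n := by
      intro e
      rw [e] at hm
      exact hn hm
    have : p' m = p m := if_neg hne
    rw [this]
  refine ⟨B0, p', hB0, fun b hb => h2 b (List.mem_cons_of_mem _ hb), h3.2, ?_, ?_, ?_⟩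
  · intro m hm
    rcases Finset.mem_insert.1 hm with rfl | hm
    · rw [hpn]; exact h2 c List.mem_cons_self
    · rw [hpm m hm]; exact h4 m hm
  · intro b hb m hm
    rcases Finset.mem_insert.1 hm with rfl | hm
    · rw [hpn]; exact Geo_sep_symm (h3.1 b hb)
    · rw [hpm m hm]; exact h5 b (List.mem_cons_of_mem _ hb) m hm
  · intro m hm l hl hml
    rcases Finset.mem_insert.1 hm with h7 | h7
    · rcases Finset.mem_insert.1 hl with h8 | h8
      · exact absurd (h7.trans h8.symm) hml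
      · rw [h7, hpn, hpm l h8]
        exact h5 c List.mem_cons_self l h8
    · rcases Finset.mem_insert.1 hl with h8 | h8
      · rw [h8, hpn, hpm m h7]
        exact Geo_sep_symm (h5 c List.mem_cons_self m h7)
      · rw [hpm m h7, hpm l h8]
        exact h6 m h7 l h8 hml

theorem Tiled.pack {W H : ℝ} {F : List (ℝ × ℝ)} {P : Finset ℕ} (h : Tiled W H F P) :
    ∃ p : ℕ → ℝ × ℝ, (∀ n ∈ P, (sq n (p n)).Inside W H) ∧
      (∀ m ∈ P, ∀ n ∈ P, m ≠ n → (sq m (p m)).Sep (sq n (p n))) := by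
  obtain ⟨B, p, hf, h2, h3, h4, h5, h6⟩ := h
  exact ⟨p, h4, h6⟩

end Pool.Agent.LibMoser5
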