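import Pool.Agent.LibMoser5.AnMJ
import Pool.Agent.LibMoser5.AnSmall
import Pool.Agent.LibMoser5.AnLog
import Pool.Agent.LibMoser5.FrameR
import Pool.Agent.LibMoser5.AnArea
import Pool.Agent.LibMoser5.AnS4
import Pool.Agent.LibMoser5.AnE
import Pool.Agent.LibMoser5.AnRow
import Pool.Agent.LibMoser5.AnFat
set_option autoImplicit false
namespace Pool.Agent.LibMoser5
open Classical

/-- all the asymptotic facts, for fixed `C`, `k0`, `c0` -/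
structure Good (C : ℝ) (k0 c0 : ℕ) : Prop where
  C2 : 2 ≤ C
  k60 : 60 ≤ k0
  w1 : ∀ k ≥ k0, (k + 1) ^ 3 + 1 ≤ AA c0 k
  w3 : ∀ k ≥ k0, (AA c0 (k + 1) : ℝ) - AA c0 k ≤ 3001 / 1000 * (k : ℝ) ^ 2
  w4 : ∀ k ≥ k0, (AA c0 (k + 1) : ℝ) ≤ 1001 / 1000 * (k : ℝ) ^ 3
  th1 : ∀ k ≥ k0, 1 / (k : ℝ) ^ 3 - 1 / TT c0 k ≤ th k
  th2 : ∀ k ≥ k0, th k ≤ 1 / ((k : ℝ) + 1) ^ 3
  mJ_sum : ∀ j ≥ k0, ∀ d < 100, ∀ K : ℕ,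
    ∑ i ∈ Finset.Ico k0 K, mJ c0 i j d ≤ 88 / 100 * (3 / (100 * (j : ℝ)))
  small : ∀ k ≥ k0, ∀ j ≥ k0, ∀ c < 100, ∀ d < 100, Reach c0 k c j d →
      (j : ℝ) ^ (5 / 4 : ℝ) * (2 * (wid j d * (TT c0 k) ^ 2 + 1) / tm c0 k) ≤ 1 / 100
  logs : ∀ j ≥ k0,
    Real.log (100 * (j : ℝ) ^ 2) / (j : ℝ) ^ (5 / 4 : ℝ) ≤ 112 / 10000 * (3 / (100 * (j : ℝ)))
  fratio : ∀ f : ℕ, (AA c0 (KK k0 (f + 2)) : ℝ) ≤ 111 / 100 * (KK k0 f : ℝ) ^ 3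
  flen : ∀ f : ℕ,
    4 / 100 * (AA c0 (KK k0 (f + 1)) : ℝ) ≤ (AA c0 (KK k0 (f + 1)) : ℝ) - AA c0 (KK k0 f)
  area : ∀ f k : ℕ, KK k0 f ≤ k → k ≤ KK k0 (f + 1) →
    999 / 1000 * (1 / (k : ℝ) ^ 3) ≤ 1 / ((AA c0 k : ℝ) + 1 / 2) -
      ((((AA c0 (KK k0 (f + 1)) : ℝ) - AA c0 k) / 1000 + 1) / (AA c0 k : ℝ) ^ 2)
  s4 : ∀ k ≥ k0, ∀ Jm : ℕ,
    ∑ j ∈ Finset.Ico k Jm, (273 / 100) / (j : ℝ) ^ 4 ≤ 912 / 1000 * (1 / (k : ℝ) ^ 3)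
  srcs : ∀ k : ℕ, ∑ i ∈ Finset.Ico k0 k, src i ≤ 1 / 100000
  eJ_sum : ∀ j ≥ k0, ∀ d < 100, ∀ f : ℕ,
    ∑ g ∈ Finset.range f, eJ k0 c0 g j d ≤ 1 / 100 * (3 / (100 * (j : ℝ)))
  srow : ∀ k ≥ k0, ∀ r : ℝ × ℝ, inBlock k r.1 → 0 ≤ r.2 → cb c0 k (rowJob (tm c0 k) r) ≤ om r
  erow : ∀ t τ : ℝ, (k0 : ℝ) ≤ t → 0 ≤ τ → τ ≤ 11 / 100 / t → om (τ, 1 / t) ≤ 1 / 2 * (1 / t)
  fat : ∀ k ≥ k0, ∀ h : ℝ, 0 < h →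
    8 / 100 * (1 / (k : ℝ) ^ 3) ≤ C * h ^ 2 → h ^ 2 ≤ 1 / (k : ℝ) ^ 3 →
    1 ≤ ⌊h * tm c0 k⌋₊ ∧
    (3001 / 1000 * (k : ℝ) ^ 2 / ⌊h * tm c0 k⌋₊ + 100) / (k : ℝ) ^ 3 ≤ h / 2 ∧
    (3001 / 1000 * (k : ℝ) ^ 2 / ⌊h * tm c0 k⌋₊ + 100) * (2 / (k : ℝ) ^ 3 + 4 * h / k) + 100 * h +
      3001 / 1000 * (k : ℝ) ^ 2 * (2 * th k + (th k) ^ (1 / 8 : ℝ) / tm c0 k) ≤ src k

theorem good_exists (C : ℝ) (hC : 2 ≤ C) : ∃ k1 : ℕ, ∀ k0 ≥ k1, ∀ c0 : ℕ, c0 ≤ 4 * k0 ^ 2 →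
    Good C k0 c0 := by
  obtain ⟨a1, h1⟩ := an_w1
  obtain ⟨a2, h2⟩ := an_w3
  obtain ⟨a3, h3⟩ := an_w4
  obtain ⟨a4, h4⟩ := an_th1
  obtain ⟨a5, h5⟩ := an_th2
  obtain ⟨a6, h6⟩ := an_mJ_sum
  obtain ⟨a7, h7⟩ := an_small
  obtain ⟨a8, h8⟩ := an_log
  obtain ⟨a9, h9⟩ := an_frame_ratio
  obtain ⟨a10, h10⟩ := an_frame_len
  obtain ⟨a11, h11⟩ := an_area
  obtain ⟨a12, h12⟩ := an_s4
  obtain ⟨a13, h13⟩ := an_src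
  obtain ⟨a14, h14⟩ := an_eJ_sum
  obtain ⟨a15, h15⟩ := an_srow
  obtain ⟨a16, h16⟩ := an_erow
  obtain ⟨a17, h17⟩ := an_fat C hC
  refine ⟨60 + a1 + a2 + a3 + a4 + a5 + a6 + a7 + a8 + a9 + a10 + a11 + a12 + a13 + a14 + a15 +
    a16 + a17, ?_⟩
  intro k0 hk0 c0 hc0
  have hc : ∀ k ≥ k0, c0 ≤ 4 * k ^ 2 := fun k hk =>
    hc0.trans (Nat.mul_le_mul_left 4 (Nat.pow_le_pow_left hk 2))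
  refine ⟨hC, by omega, fun k hk => h1 k (by omega) c0, fun k hk => h2 k (by omega) c0,
    fun k hk => h3 k (by omega) c0 (hc k hk), fun k hk => h4 k (by omega) c0 (hc k hk),
    fun k hk => h5 k (by omega), h6 k0 (by omega) c0 hc0, ?_, fun j hj => h8 j (by omega),
    h9 k0 (by omega) c0 hc0, h10 k0 (by omega) c0 hc0, h11 k0 (by omega) c0 hc0,
    fun k hk => h12 k (by omega), h13 k0 (by omega), h14 k0 (by omega) c0 hc0,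
    fun k hk => h15 k (by omega) c0 (hc k hk), ?_, fun k hk => h17 k (by omega) c0 (hc k hk)⟩
  · intro k hk j hj
    exact h7 k (by omega) c0 (hc k hk) j (by omega)
  · intro t τ ht
    refine h16 t τ (le_trans ?_ ht)
    exact_mod_cast (by omega : a16 ≤ k0)

end Pool.Agent.LibMoser5
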