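import Pool.Agent.LibMoser5.Cells
set_option autoImplicit false
namespace Pool.Agent.LibMoser5
open Classical

private theorem jb_sum_range (f : ℕ → ℕ) (n : ℕ) :
    ((List.range n).map f).sum = ∑ i ∈ Finset.range n, f i := by
  induction n with
  | zero => simp
  | succ n ih => rw [List.range_succ, Finset.sum_range_succ, List.map_append, List.sum_append, ih]; simp

private theorem jb_flat {α β : Type*} (l : List α) (f : α → List β) (p : β → Bool) (g : β → ℕ) :
    (((l.flatMap f).filter p).map g).sum = (l.map (fun c => (((f c).filter p).map g).sum)).sum := by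
  induction l with
  | nil => simp
  | cons a l ih =>
    rw [List.flatMap_cons, List.filter_append, List.map_append, List.sum_append, ih,
      List.map_cons, List.sum_cons]

/-- the strips of cell `c` -/
private noncomputable def jbStrip (k : ℕ) (Hf : ℝ) (sF : ℕ) (D : ℕ → ℕ) (c : ℕ) : List Job :=
  List.replicate (D c / sF) ⟨1 / edge k c, Hf, sF⟩ ++ [⟨1 / edge k c, Hf, D c % sF⟩]

private theorem jb_mem {k : ℕ} {Hf : ℝ} {sF : ℕ} (hs1 : 1 ≤ sF) {D : ℕ → ℕ} {c : ℕ} {j : Job}
    (hj : j ∈ jbStrip k Hf sF D c) : j.len = Hf ∧ j.s ≤ sF ∧ j.τ = 1 / edge k c := by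
  unfold jbStrip at hj
  rcases List.mem_append.1 hj with h | h
  · rw [List.eq_of_mem_replicate h]
    exact ⟨rfl, le_refl _, rfl⟩
  · rw [List.mem_singleton.1 h]
    exact ⟨rfl, (Nat.mod_lt _ (by omega)).le, rfl⟩

private theorem jb_sum {k : ℕ} {Hf : ℝ} {sF : ℕ} {D : ℕ → ℕ} {c : ℕ} :
    ((jbStrip k Hf sF D c).map Job.s).sum = D c := by
  unfold jbStrip
  rw [List.map_append, List.sum_append, List.map_replicate, List.sum_replicate]
  simp only [List.map_cons, List.map_nil, List.sum_cons, List.sum_nil, smul_eq_mul, add_zero]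
  have := Nat.div_add_mod (D c) sF
  rw [Nat.mul_comm] at this
  exact this

/-- Construction of the job list of step `k`.
`R` are the S-rows in block `k`; cell `c` must get exactly `Q c` labels.  For every cell `c < 100` take the jobs
`rowJob t r`, `r ∈ R` in cell `c`, and, with `D = Q c - ∑ ⌊r.2 t⌋`, the `D / sF` full strips `⟨1/edge k c, Hf, sF⟩`
and one partial strip `⟨1/edge k c, Hf, D % sF⟩` (leave it out if `D % sF = 0`, or keep it, both are fine).
`strips` is the list of all strips, `js` is the list of all jobs sorted by `τ` (`List.mergeSort` or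
`List.insertionSort`). -/
theorem jobs_exist (k : ℕ) (hk : 1 ≤ k) (R : List (ℝ × ℝ)) (hR : ∀ r ∈ R, inBlock k r.1)
    (t Hf : ℝ) (sF : ℕ) (hs1 : 1 ≤ sF) (Q : ℕ → ℕ)
    (hQ : ∀ c < 100, ((R.filter (fun r => decide (inCell k c r.1))).map
      (fun r => ⌊r.2 * t⌋₊)).sum ≤ Q c) :
    ∃ js strips : List Job, js.Perm (R.map (rowJob t) ++ strips) ∧
      js.Pairwise (fun a b => a.τ ≤ b.τ) ∧
      (∀ j ∈ strips, j.len = Hf ∧ j.s ≤ sF ∧ ∃ c < 100, j.τ = 1 / edge k c) ∧
      strips.length ≤ (∑ c ∈ Finset.range 100, Q c) / sF + 100 ∧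
      (strips.filter (fun j => decide (j.s ≠ sF))).length ≤ 100 ∧
      ∀ c < 100, ((js.filter (fun j => decide (inCell k c j.τ))).map Job.s).sum = Q c := by
  set D : ℕ → ℕ := fun c => Q c - ((R.filter (fun r => decide (inCell k c r.1))).map
      (fun r => ⌊r.2 * t⌋₊)).sum with hD
  set strips : List Job := (List.range 100).flatMap (jbStrip k Hf sF D) with hst
  set J0 : List Job := R.map (rowJob t) ++ strips with hJ0
  refine ⟨J0.mergeSort (fun a b => decide (a.τ ≤ b.τ)), strips, List.mergeSort_perm _ _, ?_, ?_, ?_,
    ?_, ?_⟩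
  · have h := List.pairwise_mergeSort (le := fun a b : Job => decide (a.τ ≤ b.τ))
      (fun a b c h1 h2 => by
        simp only [decide_eq_true_eq] at h1 h2 ⊢
        exact h1.trans h2)
      (fun a b => by
        simp only [Bool.or_eq_true, decide_eq_true_eq]
        exact le_total _ _) J0
    simpa using h
  · intro j hj
    obtain ⟨c, hc, hjc⟩ := List.mem_flatMap.1 hj
    have h := jb_mem hs1 hjc
    exact ⟨h.1, h.2.1, c, List.mem_range.1 hc, h.2.2⟩
  · rw [hst, List.length_flatMap]
    have e : (List.range 100).map (fun c => (jbStrip k Hf sF D c).length) =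
        (List.range 100).map (fun c => D c / sF + 1) := by
      apply List.map_congr_left
      intro c _
      simp [jbStrip]
    rw [e, jb_sum_range, Finset.sum_add_distrib, Finset.sum_const, Finset.card_range]
    have h : ∑ c ∈ Finset.range 100, D c / sF ≤ (∑ c ∈ Finset.range 100, Q c) / sF := by
      rw [Nat.le_div_iff_mul_le (by omega), Finset.sum_mul]
      refine Finset.sum_le_sum fun c _ => ?_
      exact (Nat.div_mul_le_self _ _).trans (Nat.sub_le _ _)
    simp only [smul_eq_mul, mul_one]
    omega
  · have e : ∀ l : List Job, l.length = (l.map (fun _ => 1)).sum := by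
      intro l; simp
    rw [e, hst, jb_flat]
    have h : ∀ c, (((jbStrip k Hf sF D c).filter (fun j => decide (j.s ≠ sF))).map
        (fun _ => 1)).sum ≤ 1 := by
      intro c
      rw [← e]
      unfold jbStrip
      rw [List.filter_append, List.length_append]
      have h1 : (List.replicate (D c / sF) (⟨1 / edge k c, Hf, sF⟩ : Job)).filter
          (fun j => decide (j.s ≠ sF)) = [] := by
        rw [List.filter_eq_nil_iff]
        intro a ha
        rw [List.eq_of_mem_replicate ha]
        simp
      rw [h1]
      simpa using List.length_filter_le (fun j : Job => decide (j.s ≠ sF))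
        [(⟨1 / edge k c, Hf, D c % sF⟩ : Job)]
    rw [jb_sum_range]
    calc _ ≤ ∑ c ∈ Finset.range 100, 1 := Finset.sum_le_sum fun c _ => h c
      _ = 100 := by simp
  · intro c hc
    have hp : (J0.mergeSort (fun a b => decide (a.τ ≤ b.τ))).Perm J0 := List.mergeSort_perm _ _
    rw [((hp.filter (fun j => decide (inCell k c j.τ))).map Job.s).sum_eq, hJ0, List.filter_append,
      List.map_append, List.sum_append]
    have h1 : (((R.map (rowJob t)).filter (fun j => decide (inCell k c j.τ))).map Job.s).sum =
        ((R.filter (fun r => decide (inCell k c r.1))).map (fun r => ⌊r.2 * t⌋₊)).sum := by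
      rw [List.filter_map, List.map_map]
      rfl
    have h2 : ((strips.filter (fun j => decide (inCell k c j.τ))).map Job.s).sum = D c := by
      rw [hst, jb_flat, jb_sum_range]
      rw [Finset.sum_eq_single c]
      · have h3 : (jbStrip k Hf sF D c).filter (fun j => decide (inCell k c j.τ)) =
            jbStrip k Hf sF D c := by
          rw [List.filter_eq_self]
          intro j hj
          rw [(jb_mem hs1 hj).2.2]
          exact decide_eq_true (edge_inCell hk)
        rw [h3, jb_sum]
      · intro c' _ hne
        have h3 : (jbStrip k Hf sF D c').filter (fun j => decide (inCell k c j.τ)) = [] := by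
          rw [List.filter_eq_nil_iff]
          intro j hj
          rw [(jb_mem hs1 hj).2.2]
          intro h
          exact hne (cell_unique hk (edge_inCell hk) (of_decide_eq_true h))
        rw [h3]
        simp
      · intro h
        exact absurd (Finset.mem_range.2 hc) h
    rw [h1, h2]
    exact Nat.add_sub_cancel' (hQ c hc)

end Pool.Agent.LibMoser5
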