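import Pool.Agent.LibMoser5.Step
import Pool.Agent.LibMoser5.AnStart
import Pool.Agent.LibMoser5.Compact
set_option autoImplicit false
namespace Pool.Agent.LibMoser5
open Classical

theorem inv_init {C W H : ℝ} {k0 c0 Jm : ℕ} (g : Good C k0 c0) (hW : 0 < W) (hWH1 : W ≤ H)
    (hWH2 : H ≤ C * W) : Inv C W H k0 c0 Jm 0 k0 ⟨W, H, [], [], [], ∅⟩ where
  hkl := le_refl _
  hku := KK_mono k0 (by omega : 0 ≤ 0 + 1)
  tiled := by simpa using tiled_init hW.le (hW.le.trans hWH1)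
  Hpos := hW
  HV := hWH1
  VH := hWH2
  Srow := by simp
  Erow := by simp
  Plo := fun n h1 h2 => absurd h2 (by omega)
  Phi := by simp
  sumb := by simp
  area := by simp
  massE := by
    intro j d _ _
    simp [mass, massI]
  potl := pot_init k0 c0 Jm (by have := g.k60; omega)
  psi := by simp [Psi]

theorem frame_steps {C W H : ℝ} {k0 c0 Jm f : ℕ} (g : Good C k0 c0)
    (hWH : W * H = ∑' n : ℕ, sd (AA c0 k0 + n) ^ 2)
    (hJm : 10 * AA c0 (KK k0 (f + 1)) ≤ Jm) (h : ∃ s, Inv C W H k0 c0 Jm f (KK k0 f) s) (k : ℕ)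
    (hk1 : KK k0 f ≤ k) (hk2 : k ≤ KK k0 (f + 1)) : ∃ s, Inv C W H k0 c0 Jm f k s := by
  induction k, hk1 using Nat.le_induction with
  | base => exact h
  | succ k hk ih =>
    obtain ⟨s, hs⟩ := ih (by omega)
    exact s_step g hWH hs (by omega) hJm

theorem inv_frames {C W H : ℝ} {k0 c0 F : ℕ} (g : Good C k0 c0) (hW : 0 < W) (hWH1 : W ≤ H)
    (hWH2 : H ≤ C * W) (hWH : W * H = ∑' n : ℕ, sd (AA c0 k0 + n) ^ 2) (f : ℕ) (hf : f ≤ F) :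
    ∃ s, Inv C W H k0 c0 (10 * AA c0 (KK k0 F)) f (KK k0 f) s := by
  induction f with
  | zero => exact ⟨_, inv_init g hW hWH1 hWH2⟩
  | succ f ih =>
    have h1 := ih (by omega)
    obtain ⟨s, hs⟩ := frame_steps g hWH
      (Nat.mul_le_mul_left 10 (AA_mono (KK_mono k0 hf))) h1 (KK k0 (f + 1))
      (KK_mono k0 (by omega)) le_rfl
    exact e_step g hs

theorem pack_scaled (C : ℝ) (hC : 2 ≤ C) : ∃ N0 : ℕ, ∀ N ≥ N0, ∀ W H : ℝ, 0 < W → W ≤ H → H ≤ C * W →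
    W * H = ∑' n : ℕ, sd (N + n) ^ 2 →
    ∃ p : ℕ → ℝ × ℝ, (∀ n, N ≤ n → (sq n (p n)).Inside W H) ∧
      (∀ m n, N ≤ m → N ≤ n → m ≠ n → (sq m (p m)).Sep (sq n (p n))) := by
  obtain ⟨k1, hk1⟩ := good_exists C hC
  obtain ⟨N0, hN0⟩ := an_start k1
  refine ⟨N0, fun N hN W H hW hWH1 hWH2 hWH => ?_⟩
  obtain ⟨k0, c0, hk0, hc0, rfl⟩ := hN0 N hN
  have g := hk1 k0 hk0 c0 hc0
  refine compact_pack W H hW.le (hW.le.trans hWH1) _ fun M => ?_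
  obtain ⟨F, hF⟩ := KK_unbounded g.k60 M
  obtain ⟨s, hs⟩ := inv_frames (F := F) g hW hWH1 hWH2 hWH F le_rfl
  obtain ⟨p, hp1, hp2⟩ := hs.tiled.pack
  have hM : M ≤ AA c0 (KK k0 F) := by
    refine hF.trans ?_
    have h1 : KK k0 F ≤ KK k0 F ^ 3 := Nat.le_self_pow (by norm_num) _
    unfold AA
    omega
  have hmem : ∀ n, AA c0 k0 ≤ n → n < M → n ∈ s.P := fun n h1 h2 => hs.Plo n h1 (by omega)
  exact ⟨p, fun n h1 h2 => hp1 n (hmem n h1 h2), fun m n h1 h2 h3 h4 h5 =>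
    hp2 m (hmem m h1 h2) n (hmem n h3 h4) h5⟩

/-- the closed square of side `1/(2n+1)` with lower left corner `p` -/
def Q (n : ℕ) (p : ℝ × ℝ) : Set (ℝ × ℝ) :=
  Set.Icc p.1 (p.1 + 1 / (2 * (n : ℝ) + 1)) ×ˢ Set.Icc p.2 (p.2 + 1 / (2 * (n : ℝ) + 1))

theorem main (C : ℝ) : ∃ N0 : ℕ, ∀ N ≥ N0, ∀ W H : ℝ, 0 < W → W ≤ H → H ≤ C * W →
    W * H = ∑' n : ℕ, (1 / (2 * ((N + n : ℕ) : ℝ) + 1)) ^ 2 →
    ∃ p : ℕ → ℝ × ℝ, (∀ n ≥ N, Q n (p n) ⊆ Set.Icc 0 W ×ˢ Set.Icc 0 H) ∧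
      ∀ m ≥ N, ∀ n ≥ N, m ≠ n → Disjoint (interior (Q m (p m))) (interior (Q n (p n))) := by
  obtain ⟨N0, hN0⟩ := pack_scaled (max 2 C) (le_max_left _ _)
  refine ⟨N0, fun N hN W H hW hWH1 hWH2 hWH => ?_⟩
  have hsd : ∀ n : ℕ, sd n = 2 * (1 / (2 * (n : ℝ) + 1)) := by
    intro n
    have : (0 : ℝ) < 2 * (n : ℝ) + 1 := by positivity
    unfold sd
    field_simp
  obtain ⟨p, hp1, hp2⟩ := hN0 N hN (2 * W) (2 * H) (by linarith) (by linarith)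
    (by
      have : C * W ≤ max 2 C * W := mul_le_mul_of_nonneg_right (le_max_right _ _) hW.le
      linarith)
    (by
      have : ∀ n : ℕ, sd (N + n) ^ 2 = 4 * (1 / (2 * ((N + n : ℕ) : ℝ) + 1)) ^ 2 := by
        intro n
        rw [hsd]
        ring
      simp_rw [this]
      rw [tsum_mul_left, ← hWH]
      ring)
  refine ⟨fun n => ((p n).1 / 2, (p n).2 / 2), fun n hn => ?_, fun m hm n hn hmn => ?_⟩
  · have h := hp1 n hn
    obtain ⟨_, _, h3, h4, h5, h6⟩ := h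
    simp only [sq, hsd] at h3 h4 h5 h6
    intro x hx
    simp only [Q, Set.mem_prod, Set.mem_Icc] at hx ⊢
    refine ⟨⟨?_, ?_⟩, ?_, ?_⟩ <;> linarith [hx.1.1, hx.1.2, hx.2.1, hx.2.2]
  · have h := hp2 m n hm hn hmn
    simp only [Q, interior_prod_eq, interior_Icc]
    rw [Set.disjoint_left]
    rintro x ⟨⟨hx1, hx2⟩, hx3, hx4⟩ ⟨⟨hy1, hy2⟩, hy3, hy4⟩
    simp only [Box.Sep, sq, hsd] at h
    rcases h with h | h | h | h <;> linarith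

end Pool.Agent.LibMoser5
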