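import Pool.Agent.LibMoser5.Defs
set_option autoImplicit false
namespace Pool.Agent.LibMoser5
open Classical

/-- the potential bounds the masses -/
theorem mass_of_pot (k0 c0 Jm k : ℕ) (hk0 : 1 ≤ k0) (L : List (ℝ × ℝ)) (h : pot k0 c0 Jm k L ≤ 1)
    (j d : ℕ) (hj : k0 ≤ j) (hj2 : j < Jm) (hd : d < 100) :
    mass L j d ≤ 101 / 100 * ∑ i ∈ Finset.Ico k0 k, mJ c0 i j d +
      Real.log (100 * (j : ℝ) ^ 2) / (j : ℝ) ^ (5 / 4 : ℝ) := by
  have hj0 : (0 : ℝ) < j := by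
    have : 0 < j := by omega
    exact_mod_cast this
  have hjp : (0 : ℝ) < (j : ℝ) ^ (5 / 4 : ℝ) := Real.rpow_pos_of_pos hj0 _
  set S := 101 / 100 * ∑ i ∈ Finset.Ico k0 k, mJ c0 i j d with hS
  have hnn : ∀ (j' d' : ℕ), 0 ≤ (1 / (100 * (j' : ℝ) ^ 2)) *
      Real.exp ((j' : ℝ) ^ (5 / 4 : ℝ) *
        (mass L j' d' - 101 / 100 * ∑ i ∈ Finset.Ico k0 k, mJ c0 i j' d')) := by
    intro j' d'
    positivity
  have h1 : (1 / (100 * (j : ℝ) ^ 2)) * Real.exp ((j : ℝ) ^ (5 / 4 : ℝ) * (mass L j d - S)) ≤ 1 := by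
    refine le_trans ?_ h
    unfold pot
    refine le_trans ?_ (Finset.single_le_sum (f := fun j : ℕ => ∑ d ∈ Finset.range 100,
      (1 / (100 * (j : ℝ) ^ 2)) * Real.exp ((j : ℝ) ^ (5 / 4 : ℝ) *
        (mass L j d - 101 / 100 * ∑ i ∈ Finset.Ico k0 k, mJ c0 i j d)))
      (fun j' _ => Finset.sum_nonneg (fun d' _ => hnn j' d')) (Finset.mem_Ico.2 ⟨hj, hj2⟩))
    exact Finset.single_le_sum (f := fun d : ℕ => (1 / (100 * (j : ℝ) ^ 2)) *
      Real.exp ((j : ℝ) ^ (5 / 4 : ℝ) *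
        (mass L j d - 101 / 100 * ∑ i ∈ Finset.Ico k0 k, mJ c0 i j d)))
      (fun d' _ => hnn j d') (Finset.mem_range.2 hd)
  have h2 : Real.exp ((j : ℝ) ^ (5 / 4 : ℝ) * (mass L j d - S)) ≤ 100 * (j : ℝ) ^ 2 := by
    have h3 : (0 : ℝ) < 100 * (j : ℝ) ^ 2 := by positivity
    rw [one_div, inv_mul_le_iff₀ h3, mul_one] at h1
    exact h1
  have h3 : (j : ℝ) ^ (5 / 4 : ℝ) * (mass L j d - S) ≤ Real.log (100 * (j : ℝ) ^ 2) := by
    rw [Real.le_log_iff_exp_le (by positivity)]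
    exact h2
  have h4 : mass L j d - S ≤ Real.log (100 * (j : ℝ) ^ 2) / (j : ℝ) ^ (5 / 4 : ℝ) := by
    rw [le_div_iff₀ hjp, mul_comm]
    exact h3
  linarith

/-- initial potential -/
theorem pot_init (k0 c0 Jm : ℕ) (hk0 : 2 ≤ k0) : pot k0 c0 Jm k0 [] ≤ 1 := by
  have h1 : pot k0 c0 Jm k0 [] = ∑ j ∈ Finset.Ico k0 Jm, 1 / (j : ℝ) ^ 2 := by
    unfold pot
    apply Finset.sum_congr rfl
    intro j hj
    rw [Finset.mem_Ico] at hj
    have hj0 : (j : ℝ) ≠ 0 := by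
      have : j ≠ 0 := by omega
      exact_mod_cast this
    have h2 : ∀ d ∈ Finset.range 100, (1 / (100 * (j : ℝ) ^ 2)) *
        Real.exp ((j : ℝ) ^ (5 / 4 : ℝ) *
        (mass [] j d - 101 / 100 * ∑ i ∈ Finset.Ico k0 k0, mJ c0 i j d)) =
        1 / (100 * (j : ℝ) ^ 2) := by
      intro d _
      have h3 : mass [] j d = 0 := by simp [mass, massI]
      rw [h3, Finset.Ico_self, Finset.sum_empty, mul_zero, sub_zero, mul_zero, Real.exp_zero,
        mul_one]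
    rw [Finset.sum_congr rfl h2, Finset.sum_const, Finset.card_range]
    simp only [nsmul_eq_mul]
    field_simp
    norm_num
  rw [h1]
  have h2 : ∀ n : ℕ, ∑ j ∈ Finset.Ico k0 (k0 + n), 1 / (j : ℝ) ^ 2 ≤
      1 - 1 / ((k0 : ℝ) + n - 1) := by
    intro n
    have hk : (2 : ℝ) ≤ k0 := by exact_mod_cast hk0
    induction n with
    | zero =>
      simp only [add_zero, Finset.Ico_self, Finset.sum_empty, Nat.cast_zero]
      rw [sub_nonneg, div_le_one (by linarith)]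
      linarith
    | succ n ih =>
      rw [← add_assoc, Finset.sum_Ico_succ_top (by omega)]
      have hn : (0 : ℝ) ≤ n := Nat.cast_nonneg n
      have h3 : 1 / (((k0 + n : ℕ) : ℝ)) ^ 2 ≤
          1 / ((k0 : ℝ) + n - 1) - 1 / ((k0 : ℝ) + ((n + 1 : ℕ) : ℝ) - 1) := by
        push_cast
        have h4 : (k0 : ℝ) + (n + 1) - 1 = k0 + n := by ring
        rw [h4]
        have h5 : (0 : ℝ) < (k0 : ℝ) + n - 1 := by linarith
        have h6 : (0 : ℝ) < (k0 : ℝ) + n := by linarith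
        have h7 : 1 / ((k0 : ℝ) + n - 1) - 1 / ((k0 : ℝ) + n) =
            1 / (((k0 : ℝ) + n - 1) * ((k0 : ℝ) + n)) := by
          field_simp
          ring
        rw [h7]
        apply one_div_le_one_div_of_le (by positivity)
        nlinarith
      linarith
  rcases le_total k0 Jm with hle | hle
  · obtain ⟨n, rfl⟩ := Nat.exists_eq_add_of_le hle
    refine le_trans (h2 n) ?_
    have hk : (2 : ℝ) ≤ k0 := by exact_mod_cast hk0
    have hn : (0 : ℝ) ≤ n := Nat.cast_nonneg n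
    have : 0 ≤ 1 / ((k0 : ℝ) + n - 1) := by
      apply div_nonneg zero_le_one
      linarith
    linarith
  · rw [Finset.Ico_eq_empty_of_le hle, Finset.sum_empty]
    exact zero_le_one

end Pool.Agent.LibMoser5
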