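import Pool.Agent.LibMoser5.Good
import Pool.Agent.LibMoser5.PotB
import Pool.Agent.LibMoser5.CellsM
set_option autoImplicit false
namespace Pool.Agent.LibMoser5
open Classical

/-- mass of the pending rows: `mass_of_pot`, `Good.mJ_sum`, `Good.logs`, `Inv.massE`, `Good.eJ_sum`:
`(1.01·0.88 + 0.0112 + 0.01)·3 = 2.7300` -/
theorem mass_le {C W H : ℝ} {k0 c0 Jm f k : ℕ} {s : St} (g : Good C k0 c0)
    (hI : Inv C W H k0 c0 Jm f k s) {j d : ℕ} (hj : k0 ≤ j) (hj2 : j < Jm) (hd : d < 100) :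
    mass (s.SL ++ s.SE) j d ≤ 273 / 100 / (100 * (j : ℝ)) := by
  have hk0 : 1 ≤ k0 := le_trans (by norm_num) g.k60
  have h1 := mass_of_pot k0 c0 Jm k hk0 s.SL hI.potl j d hj hj2 hd
  have h2 := g.mJ_sum j hj d hd k
  have h3 := g.logs j hj
  have h4 := hI.massE j d hj hd
  have h5 := g.eJ_sum j hj d hd f
  rw [mass_append]
  have h6 : (273 / 100 / (100 * (j : ℝ)) : ℝ) = 91 / 100 * (3 / (100 * (j : ℝ))) := by ring
  rw [h6]
  linarith

end Pool.Agent.LibMoser5
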