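import Pool.Agent.LibMoser5.CellsM
set_option autoImplicit false
namespace Pool.Agent.LibMoser5
open Classical

/-- the potential is monotone in the rows -/
theorem pot_filter {k0 c0 Jm k : ℕ} (SL : List (ℝ × ℝ)) (hSL : ∀ r ∈ SL, 0 ≤ r.2)
    (p : ℝ × ℝ → Bool) (hpot : pot k0 c0 Jm k SL ≤ 1) : pot k0 c0 Jm k (SL.filter p) ≤ 1 := by
  refine le_trans ?_ hpot
  unfold pot
  apply Finset.sum_le_sum
  intro j _
  apply Finset.sum_le_sum
  intro d _
  apply mul_le_mul_of_nonneg_left _ (by positivity)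
  apply Real.exp_le_exp.2
  apply mul_le_mul_of_nonneg_left _ (by positivity)
  have := mass_filter_le SL p hSL j d
  linarith

end Pool.Agent.LibMoser5
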