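import Pool.Agent.LibMoser5.Cells
set_option autoImplicit false
namespace Pool.Agent.LibMoser5
open Classical

/-- the quotas: `N` split into 100 nearly equal parts -/
def quota (N c : ℕ) : ℕ := (c + 1) * N / 100 - c * N / 100

theorem quota_sum (N : ℕ) : ∑ c ∈ Finset.range 100, quota N c = N := by
  have hmono : Monotone (fun c : ℕ => c * N / 100) := fun a b h =>
    Nat.div_le_div_right (Nat.mul_le_mul_right N h)
  have h := Finset.sum_range_tsub hmono 100
  unfold quota
  rw [h]
  simp

theorem quota_le (N c : ℕ) : (quota N c : ℝ) ≤ (N : ℝ) / 100 + 1 := by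
  have h : 100 * quota N c ≤ N + 100 := by
    unfold quota
    have e : (c + 1) * N = c * N + N := by ring
    rw [e]
    omega
  have h' : (100 : ℝ) * quota N c ≤ N + 100 := by exact_mod_cast h
  linarith

theorem quota_ge (N c : ℕ) : (N : ℝ) / 100 - 1 ≤ (quota N c : ℝ) := by
  have h : N ≤ 100 * quota N c + 100 := by
    unfold quota
    have e : (c + 1) * N = c * N + N := by ring
    rw [e]
    omega
  have h' : (N : ℝ) ≤ 100 * quota N c + 100 := by exact_mod_cast h
  linarith

theorem Quota_aux (k : ℕ) (hk : 1 ≤ k) (S : Finset ℕ) (js : List Job)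
    (hjs : ∀ j ∈ js, ∃ c ∈ S, inCell k c j.τ) :
    ∑ c ∈ S, ((js.filter (fun j => decide (inCell k c j.τ))).map Job.s).sum =
      (js.map Job.s).sum := by
  induction js with
  | nil => simp
  | cons j js ih =>
    have h1 := ih fun i hi => hjs i (List.mem_cons_of_mem _ hi)
    have h2 : ∀ c, (((j :: js).filter (fun j => decide (inCell k c j.τ))).map Job.s).sum =
        (if inCell k c j.τ then j.s else 0) +
          ((js.filter (fun j => decide (inCell k c j.τ))).map Job.s).sum := by
      intro c
      by_cases h : inCell k c j.τ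
      · rw [List.filter_cons_of_pos (by simpa using h), if_pos h, List.map_cons, List.sum_cons]
      · rw [List.filter_cons_of_neg (by simpa using h), if_neg h, zero_add]
    rw [Finset.sum_congr rfl fun c _ => h2 c, Finset.sum_add_distrib, h1, List.map_cons,
      List.sum_cons]
    congr 1
    obtain ⟨c, hc, hcell⟩ := hjs j List.mem_cons_self
    rw [Finset.sum_eq_single c, if_pos hcell]
    · intro b _ hb
      rw [if_neg]
      intro h
      exact hb (cell_unique hk h hcell)
    · intro h
      exact absurd hc h

/-- the total number of labels -/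
theorem jobs_total (k : ℕ) (hk : 1 ≤ k) (js : List Job) (hjs : ∀ j ∈ js, inBlock k j.τ) (Q : ℕ → ℕ)
    (h : ∀ c < 100, ((js.filter (fun j => decide (inCell k c j.τ))).map Job.s).sum = Q c) :
    (js.map Job.s).sum = ∑ c ∈ Finset.range 100, Q c := by
  rw [← Quota_aux k hk (Finset.range 100) js (fun j hj => by
    obtain ⟨c, hc, h⟩ := cell_exists hk (hjs j hj)
    exact ⟨c, Finset.mem_range.2 hc, h⟩)]
  exact Finset.sum_congr rfl fun c hc => h c (Finset.mem_range.1 hc)

end Pool.Agent.LibMoser5
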