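import Pool.Agent.LibMoser5.Good
import Pool.Agent.LibMoser5.AnWin
import Pool.Agent.LibMoser5.Mult
set_option autoImplicit false
namespace Pool.Agent.LibMoser5
open Classical

/-- the unplaced indices of the window of block `k` -/
noncomputable def unpl (c0 k : ℕ) (P : Finset ℕ) : List ℕ :=
  ((Finset.Ico (AA c0 k) (AA c0 (k + 1))) \ P).sort (· ≤ ·)

theorem mem_unpl {c0 k : ℕ} {P : Finset ℕ} {n : ℕ} :
    n ∈ unpl c0 k P ↔ (AA c0 k ≤ n ∧ n < AA c0 (k + 1)) ∧ n ∉ P := by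
  unfold unpl
  rw [Finset.mem_sort, Finset.mem_sdiff, Finset.mem_Ico]

theorem unpl_sorted (c0 k : ℕ) (P : Finset ℕ) : (unpl c0 k P).Pairwise (fun m n => m < n) := by
  unfold unpl
  exact (Finset.sortedLT_sort _).pairwise

theorem Unpl_length (c0 k : ℕ) (P : Finset ℕ) :
    (unpl c0 k P).length = ((Finset.Ico (AA c0 k) (AA c0 (k + 1))) \ P).card := by
  unfold unpl
  rw [Finset.length_sort]

theorem Unpl_le_KK (k0 f : ℕ) : k0 ≤ KK k0 f := by
  induction f with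
  | zero => exact le_rfl
  | succ f ih => exact ih.trans (Nat.le_add_right _ _)

/-- `P` meets the window only in multiples of 1000 (`Inv.Phi`), `count_mult`, `an_w2` -/
theorem unpl_ge {C W H : ℝ} {k0 c0 Jm f k : ℕ} {s : St} (g : Good C k0 c0)
    (hI : Inv C W H k0 c0 Jm f k s) :
    2996 / 1000 * (k : ℝ) ^ 2 ≤ (unpl c0 k s.P).length := by
  have hk : k0 ≤ k := (Unpl_le_KK k0 f).trans hI.hkl
  have hk60 : (60 : ℝ) ≤ k := by exact_mod_cast g.k60.trans hk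
  have hmono : AA c0 k ≤ AA c0 (k + 1) := by
    have h := an_w2 k c0
    have h' : (AA c0 k : ℝ) ≤ (AA c0 (k + 1) : ℝ) := by nlinarith
    exact_mod_cast h'
  have h1 := count_mult (AA c0 k) (AA c0 (k + 1)) hmono
  have h2 := an_w2 k c0
  rw [Unpl_length]
  have h3 : (Finset.Ico (AA c0 k) (AA c0 (k + 1))).card ≤
      ((Finset.Ico (AA c0 k) (AA c0 (k + 1))) \ s.P).card +
        ((Finset.Ico (AA c0 k) (AA c0 (k + 1))).filter (fun n => 1000 ∣ n)).card := by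
    rw [← Finset.card_sdiff_add_card_inter (Finset.Ico (AA c0 k) (AA c0 (k + 1))) s.P]
    apply Nat.add_le_add_left
    apply Finset.card_le_card
    intro n hn
    rw [Finset.mem_inter, Finset.mem_Ico] at hn
    obtain ⟨⟨ha, hb⟩, hP⟩ := hn
    rw [Finset.mem_filter, Finset.mem_Ico]
    refine ⟨⟨ha, hb⟩, ?_⟩
    rcases (hI.Phi n hP).2 with h | h
    · omega
    · exact h.2
  rw [Nat.card_Ico] at h3
  have h4 : ((AA c0 (k + 1) - AA c0 k : ℕ) : ℝ) = (AA c0 (k + 1) : ℝ) - AA c0 k :=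
    Nat.cast_sub hmono
  have h5 : ((AA c0 (k + 1) - AA c0 k : ℕ) : ℝ) ≤
      ((((Finset.Ico (AA c0 k) (AA c0 (k + 1))) \ s.P).card : ℕ) : ℝ) +
        ((((Finset.Ico (AA c0 k) (AA c0 (k + 1))).filter (fun n => 1000 ∣ n)).card : ℕ) : ℝ) := by
    exact_mod_cast h3
  rw [h4] at h5
  nlinarith

theorem unpl_le {C : ℝ} {k0 c0 k : ℕ} (g : Good C k0 c0) (hk : k0 ≤ k) (P : Finset ℕ) :
    ((unpl c0 k P).length : ℝ) ≤ 3001 / 1000 * (k : ℝ) ^ 2 := by
  have hk60 : (60 : ℝ) ≤ k := by exact_mod_cast g.k60.trans hk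
  have hmono : AA c0 k ≤ AA c0 (k + 1) := by
    have h := an_w2 k c0
    have h' : (AA c0 k : ℝ) ≤ (AA c0 (k + 1) : ℝ) := by nlinarith
    exact_mod_cast h'
  have h1 := g.w3 k hk
  rw [Unpl_length]
  have h3 : ((Finset.Ico (AA c0 k) (AA c0 (k + 1))) \ P).card ≤ AA c0 (k + 1) - AA c0 k := by
    rw [← Nat.card_Ico]
    exact Finset.card_le_card Finset.sdiff_subset
  have h4 : ((AA c0 (k + 1) - AA c0 k : ℕ) : ℝ) = (AA c0 (k + 1) : ℝ) - AA c0 k :=
    Nat.cast_sub hmono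
  have h5 : ((((Finset.Ico (AA c0 k) (AA c0 (k + 1))) \ P).card : ℕ) : ℝ) ≤
      ((AA c0 (k + 1) - AA c0 k : ℕ) : ℝ) := by exact_mod_cast h3
  rw [h4] at h5
  linarith

end Pool.Agent.LibMoser5
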