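import Pool.Agent.LibMoser5.MassLe
import Pool.Agent.LibMoser5.Unpl
import Pool.Agent.LibMoser5.Quota
set_option autoImplicit false
namespace Pool.Agent.LibMoser5
open Classical

theorem QuotaOk_KK (k0 f : ℕ) : k0 ≤ KK k0 f := by
  induction f with
  | zero => exact le_rfl
  | succ f ih => rw [KK]; omega

theorem QuotaOk_AA (c0 k : ℕ) : AA c0 k + 1 ≤ AA c0 (k + 1) := by
  have h1 : GG k ≤ GG (k + 1) := by
    unfold GG
    exact Nat.sqrt_le_sqrt (Nat.pow_le_pow_left (by omega) 5)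
  have h2 : k ^ 3 + 1 ≤ (k + 1) ^ 3 := by nlinarith [Nat.zero_le (3 * k ^ 2 + 3 * k)]
  unfold AA
  omega

/-- the S-rows in cell `(k,c)` need at most `quota N c` squares: `floor_sum_le`, `mass_filter_le`,
`mass_le`, `tm ≤ 1.001 k³`, `quota_ge`, `unpl_ge` -/
theorem quota_ok {C W H : ℝ} {k0 c0 Jm f k : ℕ} {s : St} (g : Good C k0 c0)
    (hI : Inv C W H k0 c0 Jm f k s) (hk : k < Jm) (c : ℕ) (hc : c < 100) :
    (((((s.SL ++ s.SE).filter (fun r => decide (inBlock k r.1))).filter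
      (fun r => decide (inCell k c r.1))).map (fun r => ⌊r.2 * tm c0 k⌋₊)).sum) ≤
      quota (unpl c0 k s.P).length c := by
  have hk0 : k0 ≤ k := (QuotaOk_KK k0 f).trans hI.hkl
  have hk60 : 60 ≤ k := g.k60.trans hk0
  have hkR : (60 : ℝ) ≤ k := by exact_mod_cast hk60
  have htm0 : 0 ≤ tm c0 k := by unfold tm; positivity
  have htm : tm c0 k ≤ 1001 / 1000 * (k : ℝ) ^ 3 := by
    refine le_trans ?_ (g.w4 k hk0)
    have h1 := QuotaOk_AA c0 k
    have h2 : (AA c0 k : ℝ) + 1 ≤ (AA c0 (k + 1) : ℝ) := by exact_mod_cast h1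
    unfold tm
    linarith
  have hr : ∀ r ∈ s.SL ++ s.SE, 0 ≤ r.2 := fun r hr => (hI.Srow r hr).2.2
  have h1 := floor_sum_le ((s.SL ++ s.SE).filter (fun r => decide (inBlock k r.1)))
    (fun r hr' => hr r (List.mem_of_mem_filter hr')) (tm c0 k) htm0 k c
  have h2 := mass_filter_le (s.SL ++ s.SE) (fun r => decide (inBlock k r.1)) hr k c
  have h3 := mass_le g hI hk0 hk hc
  have h4 := quota_ge (unpl c0 k s.P).length c
  have h5 := unpl_ge g hI
  have h6 : mass ((s.SL ++ s.SE).filter (fun r => decide (inBlock k r.1))) k c * tm c0 k ≤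
      273 / 100 / (100 * (k : ℝ)) * (1001 / 1000 * (k : ℝ) ^ 3) := by
    calc _ ≤ 273 / 100 / (100 * (k : ℝ)) * tm c0 k :=
          mul_le_mul_of_nonneg_right (h2.trans h3) htm0
      _ ≤ _ := mul_le_mul_of_nonneg_left htm (by positivity)
  have h7 : 273 / 100 / (100 * (k : ℝ)) * (1001 / 1000 * (k : ℝ) ^ 3) =
      273273 / 10000000 * (k : ℝ) ^ 2 := by
    field_simp
    ring
  rw [h7] at h6
  have h8 : 273273 / 10000000 * (k : ℝ) ^ 2 ≤ 2996 / 1000 * (k : ℝ) ^ 2 / 100 - 1 := by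
    nlinarith
  have h9 : (((((s.SL ++ s.SE).filter (fun r => decide (inBlock k r.1))).filter
      (fun r => decide (inCell k c r.1))).map (fun r => ⌊r.2 * tm c0 k⌋₊)).sum : ℝ) ≤
      quota (unpl c0 k s.P).length c := by
    refine le_trans ?_ h4
    refine h1.trans (h6.trans (h8.trans ?_))
    linarith
  exact_mod_cast h9

end Pool.Agent.LibMoser5
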