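import Pool.Agent.LibMoser5.FillSum
import Pool.Agent.LibMoser5.Assign
set_option autoImplicit false
namespace Pool.Agent.LibMoser5
open Classical

theorem sArea_filter (l : List (ℝ × ℝ)) (p : ℝ × ℝ → Bool) (f : ℝ × ℝ → ℝ) :
    (l.map f).sum = ((l.filter p).map f).sum + ((l.filter (fun r => !p r)).map f).sum := by
  rw [← List.sum_append, ← List.map_append]
  exact (((List.filter_append_perm p l).map f).sum_eq).symm

theorem sArea_union {P : Finset ℕ} {I : List ℕ} (hnd : I.Nodup) (hdisj : ∀ n ∈ I, n ∉ P) :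
    ∑ n ∈ P ∪ I.toFinset, sd n ^ 2 = ∑ n ∈ P, sd n ^ 2 + (I.map (fun n => sd n ^ 2)).sum := by
  rw [Finset.sum_union, List.sum_toFinset _ hnd]
  rw [Finset.disjoint_left]
  intro n hn hn'
  exact hdisj n (List.mem_toFinset.1 hn') hn

theorem sArea_strips {h : ℝ} (strips : List Job) (hstr : ∀ j ∈ strips, j.len = h) :
    (strips.map (fun j => j.τ * j.len)).sum = (strips.map Job.τ).sum * h := by
  rw [← List.sum_map_mul_right]
  congr 1
  refine List.map_congr_left fun j hj => ?_
  rw [hstr j hj]

/-- area identity of the S-step (`area_fill`) -/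
theorem s_area {h v t : ℝ} {SL SE ER : List (ℝ × ℝ)} {P : Finset ℕ} {p : ℝ × ℝ → Bool}
    (js strips : List Job) (I : List ℕ)
    (hjs : js.Perm (((SL ++ SE).filter p).map (rowJob t) ++ strips))
    (hstr : ∀ j ∈ strips, j.len = h)
    (hlen : I.length = (js.map Job.s).sum) (hnd : I.Nodup) (hdisj : ∀ n ∈ I, n ∉ P) :
    min h (v - (strips.map Job.τ).sum) * max h (v - (strips.map Job.τ).sum) +
      (((SL.filter (fun r => !p r) ++ newS (assign js I)) ++ SE.filter (fun r => !p r) ++
        (ER ++ (newE (assign js I)).map mm)).map (fun r => r.1 * r.2)).sum +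
      ∑ n ∈ P ∪ I.toFinset, sd n ^ 2 =
    h * v + ((SL ++ SE ++ ER).map (fun r => r.1 * r.2)).sum + ∑ n ∈ P, sd n ^ 2 := by
  have h1 := area_fill (assign js I)
  rw [assign_flat js I hlen] at h1
  have h2 : ((assign js I).map (fun x => x.τ * x.len)).sum =
      (js.map (fun j => j.τ * j.len)).sum := by
    have h3 := congrArg (fun l : List (ℝ × ℝ) => (l.map (fun r => r.1 * r.2)).sum)
      (assign_map js I)
    simp only [List.map_map] at h3
    exact h3
  have h4 := (hjs.map (fun j : Job => j.τ * j.len)).sum_eq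
  rw [List.map_append, List.sum_append, sArea_strips strips hstr, List.map_map] at h4
  have h5 : ((fun j : Job => j.τ * j.len) ∘ rowJob t) = fun r : ℝ × ℝ => r.1 * r.2 := rfl
  rw [h5] at h4
  have h6 := sArea_filter (SL ++ SE) p (fun r => r.1 * r.2)
  rw [sArea_union hnd hdisj, min_mul_max]
  simp only [List.map_append, List.sum_append, List.filter_append] at h1 h4 h6 ⊢
  linarith

end Pool.Agent.LibMoser5
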