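import Pool.Agent.LibMoser5.Geo
set_option autoImplicit false
namespace Pool.Agent.LibMoser5
open Classical

/-- cut strips of thicknesses `ts` off the rectangle `a × b` (induction, `Tiled.cut`, `Tiled.swap`, `Tiled.perm`) -/
theorem tiled_strips {W H a b : ℝ} {F : List (ℝ × ℝ)} {P : Finset ℕ} (ts : List ℝ)
    (h : Tiled W H ((a, b) :: F) P) (h0 : ∀ τ ∈ ts, 0 ≤ τ) (hs : ts.sum ≤ b) :
    Tiled W H ((a, b - ts.sum) :: (ts.map (fun τ => (τ, a)) ++ F)) P := by
  induction ts generalizing b F with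
  | nil => simpa using h
  | cons τ ts ih =>
    have h1 : 0 ≤ τ := h0 τ (by simp)
    have h2 : ∀ τ' ∈ ts, 0 ≤ τ' := fun τ' hτ' => h0 τ' (List.mem_cons_of_mem _ hτ')
    have h3 : 0 ≤ ts.sum := List.sum_nonneg h2
    rw [List.sum_cons] at hs
    have h4 := (h.cut h1 (by linarith)).swap
    have h5 := h4.perm (List.Perm.swap (a, b - τ) (τ, a) F)
    have h6 := ih h5 h2 (by linarith)
    have e : b - τ - ts.sum = b - (τ :: ts).sum := by
      rw [List.sum_cons]
      ring
    rw [e] at h6
    refine h6.perm (List.Perm.cons _ ?_)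
    rw [List.map_cons, List.cons_append]
    exact List.perm_middle

end Pool.Agent.LibMoser5
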