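import Pool.Agent.LibMoser5.Fill
import Pool.Agent.LibMoser5.Strips
import Pool.Agent.LibMoser5.Assign
set_option autoImplicit false
namespace Pool.Agent.LibMoser5
open Classical

theorem sGeo_filter {α : Type} (l : List α) (p : α → Bool) :
    ((l.filter p : List α) : Multiset α) + ((l.filter (fun r => !p r) : List α) : Multiset α) = l := by
  rw [Multiset.coe_add, Multiset.coe_eq_coe]
  exact List.filter_append_perm p l

/-- geometry of the S-step: cut the strips off the fat rectangle (`tiled_strips`), permute, fill the jobs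
(`tiled_fill`, `assign_map`, `assign_flat`), swap the fat rectangle if necessary (`Tiled.swap`). -/
theorem s_tiled {W H h v t : ℝ} {SL SE ER : List (ℝ × ℝ)} {P : Finset ℕ} {p : ℝ × ℝ → Bool}
    (js strips : List Job) (I : List ℕ) (ht : Tiled W H ((h, v) :: (SL ++ SE ++ ER)) P)
    (hjs : js.Perm (((SL ++ SE).filter p).map (rowJob t) ++ strips))
    (hstr : ∀ j ∈ strips, j.len = h ∧ 0 ≤ j.τ) (hsum : (strips.map Job.τ).sum ≤ v)
    (hlen : I.length = (js.map Job.s).sum) (hnd : I.Nodup) (hdisj : ∀ n ∈ I, n ∉ P)
    (hok : ∀ x ∈ assign js I, x.Ok) :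
    Tiled W H ((min h (v - (strips.map Job.τ).sum), max h (v - (strips.map Job.τ).sum)) ::
      ((SL.filter (fun r => !p r) ++ newS (assign js I)) ++ SE.filter (fun r => !p r) ++
        (ER ++ (newE (assign js I)).map mm))) (P ∪ I.toFinset) := by
  have hflat := assign_flat js I hlen
  have hmap := assign_map js I
  have h1 := tiled_strips (strips.map Job.τ) ht
    (by
      intro τ hτ
      obtain ⟨j, hj, rfl⟩ := List.mem_map.1 hτ
      exact (hstr j hj).2) hsum
  have h2 : (strips.map Job.τ).map (fun τ => (τ, h)) = strips.map (fun j => (j.τ, j.len)) := by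
    rw [List.map_map]
    refine List.map_congr_left fun j hj => ?_
    rw [(hstr j hj).1]
    rfl
  rw [h2] at h1
  have h3 := hjs.map (fun j : Job => (j.τ, j.len))
  rw [List.map_append, List.map_map] at h3
  have h4 : ((fun j : Job => (j.τ, j.len)) ∘ rowJob t) = id := rfl
  rw [h4, List.map_id, List.filter_append] at h3
  rw [← Multiset.coe_eq_coe] at h3
  have h5 : Tiled W H ((assign js I).map (fun x => (x.τ, x.len)) ++
      ((h, v - (strips.map Job.τ).sum) :: (SL.filter (fun r => !p r) ++
        SE.filter (fun r => !p r) ++ ER))) P := by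
    rw [hmap]
    refine h1.perm ?_
    rw [← Multiset.coe_eq_coe]
    simp only [← Multiset.coe_add, ← Multiset.cons_coe, ← Multiset.singleton_add] at h3 ⊢
    rw [h3, ← sGeo_filter SL p, ← sGeo_filter SE p]
    abel
  have h6 := tiled_fill (assign js I) h5 hok (by rwa [hflat]) (by rwa [hflat])
  rw [hflat] at h6
  have h7 : Tiled W H ((h, v - (strips.map Job.τ).sum) ::
      ((SL.filter (fun r => !p r) ++ newS (assign js I)) ++ SE.filter (fun r => !p r) ++
        (ER ++ (newE (assign js I)).map mm))) (P ∪ I.toFinset) := by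
    refine h6.perm ?_
    rw [← Multiset.coe_eq_coe]
    simp only [← Multiset.coe_add, ← Multiset.cons_coe, ← Multiset.singleton_add]
    abel
  rcases le_total h (v - (strips.map Job.τ).sum) with h8 | h8
  · rw [min_eq_left h8, max_eq_right h8]
    exact h7
  · rw [min_eq_right h8, max_eq_left h8]
    exact h7.swap

end Pool.Agent.LibMoser5
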