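import Pool.Agent.LibMoser5.CostLe
import Pool.Agent.LibMoser5.FillSum
import Pool.Agent.LibMoser5.Assign
set_option autoImplicit false
namespace Pool.Agent.LibMoser5
open Classical

theorem SPsi_filter (L : List (ℝ × ℝ)) (p : ℝ × ℝ → Bool) (F : ℝ × ℝ → ℝ) :
    ((L.filter p).map F).sum + ((L.filter (fun r => !p r)).map F).sum = (L.map F).sum := by
  induction L with
  | nil => simp
  | cons a L ih =>
    by_cases h : p a = true
    · rw [List.filter_cons_of_pos h, List.filter_cons_of_neg (by simp [h])]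
      simp only [List.map_cons, List.sum_cons]
      linarith
    · rw [List.filter_cons_of_neg h, List.filter_cons_of_pos (by simp [h])]
      simp only [List.map_cons, List.sum_cons]
      linarith

theorem SPsi_cost {C : ℝ} {k0 c0 k : ℕ} (g : Good C k0 c0) (hk : k0 ≤ k) (Iw : List ℕ)
    (hIw : ∀ n ∈ Iw, AA c0 k ≤ n ∧ n < AA c0 (k + 1)) :
    ∀ (L : List FJob) (js : List Job), List.Forall₂ (fun (x : FJob) (j : Job) =>
      x.τ = j.τ ∧ x.len = j.len ∧ x.u.length = j.s ∧ ∀ n ∈ x.u, n ∈ Iw) L js →
      (∀ j ∈ js, inBlock k j.τ) → (L.map cost).sum ≤ (js.map (cb c0 k)).sum := by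
  intro L js h
  induction h with
  | nil => intro _; simp
  | cons h1 _ ih =>
    intro h2
    simp only [List.map_cons, List.sum_cons]
    have h3 := ih (fun j hj => h2 j (List.mem_cons_of_mem _ hj))
    have h4 := cost_le g hk _ _ h1.1 h1.2.1 h1.2.2.1 (fun n hn => hIw n (h1.2.2.2 n hn))
      (h2 _ List.mem_cons_self)
    linarith

/-- linear budget of the S-step -/
theorem s_psi {C : ℝ} {k0 c0 k : ℕ} (g : Good C k0 c0) (hk : k0 ≤ k) {SL SE ER : List (ℝ × ℝ)}
    {p : ℝ × ℝ → Bool} (js strips : List Job) (I : List ℕ)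
    (hjs : js.Perm (((SL ++ SE).filter p).map (rowJob (tm c0 k)) ++ strips))
    (hp : ∀ r ∈ SL ++ SE, p r = true → inBlock k r.1) (hb : ∀ r ∈ SL ++ SE, 0 ≤ r.2)
    (hstr : ∀ j ∈ strips, inBlock k j.τ) (hcost : (strips.map (cb c0 k)).sum ≤ src k)
    (hlen : I.length = (js.map Job.s).sum)
    (hIw : ∀ n ∈ I, AA c0 k ≤ n ∧ n < AA c0 (k + 1)) :
    ((ER ++ (newE (assign js I)).map mm).map (fun r => r.1 + r.2)).sum +
      (((SL.filter (fun r => !p r) ++ newS (assign js I)) ++ SE.filter (fun r => !p r)).map om).sum ≤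
    (ER.map (fun r => r.1 + r.2)).sum + ((SL ++ SE).map om).sum + src k := by
  have hblock : ∀ j ∈ js, inBlock k j.τ := by
    intro j hj
    have hj' := hjs.mem_iff.mp hj
    rw [List.mem_append] at hj'
    rcases hj' with h1 | h1
    · rw [List.mem_map] at h1
      obtain ⟨r, hr, rfl⟩ := h1
      rw [List.mem_filter] at hr
      exact hp r hr.1 hr.2
    · exact hstr j h1
  have h1 := SPsi_cost g hk I hIw _ _ (assign_forall₂ js I hlen) hblock
  have h2 := budget_fill (assign js I)
  have h3 : (js.map (cb c0 k)).sum =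
      ((((SL ++ SE).filter p).map (rowJob (tm c0 k))).map (cb c0 k)).sum +
        (strips.map (cb c0 k)).sum := by
    rw [(hjs.map (cb c0 k)).sum_eq, List.map_append, List.sum_append]
  have h4 : ((((SL ++ SE).filter p).map (rowJob (tm c0 k))).map (cb c0 k)).sum ≤
      (((SL ++ SE).filter p).map om).sum := by
    rw [List.map_map]
    apply List.sum_le_sum
    intro r hr
    rw [List.mem_filter] at hr
    exact g.srow k hk r (hp r hr.1 hr.2) (hb r hr.1)
  have h5 := SPsi_filter (SL ++ SE) p om
  have h6 : (((SL ++ SE).filter (fun r => !p r)).map om).sum =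
      ((SL.filter (fun r => !p r)).map om).sum + ((SE.filter (fun r => !p r)).map om).sum := by
    rw [List.filter_append, List.map_append, List.sum_append]
  simp only [List.map_append, List.sum_append] at h5 h6 ⊢
  linarith

end Pool.Agent.LibMoser5
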