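import Pool.Agent.LibMoser5.Good
set_option autoImplicit false
namespace Pool.Agent.LibMoser5
open Classical

theorem StripsC_sum (l : List Job) (p : Job → Bool) (A h κ : ℝ) :
    (l.map (fun j => A + (if p j = true then h else 0) + (j.s : ℝ) * κ)).sum =
      l.length * A + (l.filter p).length * h + ((l.map Job.s).sum : ℕ) * κ := by
  induction l with
  | nil => simp
  | cons j l ih =>
    simp only [List.map_cons, List.sum_cons, List.length_cons, ih]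
    by_cases hp : p j = true
    · rw [List.filter_cons_of_pos hp, if_pos hp, List.length_cons]
      push_cast
      ring
    · rw [List.filter_cons_of_neg hp, if_neg hp]
      push_cast
      ring

theorem StripsC_edge {k c : ℕ} (hk : 1 ≤ k) : 1 / edge k c ≤ 1 / (k : ℝ) ^ 3 := by
  have hk' : (1 : ℝ) ≤ k := by exact_mod_cast hk
  have h1 : (k : ℝ) ^ 3 ≤ edge k c := by
    unfold edge
    have : (0 : ℝ) ≤ c * (3 * (k : ℝ) ^ 2 + 3 * k + 1) / 100 := by positivity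
    linarith
  exact one_div_le_one_div_of_le (by positivity) h1

theorem StripsC_len {N s : ℕ} {L : ℕ} {k : ℝ} (hs : 1 ≤ s) (hN : (N : ℝ) ≤ 3001 / 1000 * k ^ 2)
    (hl : L ≤ N / s + 100) : (L : ℝ) ≤ 3001 / 1000 * k ^ 2 / s + 100 := by
  have h1 : (L : ℝ) ≤ ((N / s : ℕ) : ℝ) + 100 := by exact_mod_cast hl
  have h2 : ((N / s : ℕ) : ℝ) ≤ (N : ℝ) / s := Nat.cast_div_le
  have h3 : (N : ℝ) / s ≤ 3001 / 1000 * k ^ 2 / s := by gcongr
  linarith

/-- cost of the strips: full strips have `len - s/TT ≤ 4h/k + 1/k³` (`s = ⌊h·tm⌋`), at most 100 strips are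
not full and have `len - s/TT ≤ h`; `∑ s ≤ N ≤ 3.001 k²` -/
theorem strips_cost {C : ℝ} {k0 c0 k : ℕ} (g : Good C k0 c0) (hk : k0 ≤ k) (h : ℝ) (h0 : 0 < h)
    (h1 : 8 / 100 * (1 / (k : ℝ) ^ 3) ≤ C * h ^ 2) (h2 : h ^ 2 ≤ 1 / (k : ℝ) ^ 3)
    (strips : List Job) (N : ℕ) (hN : (N : ℝ) ≤ 3001 / 1000 * (k : ℝ) ^ 2)
    (hs : ∀ j ∈ strips, j.len = h ∧ j.s ≤ ⌊h * tm c0 k⌋₊ ∧ ∃ c < 100, j.τ = 1 / edge k c)
    (hl : strips.length ≤ N / ⌊h * tm c0 k⌋₊ + 100)
    (hp : (strips.filter (fun j => decide (j.s ≠ ⌊h * tm c0 k⌋₊))).length ≤ 100)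
    (hsum : (strips.map Job.s).sum ≤ N) :
    (strips.map (cb c0 k)).sum ≤ src k := by
  obtain ⟨f1, -, f3⟩ := g.fat k hk h h0 h1 h2
  have hk60 : 60 ≤ k := g.k60.trans hk
  have hk' : (60 : ℝ) ≤ k := by exact_mod_cast hk60
  have hlen := StripsC_len f1 hN hl
  set s0 := ⌊h * tm c0 k⌋₊ with hs0
  have htm0 : 0 < tm c0 k := by unfold tm; positivity
  have hth : 0 ≤ th k := by unfold th; positivity
  set κ : ℝ := 2 * th k + (th k) ^ (1 / 8 : ℝ) / tm c0 k with hκ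
  have hκ0 : 0 ≤ κ := by positivity
  set A : ℝ := 2 / (k : ℝ) ^ 3 + 4 * h / k with hA
  have hA0 : 0 ≤ A := by positivity
  -- the windows
  have hw1 : (((k + 1) ^ 3 + 1 : ℕ) : ℝ) ≤ (AA c0 k : ℝ) := by exact_mod_cast g.w1 k hk
  push_cast at hw1
  have hAA : (AA c0 k : ℝ) ≤ TT c0 k := by
    unfold TT
    exact_mod_cast AA_mono (Nat.le_succ k)
  have hk3 : (k : ℝ) ^ 3 ≤ TT c0 k := by
    have : (k : ℝ) ^ 3 ≤ ((k : ℝ) + 1) ^ 3 := pow_le_pow_left₀ (by positivity) (by linarith) 3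
    linarith
  have hk3p : 0 < (k : ℝ) ^ 3 := by positivity
  have hTT0 : 0 < TT c0 k := by linarith
  have hdiff : TT c0 k - tm c0 k ≤ 3001 / 1000 * (k : ℝ) ^ 2 := by
    have := g.w3 k hk
    unfold TT tm
    linarith
  have hfull : h - s0 / TT c0 k ≤ 4 * h / k + 1 / (k : ℝ) ^ 3 := by
    have e1 : h * tm c0 k - 1 ≤ s0 := by
      have := Nat.lt_floor_add_one (h * tm c0 k)
      linarith
    have e2 : (h * tm c0 k - 1) / TT c0 k ≤ s0 / TT c0 k := by gcongr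
    have e3 : h - (h * tm c0 k - 1) / TT c0 k = h * (TT c0 k - tm c0 k) / TT c0 k + 1 / TT c0 k := by
      field_simp
      ring
    have e4 : 1 / TT c0 k ≤ 1 / (k : ℝ) ^ 3 := one_div_le_one_div_of_le hk3p hk3
    have e5 : h * (TT c0 k - tm c0 k) / TT c0 k ≤ 4 * h / k := by
      rw [div_le_div_iff₀ hTT0 (by linarith)]
      have e6 : h * (TT c0 k - tm c0 k) * k ≤ h * (3001 / 1000 * (k : ℝ) ^ 2) * k := by gcongr
      have e7 : h * (3001 / 1000 * (k : ℝ) ^ 2) * k = 3001 / 1000 * (h * (k : ℝ) ^ 3) := by ring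
      have e8 : h * (k : ℝ) ^ 3 ≤ h * TT c0 k := by gcongr
      have e9 : 0 ≤ h * (k : ℝ) ^ 3 := by positivity
      linarith
    linarith
  have hcb : ∀ j ∈ strips, cb c0 k j ≤ A + (if decide (j.s ≠ s0) = true then h else 0) + (j.s : ℝ) * κ := by
    intro j hj
    obtain ⟨a1, a2, c, hc, a3⟩ := hs j hj
    have a4 : j.τ ≤ 1 / (k : ℝ) ^ 3 := by rw [a3]; exact StripsC_edge (by omega)
    have a5 : cb c0 k j = j.τ + (h - j.s / TT c0 k) + (j.s : ℝ) * κ := by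
      unfold cb
      rw [a1]
    have a6 : A = 1 / (k : ℝ) ^ 3 + (4 * h / k + 1 / (k : ℝ) ^ 3) := by rw [hA]; ring
    rw [a5]
    have a7 : 0 ≤ 4 * h / k + 1 / (k : ℝ) ^ 3 := by positivity
    by_cases hj0 : j.s = s0
    · rw [if_neg (by simp [hj0]), hj0]
      linarith
    · rw [if_pos (by simp [hj0])]
      have : 0 ≤ (j.s : ℝ) / TT c0 k := by positivity
      linarith
  have hsum1 : (strips.map (cb c0 k)).sum ≤
      (strips.map (fun j => A + (if decide (j.s ≠ s0) = true then h else 0) + (j.s : ℝ) * κ)).sum :=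
    List.sum_le_sum hcb
  rw [StripsC_sum strips (fun j => decide (j.s ≠ s0)) A h κ] at hsum1
  have b1 : (strips.length : ℝ) * A ≤ (3001 / 1000 * (k : ℝ) ^ 2 / s0 + 100) * A := by gcongr
  have b2 : ((strips.filter (fun j => decide (j.s ≠ s0))).length : ℝ) * h ≤ 100 * h := by
    gcongr
    exact_mod_cast hp
  have b3 : (((strips.map Job.s).sum : ℕ) : ℝ) * κ ≤ 3001 / 1000 * (k : ℝ) ^ 2 * κ := by
    gcongr
    exact le_trans (by exact_mod_cast hsum) hN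
  linarith

/-- the total thickness of the strips is at most `h/2` -/
theorem strips_width {C : ℝ} {k0 c0 k : ℕ} (g : Good C k0 c0) (hk : k0 ≤ k) (h : ℝ) (h0 : 0 < h)
    (h1 : 8 / 100 * (1 / (k : ℝ) ^ 3) ≤ C * h ^ 2) (h2 : h ^ 2 ≤ 1 / (k : ℝ) ^ 3)
    (strips : List Job) (N : ℕ) (hN : (N : ℝ) ≤ 3001 / 1000 * (k : ℝ) ^ 2)
    (hs : ∀ j ∈ strips, ∃ c < 100, j.τ = 1 / edge k c)
    (hl : strips.length ≤ N / ⌊h * tm c0 k⌋₊ + 100) :
    (strips.map Job.τ).sum ≤ h / 2 := by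
  obtain ⟨f1, f2, -⟩ := g.fat k hk h h0 h1 h2
  have hk60 : 60 ≤ k := g.k60.trans hk
  have hk' : (60 : ℝ) ≤ k := by exact_mod_cast hk60
  have hlen := StripsC_len f1 hN hl
  have hk3p : 0 < (k : ℝ) ^ 3 := by positivity
  have h3 : (strips.map Job.τ).sum ≤ (strips.map Job.τ).length • (1 / (k : ℝ) ^ 3) := by
    apply List.sum_le_card_nsmul
    intro x hx
    obtain ⟨j, hj, rfl⟩ := List.mem_map.1 hx
    obtain ⟨c, hc, hτ⟩ := hs j hj
    rw [hτ]
    exact StripsC_edge (by omega)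
  rw [List.length_map, nsmul_eq_mul] at h3
  refine h3.trans (le_trans ?_ f2)
  rw [mul_one_div]
  gcongr

end Pool.Agent.LibMoser5
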