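import Pool.Agent.LibMoser5.SGeo
import Pool.Agent.LibMoser5.SArea
import Pool.Agent.LibMoser5.FatLo
import Pool.Agent.LibMoser5.FatHi
import Pool.Agent.LibMoser5.QuotaOk
import Pool.Agent.LibMoser5.ChooseRot
import Pool.Agent.LibMoser5.PotF
import Pool.Agent.LibMoser5.StripsC
import Pool.Agent.LibMoser5.SPsi
import Pool.Agent.LibMoser5.Jobs
set_option autoImplicit false
namespace Pool.Agent.LibMoser5
open Classical

theorem sd_pos (n : ℕ) : 0 < sd n := by unfold sd; positivity

theorem sum_sd_list_le (u : List ℕ) (t : ℝ) (h : ∀ n ∈ u, sd n ≤ 1 / t) :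
    (u.map sd).sum ≤ u.length * (1 / t) := by
  induction u with
  | nil => simp
  | cons a u ih =>
    simp only [List.map_cons, List.sum_cons, List.length_cons]
    have h1 := h a (by simp)
    have h2 := ih (fun n hn => h n (by simp [hn]))
    push_cast
    linarith

theorem mem_newS {L : List FJob} {r : ℝ × ℝ} (h : r ∈ newS L) :
    ∃ x ∈ L, ∃ n ∈ x.u, r = (x.τ - sd n, sd n) := by
  simp only [newS, List.mem_flatMap, List.mem_map] at h
  obtain ⟨x, hx, n, hn, rfl⟩ := h
  exact ⟨x, hx, n, hn, rfl⟩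

theorem mem_newE_mm {L : List FJob} {r : ℝ × ℝ} (h : r ∈ (newE L).map mm) :
    ∃ x ∈ L, r = (min x.τ (x.len - (x.u.map sd).sum), max x.τ (x.len - (x.u.map sd).sum)) := by
  simp only [newE, List.mem_map, List.map_map, Function.comp, mm] at h
  obtain ⟨x, hx, rfl⟩ := h
  exact ⟨x, hx, rfl⟩

theorem sum_snd_filter_le (L : List (ℝ × ℝ)) (p : ℝ × ℝ → Bool) (h : ∀ r ∈ L, 0 ≤ r.2) :
    ((L.filter p).map Prod.snd).sum ≤ (L.map Prod.snd).sum := by
  induction L with
  | nil => simp
  | cons a L ih =>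
    have h1 := ih (fun r hr => h r (by simp [hr]))
    have h2 := h a (by simp)
    rw [List.filter_cons]
    split_ifs
    · simp only [List.map_cons, List.sum_cons]; linarith
    · simp only [List.map_cons, List.sum_cons]; linarith

theorem forall₂_exists {α β : Type*} {R : α → β → Prop} {l : List α} {l' : List β}
    (h : List.Forall₂ R l l') : ∀ a ∈ l, ∃ b ∈ l', R a b := by
  induction h with
  | nil => simp
  | cons h h' ih =>
    rename_i a b l₁ l₂
    intro x hx
    rcases List.mem_cons.1 hx with rfl | hx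
    · exact ⟨b, by simp, h⟩
    · obtain ⟨y, hy, hxy⟩ := ih x hx
      exact ⟨y, by simp [hy], hxy⟩

/-- S-step -/
theorem s_step {C W H : ℝ} {k0 c0 Jm f k : ℕ} {s : St} (g : Good C k0 c0)
    (hWH : W * H = ∑' n : ℕ, sd (AA c0 k0 + n) ^ 2)
    (hI : Inv C W H k0 c0 Jm f k s) (hk : k < KK k0 (f + 1))
    (hJm : 10 * AA c0 (KK k0 (f + 1)) ≤ Jm) : ∃ s', Inv C W H k0 c0 Jm f (k + 1) s' := by
  have hk0 : k0 ≤ k := (KK_ge k0 f).trans hI.hkl
  have hk1 : 1 ≤ k := by have := g.k60; omega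
  have hkJ : k < Jm := by
    have h1 : KK k0 (f + 1) ≤ KK k0 (f + 1) ^ 3 := Nat.le_self_pow (by norm_num) _
    have h2 : KK k0 (f + 1) ^ 3 ≤ AA c0 (KK k0 (f + 1)) := by unfold AA; omega
    omega
  have hkR : (0 : ℝ) < k := by exact_mod_cast hk1
  have hlo := fat_lo g hWH hI hJm
  have hhi := fat_hi g hWH hI
  have h1 : 8 / 100 * (1 / (k : ℝ) ^ 3) ≤ C * s.H ^ 2 := by
    have := mul_le_mul_of_nonneg_left hI.VH hI.Hpos.le
    nlinarith
  have h2 : s.H ^ 2 ≤ 1 / (k : ℝ) ^ 3 := by
    have := mul_le_mul_of_nonneg_left hI.HV hI.Hpos.le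
    nlinarith
  obtain ⟨f1, f2, f3⟩ := g.fat k hk0 s.H hI.Hpos h1 h2
  have hNlo := unpl_ge g hI
  have hNhi := unpl_le g hk0 s.P
  have hSb : ∀ r ∈ s.SL ++ s.SE, 0 ≤ r.2 := fun r hr => (hI.Srow r hr).2.2
  have hSLb : ∀ r ∈ s.SL, 0 ≤ r.2 := fun r hr => hSb r (by simp [hr])
  have hSEb : ∀ r ∈ s.SE, 0 ≤ r.2 := fun r hr => hSb r (by simp [hr])
  have hR : ∀ r ∈ (s.SL ++ s.SE).filter (fun r => decide (inBlock k r.1)), inBlock k r.1 := by
    intro r hr
    simpa using (List.mem_filter.1 hr).2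
  obtain ⟨js, strips, hperm, hsort, hstr, hlen, hpart, hQ⟩ :=
    jobs_exist k hk1 _ hR (tm c0 k) s.H ⌊s.H * tm c0 k⌋₊ f1 (quota (unpl c0 k s.P).length)
      (quota_ok g hI hkJ)
  rw [quota_sum] at hlen
  have hstrb : ∀ j ∈ strips, inBlock k j.τ := by
    intro j hj
    obtain ⟨_, _, c, hc, h⟩ := hstr j hj
    rw [h]
    exact cell_block hk1 hc (edge_inCell hk1)
  have htpos : 0 < tm c0 k := by unfold tm; positivity
  have hjmem : ∀ j ∈ js, inBlock k j.τ ∧ (j.s : ℝ) ≤ j.len * tm c0 k := by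
    intro j hj
    rcases List.mem_append.1 (hperm.mem_iff.1 hj) with h | h
    · obtain ⟨r, hr, rfl⟩ := List.mem_map.1 h
      have hr2 : 0 ≤ r.2 := hSb r (List.mem_filter.1 hr).1
      exact ⟨hR r hr, Nat.floor_le (mul_nonneg hr2 htpos.le)⟩
    · obtain ⟨h3, h4, _⟩ := hstr j h
      refine ⟨hstrb j h, ?_⟩
      rw [h3]
      calc (j.s : ℝ) ≤ ⌊s.H * tm c0 k⌋₊ := by exact_mod_cast h4
        _ ≤ s.H * tm c0 k := Nat.floor_le (mul_nonneg hI.Hpos.le htpos.le)
  have htot : (js.map Job.s).sum = (unpl c0 k s.P).length := by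
    rw [jobs_total k hk1 js (fun j hj => (hjmem j hj).1) _ hQ, quota_sum]
  -- the rotation
  have hsorted := unpl_sorted c0 k s.P
  have hIw : ∀ n ∈ unpl c0 k s.P, AA c0 k ≤ n ∧ n < AA c0 (k + 1) := fun n hn =>
    (mem_unpl.1 hn).1
  obtain ⟨r, hr, hpot⟩ := choose_rot g hk0
    (s.SL.filter (fun r => !(decide (inBlock k r.1))))
    (fun r hr => hSLb r (List.mem_filter.1 hr).1)
    (pot_filter s.SL hSLb _ hI.potl) (labels js) (unpl c0 k s.P)
    (by rw [labels_length, htot]) (labels_sorted js hsort)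
    (by
      intro τ hτ
      obtain ⟨j, hj, rfl⟩ := mem_labels hτ
      exact (hjmem j hj).1)
    hsorted hIw
    (by
      intro c hc
      rw [labels_countP, hQ c hc]
      exact quota_le _ _)
    (by nlinarith)
  set I' := (unpl c0 k s.P).rotate r with hI'
  have hI'mem : ∀ n, n ∈ I' ↔ n ∈ unpl c0 k s.P := fun n => by rw [hI', List.mem_rotate]
  have hI'len : I'.length = (js.map Job.s).sum := by rw [hI', List.length_rotate, htot]
  have hnd : (unpl c0 k s.P).Nodup := hsorted.imp (fun h => h.ne)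
  have hI'nd : I'.Nodup := List.nodup_rotate.2 hnd
  have hI'w : ∀ n ∈ I', AA c0 k ≤ n ∧ n < AA c0 (k + 1) := fun n hn => hIw n ((hI'mem n).1 hn)
  have hI'P : ∀ n ∈ I', n ∉ s.P := fun n hn => (mem_unpl.1 ((hI'mem n).1 hn)).2
  have hsdt : ∀ n ∈ I', sd n ≤ 1 / tm c0 k := by
    intro n hn
    unfold sd tm
    have : (AA c0 k : ℝ) ≤ n := by exact_mod_cast (hI'w n hn).1
    apply one_div_le_one_div_of_le (by positivity)
    linarith
  have htlt : 1 / tm c0 k < 1 / ((k : ℝ) + 1) ^ 3 := by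
    apply one_div_lt_one_div_of_lt (by positivity)
    have := g.w1 k hk0
    have h3 : ((k : ℝ) + 1) ^ 3 + 1 ≤ (AA c0 k : ℝ) := by exact_mod_cast this
    unfold tm
    linarith
  have hf2 := assign_forall₂ js I' hI'len
  have hx : ∀ x ∈ assign js I', ∃ j ∈ js, x.τ = j.τ ∧ x.len = j.len ∧ x.u.length = j.s ∧
      ∀ n ∈ x.u, n ∈ I' := forall₂_exists hf2
  have hok : ∀ x ∈ assign js I', x.Ok := by
    intro x hxm
    obtain ⟨j, hj, e1, e2, e3, e4⟩ := hx x hxm
    obtain ⟨hb, hs⟩ := hjmem j hj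
    constructor
    · intro n hn
      rw [e1]
      exact ((hsdt n (e4 n hn)).trans htlt.le).trans hb.1.le
    · refine (sum_sd_list_le x.u (tm c0 k) (fun n hn => hsdt n (e4 n hn))).trans ?_
      rw [e3, e2, mul_one_div, div_le_iff₀ htpos]
      exact hs
  have hflat : (assign js I').flatMap FJob.u = I' := assign_flat js I' hI'len
  have hnewS : newS (assign js I') = pcs (labels js) I' := assign_newS js I' hI'len
  have htile := s_tiled (t := tm c0 k) (p := fun r => decide (inBlock k r.1)) js strips I' hI.tiled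
    hperm (fun j hj => ⟨(hstr j hj).1, by
      have := (hstrb j hj).1
      exact (lt_trans (by positivity) this).le⟩) ?_ hI'len hI'nd hI'P hok
  swap
  · have := strips_width g hk0 s.H hI.Hpos h1 h2 strips _ hNhi (fun j hj => (hstr j hj).2.2) hlen
    have := hI.HV
    have := hI.Hpos
    linarith
  have harea := s_area (h := s.H) (v := s.V) (t := tm c0 k) (SL := s.SL) (SE := s.SE) (ER := s.ER)
    (P := s.P) (p := fun r => decide (inBlock k r.1)) js strips I' hperm
    (fun j hj => (hstr j hj).1) hI'len hI'nd hI'P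
  have hwid := strips_width g hk0 s.H hI.Hpos h1 h2 strips _ hNhi (fun j hj => (hstr j hj).2.2) hlen
  have hstrsum : (strips.map Job.s).sum ≤ (unpl c0 k s.P).length := by
    rw [← htot, (hperm.map Job.s).sum_eq]
    simp only [List.map_append, List.sum_append]
    omega
  have hcost := strips_cost g hk0 s.H hI.Hpos h1 h2 strips _ hNhi hstr hlen hpart hstrsum
  have hpsi := s_psi g hk0 (SL := s.SL) (SE := s.SE) (ER := s.ER)
    (p := fun r => decide (inBlock k r.1)) js strips I' hperm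
    (fun r _ hr => by simpa using hr) hSb hstrb hcost hI'len hI'w
  have hS0 : 0 ≤ (strips.map Job.τ).sum := by
    apply List.sum_nonneg
    intro x hx
    obtain ⟨j, hj, rfl⟩ := List.mem_map.1 hx
    exact (lt_trans (by positivity) (hstrb j hj).1).le
  set S := (strips.map Job.τ).sum with hS
  refine ⟨⟨min s.H (s.V - S), max s.H (s.V - S),
    s.SL.filter (fun r => !(decide (inBlock k r.1))) ++ newS (assign js I'),
    s.SE.filter (fun r => !(decide (inBlock k r.1))),
    s.ER ++ (newE (assign js I')).map mm, s.P ∪ I'.toFinset⟩, ?_⟩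
  have hHp := hI.Hpos
  have hHV := hI.HV
  have hC2 := g.C2
  have hv : s.H / 2 ≤ s.V - S := by linarith
  have hkk : 1 / (k : ℝ) ^ 3 ≤ 1 / (KK k0 f : ℝ) ^ 3 := by
    have h3 : (0 : ℝ) < KK k0 f := by
      have h4 := KK_ge k0 f
      have h5 := g.k60
      exact_mod_cast (by omega : 0 < KK k0 f)
    apply one_div_le_one_div_of_le (by positivity)
    apply pow_le_pow_left₀ h3.le
    exact_mod_cast hI.hkl
  have hold : ∀ r ∈ s.SL ++ s.SE, ¬ inBlock k r.1 →
      0 < r.1 ∧ r.1 ≤ 1 / ((k + 1 : ℕ) : ℝ) ^ 3 ∧ 0 ≤ r.2 := by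
    intro r hr hn
    obtain ⟨g1, g2, g3⟩ := hI.Srow r hr
    refine ⟨g1, ?_, g3⟩
    by_contra hcon
    apply hn
    refine ⟨?_, g2⟩
    push_cast at hcon
    exact not_le.1 hcon
  have hTT : ∀ n ∈ I', 1 / TT c0 k ≤ sd n := by
    intro n hn
    unfold sd TT
    have : (n : ℝ) + 1 ≤ (AA c0 (k + 1) : ℝ) := by exact_mod_cast (hI'w n hn).2
    apply one_div_le_one_div_of_le (by positivity)
    linarith
  have hnew : ∀ r ∈ newS (assign js I'), 0 < r.1 ∧ r.1 ≤ 1 / ((k + 1 : ℕ) : ℝ) ^ 3 ∧ 0 ≤ r.2 := by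
    intro r hr
    obtain ⟨x, hxm, n, hn, rfl⟩ := mem_newS hr
    obtain ⟨j, hj, e1, e2, e3, e4⟩ := hx x hxm
    obtain ⟨hb, hs⟩ := hjmem j hj
    have g1 := hsdt n (e4 n hn)
    have g2 := hTT n (e4 n hn)
    have g3 := g.th1 k hk0
    have g4 := g.th2 k hk0
    have g5 := hb.1
    have g6 := hb.2
    refine ⟨?_, ?_, (sd_pos n).le⟩
    · simp only [e1]; linarith
    · push_cast
      simp only [e1]; linarith
  constructor
  · exact hI.hkl.trans (Nat.le_succ k)
  · exact hk
  · exact htile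
  · exact lt_min hHp (by linarith)
  · exact min_le_max
  · rcases le_total s.H (s.V - S) with h | h
    · rw [min_eq_left h, max_eq_right h]
      have := hI.VH
      linarith
    · rw [min_eq_right h, max_eq_left h]
      nlinarith
  · intro r hr
    rcases List.mem_append.1 hr with hr | hr
    · rcases List.mem_append.1 hr with hr | hr
      · obtain ⟨g1, g2⟩ := List.mem_filter.1 hr
        exact hold r (by simp [g1]) (by simpa using g2)
      · exact hnew r hr
    · obtain ⟨g1, g2⟩ := List.mem_filter.1 hr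
      exact hold r (by simp [g1]) (by simpa using g2)
  · intro r hr
    rcases List.mem_append.1 hr with hr | hr
    · exact hI.Erow r hr
    · obtain ⟨x, hxm, rfl⟩ := mem_newE_mm hr
      obtain ⟨j, hj, e1, e2, e3, e4⟩ := hx x hxm
      obtain ⟨hb, hs⟩ := hjmem j hj
      have g1 := (hok x hxm).2
      have g2 : 0 < x.τ := by rw [e1]; exact lt_trans (by positivity) hb.1
      refine ⟨le_min g2.le (by linarith), min_le_max, ?_⟩
      refine (min_le_left _ _).trans ?_
      rw [e1]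
      exact hb.2.trans hkk
  · intro n g1 g2
    rw [Finset.mem_union]
    by_cases g3 : n ∈ s.P
    · exact Or.inl g3
    · right
      rw [List.mem_toFinset, hI'mem, mem_unpl]
      refine ⟨⟨?_, g2⟩, g3⟩
      by_contra g4
      exact g3 (hI.Plo n g1 (by omega))
  · intro n hn
    have hmono : AA c0 k ≤ AA c0 (k + 1) := AA_mono (Nat.le_succ k)
    rcases Finset.mem_union.1 hn with hn | hn
    · obtain ⟨g1, g2⟩ := hI.Phi n hn
      refine ⟨g1, ?_⟩
      rcases g2 with g2 | g2
      · left; omega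
      · right; exact g2
    · rw [List.mem_toFinset] at hn
      obtain ⟨g1, g2⟩ := hI'w n hn
      have : AA c0 k0 ≤ AA c0 k := AA_mono hk0
      exact ⟨by omega, Or.inl g2⟩
  · have g1 := hI.sumb
    have g2 := sum_snd_filter_le s.SL (fun r => !(decide (inBlock k r.1))) hSLb
    have g3 := sum_snd_filter_le s.SE (fun r => !(decide (inBlock k r.1))) hSEb
    have g4 := sum_newS_snd (assign js I')
    rw [hflat] at g4
    have g5 : ∑ n ∈ s.P ∪ I'.toFinset, sd n = ∑ n ∈ s.P, sd n + (I'.map sd).sum := by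
      rw [Finset.sum_union, List.sum_toFinset _ hI'nd]
      rw [Finset.disjoint_left]
      intro n h3 h4
      exact hI'P n (List.mem_toFinset.1 h4) h3
    simp only [List.map_append, List.sum_append] at g1 ⊢
    rw [g5]
    linarith
  · simp only at harea ⊢
    rw [← hI.area, ← harea]
  · intro j d hj hd
    exact (mass_filter_le s.SE _ hSEb j d).trans (hI.massE j d hj hd)
  · show pot k0 c0 Jm (k + 1) (s.SL.filter (fun r => !(decide (inBlock k r.1))) ++
      newS (assign js I')) ≤ 1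
    rw [hnewS]
    exact hpot
  · have g1 := hI.psi
    rw [Finset.sum_Ico_succ_top hk0]
    unfold Psi at g1 ⊢
    simp only at g1 ⊢
    linarith

end Pool.Agent.LibMoser5
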