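import Pool.Agent.LibMoser5.Defs
set_option autoImplicit false
namespace Pool.Agent.LibMoser5
open Classical

theorem sd_sq_le {x : ℕ} (hx : 1 ≤ x) : sd x ^ 2 ≤ 1 / (x : ℝ) - 1 / ((x : ℝ) + 1) := by
  have h : (1 : ℝ) ≤ x := by exact_mod_cast hx
  unfold sd
  rw [div_sub_div _ _ (by positivity) (by positivity), div_pow,
    div_le_div_iff₀ (by positivity) (by positivity)]
  nlinarith

theorem sd_sq_ge (x : ℕ) : 1 / ((x : ℝ) + 1 / 2) - 1 / ((x : ℝ) + 1 + 1 / 2) ≤ sd x ^ 2 := by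
  have h : (0 : ℝ) ≤ x := Nat.cast_nonneg x
  unfold sd
  rw [div_sub_div _ _ (by positivity) (by positivity), div_pow,
    div_le_div_iff₀ (by positivity) (by positivity)]
  nlinarith

theorem tail_partial_le {M : ℕ} (hM : 1 ≤ M) (N : ℕ) :
    ∑ i ∈ Finset.range N, sd (M + i) ^ 2 ≤ 1 / (M : ℝ) - 1 / ((M : ℝ) + N) := by
  induction N with
  | zero => simp
  | succ N ih =>
    rw [Finset.sum_range_succ]
    have h := sd_sq_le (x := M + N) (by omega)
    push_cast at h ⊢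
    have e : (M : ℝ) + (N + 1) = M + N + 1 := by ring
    rw [e]
    linarith

theorem tail_partial_ge (M N : ℕ) :
    1 / ((M : ℝ) + 1 / 2) - 1 / ((M : ℝ) + N + 1 / 2) ≤ ∑ i ∈ Finset.range N, sd (M + i) ^ 2 := by
  induction N with
  | zero => simp
  | succ N ih =>
    rw [Finset.sum_range_succ]
    have h := sd_sq_ge (M + N)
    push_cast at h ⊢
    have e : (M : ℝ) + (N + 1) + 1 / 2 = M + N + 1 + 1 / 2 := by ring
    rw [e]
    linarith

theorem tail_partial_le' {M : ℕ} (hM : 1 ≤ M) (N : ℕ) :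
    ∑ i ∈ Finset.range N, sd (M + i) ^ 2 ≤ 1 / (M : ℝ) := by
  have h := tail_partial_le hM N
  have h2 : (0 : ℝ) ≤ 1 / ((M : ℝ) + N) := by positivity
  linarith

/-- `1/(M+1/2) ≤ ∑_{n ≥ M} sd n ^ 2 ≤ 1/M`:
`1/((n+1/2)(n+3/2)) ≤ sd n ^ 2 ≤ 1/(n(n+1))`, telescoping -/
theorem sd_summable : Summable (fun n : ℕ => sd n ^ 2) := by
  have h1 : Summable (fun n : ℕ => sd (1 + n) ^ 2) :=
    summable_of_sum_range_le (fun n => sq_nonneg _) (tail_partial_le' le_rfl)
  have h2 : Summable (fun n : ℕ => sd (n + 1) ^ 2) := by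
    refine h1.congr fun n => ?_
    rw [add_comm]
  exact (summable_nat_add_iff 1).1 h2

theorem sd_summable_shift (M : ℕ) : Summable (fun n : ℕ => sd (M + n) ^ 2) := by
  have h := (summable_nat_add_iff M).2 sd_summable
  refine h.congr fun n => ?_
  rw [add_comm]

theorem tail_le {M : ℕ} (hM : 1 ≤ M) : ∑' n : ℕ, sd (M + n) ^ 2 ≤ 1 / (M : ℝ) :=
  (sd_summable_shift M).tsum_le_of_sum_range_le (tail_partial_le' hM)

theorem tail_ge (M : ℕ) : 1 / ((M : ℝ) + 1 / 2) ≤ ∑' n : ℕ, sd (M + n) ^ 2 := by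
  have ht := (sd_summable_shift M).hasSum.tendsto_sum_nat
  have hl : Filter.Tendsto (fun N : ℕ => 1 / ((M : ℝ) + 1 / 2) - 1 / ((M : ℝ) + N + 1 / 2))
      Filter.atTop (nhds (1 / ((M : ℝ) + 1 / 2) - 0)) := by
    refine tendsto_const_nhds.sub ?_
    simp only [one_div]
    refine Filter.Tendsto.comp tendsto_inv_atTop_zero ?_
    refine Filter.tendsto_atTop_add_const_right _ _ ?_
    exact Filter.tendsto_atTop_add_const_left _ _ tendsto_natCast_atTop_atTop
  rw [sub_zero] at hl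
  exact le_of_tendsto_of_tendsto' hl ht (tail_partial_ge M)

end Pool.Agent.LibMoser5
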